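import Pool.Agent.MP_5168f5_an.H83.Basic

/-! The area formula with multiplicity for a rational map. -/

namespace Pool.Agent.MP_5168f5_an.H83

open MeasureTheory Metric Finset Matrix H19 H29 H42
open scoped ENNReal

namespace AREA

variable {m : ℕ}

/-- Too many polynomial functions of bounded degree are dependent. -/
theorem dep {ι : Type} [Fintype ι] {e : ℕ} {f : ι → V m → ℝ} (h : ∀ a, IsPoly e (f a))
    (hc : (e + 1) ^ m < Fintype.card ι) : ∃ c : ι → ℝ, c ≠ 0 ∧ ∀ y, ∑ a, c a * f a y = 0 := by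
  classical
  choose P h1 h2 using h
  let A : Matrix (Fin m → Fin (e + 1)) ι ℝ := fun b a =>
    (P a).coeff (Finsupp.equivFunOnFinite.symm fun i => (b i : ℕ))
  have h3 : LinearMap.ker A.mulVecLin ≠ ⊥ := LinearMap.ker_ne_bot_of_finrank_lt (by simpa using hc)
  obtain ⟨c, h4, h5⟩ := (Submodule.ne_bot_iff _).1 h3
  refine ⟨c, h5, fun y => ?_⟩
  have h6 : ∑ a, MvPolynomial.C (c a) * P a = 0 := by
    ext s
    rw [MvPolynomial.coeff_sum, MvPolynomial.coeff_zero]
    simp only [MvPolynomial.coeff_C_mul]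
    by_cases hs : ∀ i, s i < e + 1
    · have h7 := congrFun (LinearMap.mem_ker.1 h4) fun i => ⟨s i, hs i⟩
      have h8 : (Finsupp.equivFunOnFinite.symm fun i => s i) = s := by ext i; simp
      simpa [A, Matrix.mulVec, dotProduct, h8, mul_comm] using h7
    · push Not at hs
      obtain ⟨i, hi⟩ := hs
      refine Finset.sum_eq_zero fun a _ => ?_
      by_contra h7
      have h8 := MvPolynomial.le_totalDegree (MvPolynomial.mem_support_iff.2 (right_ne_zero_of_mul h7))
      have h9 := Finsupp.le_degree i s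
      have h10 : (s.sum fun _ e => e) = Finsupp.degree s := rfl
      have := h1 a
      omega
  have h7 := congrArg (MvPolynomial.eval y) h6
  simpa [h2] using h7

/-- Distinct monomials are independent. -/
theorem indep {r : ℕ} {c : (Fin m → Fin r) → ℝ} {a₀ : Fin m → Fin r} (h : c a₀ ≠ 0) :
    ∃ y : V m, ∑ a, c a * ∏ i, y i ^ (a i : ℕ) ≠ 0 := by
  classical
  have h1 : (∑ a : Fin m → Fin r, MvPolynomial.monomial
      (Finsupp.equivFunOnFinite.symm fun i => (a i : ℕ)) (c a)) ≠ 0 := by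
    intro h2
    have h3 := congrArg (MvPolynomial.coeff (Finsupp.equivFunOnFinite.symm fun i => (a₀ i : ℕ))) h2
    rw [MvPolynomial.coeff_sum, Finset.sum_eq_single a₀] at h3
    · exact h (by simpa using h3)
    · intro b _ hb
      rw [MvPolynomial.coeff_monomial, if_neg]
      intro h4
      exact hb (funext fun i => Fin.ext (congrFun (Finsupp.equivFunOnFinite.symm.injective h4) i))
    · simp
  obtain ⟨y, hy⟩ := IsPoly.eval_ne_zero h1
  refine ⟨y, fun h2 => hy ?_⟩
  rw [map_sum, ← h2]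
  refine Finset.sum_congr rfl fun a _ => ?_
  rw [MvPolynomial.eval_monomial, Finsupp.prod_fintype _ _ fun _ => pow_zero _]
  simp

/-- One coordinate takes few values on almost every fibre. -/
theorem coord {d : ℕ} {N : Fin m → V m → ℝ} {B : V m → ℝ} (hN : ∀ k, IsPoly d (N k))
    (hB : IsPoly d B) (k : Fin m) : ∀ᵐ y : V m, ∃ R : Finset ℝ, R.card ≤ (m * d + 1) ^ m ∧
      ∀ x, B x ≠ 0 → (fun k => N k x / B x) = y → x k ∈ R := by
  classical
  set r := (m * d + 1) ^ m with hr
  have h1 : ∀ a : Fin (r + 1) × (Fin m → Fin (r + 1)), IsPoly (m * (r * d) + r) fun x : V m =>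
      (∏ i, N i x ^ (a.2 i : ℕ) * B x ^ (r - a.2 i)) * x k ^ (a.1 : ℕ) := by
    intro a
    have h2 := IsPoly.prod Finset.univ (d := fun _ : Fin m => r * d)
      (f := fun i x => N i x ^ (a.2 i : ℕ) * B x ^ (r - a.2 i)) fun i _ =>
        (((hN i).pow (a.2 i)).mul (hB.pow (r - a.2 i))).mono (by
          rw [← add_mul, Nat.add_sub_cancel' (Nat.lt_succ_iff.1 (a.2 i).2)])
    refine (h2.mul ((IsPoly.coord k).pow a.1)).mono ?_
    have := a.1.2
    simp only [Finset.sum_const, Finset.card_univ, Fintype.card_fin, smul_eq_mul]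
    omega
  obtain ⟨c, h2, h3⟩ := dep h1 (by
    have h4 : m * (r * d) + r + 1 ≤ (m * d + 1) * (r + 1) := by nlinarith [Nat.zero_le (m * d)]
    refine (Nat.pow_le_pow_left h4 m).trans_lt ?_
    rw [mul_pow, ← hr]
    simp only [Fintype.card_prod, Fintype.card_fin, Fintype.card_fun]
    exact Nat.mul_lt_mul_of_pos_right (Nat.lt_succ_self r) (by positivity))
  obtain ⟨⟨j₀, a₀⟩, h4⟩ := Function.ne_iff.1 h2
  have h5 : IsPoly (m * (r * 1)) fun y : V m => ∑ a, c (j₀, a) * ∏ i, y i ^ (a i : ℕ) := by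
    refine IsPoly.sum _ fun a _ => IsPoly.const_mul ?_ _
    have h6 := IsPoly.prod Finset.univ (d := fun _ : Fin m => r * 1)
      (f := fun i (y : V m) => y i ^ (a i : ℕ)) fun i _ =>
        ((IsPoly.coord i).pow (a i)).mono (by have := (a i).2; omega)
    simpa using h6
  filter_upwards [ae_ne_zero h5 (indep (c := fun a => c (j₀, a)) h4)] with y hy
  let q : Polynomial ℝ := ∑ j : Fin (r + 1),
    Polynomial.monomial j (∑ a, c (j, a) * ∏ i, y i ^ (a i : ℕ))
  have h6 : q ≠ 0 := by
    intro h7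
    have h8 := congrArg (fun p => Polynomial.coeff p j₀) h7
    simp only [q, Polynomial.finsetSum_coeff, Polynomial.coeff_zero] at h8
    rw [Finset.sum_eq_single j₀] at h8
    · exact hy (by simpa using h8)
    · intro b _ hb
      rw [Polynomial.coeff_monomial, if_neg fun h9 => hb (Fin.ext h9)]
    · simp
  have h7 : q.natDegree ≤ r := Polynomial.natDegree_sum_le_of_forall_le _ _ fun j _ =>
    (Polynomial.natDegree_monomial_le _).trans (Nat.lt_succ_iff.1 j.2)
  refine ⟨q.roots.toFinset, (Multiset.toFinset_card_le _).trans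
    ((Polynomial.card_roots' q).trans h7), fun x hx e => ?_⟩
  rw [Multiset.mem_toFinset, Polynomial.mem_roots h6, Polynomial.IsRoot.def]
  refine (mul_eq_zero.1 ?_).resolve_left (pow_ne_zero m (pow_ne_zero r hx))
  rw [← h3 x, Fintype.sum_prod_type]
  simp only [q, Polynomial.eval_finsetSum, Polynomial.eval_monomial, Finset.mul_sum, Finset.sum_mul]
  refine Finset.sum_congr rfl fun j _ => Finset.sum_congr rfl fun a _ => ?_
  have h8 : ∏ i, N i x ^ (a i : ℕ) * B x ^ (r - a i) = ∏ i, B x ^ r * y i ^ (a i : ℕ) := by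
    refine Finset.prod_congr rfl fun i _ => ?_
    have h9 : N i x = y i * B x := by rw [← e, div_mul_cancel₀ _ hx]
    rw [h9, mul_pow, mul_assoc, ← pow_add, Nat.add_sub_cancel' (Nat.lt_succ_iff.1 (a i).2), mul_comm]
  rw [h8, Finset.prod_mul_distrib, Finset.prod_const, Finset.card_univ, Fintype.card_fin]
  ring

/-- Decomposition into pieces of injectivity. -/
theorem pieces {φ : V m → V m} {D : V m → V m →L[ℝ] V m} {A : Set (V m)} (hA : MeasurableSet A)
    (hφ : ∀ x ∈ A, HasFDerivAt φ (D x) x ∧ (D x).det ≠ 0) :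
    ∃ t : ℕ → Set (V m), Pairwise (Function.onFun Disjoint t) ∧ (∀ n, MeasurableSet (t n)) ∧
      A = ⋃ n, t n ∧ ∀ n, Set.InjOn φ (t n) := by
  classical
  obtain ⟨t, L, h1, h2, h3, h4, h5⟩ := exists_partition_approximatesLinearOn_of_hasFDerivWithinAt φ A D
    (fun x hx => (hφ x hx).1.hasFDerivWithinAt) (fun L => if h : L.det ≠ 0 then
      (‖((L.toContinuousLinearEquivOfDetNeZero h).symm : V m →L[ℝ] V m)‖₊ + 1)⁻¹ else 1)
    (fun L => by split_ifs <;> simp)
  refine ⟨fun n => A ∩ t n, fun i j hij => (h1 hij).mono Set.inter_subset_right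
    Set.inter_subset_right, fun n => hA.inter (h2 n),
    by rw [← Set.inter_iUnion, Set.inter_eq_left.2 h3], fun n => ?_⟩
  rcases A.eq_empty_or_nonempty with rfl | hne
  · simp
  obtain ⟨y, hy, e⟩ := h5 hne n
  have h : (L n).det ≠ 0 := e ▸ (hφ y hy).2
  have := h4 n
  simp only [dif_pos h] at this
  refine ApproximatesLinearOn.injOn (f' := (L n).toContinuousLinearEquivOfDetNeZero h) this ?_
  refine ((L n).toContinuousLinearEquivOfDetNeZero h).subsingleton_or_nnnorm_symm_pos.imp_right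
    fun h' => ?_
  exact inv_strictAnti₀ h' (lt_add_one _)

/-- The area formula for maps with small fibres. -/
theorem bound {φ : V m → V m} {D : V m → V m →L[ℝ] V m} {s T : Set (V m)} {M : ℕ}
    (hs : MeasurableSet s) (hφ : ∀ x ∈ s, HasFDerivAt φ (D x) x ∧ φ x ∈ T)
    (hM : ∀ᵐ y, ∃ R : Finset (V m), R.card ≤ M ∧ ∀ x ∈ s, φ x = y → x ∈ R) :
    ∫⁻ x in s, ENNReal.ofReal |(D x).det| ≤ M * volume T := by
  have h0 : MeasurableSet {x | (fderiv ℝ φ x).det ≠ 0} :=
    ((ContinuousLinearMap.continuous_det.measurable.comp (measurable_fderiv ℝ φ))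
      (measurableSet_singleton 0)).compl
  obtain ⟨t, h1, h2, h3, h4⟩ := pieces (φ := φ) (D := D) (hs.inter h0) fun x hx =>
    ⟨(hφ x hx.1).1, (hφ x hx.1).1.fderiv ▸ hx.2⟩
  have hsub : ∀ n, t n ⊆ s := fun n x hx => (h3.ge (Set.mem_iUnion.2 ⟨n, hx⟩)).1
  have hw := fun n x (hx : x ∈ t n) => (hφ x (hsub n hx)).1.hasFDerivWithinAt (s := t n)
  have h5 : ∫⁻ x in s \ {x | (fderiv ℝ φ x).det ≠ 0}, ENNReal.ofReal |(D x).det| = 0 := by
    refine setLIntegral_eq_zero (hs.diff h0) fun x hx => ?_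
    have h6 := hx.2
    simp only [Set.mem_ofPred_eq, not_not, (hφ x hx.1).1.fderiv] at h6
    simp [h6]
  obtain ⟨Z, h6, h7, h8⟩ := exists_measurable_superset_of_null hM
  have h9 := Measure.sum_restrict_le (μ := volume) (M := M) (s := fun n => φ '' t n \ Z)
    (fun n => (measurable_image_of_fderivWithin (h2 n) (hw n) (h4 n)).diff h7) fun y => by
      by_cases hy : y ∈ Z
      · simp [hy]
      obtain ⟨R, k1, k2⟩ := not_not.1 fun h => hy (h6 h)
      choose! p hp using fun n (h : n ∈ {n | y ∈ φ '' t n \ Z}) => h.1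
      refine le_trans (Set.encard_le_encard_of_injOn (f := p) (t := (R : Set (V m)))
        (fun n hn => k2 _ (hsub n (hp n hn).1) (hp n hn).2) fun n hn n' hn' e => ?_) ?_
      · by_contra h
        exact Set.disjoint_left.1 (h1 h) (hp n hn).1 (e ▸ (hp n' hn').1)
      · rw [Set.encard_coe_eq_coe_finsetCard]
        exact_mod_cast k1
  have h10 := h9 Set.univ
  rw [Measure.sum_apply _ MeasurableSet.univ] at h10
  simp only [Measure.restrict_apply_univ, measure_sdiff_null h8, Measure.smul_apply,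
    nsmul_eq_mul] at h10
  rw [← lintegral_inter_add_sdiff _ s h0, h5, add_zero, h3, lintegral_iUnion h2 h1]
  simp only [fun n => lintegral_abs_det_fderiv_eq_addHaar_image volume (h2 n) (hw n) (h4 n)]
  refine h10.trans (mul_le_mul_right (measure_mono (Set.iUnion_subset fun n => ?_)) _)
  rintro _ ⟨⟨x, hx, rfl⟩, -⟩
  exact (hφ x (hsub n hx)).2

end AREA

theorem area : StmtAREA := by
  classical
  intro m d
  refine ⟨((m * d + 1) ^ m) ^ m, fun N B D s T hN hB hs _ h => ?_⟩
  refine AREA.bound hs (fun x hx => (h x hx).2) ?_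
  filter_upwards [ae_all_iff.2 (AREA.coord hN hB)] with y hy
  choose R h1 h2 using hy
  refine ⟨Fintype.piFinset R, ?_, fun x hx e => Fintype.mem_piFinset.2 fun k =>
    h2 k x (h x hx).1 e⟩
  rw [Fintype.card_piFinset]
  simpa using Finset.prod_le_pow_card Finset.univ (fun k => (R k).card) _ fun k _ => h1 k

end Pool.Agent.MP_5168f5_an.H83
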