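import Pool.Agent.MP_5168f5_an.H83.Basic

/-! Directions of lines through semialgebraic slices, by a barrier argument. -/

namespace Pool.Agent.MP_5168f5_an.H83

open MeasureTheory Metric Finset Matrix H19 H29 H42
open scoped ENNReal

namespace JL

variable {m k d : ℕ}

theorem mat_le (A W : Matrix (Fin m) (Fin m) ℝ) (t : Fin (m + 1) → ℝ) {τ : ℝ} (hτ : 0 < τ)
    (ht : ∀ i i', i ≠ i' → τ ≤ |t i - t i'|) :
    |A.det| ≤ 1 / τ ^ m * ∑ i, |(t i • A + W).det| := by
  set P := ((Polynomial.X : Polynomial ℝ) • A.map Polynomial.C + W.map Polynomial.C).det with hP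
  have h1 : P.natDegree ≤ m := by simpa using Polynomial.natDegree_det_X_add_C_le A W
  have h2 : P.coeff m = A.det := by simpa using Polynomial.coeff_det_X_add_C_card A W
  have h3 : ∀ s : ℝ, P.eval s = (s • A + W).det := fun s => by
    rw [hP, ← Polynomial.coe_evalRingHom, RingHom.map_det]
    refine congrArg _ (Matrix.ext fun i j => ?_)
    simp only [RingHom.mapMatrix_apply, Matrix.map_apply, Matrix.add_apply, Matrix.smul_apply,
      smul_eq_mul, Polynomial.coe_evalRingHom, Polynomial.eval_add, Polynomial.eval_mul,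
      Polynomial.eval_X, Polynomial.eval_C]
  have h4 : Set.InjOn t (univ : Finset (Fin (m + 1))) := fun i _ i' _ e => by
    by_contra h
    have := ht i i' h
    rw [e, sub_self, abs_zero] at this
    linarith
  have h5 := Lagrange.coeff_eq_sum h4 (P := P) (by
    rw [card_univ, Fintype.card_fin]
    exact Polynomial.degree_le_natDegree.trans_lt (by exact_mod_cast Nat.lt_succ_of_le h1))
  rw [card_univ, Fintype.card_fin, Nat.add_sub_cancel, h2] at h5
  rw [h5, mul_sum]
  refine (abs_sum_le_sum_abs _ _).trans (sum_le_sum fun i _ => ?_)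
  have h6 : τ ^ m ≤ |∏ j ∈ univ.erase i, (t i - t j)| := by
    rw [abs_prod]
    have := prod_le_prod (s := univ.erase i) (f := fun _ => τ) (g := fun j => |t i - t j|)
      (fun _ _ => hτ.le) fun j hj => ht i j (ne_of_mem_erase hj).symm
    simpa using this
  rw [abs_div, h3, one_div_mul_eq_div]
  exact div_le_div_of_nonneg_left (abs_nonneg _) (by positivity) h6

/-- The derivative of `v ↦ (w - s v, v)`. -/
noncomputable def sl (m : ℕ) (s : ℝ) : V m →L[ℝ] V m × V m :=
  (-s • ContinuousLinearMap.id ℝ (V m)).prod (ContinuousLinearMap.id ℝ (V m))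

theorem det_le (D : V m × V m →L[ℝ] V m) (t : Fin (m + 1) → ℝ) {τ : ℝ} (hτ : 0 < τ)
    (ht : ∀ i i', i ≠ i' → τ ≤ |t i - t i'|) :
    |(D.comp (ContinuousLinearMap.inl ℝ (V m) (V m))).det| ≤
      1 / τ ^ m * ∑ i, |(D.comp (sl m (t i))).det| := by
  have h := mat_le (LinearMap.toMatrix' (D.comp (ContinuousLinearMap.inl ℝ (V m) (V m))).toLinearMap)
    (LinearMap.toMatrix' (D.comp (ContinuousLinearMap.inr ℝ (V m) (V m))).toLinearMap)
    (fun i => -t i) hτ fun i i' h => by
      rw [neg_sub_neg, abs_sub_comm]; exact ht i i' h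
  rw [LinearMap.det_toMatrix'] at h
  refine h.trans_eq (congrArg _ (sum_congr rfl fun i _ => congrArg _ ?_))
  rw [← map_smul, ← map_add, LinearMap.det_toMatrix']
  refine congrArg _ (LinearMap.ext fun v => ?_)
  simp only [sl, LinearMap.add_apply, LinearMap.smul_apply, ContinuousLinearMap.coe_coe,
    ContinuousLinearMap.comp_apply, ContinuousLinearMap.inl_apply, ContinuousLinearMap.inr_apply,
    ContinuousLinearMap.prod_apply, _root_.smul_apply, ContinuousLinearMap.id_apply]
  rw [← map_smul, ← map_add]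
  simp

/-- The barrier as a function of all coordinates. -/
def bar (p : Fin (m + 1) → Fin k → V m → ℝ) (t : Fin (m + 1) → ℝ) (y : Fin m ⊕ Fin m → ℝ) : ℝ :=
  ∏ i, ∏ j, p i j fun l => y (.inl l) + t i * y (.inr l)

/-- Both vectors as one. -/
def emb (x : V m × V m) : Fin m ⊕ Fin m → ℝ := Sum.elim x.1 x.2

variable {p : Fin (m + 1) → Fin k → V m → ℝ} {t : Fin (m + 1) → ℝ}

theorem isPoly_bar (hp : ∀ i j, IsPoly d (p i j)) : IsPoly ((m + 1) * (k * d)) (bar p t) := by
  have h := IsPoly.prod (univ : Finset (Fin (m + 1))) (d := fun _ => k * d)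
    (f := fun i (y : Fin m ⊕ Fin m → ℝ) => ∏ j, p i j fun l => y (.inl l) + t i * y (.inr l))
    fun i _ => by
      have := IsPoly.prod (univ : Finset (Fin k)) (d := fun _ => d)
        (f := fun j (y : Fin m ⊕ Fin m → ℝ) => p i j fun l => y (.inl l) + t i * y (.inr l))
        fun j _ => (hp i j).comp_aff fun l => (IsPoly.coord _).add ((IsPoly.coord _).const_mul _)
      simpa using this
  rw [sum_const, card_univ, Fintype.card_fin, smul_eq_mul] at h
  exact h

theorem bar_emb (x : V m × V m) : bar p t (emb x) = ∏ i, ∏ j, p i j (x.1 + t i • x.2) := rfl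

theorem differentiable_emb : Differentiable ℝ (emb (m := m)) :=
  differentiable_pi.2 fun s => by
    rcases s with l | l
    · exact (by fun_prop : Differentiable ℝ fun x : V m × V m => x.1 l)
    · exact (by fun_prop : Differentiable ℝ fun x : V m × V m => x.2 l)

theorem isPoly_emb (w : V m) (s : ℝ) (i : Fin m ⊕ Fin m) :
    IsPoly 1 fun v : V m => emb (w - s • v, v) i := by
  rcases i with l | l
  · exact (IsPoly.const 1 (w l)).sub ((IsPoly.coord l).const_mul s)
  · exact IsPoly.coord l

/-- The numerator of the logarithmic derivative. -/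
noncomputable def num (p : Fin (m + 1) → Fin k → V m → ℝ) (t : Fin (m + 1) → ℝ) (l : Fin m)
    (y : Fin m ⊕ Fin m → ℝ) : ℝ := fderiv ℝ (bar p t) y (Pi.single (.inl l) 1)

/-- The logarithmic gradient. -/
noncomputable def psi (p : Fin (m + 1) → Fin k → V m → ℝ) (t : Fin (m + 1) → ℝ) (x : V m × V m) :
    V m := fun l => num p t l (emb x) / bar p t (emb x)

/-- The lines inside all slices. -/
def U (p : Fin (m + 1) → Fin k → V m → ℝ) (t : Fin (m + 1) → ℝ) : Set (V m × V m) :=
  {x | ∀ i j, 0 < p i j (x.1 + t i • x.2)}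

theorem isOpen_U (hp : ∀ i j, IsPoly d (p i j)) : IsOpen (U p t) := by
  simp only [U, Set.ofPred_forall]
  exact isOpen_iInter_of_finite fun i => isOpen_iInter_of_finite fun j =>
    isOpen_lt continuous_const ((hp i j).continuous.comp (by fun_prop))

theorem bar_pos {x : V m × V m} (hx : x ∈ U p t) : 0 < bar p t (emb x) :=
  prod_pos fun i _ => prod_pos fun j _ => hx i j

theorem differentiableAt_psi (hp : ∀ i j, IsPoly d (p i j)) {x : V m × V m} (hx : x ∈ U p t) :
    DifferentiableAt ℝ (psi p t) x :=
  differentiableAt_pi.2 fun l => by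
    have h1 : DifferentiableAt ℝ (fun x : V m × V m => num p t l (emb x)) x :=
      (((isPoly_bar hp).fderiv _).differentiable.comp differentiable_emb) x
    have h2 : DifferentiableAt ℝ (fun x : V m × V m => bar p t (emb x)) x :=
      ((isPoly_bar hp).differentiable.comp differentiable_emb) x
    simp only [psi, div_eq_mul_inv]
    exact h1.mul (h2.inv (bar_pos hx).ne')

theorem measurable_psi (hp : ∀ i j, IsPoly d (p i j)) : Measurable (psi p t) :=
  measurable_pi_lambda _ fun _ =>
    (((isPoly_bar hp).fderiv _).continuous.comp differentiable_emb.continuous).measurable.div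
      ((isPoly_bar hp).continuous.comp differentiable_emb.continuous).measurable

theorem onto (hp : ∀ i j, IsPoly d (p i j)) {R : ℝ} (hR : ∀ z, (∀ j, 0 < p 0 j z) → ‖z‖ ≤ R)
    {v a0 : V m} (h0 : (a0, v) ∈ U p t) (s : V m) : ∃ a, (a, v) ∈ U p t ∧ psi p t (a, v) = s := by
  set S : Set (V m) := {a | (a, v) ∈ U p t} with hS
  have hSo : IsOpen S := (isOpen_U hp).preimage (by fun_prop)
  have hb : Bornology.IsBounded S := (isBounded_closedBall (x := -(t 0 • v)) (r := R)).subset
    fun a ha => by
      rw [mem_closedBall_iff_norm, sub_neg_eq_add]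
      exact hR _ (ha 0)
  set f : V m → ℝ := fun a => bar p t (emb (a, v)) * Real.exp (-∑ l, s l * a l) with hf
  have hc : Continuous f :=
    ((isPoly_bar hp).continuous.comp (differentiable_emb.continuous.comp (by fun_prop))).mul
      (by fun_prop)
  obtain ⟨a, ha, hmax⟩ := hb.isCompact_closure.exists_isMaxOn ⟨a0, subset_closure h0⟩
    hc.continuousOn
  have h1 : 0 < f a := lt_of_lt_of_le (mul_pos (bar_pos h0) (Real.exp_pos _))
    (hmax (subset_closure h0))
  have h2 : bar p t (emb (a, v)) ≠ 0 := fun h => by simp [hf, h] at h1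
  have h3 : (a, v) ∈ U p t := fun i j => by
    have k1 : a ∈ {a : V m | 0 ≤ p i j (a + t i • v)} :=
      closure_minimal (fun b hb => (hb i j).le)
        (isClosed_le continuous_const ((hp i j).continuous.comp (by fun_prop))) ha
    refine lt_of_le_of_ne k1 fun h => h2 ?_
    rw [bar_emb]
    exact prod_eq_zero (mem_univ i) (prod_eq_zero (mem_univ j) h.symm)
  have h4 : IsLocalMax f a := hmax.isLocalMax
    (Filter.mem_of_superset (hSo.mem_nhds h3) subset_closure)
  refine ⟨a, h3, funext fun l => ?_⟩
  have h5 : IsLocalMax (f ∘ fun r : ℝ => a + r • (Pi.single l 1 : V m)) 0 :=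
    IsLocalMax.comp_continuous (by simpa using h4) (by fun_prop)
  have h6 : HasDerivAt (fun r : ℝ => bar p t (emb (a, v) + r • Pi.single (.inl l) 1))
      (num p t l (emb (a, v))) 0 := by
    have k1 : HasDerivAt (fun r : ℝ => emb (a, v) + r • (Pi.single (.inl l) 1 : Fin m ⊕ Fin m → ℝ))
        (Pi.single (.inl l) 1) 0 := by
      simpa using ((hasDerivAt_id (0 : ℝ)).smul_const
        (Pi.single (.inl l) 1 : Fin m ⊕ Fin m → ℝ)).const_add (emb (a, v))
    exact ((isPoly_bar hp).differentiable _).hasFDerivAt.comp_hasDerivAt_of_eq 0 k1 (by simp)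
  have h7 : HasDerivAt (fun r : ℝ => Real.exp (-∑ l, s l * a l - s l * r))
      (Real.exp (-∑ l, s l * a l) * (-s l)) 0 := by
    simpa using (((hasDerivAt_id (0 : ℝ)).const_mul (s l)).const_sub (-∑ l, s l * a l)).exp
  have h8 : (f ∘ fun r : ℝ => a + r • (Pi.single l 1 : V m)) = fun r : ℝ =>
      bar p t (emb (a, v) + r • Pi.single (.inl l) 1) * Real.exp (-∑ l, s l * a l - s l * r) := by
    funext r
    have k1 : emb (a + r • (Pi.single l 1 : V m), v) = emb (a, v) + r • Pi.single (.inl l) 1 := by
      funext i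
      rcases i with i | i <;> simp [emb, Pi.single_apply]
    have k2 : ∑ i, s i * (a + r • (Pi.single l 1 : V m)) i = ∑ i, s i * a i + s l * r := by
      simp [mul_add, sum_add_distrib, Pi.single_apply]
    simp only [Function.comp, hf, k1, k2]
    rw [neg_add, ← sub_eq_add_neg]
  rw [h8] at h5
  have h9 := h5.hasDerivAt_eq_zero (h6.mul h7)
  simp only [zero_smul, add_zero, mul_zero, sub_zero] at h9
  have h10 := Real.exp_pos (-∑ l, s l * a l)
  rw [psi, div_eq_iff h2]
  have : Real.exp (-∑ l, s l * a l) * (num p t l (emb (a, v)) - s l * bar p t (emb (a, v))) = 0 := by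
    linarith
  have := (mul_eq_zero.1 this).resolve_left h10.ne'
  linarith

end JL

open JL in
theorem jl : StmtAREA → StmtJL := by
  intro hA m d k
  obtain ⟨M, hM⟩ := hA m ((m + 1) * (k * d))
  refine ⟨M + 1, by positivity, fun p t τ R hp hτ ht hR => ?_⟩
  set Z : Set (V m × V m) := U p t ∩ psi p t ⁻¹' Set.Icc 0 1 with hZ
  have hZm : MeasurableSet Z :=
    (isOpen_U hp).measurableSet.inter (measurable_psi hp measurableSet_Icc)
  have hvol : volume (Set.Icc (0 : V m) 1) = 1 := by simp [Real.volume_Icc_pi]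
  set G : (V m →L[ℝ] V m × V m) → V m × V m → ℝ≥0∞ := fun L =>
    Z.indicator fun x => ENNReal.ofReal |((fderiv ℝ (psi p t) x).comp L).det| with hG
  have hGm : ∀ L, Measurable (G L) := fun L => by
    refine Measurable.indicator (ENNReal.measurable_ofReal.comp ?_) hZm
    have : Continuous fun D : V m × V m →L[ℝ] V m => |(D.comp L).det| :=
      (ContinuousLinearMap.continuous_det.comp (continuous_id.clm_comp continuous_const)).abs
    exact this.measurable.comp (measurable_fderiv ℝ _)
  have hO : ∀ i, MeasurableSet {z : V m | ∀ j, 0 < p i j z} := fun i => by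
    simp only [Set.ofPred_forall]
    exact MeasurableSet.iInter fun j => measurableSet_lt measurable_const (hp i j).measurable
  have h2 : ∀ v : V m, (∃ a : V m, ∀ i j, 0 < p i j (a + t i • v)) →
      1 ≤ ∫⁻ a, G (ContinuousLinearMap.inl ℝ (V m) (V m)) (a, v) := by
    rintro v ⟨a0, h0⟩
    have k1 : MeasurableSet ((fun a => (a, v)) ⁻¹' Z) := measurable_prodMk_right hZm
    have k2 := addHaar_image_le_lintegral_abs_det_fderiv volume (f := fun a => psi p t (a, v))
      (f' := fun a => (fderiv ℝ (psi p t) (a, v)).comp (ContinuousLinearMap.inl ℝ (V m) (V m)))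
      k1 fun a ha => (HasFDerivAt.comp (f := fun a : V m => (a, v)) a
        (differentiableAt_psi hp ha.1).hasFDerivAt
        (hasFDerivAt_prodMk_left (𝕜 := ℝ) a v)).hasFDerivWithinAt
    rw [← lintegral_indicator k1] at k2
    refine le_trans (hvol.symm.trans_le (measure_mono fun s hs => ?_)) k2
    obtain ⟨a, k3, k4⟩ := onto hp hR (a0 := a0) (v := v) h0 s
    exact ⟨a, ⟨k3, by rw [Set.mem_preimage, k4]; exact hs⟩, k4⟩
  have h3 : ∀ x, G (ContinuousLinearMap.inl ℝ (V m) (V m)) x ≤
      ENNReal.ofReal (1 / τ ^ m) * ∑ i, G (sl m (t i)) x := fun x => by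
    by_cases hx : x ∈ Z
    · simp only [hG, Set.indicator_of_mem hx]
      rw [← ENNReal.ofReal_sum_of_nonneg fun _ _ => abs_nonneg _,
        ← ENNReal.ofReal_mul (by positivity)]
      exact ENNReal.ofReal_le_ofReal (det_le _ t hτ ht)
    · simp [hG, Set.indicator_of_notMem hx]
  have h4 : ∀ i, ∫⁻ v, ∫⁻ a, G (sl m (t i)) (a, v) ≤ M * volume {z : V m | ∀ j, 0 < p i j z} := by
    intro i
    have k1 : ∀ v, ∫⁻ a, G (sl m (t i)) (a, v) = ∫⁻ w, G (sl m (t i)) (w - t i • v, v) :=
      fun v => (lintegral_sub_right_eq_self (fun a => G (sl m (t i)) (a, v)) (t i • v)).symm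
    simp only [k1]
    have k0 : Measurable fun x : V m × V m => (x.2 - t i • x.1, x.1) := by fun_prop
    rw [lintegral_lintegral_swap (f := fun v w => G (sl m (t i)) (w - t i • v, v))
      ((hGm _).comp k0).aemeasurable, ← lintegral_indicator_const (hO i)]
    refine lintegral_mono fun w => ?_
    by_cases hw : w ∈ {z : V m | ∀ j, 0 < p i j z}
    · rw [Set.indicator_of_mem hw]
      have k2 : MeasurableSet ((fun v : V m => (w - t i • v, v)) ⁻¹' Z) :=
        (by fun_prop : Measurable fun v : V m => (w - t i • v, v)) hZm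
      have k3 := hM (fun l v => num p t l (emb (w - t i • v, v)))
        (fun v => bar p t (emb (w - t i • v, v)))
        (fun v => (fderiv ℝ (psi p t) (w - t i • v, v)).comp (sl m (t i))) _ (Set.Icc 0 1)
        (fun l => ((isPoly_bar hp).fderiv _).comp_aff (isPoly_emb w (t i)))
        ((isPoly_bar hp).comp_aff (isPoly_emb w (t i))) k2 measurableSet_Icc fun v hv =>
          ⟨(bar_pos hv.1).ne', HasFDerivAt.comp (f := fun v : V m => (w - t i • v, v)) v
            (differentiableAt_psi hp hv.1).hasFDerivAt (by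
            have := (sl m (t i)).hasFDerivAt (x := v) |>.const_add (w, 0)
            refine this.congr_of_eventuallyEq (Filter.Eventually.of_forall fun u => ?_)
            simp [sl, sub_eq_add_neg]), hv.2⟩
      rw [← lintegral_indicator k2, hvol, mul_one] at k3
      exact k3
    · rw [Set.indicator_of_notMem hw]
      refine (lintegral_congr fun v => ?_).trans_le lintegral_zero.le
      refine Set.indicator_of_notMem (fun h => hw fun j => ?_) _
      simpa using h.1 i j
  have hD : MeasurableSet {v : V m | ∃ a : V m, ∀ i j, 0 < p i j (a + t i • v)} := by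
    have := isOpenMap_snd _ (isOpen_U (t := t) hp)
    refine (congrArg MeasurableSet (Set.ext fun v => ?_)).mp this.measurableSet
    simp [U]
  calc volume {v : V m | ∃ a : V m, ∀ i j, 0 < p i j (a + t i • v)}
      ≤ ∫⁻ v, ∫⁻ a, G (ContinuousLinearMap.inl ℝ (V m) (V m)) (a, v) := by
        rw [← lintegral_indicator_one hD]
        refine lintegral_mono fun v => Set.indicator_le (fun v hv => h2 v hv) v
    _ ≤ ∫⁻ v, ∫⁻ a, ENNReal.ofReal (1 / τ ^ m) * ∑ i, G (sl m (t i)) (a, v) :=
        lintegral_mono fun v => lintegral_mono fun a => h3 _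
    _ = ENNReal.ofReal (1 / τ ^ m) * ∑ i, ∫⁻ v, ∫⁻ a, G (sl m (t i)) (a, v) := by
        simp only [lintegral_const_mul' _ _ ENNReal.ofReal_ne_top]
        rw [← lintegral_finsetSum _ fun i _ => (hGm _).lintegral_prod_left']
        refine congrArg _ (lintegral_congr fun v => ?_)
        exact lintegral_finsetSum _ fun i _ => (hGm _).comp measurable_prodMk_right
    _ ≤ ENNReal.ofReal (1 / τ ^ m) * ∑ i, M * volume {z : V m | ∀ j, 0 < p i j z} := by
        gcongr with i
        exact h4 i
    _ ≤ _ := by
        rw [← mul_sum, ← mul_assoc, ← ENNReal.ofReal_natCast M,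
          ← ENNReal.ofReal_mul (by positivity)]
        gcongr
        rw [one_div_mul_eq_div]
        gcongr
        linarith

end Pool.Agent.MP_5168f5_an.H83
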