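import Pool.Agent.MP_5168f5_an.H83.Spec

/-! Basic facts on polynomial functions, points and sign changes. -/

namespace Pool.Agent.MP_5168f5_an.H83

open MeasureTheory Metric Finset Matrix H19 H29 H42
open scoped ENNReal

namespace IsPoly

variable {σ τ : Type} {d e : ℕ} {F G : (σ → ℝ) → ℝ}

theorem mono (h : IsPoly d F) (hd : d ≤ e) : IsPoly e F := by
  obtain ⟨p, h1, h2⟩ := h
  exact ⟨p, h1.trans hd, h2⟩

theorem congr (h : IsPoly d F) (e : ∀ y, G y = F y) : IsPoly d G := by
  obtain ⟨p, h1, h2⟩ := h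
  exact ⟨p, h1, fun y => (e y).trans (h2 y)⟩

theorem const (d : ℕ) (c : ℝ) : IsPoly d fun _ : σ → ℝ => c :=
  ⟨MvPolynomial.C c, by simp, fun y => by simp⟩

theorem coord (i : σ) : IsPoly 1 fun y : σ → ℝ => y i :=
  ⟨MvPolynomial.X i, by simp, fun y => by simp⟩

theorem add (h : IsPoly d F) (h' : IsPoly d G) : IsPoly d fun y => F y + G y := by
  obtain ⟨p, h1, h2⟩ := h
  obtain ⟨q, h3, h4⟩ := h'
  exact ⟨p + q, (MvPolynomial.totalDegree_add p q).trans (max_le h1 h3), fun y => by
    simp [h2, h4]⟩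

theorem mul (h : IsPoly d F) (h' : IsPoly e G) : IsPoly (d + e) fun y => F y * G y := by
  obtain ⟨p, h1, h2⟩ := h
  obtain ⟨q, h3, h4⟩ := h'
  exact ⟨p * q, (MvPolynomial.totalDegree_mul p q).trans (add_le_add h1 h3), fun y => by
    simp [h2, h4]⟩

theorem const_mul (h : IsPoly d F) (c : ℝ) : IsPoly d fun y => c * F y :=
  ((const 0 c).mul h).mono (by omega)

theorem mul_const (h : IsPoly d F) (c : ℝ) : IsPoly d fun y => F y * c :=
  (h.mul (const 0 c)).mono (by omega)

theorem neg (h : IsPoly d F) : IsPoly d fun y => -F y :=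
  (h.const_mul (-1)).congr fun y => by ring

theorem sub (h : IsPoly d F) (h' : IsPoly d G) : IsPoly d fun y => F y - G y :=
  (h.add h'.neg).congr fun y => by ring

theorem sum {ι : Type} (s : Finset ι) {f : ι → (σ → ℝ) → ℝ} (h : ∀ i ∈ s, IsPoly d (f i)) :
    IsPoly d fun y => ∑ i ∈ s, f i y := by
  classical
  induction s using Finset.induction_on with
  | empty => simpa using const d 0
  | insert a s ha ih =>
    exact ((h a (Finset.mem_insert_self _ _)).add
      (ih fun i hi => h i (Finset.mem_insert_of_mem hi))).congr fun y => Finset.sum_insert ha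

theorem prod {ι : Type} (s : Finset ι) {f : ι → (σ → ℝ) → ℝ} {d : ι → ℕ}
    (h : ∀ i ∈ s, IsPoly (d i) (f i)) : IsPoly (∑ i ∈ s, d i) fun y => ∏ i ∈ s, f i y := by
  classical
  induction s using Finset.induction_on with
  | empty => simpa using const 0 1
  | insert a s ha ih =>
    rw [Finset.sum_insert ha]
    exact ((h a (Finset.mem_insert_self _ _)).mul
      (ih fun i hi => h i (Finset.mem_insert_of_mem hi))).congr fun y => Finset.prod_insert ha

theorem pow (h : IsPoly d F) (k : ℕ) : IsPoly (k * d) fun y => F y ^ k := by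
  have := prod (Finset.range k) (f := fun _ => F) (d := fun _ => d) fun _ _ => h
  simpa using this

/-- Substitution of polynomial functions of degree at most `e`. -/
theorem comp (h : IsPoly d F) {φ : (τ → ℝ) → σ → ℝ} (hφ : ∀ i, IsPoly e fun y => φ y i) :
    IsPoly (d * e) fun y => F (φ y) := by
  obtain ⟨p, h1, h2⟩ := h
  have h3 : IsPoly (d * e) fun y => ∑ s ∈ p.support, p.coeff s * ∏ i ∈ s.support, φ y i ^ s i := by
    refine sum _ fun s hs => const_mul ?_ _
    refine (prod s.support (d := fun i => s i * e) fun i _ => (hφ i).pow (s i)).mono ?_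
    rw [← Finset.sum_mul]
    exact Nat.mul_le_mul_right _ ((MvPolynomial.le_totalDegree hs).trans h1)
  exact h3.congr fun y => by rw [h2, MvPolynomial.eval_eq]

/-- Affine substitution. -/
theorem comp_aff (h : IsPoly d F) {φ : (τ → ℝ) → σ → ℝ} (hφ : ∀ i, IsPoly 1 fun y => φ y i) :
    IsPoly d fun y => F (φ y) := by
  simpa using h.comp hφ

theorem shift (h : IsPoly d F) (w : σ → ℝ) : IsPoly d fun y => F (y + w) :=
  h.comp_aff fun i => (coord i).add (const 1 (w i))

theorem continuous (h : IsPoly d F) : Continuous F := by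
  obtain ⟨p, -, h2⟩ := h
  rw [funext h2]
  exact MvPolynomial.continuous_eval p

theorem measurable [Fintype σ] (h : IsPoly d F) : Measurable F := h.continuous.measurable

theorem contDiff [Fintype σ] (h : IsPoly d F) : ContDiff ℝ ⊤ F := by
  obtain ⟨p, -, h2⟩ := h
  rw [funext h2]
  exact (AnalyticOnNhd.eval_mvPolynomial p).contDiff

theorem differentiable [Fintype σ] (h : IsPoly d F) : Differentiable ℝ F :=
  h.contDiff.differentiable (by simp)

/-- Restriction to a line. -/
theorem line (h : IsPoly d F) (y u : σ → ℝ) :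
    ∃ q : Polynomial ℝ, q.natDegree ≤ d ∧ ∀ t : ℝ, F (y + t • u) = q.eval t := by
  obtain ⟨p, h1, h2⟩ := h
  refine ⟨∑ s ∈ p.support, Polynomial.C (p.coeff s) *
    ∏ i ∈ s.support, (Polynomial.C (y i) + Polynomial.C (u i) * Polynomial.X) ^ s i, ?_, ?_⟩
  · refine Polynomial.natDegree_sum_le_of_forall_le _ _ fun s hs => ?_
    refine (Polynomial.natDegree_C_mul_le _ _).trans ((Polynomial.natDegree_prod_le _ _).trans ?_)
    refine le_trans (Finset.sum_le_sum fun i _ => ?_) ((MvPolynomial.le_totalDegree hs).trans h1)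
    refine Polynomial.natDegree_pow_le.trans ?_
    have : (Polynomial.C (y i) + Polynomial.C (u i) * Polynomial.X).natDegree ≤ 1 := by
      compute_degree
    simpa using Nat.mul_le_mul_left (s i) this
  · intro t
    rw [h2, MvPolynomial.eval_eq]
    simp only [Polynomial.eval_finsetSum, Polynomial.eval_prod, Polynomial.eval_mul,
      Polynomial.eval_C, Polynomial.eval_pow, Polynomial.eval_add, Polynomial.eval_X, Pi.add_apply,
      Pi.smul_apply, smul_eq_mul, mul_comm t]

theorem hasFDerivAt_eval [Fintype σ] (p : MvPolynomial σ ℝ) (y : σ → ℝ) :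
    HasFDerivAt (fun y => MvPolynomial.eval y p)
      (∑ i, MvPolynomial.eval y (MvPolynomial.pderiv i p) • ContinuousLinearMap.proj i :
        (σ → ℝ) →L[ℝ] ℝ) y := by
  classical
  induction p using MvPolynomial.induction_on with
  | C a => simpa using hasFDerivAt_const a y
  | add p q hp hq =>
    simp only [map_add, add_smul, Finset.sum_add_distrib]
    exact hp.add hq
  | mul_X p i hp =>
    have h1 := hp.mul (hasFDerivAt_apply (𝕜 := ℝ) i y)
    simp only [map_mul, MvPolynomial.eval_X]
    refine h1.congr_fderiv ?_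
    ext v
    simp [Pi.single_apply, mul_add, Finset.sum_add_distrib, Finset.mul_sum, mul_comm, mul_left_comm,
      apply_ite]

theorem totalDegree_pderiv_le (p : MvPolynomial σ ℝ) (i : σ) :
    (MvPolynomial.pderiv i p).totalDegree ≤ p.totalDegree := by
  classical
  conv_lhs => rw [p.as_sum, map_sum]
  refine MvPolynomial.totalDegree_finsetSum_le fun s hs => ?_
  rw [MvPolynomial.pderiv_monomial]
  refine (MvPolynomial.totalDegree_monomial_le _ _).trans
    (le_trans ?_ (MvPolynomial.le_totalDegree hs))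
  rw [Finsupp.sum_of_support_subset _ (Finsupp.support_tsub) _ (fun _ _ => rfl)]
  exact Finset.sum_le_sum fun j _ => by simp

/-- Directional derivatives of a polynomial function are polynomial functions. -/
theorem fderiv [Fintype σ] (h : IsPoly d F) (w : σ → ℝ) : IsPoly d fun y => fderiv ℝ F y w := by
  obtain ⟨p, h1, h2⟩ := h
  have h3 : IsPoly d fun y => ∑ i, MvPolynomial.eval y (MvPolynomial.pderiv i p) * w i := by
    exact sum _ fun i _ => mul_const ⟨_, (totalDegree_pderiv_le p i).trans h1, fun _ => rfl⟩ _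
  refine h3.congr fun y => ?_
  rw [funext h2, (hasFDerivAt_eval p y).fderiv]
  simp

/-- A nonzero coefficient gives a nonzero function. -/
theorem eval_ne_zero {p : MvPolynomial σ ℝ} (hp : p ≠ 0) : ∃ y, MvPolynomial.eval y p ≠ 0 := by
  by_contra h
  push Not at h
  exact hp (MvPolynomial.funext fun y => by simpa using h y)

end IsPoly

variable {m n : ℕ}

@[simp] theorem pt_zero (t : ℝ) (z : V m) : pt t z 0 = t := rfl

@[simp] theorem pt_succ (t : ℝ) (z : V m) (k : Fin m) : pt t z k.succ = z k := rfl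

theorem pt_add (t t' : ℝ) (z z' : V m) : pt t z + pt t' z' = pt (t + t') (z + z') := by
  funext i; refine Fin.cases rfl (fun k => rfl) i

theorem pt_sub (t t' : ℝ) (z z' : V m) : pt t z - pt t' z' = pt (t - t') (z - z') := by
  funext i; refine Fin.cases rfl (fun k => rfl) i

theorem smul_pt (c t : ℝ) (z : V m) : c • pt t z = pt (c * t) (c • z) := by
  funext i; refine Fin.cases rfl (fun k => rfl) i

theorem norm_pt_le {t R : ℝ} {z : V m} (ht : |t| ≤ R) (hz : ∀ k, |z k| ≤ R) : ‖pt t z‖ ≤ R :=
  (pi_norm_le_iff_of_nonneg ((abs_nonneg _).trans ht)).2 fun i => Fin.cases ht (fun k => hz k) i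

theorem pt_pos (g : Line m) (t : ℝ) : pt t (pos g t) = pt 0 g.1 + t • dv g := by
  funext i
  refine Fin.cases ?_ (fun k => ?_) i
  · simp [dv]
  · simp [dv, pos]

theorem norm_dv_le {g : Line m} (h : ∀ k, |g.2 k| ≤ 1) : ‖dv g‖ ≤ 1 :=
  norm_pt_le (by simp) h

/-- A line is close to the corner of its cell. -/
theorem dist_cor {g : Line m} {x : Pt m} (h : cell g x.2 = x.1) :
    ‖pt x.2 (pos g x.2) - cor x‖ ≤ 1 := by
  unfold cor
  rw [pt_sub]
  refine norm_pt_le (by simp) fun k => ?_
  rw [← h]
  exact pos_sub_cell g x.2 k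

theorem isPoly_pt (t : ℝ) (i : Fin (m + 1)) : IsPoly 1 fun z : V m => pt t z i :=
  Fin.cases (IsPoly.const 1 t) (fun k => IsPoly.coord k) i

theorem continuous_pt : Continuous fun p : ℝ × V m => pt p.1 p.2 :=
  continuous_pi fun i => Fin.cases continuous_fst
    (fun k => (continuous_apply k).comp continuous_snd) i

/-- The zero set of a nonzero polynomial function is null. -/
theorem null_zero {d : ℕ} {F : V n → ℝ} (h : IsPoly d F) (h0 : ∃ y, F y ≠ 0) :
    volume {y | F y = 0} = 0 := by
  induction n with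
  | zero =>
    obtain ⟨y, hy⟩ := h0
    have : {y | F y = 0} = ∅ := by
      ext z
      simpa [Subsingleton.elim z y] using hy
    rw [this, measure_empty]
  | succ n ih =>
    obtain ⟨y, hy⟩ := h0
    have h1 : IsPoly d fun z : V n => F (pt (y 0) z) := h.comp_aff (isPoly_pt _)
    have h2 := ih h1 ⟨Fin.tail y, by simpa [pt] using hy⟩
    have hm : MeasurableSet {p : ℝ × V n | F (pt p.1 p.2) = 0} :=
      (isClosed_eq (h.continuous.comp continuous_pt) continuous_const).measurableSet
    have h3 : ((volume : Measure ℝ).prod (volume : Measure (V n)))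
        {p : ℝ × V n | F (pt p.1 p.2) = 0} = 0 := by
      rw [Measure.prod_apply_symm hm, lintegral_eq_zero_iff (measurable_measure_prodMk_right hm)]
      filter_upwards [measure_eq_zero_iff_ae_notMem.1 h2] with z hz
      obtain ⟨q, -, hq⟩ := h.line (pt 0 z) (pt 1 0)
      have h4 : ∀ t, F (pt t z) = q.eval t := fun t => by
        rw [← hq, smul_pt, pt_add]; simp
      have h5 : q ≠ 0 := by
        rintro rfl
        exact hz (by simpa using h4 (y 0))
      refine Set.Finite.measure_zero ((Polynomial.finite_setOfPred_isRoot h5).subset ?_) _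
      intro t ht
      simpa [h4] using ht
    have h4 := (volume_preserving_piFinSuccAbove (fun _ : Fin (n + 1) => ℝ) 0).measure_preimage
      hm.nullMeasurableSet
    rw [← h3, ← Measure.volume_eq_prod, ← h4]
    congr 1
    ext z
    simp [pt, MeasurableEquiv.piFinSuccAbove_apply]

theorem ae_ne_zero {d : ℕ} {F : V n → ℝ} (h : IsPoly d F) (h0 : ∃ y, F y ≠ 0) :
    ∀ᵐ y, F y ≠ 0 := measure_eq_zero_iff_ae_notMem.1 (null_zero h h0)

theorem sign_ne_iff (a b : ℝ) : SignType.sign a ≠ SignType.sign b ↔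
    ¬((0 < a ∧ 0 < b) ∨ (a = 0 ∧ b = 0) ∨ (a < 0 ∧ b < 0)) := by
  rw [not_iff_not]
  constructor
  · intro h
    rcases lt_trichotomy a 0 with h1 | h1 | h1
    · exact Or.inr (Or.inr ⟨h1, sign_eq_neg_one_iff.1 (h ▸ sign_neg h1)⟩)
    · exact Or.inr (Or.inl ⟨h1, sign_eq_zero_iff.1 (h ▸ sign_eq_zero_iff.2 h1)⟩)
    · exact Or.inl ⟨h1, sign_eq_one_iff.1 (h ▸ sign_pos h1)⟩
  · rintro (⟨h1, h2⟩ | ⟨h1, h2⟩ | ⟨h1, h2⟩)
    · rw [sign_pos h1, sign_pos h2]
    · rw [h1, h2]
    · rw [sign_neg h1, sign_neg h2]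

theorem measurableSet_sign_ne {α : Type} [MeasurableSpace α] {f g : α → ℝ} (hf : Measurable f)
    (hg : Measurable g) : MeasurableSet {x | SignType.sign (f x) ≠ SignType.sign (g x)} := by
  simp only [sign_ne_iff]
  exact (((measurableSet_lt measurable_const hf).inter (measurableSet_lt measurable_const hg)).union
    (((measurableSet_eq_fun hf measurable_const).inter
      (measurableSet_eq_fun hg measurable_const)).union
      ((measurableSet_lt hf measurable_const).inter (measurableSet_lt hg measurable_const)))).compl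

theorem measurableSet_chg {F : V n → ℝ} (hF : Measurable F) (w : V n) :
    MeasurableSet (chg F w) :=
  measurableSet_sign_ne (hF.comp (measurable_add_const w)) hF

theorem mem_chg_of {F : V n → ℝ} {y w : V n} (h : F y < 0) (h' : 0 < F (y + w)) : y ∈ chg F w := by
  simp [chg, sign_neg h, sign_pos h']

theorem mem_chg_of' {F : V n → ℝ} {y w : V n} (h : 0 < F y) (h' : F (y + w) < 0) :
    y ∈ chg F w := by
  simp [chg, sign_neg h', sign_pos h]

/-- Subadditivity of sign changes. -/
theorem vol_chg_add (F : V n → ℝ) (w w' : V n) {A B : Set (V n)} (h : ∀ y ∈ A, y + w ∈ B) :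
    volume (A ∩ chg F (w + w')) ≤ volume (A ∩ chg F w) + volume (B ∩ chg F w') := by
  rw [← measure_preimage_add_right volume w (B ∩ chg F w')]
  refine (measure_mono ?_).trans (measure_union_le _ _)
  rintro y ⟨h1, h2⟩
  by_cases h3 : y ∈ chg F w
  · exact Or.inl ⟨h1, h3⟩
  · refine Or.inr ⟨h y h1, ?_⟩
    simp only [chg, Set.mem_ofPred_eq, not_not] at h2 h3 ⊢
    rwa [h3, add_assoc]

theorem measurableSet_sgnSet {f : ℕ → V n → ℝ} (hf : ∀ i, Measurable (f i)) (r : ℕ)
    (P : Finset ℕ) : MeasurableSet (sgnSet f r P) := by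
  have : sgnSet f r P = ⋂ i ∈ Finset.range r, if i ∈ P then {y | 0 < f i y} else {y | f i y < 0} := by
    ext y
    simp only [sgnSet, Set.mem_ofPred_eq, Set.mem_iInter, Finset.mem_range]
    refine forall₂_congr fun i _ => ?_
    by_cases h : i ∈ P <;> simp [h]
  rw [this]
  refine Finset.measurableSet_biInter _ fun i _ => ?_
  split_ifs
  · exact measurableSet_lt measurable_const (hf i)
  · exact measurableSet_lt (hf i) measurable_const

theorem Sep.dirM {Q : ℕ} {G : Finset (Line m)} (h : Sep Q G) : DirM Q G id 1 := by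
  intro A hA c hc
  exact_mod_cast Finset.card_le_one.2 fun a ha b hb =>
    h.dir_inj (hA ha) (hA hb) ((hc a ha).trans (hc b hb).symm)

theorem Sep.card_le {Q : ℕ} {G : Finset (Line m)} (h : Sep Q G) (hQ : 0 < Q) :
    (G.card : ℝ) ≤ 5 ^ m * (Q : ℝ) ^ m := by
  simpa using (Sep.dirM h).total zero_le_one hQ h.1

theorem Sep.mono {Q : ℕ} {G G' : Finset (Line m)} (h : Sep Q G) (hs : G' ⊆ G) : Sep Q G' :=
  ⟨fun g hg => h.1 g (hs hg), fun g hg g' hg' => h.2 g (hs hg) g' (hs hg')⟩

theorem Cap.mono {r M : ℝ} {A B : Finset (Line m)} (h : Cap r M A) (hs : B ⊆ A) : Cap r M B :=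
  fun D hD => h D (hD.trans hs)

theorem Cap.nonneg {r M : ℝ} {A : Finset (Line m)} (h : Cap r M A) : 0 ≤ M := by
  simpa using h ∅ (Finset.empty_subset _) 0 (by simp)

section

variable {Q s : ℕ} {G : Finset (Line m)} {X : Finset (Pt m)} {S : Pt m → Finset (Line m)}

theorem Incid.mono (h : Incid Q s G X S) {X' : Finset (Pt m)} (hs : X' ⊆ X) : Incid Q s G X' S :=
  fun x hx => h x (hs hx)

/-- Two cells of one line at the same height coincide. -/
theorem Incid.eq_of (h : Incid Q s G X S) {x y : Pt m} (hx : x ∈ X) (hy : y ∈ X) {g : Line m}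
    (h1 : g ∈ S x) (h2 : g ∈ S y) (e : x.2 = y.2) : x = y :=
  Prod.ext (by rw [← ((h x hx).2.2 g h1).2, ← ((h y hy).2.2 g h2).2, e]) e

open Classical in
/-- Double counting of the incidences. -/
theorem Incid.sum_card (h : Incid Q s G X S) :
    ∑ g ∈ G, (X.filter fun x => g ∈ S x).card = s * X.card := by
  simp only [Finset.card_filter]
  rw [Finset.sum_comm, mul_comm, ← smul_eq_mul, ← Finset.sum_const]
  refine Finset.sum_congr rfl fun x hx => ?_
  rw [← Finset.card_filter, ← (h x hx).2.1]
  congr 1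
  ext g
  simp only [Finset.mem_filter]
  exact ⟨fun h' => h'.2, fun h' => ⟨((h x hx).2.2 g h').1, h'⟩⟩

theorem Incid.card_line_le (h : Incid Q s G X S) {g : Line m} {B : Finset (Pt m)} (hB : B ⊆ X)
    (hg : ∀ x ∈ B, g ∈ S x) : B.card ≤ Q := by
  rw [← Finset.card_range Q]
  exact Finset.card_le_card_of_injOn (fun x => x.2)
    (fun x hx => Finset.mem_coe.2 (Finset.mem_range.2 (h x (hB hx)).1))
    fun x hx y hy e => h.eq_of (hB hx) (hB hy) (hg x hx) (hg y hy) e

theorem Incid.total_le (h : Incid Q s G X S) : s * X.card ≤ Q * G.card := by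
  classical
  rw [← h.sum_card, mul_comm, ← smul_eq_mul, ← Finset.sum_const]
  exact Finset.sum_le_sum fun g _ => h.card_line_le (Finset.filter_subset _ _)
    fun x hx => (Finset.mem_filter.1 hx).2

end

end Pool.Agent.MP_5168f5_an.H83
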