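import Pool.Agent.MP_5168f5_an.H83.Basic

/-! The bootstrap from the trivial estimate. -/

namespace Pool.Agent.MP_5168f5_an.H83

open Finset H19 H29 H42

variable {m : ℕ}

theorem shade_le {Q l : ℕ} {E : Finset (Pt m)} {g : Line m}
    (h : l ≤ (shade E (Finset.range Q) g).card) : l ≤ Q := by
  classical
  refine h.trans ?_
  unfold shade
  exact (Finset.card_filter_le _ _).trans (Finset.card_range Q).le

/-- The trivial estimate. -/
theorem gk_one (m : ℕ) : GK m 1 1 := by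
  classical
  intro ε hε
  refine ⟨5 ^ m, by positivity, fun Q l G E hl hG hs => ?_⟩
  rcases G.eq_empty_or_nonempty with rfl | ⟨g0, hg0⟩
  · simp only [Finset.card_empty, Nat.cast_zero]; positivity
  have hQ : 0 < Q := lt_of_lt_of_le hl (shade_le (hs g0 hg0))
  have hQ1 : (1 : ℝ) ≤ Q := by exact_mod_cast hQ
  have hl' : (0 : ℝ) < l := by exact_mod_cast hl
  have h1 := inc_le (g := id) (G := G) (E := E) (Y := shade E (Finset.range Q))
    (M := 5 ^ m * (Q : ℝ) ^ m) (fun g _ t ht => by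
      unfold shade at ht
      exact (Finset.mem_filter.1 ht).2) fun z _ A hA _ => Sep.card_le (Sep.mono hG hA) hQ
  have h2 : (G.card : ℝ) * l ≤ ∑ g ∈ G, ((shade E (Finset.range Q) g).card : ℝ) := by
    rw [← nsmul_eq_mul, ← Finset.sum_const]
    exact Finset.sum_le_sum fun g hg => by exact_mod_cast hs g hg
  have h3 : (1 : ℝ) ≤ (Q : ℝ) ^ ε := Real.one_le_rpow hQ1 hε.le
  rw [Real.rpow_one, Real.rpow_one, le_div_iff₀ hl']
  have h4 : 0 ≤ 5 ^ m * (Q : ℝ) ^ m * E.card := by positivity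
  nlinarith

theorem gk_mono {d d' : ℝ} (h : GK m 1 d) (hd : d' ≤ d) : GK m 1 d' := by
  intro ε hε
  obtain ⟨C, hC, h⟩ := h ε hε
  refine ⟨C, hC, fun Q l G E hl hG hs => (h Q l G E hl hG hs).trans ?_⟩
  have hl1 : (1 : ℝ) ≤ l := by exact_mod_cast hl
  exact div_le_div_of_nonneg_left (by positivity) (by positivity)
    (Real.rpow_le_rpow_of_exponent_le hl1 hd)

theorem gk_of_forall_lt {d : ℝ} (h : ∀ d' < d, GK m 1 d') : GK m 1 d := by
  intro ε hε
  obtain ⟨C, hC, h⟩ := h (d - ε / 2) (by linarith) (ε / 2) (by linarith)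
  refine ⟨C, hC, fun Q l G E hl hG hs => ?_⟩
  rcases G.eq_empty_or_nonempty with rfl | ⟨g0, hg0⟩
  · simp only [Finset.card_empty, Nat.cast_zero]; positivity
  have hlQ : (l : ℝ) ≤ Q := by exact_mod_cast shade_le (hs g0 hg0)
  have hl' : (0 : ℝ) < l := by exact_mod_cast hl
  have hQ : (0 : ℝ) < Q := by linarith
  refine (h Q l G E hl hG hs).trans ?_
  have e1 : (Q : ℝ) ^ ε = (Q : ℝ) ^ (ε / 2) * (Q : ℝ) ^ (ε / 2) := by
    rw [← Real.rpow_add hQ]; ring_nf
  have h1 : (l : ℝ) ^ (ε / 2) ≤ (Q : ℝ) ^ (ε / 2) := Real.rpow_le_rpow hl'.le hlQ (by linarith)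
  rw [Real.rpow_sub hl', div_div_eq_mul_div, e1]
  refine div_le_div_of_nonneg_right ?_ (by positivity)
  calc _ ≤ C * (Q : ℝ) ^ (ε / 2) * (Q : ℝ) ^ m * (E.card : ℝ) ^ (1 : ℝ) * (Q : ℝ) ^ (ε / 2) :=
        mul_le_mul_of_nonneg_left h1 (by positivity)
    _ = _ := by ring

/-- Steps of a fixed size reach every exponent up to `d0`. -/
theorem gk_boot {d0 c : ℝ} (hc : 0 < c)
    (h : ∀ d : ℝ, 1 ≤ d → d ≤ d0 → GK m 1 d → GK m 1 (d + c)) : GK m 1 d0 := by
  have h1 : ∀ N : ℕ, GK m 1 (min d0 (1 + N * c)) := by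
    intro N
    induction N with
    | zero => exact gk_mono (gk_one m) (by simp)
    | succ N ih =>
      have hN : (0 : ℝ) ≤ N * c := by positivity
      rcases le_total d0 (1 + N * c) with h2 | h2
      · rw [min_eq_left h2] at ih
        exact gk_mono ih (min_le_left _ _)
      · rw [min_eq_right h2] at ih
        refine gk_mono (h _ (by linarith) h2 ih) ((min_le_right _ _).trans (le_of_eq ?_))
        push_cast; ring
  obtain ⟨N, hN⟩ := exists_nat_ge (d0 / c)
  have h2 := h1 N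
  rwa [min_eq_left (by rw [div_le_iff₀ hc] at hN; linarith)] at h2

theorem gk_four (hG : StmtGAIN) (hE : StmtENDS) : GK 3 1 ((37 - √153) / 8) := by
  have s1 : 12 < √153 := by rw [Real.lt_sqrt (by norm_num)]; norm_num
  have s2 : √153 < 13 := by rw [Real.sqrt_lt' (by norm_num)]; norm_num
  have s3 : √153 ^ 2 = 153 := Real.sq_sqrt (by norm_num)
  refine gk_of_forall_lt fun d hd => ?_
  refine gk_mono (d := max d 3) ?_ (le_max_left _ _)
  have h1 : max d 3 < (37 - √153) / 8 := max_lt hd (by linarith)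
  obtain ⟨c, hc, h⟩ := hG (max d 3) (le_max_right _ _) (by linarith) (by nlinarith)
  exact gk_boot hc fun d' h2 h3 h4 => hE 3 _ (by linarith) (h d' h2 h3 h4)

end Pool.Agent.MP_5168f5_an.H83
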