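import Pool.Agent.MP_5168f5_an.H83.Basic

/-! The lines through a cell that lead back to a root lie in few caps. -/

namespace Pool.Agent.MP_5168f5_an.H83

open MeasureTheory Metric Finset Matrix H19 H29 H42
open scoped ENNReal

namespace CAPS

theorem abs_mul_le (u w : V 3) (i j : Fin 3) : |u i * w j| ≤ ‖u‖ * ‖w‖ := by
  rw [abs_mul]
  exact mul_le_mul (norm_le_pi_norm u i) (norm_le_pi_norm w j) (abs_nonneg _) (norm_nonneg _)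

theorem norm_cross_le (u w : V 3) : ‖u ⨯₃ w‖ ≤ 2 * (‖u‖ * ‖w‖) := by
  have h : ∀ i j k l : Fin 3, |u i * w j - u k * w l| ≤ 2 * (‖u‖ * ‖w‖) := fun i j k l =>
    (abs_sub _ _).trans (by linarith [abs_mul_le u w i j, abs_mul_le u w k l])
  refine (pi_norm_le_iff_of_nonneg (by positivity)).2 fun i => ?_
  rw [cross_apply]
  fin_cases i
  · exact h 1 2 2 1
  · exact h 2 0 0 2
  · exact h 0 1 1 0

theorem abs_dot_le (u w : V 3) : |u ⬝ᵥ w| ≤ 3 * (‖u‖ * ‖w‖) := by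
  have h0 := abs_le.1 (abs_mul_le u w 0 0)
  have h1 := abs_le.1 (abs_mul_le u w 1 1)
  have h2 := abs_le.1 (abs_mul_le u w 2 2)
  rw [dotProduct, Fin.sum_univ_three, abs_le]
  constructor <;> linarith [h0.1, h0.2, h1.1, h1.2, h2.1, h2.2]

theorem cross_le {u w : V 3} {q : ℝ} (hu : ‖u‖ ≤ 1) (hw : ‖w‖ ≤ q) : ‖u ⨯₃ w‖ ≤ 2 * q := by
  have h := mul_le_mul hu hw (norm_nonneg _) zero_le_one
  linarith [norm_cross_le u w]

theorem dot_le {u w : V 3} {p q : ℝ} (hu : ‖u‖ ≤ p) (hw : ‖w‖ ≤ q) : |u ⬝ᵥ w| ≤ 3 * (p * q) := by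
  have h := mul_le_mul hu hw (norm_nonneg _) ((norm_nonneg _).trans hu)
  linarith [abs_dot_le u w]

theorem smul_le {t p q : ℝ} {w : V 3} (ht : |t| ≤ p) (hw : ‖w‖ ≤ q) : ‖t • w‖ ≤ p * q := by
  rw [norm_smul]
  exact mul_le_mul ht hw (norm_nonneg _) ((abs_nonneg _).trans ht)

/-- The error vector of a near point. -/
theorem nr_vec {θ : ℝ} {a b v : V 3} {σ : ℝ} (hθ : 0 ≤ θ)
    (h : ∀ k, |v k - a k - σ * b k| ≤ θ) : ‖v - a - σ • b‖ ≤ θ :=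
  (pi_norm_le_iff_of_nonneg hθ).2 fun k => h k

/-- The vector estimates. -/
theorem core {Q θ T U σ β s0 : ℝ} {b0 b1 b2 w d E r0 r ρ ζ : V 3} (hθ : θ ≤ 1)
    (hT : |T| ≤ Q) (hU : |U| ≤ Q) (h0 : ‖b0‖ ≤ 1) (h2 : ‖b2‖ ≤ 1) (hw : ‖w‖ ≤ 2)
    (hE : ‖E‖ ≤ 3 * (θ * Q)) (hr0 : ‖r0‖ ≤ θ) (hr : ‖r‖ ≤ 3 * θ) (hρ : ‖ρ‖ ≤ θ)
    (e1 : ζ = T • w + U • (s0 • b0 + r0) + E) (e2 : w = β • b1 + s0 • b0 + r)
    (e3 : w = d + σ • b2 + ρ) :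
    |T| * |β| * |(b0 ⨯₃ b1) ⬝ᵥ b2| ≤ |(b0 ⨯₃ ζ) ⬝ᵥ b2| + 42 * (θ * Q) ∧
      |(b0 ⨯₃ ζ) ⬝ᵥ d + σ * ((b0 ⨯₃ ζ) ⬝ᵥ b2)| ≤ 84 * (θ * Q) := by
  have hQ : 0 ≤ Q := (abs_nonneg _).trans hT
  have hθ0 : 0 ≤ θ := (norm_nonneg _).trans hr0
  obtain ⟨P, hP⟩ : ∃ P : V 3, P = U • (b0 ⨯₃ r0) + b0 ⨯₃ E := ⟨_, rfl⟩
  have hPn : ‖P‖ ≤ 8 * (θ * Q) := by
    have a1 := smul_le hU (cross_le h0 hr0)
    have a2 := cross_le h0 hE
    have a3 := norm_add_le (U • (b0 ⨯₃ r0)) (b0 ⨯₃ E)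
    rw [hP]
    linarith
  have hN : b0 ⨯₃ ζ = T • (b0 ⨯₃ w) + P := by
    rw [e1, hP]
    simp only [map_add, map_smul, cross_self, smul_zero, zero_add, add_assoc]
  have hw2 : b0 ⨯₃ w = β • (b0 ⨯₃ b1) + b0 ⨯₃ r := by
    rw [e2]
    simp only [map_add, map_smul, cross_self, smul_zero, add_zero]
  have hNn : ‖b0 ⨯₃ ζ‖ ≤ 12 * Q := by
    have a1 := smul_le hT (cross_le h0 hw)
    have a3 := norm_add_le (T • (b0 ⨯₃ w)) P
    have a4 : θ * Q ≤ Q := by nlinarith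
    rw [hN]
    linarith
  constructor
  · have a1 : (b0 ⨯₃ ζ) ⬝ᵥ b2 =
        T * β * ((b0 ⨯₃ b1) ⬝ᵥ b2) + (T • (b0 ⨯₃ r) + P) ⬝ᵥ b2 := by
      rw [hN, hw2]
      simp only [smul_add, add_dotProduct, smul_dotProduct, smul_eq_mul]
      ring
    have a2 : ‖T • (b0 ⨯₃ r) + P‖ ≤ 14 * (θ * Q) := by
      have a1 := smul_le hT (cross_le h0 hr)
      have a3 := norm_add_le (T • (b0 ⨯₃ r)) P
      linarith
    have a3 := dot_le a2 h2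
    have a4 : T * β * ((b0 ⨯₃ b1) ⬝ᵥ b2) =
        (b0 ⨯₃ ζ) ⬝ᵥ b2 - (T • (b0 ⨯₃ r) + P) ⬝ᵥ b2 := by linarith
    rw [← abs_mul, ← abs_mul, a4]
    exact (abs_sub _ _).trans (by linarith)
  · have a1 : (b0 ⨯₃ ζ) ⬝ᵥ w = P ⬝ᵥ w := by
      rw [hN, add_dotProduct, smul_dotProduct, dotProduct_comm (b0 ⨯₃ w), dot_cross_self]
      simp
    have a2 : (b0 ⨯₃ ζ) ⬝ᵥ d + σ * ((b0 ⨯₃ ζ) ⬝ᵥ b2) = P ⬝ᵥ w - (b0 ⨯₃ ζ) ⬝ᵥ ρ := by
      rw [← a1]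
      conv_rhs => rw [e3]
      simp only [dotProduct_add, dotProduct_smul, smul_eq_mul]
      ring
    have a3 := dot_le hPn hw
    have a4 := dot_le hNn hρ
    rw [a2]
    exact (abs_sub _ _).trans (by linarith)

/-- Counting through caps along a segment of parameters. -/
theorem count {θ Mf R σ0 : ℝ} {a b : V 3} {A : Finset (Line 3)} (hθ : 0 < θ) (hR : 0 ≤ R)
    (hc : Cap (2 * θ) Mf A) (hb : ‖b‖ ≤ 1)
    (h : ∀ g ∈ A, ∃ σ : ℝ, (∀ k, |g.2 k - a k - σ * b k| ≤ θ) ∧ |σ - σ0| ≤ R * θ) :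
    (A.card : ℝ) ≤ (2 * R + 3) * Mf := by
  classical
  choose! σ h1 h2 using h
  have h3 := card_le_of_fib A (fun g => ⌊σ g / θ⌋) (seg ⌊σ0 / θ⌋ R) Mf
    (fun g hg => floor_mem_seg (by
      rw [← sub_div, abs_div, abs_of_pos hθ, div_le_iff₀ hθ]
      exact h2 g hg))
    (fun B hB c _ hBc => hc B hB (fun k => a k + c * θ * b k) fun g hg k => by
      have a1 := h1 g (hB hg) k
      have a2 : |σ g - c * θ| ≤ θ := by
        have f1 := Int.floor_le (σ g / θ)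
        have f2 := Int.lt_floor_add_one (σ g / θ)
        rw [hBc g hg] at f1 f2
        rw [le_div_iff₀ hθ] at f1
        rw [div_lt_iff₀ hθ] at f2
        rw [abs_le]
        constructor <;> linarith
      have a3 : |(σ g - c * θ) * b k| ≤ θ * 1 := by
        rw [abs_mul]
        exact mul_le_mul a2 ((norm_le_pi_norm b k).trans hb) (abs_nonneg _) hθ.le
      have a4 : g.2 k - (a k + c * θ * b k) =
          (g.2 k - a k - σ g * b k) + (σ g - c * θ) * b k := by ring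
      rw [a4]
      exact (abs_add_le _ _).trans (by linarith))
  exact h3.trans (mul_le_mul_of_nonneg_right (card_seg_le _ hR) hc.nonneg)

theorem abs_sub_le_of_lt {s t Q : ℕ} (hs : s < Q) (ht : t < Q) : |(s : ℝ) - t| ≤ Q := by
  have h1 : (s : ℝ) ≤ Q := by exact_mod_cast hs.le
  have h2 : (t : ℝ) ≤ Q := by exact_mod_cast ht.le
  have h3 : (0 : ℝ) ≤ s := Nat.cast_nonneg _
  have h4 : (0 : ℝ) ≤ t := Nat.cast_nonneg _
  rw [abs_le]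
  constructor <;> linarith

/-- The parameter of one line is determined up to a small error. -/
theorem one {Q : ℕ} {K θ om σ : ℝ} {x y z : Pt 3} {a0 b0 a1 b1 a2 b2 ζ : V 3} {g g1 : Line 3}
    (hζ : ζ = fun k => (z.1 k : ℝ) - x.1 k - ((z.2 : ℝ) - x.2) * a0 k)
    (hQ : 1 ≤ θ * Q) (hθ0 : 0 < θ) (hθ : θ ≤ 1) (hK : 1 ≤ K) (hom : 300 * K ^ 2 * θ ≤ om)
    (ha0 : ‖a0‖ ≤ 1) (hb0 : ‖b0‖ = 1) (hb1 : ‖b1‖ = 1) (hb2 : ‖b2‖ = 1) (hx : x.2 < Q)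
    (hy : y.2 < Q) (hz : z.2 < Q) (hg : ‖g.2‖ ≤ 1) (hσ : ∀ k, |g.2 k - a2 k - σ * b2 k| ≤ θ)
    (c1 : cell g1 x.2 = x.1) (c2 : cell g1 y.2 = y.1) (c3 : cell g y.2 = y.1)
    (c4 : cell g z.2 = z.1) (hT : (Q : ℝ) ≤ K * |(y.2 : ℝ) - z.2|) (hs : 1 ≤ K * ‖g1.2 - g.2‖)
    (n0 : Nr θ a0 b0 g1.2) (n1 : Nr θ a1 b1 g1.2) (n2 : Nr θ a1 b1 g.2)
    (hd : om / 2 ≤ |(b0 ⨯₃ b1) ⬝ᵥ b2|) :
    om ≤ 12 ∧ Q * om ≤ 4 * K ^ 2 * |(b0 ⨯₃ ζ) ⬝ᵥ b2| ∧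
      |(b0 ⨯₃ ζ) ⬝ᵥ (a2 - a0) + σ * ((b0 ⨯₃ ζ) ⬝ᵥ b2)| ≤ 84 * (θ * Q) := by
  obtain ⟨s0, n0⟩ := n0
  obtain ⟨s1, n1⟩ := n1
  obtain ⟨s2, n2⟩ := n2
  have m0 := nr_vec hθ0.le n0
  have m1 := nr_vec hθ0.le n1
  have m2 := nr_vec hθ0.le n2
  have m3 := nr_vec hθ0.le hσ
  have h12 : om ≤ 12 := by
    have := dot_le (cross_le hb0.le hb1.le) hb2.le
    linarith
  have hE : ‖ζ - ((z.2 : ℝ) - y.2) • (g.2 - a0) - ((y.2 : ℝ) - x.2) • (g1.2 - a0)‖ ≤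
      3 * (θ * Q) := by
    refine (pi_norm_le_iff_of_nonneg (by positivity)).2 fun k => ?_
    have p1 := abs_le.1 (pos_sub_cell g z.2 k)
    have p2 := abs_le.1 (pos_sub_cell g1 x.2 k)
    have p3 := abs_le.1 (pos_close (c3.trans c2.symm) k)
    rw [c4] at p1
    rw [c1] at p2
    simp only [pos] at p1 p2 p3
    rw [hζ, Real.norm_eq_abs, abs_le]
    simp only [Pi.sub_apply, Pi.smul_apply, smul_eq_mul]
    constructor <;> linarith [p1.1, p1.2, p2.1, p2.2, p3.1, p3.2]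
  have hr : ‖(g.2 - a1 - s2 • b1) - (g1.2 - a1 - s1 • b1)‖ ≤ 2 * θ :=
    (norm_sub_le _ _).trans (by linarith)
  have hc := core (T := (z.2 : ℝ) - y.2) (U := (y.2 : ℝ) - x.2) (σ := σ) (β := s2 - s1) (s0 := s0)
    (b1 := b1) (w := g.2 - a0) (d := a2 - a0) (ζ := ζ)
    (r := (g.2 - a1 - s2 • b1) - (g1.2 - a1 - s1 • b1) + (g1.2 - a0 - s0 • b0))
    hθ (abs_sub_le_of_lt hz hy) (abs_sub_le_of_lt hy hx) hb0.le hb2.le
    ((norm_sub_le _ _).trans (by linarith)) hE m0 ((norm_add_le _ _).trans (by linarith)) m3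
    (by module) (by module) (by module)
  refine ⟨h12, ?_, hc.2⟩
  have hβ : ‖g1.2 - g.2‖ ≤ |s2 - s1| + 2 * θ := by
    have e : g.2 - g1.2 = (s2 - s1) • b1 +
        ((g.2 - a1 - s2 • b1) - (g1.2 - a1 - s1 • b1)) := by module
    have := smul_le (le_refl |s2 - s1|) hb1.le
    rw [norm_sub_rev, e]
    exact (norm_add_le _ _).trans (by linarith)
  have hK0 : 0 < K := by linarith
  have hQ0 : (0 : ℝ) ≤ Q := Nat.cast_nonneg _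
  have k1 : K * θ ≤ 1 / 25 := by nlinarith [mul_pos hK0 hθ0]
  have k2 : 23 / 25 ≤ K * |s2 - s1| := by nlinarith
  have k3 : (Q : ℝ) * (23 / 25) ≤ (K * |(z.2 : ℝ) - y.2|) * (K * |s2 - s1|) := by
    rw [abs_sub_comm (z.2 : ℝ)]
    exact mul_le_mul hT k2 (by norm_num) (hQ0.trans hT)
  have hom0 : 0 ≤ om := le_trans (by positivity) hom
  have k4 : (Q : ℝ) * (23 / 25) * (om / 2) ≤
      (K * |(z.2 : ℝ) - y.2|) * (K * |s2 - s1|) * |(b0 ⨯₃ b1) ⬝ᵥ b2| :=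
    mul_le_mul k3 hd (by positivity) (by positivity)
  have k5 := mul_le_mul_of_nonneg_left hc.1 (sq_nonneg K)
  have k6 := mul_le_mul_of_nonneg_left hom hQ0
  have k7 : 0 ≤ (Q : ℝ) * om := by positivity
  nlinarith

end CAPS

theorem caps : StmtCAPS := by
  refine ⟨2700, by norm_num, ?_⟩
  intro Q K θ om Mf x z a0 b0 a2 b2 A hc hQ hθ hK hom ha0 hb0 ha2 hb2 hx hz h
  have hQ0 : (0 : ℝ) ≤ Q := Nat.cast_nonneg _
  have hθ0 : 0 < θ := by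
    by_contra h'
    push Not at h'
    nlinarith [mul_nonneg hQ0 (neg_nonneg.2 h')]
  have hM := hc.nonneg
  have hK2 : 1 ≤ K ^ 2 := one_le_pow₀ hK
  have hom0 : 0 < om := lt_of_lt_of_le (by positivity) hom
  by_cases he : om = 300 * K ^ 2 * θ
  · have h1 := CAPS.count (σ0 := 0) (R := 3 / θ) (a := a2) hθ0 (by positivity) hc hb2.le (by
      intro g hg
      obtain ⟨hg1, ⟨σ, hσ⟩, -⟩ := h g hg
      refine ⟨σ, hσ, ?_⟩
      have m := CAPS.nr_vec hθ0.le hσ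
      have e : σ • b2 = g.2 - a2 - (g.2 - a2 - σ • b2) := by module
      have e2 : ‖σ • b2‖ = |σ| := by rw [norm_smul, hb2, mul_one, Real.norm_eq_abs]
      have e3 := norm_sub_le g.2 a2
      have e4 := norm_sub_le (g.2 - a2) (g.2 - a2 - σ • b2)
      rw [← e, e2] at e4
      rw [sub_zero, div_mul_cancel₀ _ hθ0.ne']
      linarith)
    have h2 : (A.card : ℝ) * θ ≤ 9 * Mf := by
      have h3 := mul_le_mul_of_nonneg_right h1 hθ0.le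
      have h4 : (2 * (3 / θ) + 3) * Mf * θ = (6 + 3 * θ) * Mf := by field_simp; ring
      nlinarith
    rw [he]
    nlinarith
  · rcases A.eq_empty_or_nonempty with rfl | ⟨g0, hg0⟩
    · simp only [Finset.card_empty, Nat.cast_zero, zero_mul]
      positivity
    obtain ⟨ζ, hζ⟩ : ∃ ζ : V 3, ζ = fun k => (z.1 k : ℝ) - x.1 k - ((z.2 : ℝ) - x.2) * a0 k :=
      ⟨_, rfl⟩
    have h1 : ∀ g ∈ A, ∃ σ : ℝ, (∀ k, |g.2 k - a2 k - σ * b2 k| ≤ θ) ∧ om ≤ 12 ∧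
        Q * om ≤ 4 * K ^ 2 * |(b0 ⨯₃ ζ) ⬝ᵥ b2| ∧
        |(b0 ⨯₃ ζ) ⬝ᵥ (a2 - a0) + σ * ((b0 ⨯₃ ζ) ⬝ᵥ b2)| ≤ 84 * (θ * Q) := by
      intro g hg
      obtain ⟨hg1, ⟨σ, hσ⟩, h2⟩ := h g hg
      obtain ⟨g1, y, a1, b1, hy, -, hb1, c1, c2, c3, c4, hT, hs, n0, n1, n2, hd⟩ :=
        h2.resolve_left he
      exact ⟨σ, hσ, CAPS.one hζ hQ hθ0 hθ hK hom ha0 hb0 hb1 hb2 hx hy hz hg1 hσ c1 c2 c3 c4 hT hs
        n0 n1 n2 hd⟩
    obtain ⟨-, -, h12, -⟩ := h1 g0 hg0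
    have hQ1 : (0 : ℝ) < Q := by exact_mod_cast lt_of_le_of_lt (Nat.zero_le _) hx
    generalize (b0 ⨯₃ ζ) ⬝ᵥ b2 = D at h1
    generalize (b0 ⨯₃ ζ) ⬝ᵥ (a2 - a0) = F at h1
    have h2 := CAPS.count (σ0 := -F / D) (R := 336 * K ^ 2 / om) (a := a2) hθ0 (by positivity) hc
      hb2.le (by
      intro g hg
      obtain ⟨σ, hσ, -, h3, h4⟩ := h1 g hg
      refine ⟨σ, hσ, ?_⟩
      have h5 : 0 < |D| := by
        have : 0 < (Q : ℝ) * om := by positivity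
        by_contra h'
        push Not at h'
        nlinarith
      have h6 : D ≠ 0 := abs_pos.1 h5
      have h7 : |σ - -F / D| * |D| ≤ 84 * (θ * Q) := by
        rw [← abs_mul]
        have : (σ - -F / D) * D = F + σ * D := by field_simp; ring
        rwa [this]
      rw [div_mul_eq_mul_div, le_div_iff₀ hom0]
      have h8 := mul_le_mul_of_nonneg_left h3 (abs_nonneg (σ - -F / D))
      have h9 := mul_le_mul_of_nonneg_left h7 (show 0 ≤ 4 * K ^ 2 by positivity)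
      refine le_of_mul_le_mul_left ?_ hQ1
      nlinarith)
    have h3 := mul_le_mul_of_nonneg_right h2 hom0.le
    have h4 : (2 * (336 * K ^ 2 / om) + 3) * Mf * om = (672 * K ^ 2 + 3 * om) * Mf := by
      field_simp
      ring
    have h5 : 672 * K ^ 2 + 3 * om ≤ 2700 * K ^ 2 := by linarith
    rw [h4] at h3
    exact h3.trans (mul_le_mul_of_nonneg_right h5 hM)

end Pool.Agent.MP_5168f5_an.H83
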