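import Pool.Agent.MP_5168f5_an.H83.PlaneB

/-! The planar estimate. -/

namespace Pool.Agent.MP_5168f5_an.H83

open Finset Matrix H19 H29

namespace PLANE

theorem norm_cross_le (u v : V 3) : ‖u ⨯₃ v‖ ≤ 2 * ‖u‖ * ‖v‖ := by
  have h : ∀ i j, |u i * v j| ≤ ‖u‖ * ‖v‖ := fun i j => by
    rw [abs_mul]
    exact mul_le_mul (norm_le_pi_norm u i) (norm_le_pi_norm v j) (abs_nonneg _) (norm_nonneg _)
  have h' : ∀ i j k r, |u i * v j - u k * v r| ≤ 2 * ‖u‖ * ‖v‖ := fun i j k r => by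
    have := abs_sub (u i * v j) (u k * v r)
    linarith [h i j, h k r]
  refine (pi_norm_le_iff_of_nonneg (by positivity)).2 fun i => ?_
  rw [cross_apply]
  fin_cases i <;> exact h' _ _ _ _

theorem abs_dot_le (u v : V 3) : |u ⬝ᵥ v| ≤ 3 * ‖u‖ * ‖v‖ := by
  refine (Finset.abs_sum_le_sum_abs _ _).trans ?_
  have : ∀ i ∈ (Finset.univ : Finset (Fin 3)), |u i * v i| ≤ ‖u‖ * ‖v‖ := fun i _ => by
    rw [abs_mul]
    exact mul_le_mul (norm_le_pi_norm u i) (norm_le_pi_norm v i) (abs_nonneg _) (norm_nonneg _)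
  refine (Finset.sum_le_sum this).trans (le_of_eq ?_)
  simp; ring

theorem norm_cross_comm (u v : V 3) : ‖u ⨯₃ v‖ = ‖v ⨯₃ u‖ := by
  rw [← cross_anticomm v u, norm_neg]

theorem alg {s l φ J K Q3 Mf c C1 C2 nX nE δ om M t : ℝ} (hs : 0 < s) (hl : 0 < l) (hφ : 0 < φ)
    (hJ : 0 < J) (hK : 1 ≤ K) (hQ : 0 ≤ Q3) (hMf : 0 ≤ Mf) (hc : 0 < c) (h1 : 0 ≤ C1) (h2 : 0 ≤ C2)
    (hX : 0 < nX) (hom : 0 < om) (hδ : δ = 3 * φ * l * s / (32 * J))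
    (hM : M = 2 * J ^ 3 * s ^ 3 * l ^ 2 * c / δ ^ 3) (hE : 2 * δ * nX ≤ nE)
    (hlow : nE * δ ^ 2 * s ≤ 2 * J ^ 3 * t)
    (hup : t ≤ nX * (s * (s * (c / M * (s * l * (l * s))))) +
      nE * (C1 * Q3 * om * (l * (C2 * K ^ 2 * Mf / om * (M * (2 * K + 3)))))) :
    s ^ 3 * l ^ 2 * φ ^ 5 ≤ 10 ^ 7 * C1 * C2 * J ^ 11 * K ^ 3 * Q3 * Mf * c := by
  have hδ0 : 0 < δ := by rw [hδ]; positivity
  have hE0 : 0 < nE := lt_of_lt_of_le (by positivity) hE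
  have e1 : nX * (s * (s * (c / M * (s * l * (l * s))))) = 2 * δ * nX * (δ ^ 2 * s / (4 * J ^ 3)) := by
    rw [hM]; field_simp; ring
  have e2 : nE * (C1 * Q3 * om * (l * (C2 * K ^ 2 * Mf / om * (M * (2 * K + 3))))) =
      nE * (C1 * C2 * Q3 * K ^ 2 * Mf * (2 * K + 3) * (l * M)) := by
    field_simp
  have a1 : 2 * δ * nX * (δ ^ 2 * s / (4 * J ^ 3)) ≤ nE * (δ ^ 2 * s / (4 * J ^ 3)) :=
    mul_le_mul_of_nonneg_right hE (by positivity)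
  have a2 : nE * (δ ^ 2 * s / (2 * J ^ 3)) ≤ t := by
    rw [← mul_div_assoc, div_le_iff₀ (by positivity)]; linarith
  have a3 : nE * (δ ^ 2 * s / (4 * J ^ 3)) ≤
      nE * (C1 * C2 * Q3 * K ^ 2 * Mf * (2 * K + 3) * (l * M)) := by
    have : nE * (δ ^ 2 * s / (2 * J ^ 3)) = 2 * (nE * (δ ^ 2 * s / (4 * J ^ 3))) := by
      field_simp; ring
    linarith
  have a4 := le_of_mul_le_mul_left a3 hE0
  have e3 : l * M = 65536 / 27 * J ^ 6 * c / φ ^ 3 := by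
    rw [hM, hδ]; field_simp; ring
  have e4 : δ ^ 2 * s / (4 * J ^ 3) = 9 / 4096 * (s ^ 3 * l ^ 2 * φ ^ 5) / (J ^ 5 * φ ^ 3) := by
    rw [hδ]; field_simp; ring
  rw [e3, e4, div_le_iff₀ (by positivity)] at a4
  have e5 : C1 * C2 * Q3 * K ^ 2 * Mf * (2 * K + 3) * (65536 / 27 * J ^ 6 * c / φ ^ 3) *
      (J ^ 5 * φ ^ 3) = 65536 / 27 * (C1 * C2 * J ^ 11 * K ^ 2 * Q3 * Mf * c) * (2 * K + 3) := by
    field_simp
  rw [e5] at a4
  have a5 : 0 ≤ C1 * C2 * J ^ 11 * K ^ 2 * Q3 * Mf * c := by positivity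
  have a6 := mul_le_mul_of_nonneg_left (show 2 * K + 3 ≤ 5 * K by linarith) a5
  nlinarith

end PLANE

open PLANE in
theorem plane : StmtROOT → StmtCAPS → StmtPLANE := by
  classical
  rintro ⟨C1, hC1, hR⟩ ⟨C2, hC2, hP⟩
  refine ⟨10 ^ 7 * 4 ^ 11 * (40 * 43 ^ 3) * (C1 * C2), ?_, ?_⟩
  · nlinarith [mul_le_mul hC1 hC2 zero_le_one (by linarith)]
  intro Q s j K l φ Mf Mk G X S a b hG hI hne hs hj hK hφ hφ1 hl hx hlg hav h2e hMk
  have hC12 : 1 ≤ C1 * C2 := by nlinarith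
  obtain ⟨x1, hx1⟩ := hne
  have hQ : 0 < Q := lt_of_le_of_lt (Nat.zero_le _) (hI x1 hx1).1
  have hQr : (0 : ℝ) < Q := by exact_mod_cast hQ
  have hsr : (0 : ℝ) < s := by exact_mod_cast hs
  have hMf : 0 ≤ Mf := (hx x1 hx1).2.2.2.2.nonneg
  have hMk0 : 0 ≤ Mk := (hx x1 hx1).2.2.2.1.nonneg
  set θ : ℝ := 1 / 2 ^ j with hθ
  have hθ0 : 0 < θ := by positivity
  have h2j : (1 : ℝ) ≤ 2 ^ j := one_le_pow₀ one_le_two
  have hθ1 : θ ≤ 1 := by rw [hθ, div_le_one (by positivity)]; exact h2j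
  have hθQ : 1 ≤ θ * Q := by
    rw [hθ, div_mul_eq_mul_div, one_mul, one_le_div (by positivity)]; exact_mod_cast hj
  have hθ8 : θ * 2 ^ (j + 3) = 8 := by rw [hθ, pow_add]; field_simp; norm_num
  have hb : ∀ x ∈ X, ‖b x‖ = 1 := fun x h => (hx x h).2.1
  have hcr : ∀ x ∈ X, ∀ y ∈ X, ‖b x ⨯₃ b y‖ ≤ 2 := fun x h y h' => by
    have := norm_cross_le (b x) (b y)
    rw [hb x h, hb y h'] at this; linarith
  have hJ : (0 : ℝ) < (j + 4 : ℕ) := by positivity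
  -- edges of one level
  obtain ⟨E0, hE0, hE0c⟩ := edges (K := K) hI (mul_pos hφ hl) hav h2e
  obtain ⟨c, -, E1, hE1, hE1m, hE1c⟩ := exists_fib E0 (fun e => lev θ ‖b e.2.1 ⨯₃ b e.2.2‖)
    (Finset.range (j + 4)) ⟨0, by simp⟩ (fun _ => 1) fun e he => by
      have h := (hE0 e).1 he
      have := lev_le (F := θ) (N := j + 3) ((hcr _ h.1 _ h.2.1).trans (by rw [hθ8]; norm_num))
      exact Finset.mem_range.2 (by omega)
  simp only [Finset.sum_const, nsmul_eq_mul, mul_one, Finset.card_range] at hE1c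
  set δ : ℝ := 3 * φ * l * s / (32 * (j + 4 : ℕ)) with hδ
  have hδ0 : 0 < δ := by positivity
  obtain ⟨X', hX', hne', E2, hE2, hE2m, hdeg⟩ := prune X E1 (fun e => e.2.1) (fun e => e.2.2) rev
    (fun e he => ⟨((hE0 e).1 (hE1 he)).1, ((hE0 e).1 (hE1 he)).2.1⟩)
    (fun e he => (hE1m _ ((hE0 _).2 ((hE0 e).1 (hE1 he)).rev)).2 (by
      rw [← (hE1m e (hE1 he)).1 he]
      exact congrArg _ (norm_cross_comm _ _))) (fun _ => rfl) (fun _ => rfl) (d := 8 * δ)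
    (by positivity) ⟨x1, hx1⟩ (by
      have e : 8 * δ * X.card = 3 / 4 * (φ * l) * s * X.card / (j + 4 : ℕ) := by
        rw [hδ]; field_simp; ring
      rw [e, div_le_iff₀ hJ]; linarith)
  have hIE : ∀ e ∈ E2, IsE Q K X S e := fun e he => (hE0 e).1 (hE1 (hE2 he))
  set sb : ℝ := θ * 2 ^ c with hsb
  have hsbE : ∀ e ∈ E2, ‖b e.2.1 ⨯₃ b e.2.2‖ ≤ sb ∧ (sb = θ ∨ sb / 2 ≤ ‖b e.2.1 ⨯₃ b e.2.2‖) := by
    intro e he
    have h := hIE e he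
    rw [hsb, ← (hE1m e (hE1 (hE2 he))).1 (hE2 he)]
    exact ⟨le_lev (N := j + 3) ((hcr _ h.1 _ h.2.1).trans (by rw [hθ8]; norm_num)), lev_low _ _⟩
  have hθsb : θ ≤ sb := le_mul_of_one_le_right hθ0.le (one_le_pow₀ one_le_two)
  -- transversal continuations
  set F : Edge → Finset Edge := fun e => E2.filter fun e' =>
    e'.2.1 = e.2.2 ∧ 1 ≤ K * ‖e.1.2 - e'.1.2‖ with hF
  have hFc : ∀ e ∈ E2, δ ≤ (F e).card := by
    intro e he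
    obtain ⟨B, hB, hB1, hB2⟩ := hdeg _ (hE2m e he).2.1
    have a1 := card_split B fun e' => 1 ≤ K * ‖e.1.2 - e'.1.2‖
    have a2 : ((B.filter fun e' => 1 ≤ K * ‖e.1.2 - e'.1.2‖).card : ℝ) ≤ (F e).card :=
      Nat.cast_le.2 (Finset.card_le_card fun e' h' => Finset.mem_filter.2
        ⟨hB (Finset.mem_filter.1 h').1, hB1 _ (Finset.mem_filter.1 h').1, (Finset.mem_filter.1 h').2⟩)
    have a3 := out_le hI hl.le hlg (x := e.2.2) (n := Mk)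
      (B.filter fun e' => ¬1 ≤ K * ‖e.1.2 - e'.1.2‖)
      (fun e' h' => ⟨hIE _ (hB (Finset.mem_filter.1 h').1), hB1 _ (Finset.mem_filter.1 h').1⟩)
      fun T hT => (hx _ (hIE e he).2.1).2.2.2.1 T (fun g hg => by
        obtain ⟨e', h', rfl⟩ := hT g hg
        rw [← hB1 _ (Finset.mem_filter.1 h').1]
        exact (hIE _ (hB (Finset.mem_filter.1 h').1)).2.2.1) e.1.2 fun g hg k => by
        obtain ⟨e', h', rfl⟩ := hT g hg
        have b1 := not_le.1 (Finset.mem_filter.1 h').2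
        have b2 := norm_le_pi_norm (e.1.2 - e'.1.2) k
        rw [Pi.sub_apply, Real.norm_eq_abs, abs_sub_comm] at b2
        rw [le_div_iff₀ (by linarith)]
        nlinarith
    have a4 : Mk * l ≤ δ := by
      rw [hδ, le_div_iff₀ (by positivity)]
      have b1 : 128 * ((j + 1) * Mk) ≤
          10 ^ 7 * 4 ^ 11 * (40 * 43 ^ 3) * (C1 * C2) * ((j + 1) * Mk) :=
        mul_le_mul_of_nonneg_right (by nlinarith) (by positivity)
      have b2 : (0 : ℝ) ≤ j * Mk := by positivity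
      have b3 : Mk * (32 * (j + 4 : ℕ)) ≤ φ * s := by push_cast; nlinarith
      nlinarith [mul_le_mul_of_nonneg_right b3 hl.le, mul_pos (mul_pos hφ hsr) hl]
    linarith
  set fl : ℝ := 300 * K ^ 2 * θ with hfl
  have hθfl : θ ≤ fl := by rw [hfl]; nlinarith [one_le_pow₀ hK (n := 2)]
  have hdet : ∀ x ∈ X, ∀ y ∈ X, ∀ z ∈ X, |(b x ⨯₃ b y) ⬝ᵥ b z| ≤ fl * 2 ^ (j + 3) := by
    intro x h y h' z h''
    have a1 := abs_dot_le (b x ⨯₃ b y) (b z)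
    have a2 := hcr x h y h'
    have a3 := mul_le_mul_of_nonneg_right hθfl (show (0 : ℝ) ≤ 2 ^ (j + 3) by positivity)
    rw [hb z h''] at a1
    linarith
  obtain ⟨i, E3, hE3, hE3c, Fp, Fm, hFF⟩ := levels E2 rev (fun e he => (hE2m e he).2.2)
    (fun _ => rfl) F (fun e e' => lev fl |(b e.2.1 ⨯₃ b e.2.2) ⬝ᵥ b e'.2.2|) (J := j + 4)
    (by omega) fun e he e' he' => by
      have := lev_le (hdet _ (hIE e he).1 _ (hIE e he).2.1 _ (hIE e' (Finset.mem_filter.1 he').1).2.1)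
      omega
  set om : ℝ := fl * 2 ^ i with hom
  have hflom : fl ≤ om := le_mul_of_one_le_right (by linarith) (one_le_pow₀ one_le_two)
  have hom0 : 0 < om := by linarith
  -- the trees
  set T : Finset Tr := (E3.sigma fun e => Fm e ×ˢ (Fp e).sigma fun e' => S e'.2.2).image
    fun p => (p.1, p.2.1, p.2.2.1, p.2.2.2) with hT
  have hTm : ∀ τ ∈ T, τ.1 ∈ E3 ∧ τ.2.1 ∈ Fm τ.1 ∧ τ.2.2.1 ∈ Fp τ.1 ∧ τ.2.2.2 ∈ S τ.2.2.1.2.2 := by
    intro τ hτ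
    obtain ⟨p, hp, rfl⟩ := Finset.mem_image.1 hτ
    obtain ⟨p1, p2⟩ := Finset.mem_sigma.1 hp
    obtain ⟨p3, p4⟩ := Finset.mem_product.1 p2
    exact ⟨p1, p3, Finset.mem_sigma.1 p4⟩
  have hTc : (E2.card : ℝ) * δ ^ 2 * s ≤ 2 * ((j + 4 : ℕ) : ℝ) ^ 3 * T.card := by
    rw [hT, Finset.card_image_of_injective _ (by
      rintro ⟨e, e0, e2, g⟩ ⟨e', e0', e2', g'⟩ h
      simp only [Prod.mk.injEq] at h
      obtain ⟨rfl, rfl, rfl, rfl⟩ := h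
      rfl), Finset.card_sigma]
    have a1 : ∀ e ∈ E3, δ ^ 2 * s ≤ ((j + 4 : ℕ) : ℝ) ^ 2 *
        ((Fm e ×ˢ (Fp e).sigma fun e' => S e'.2.2).card : ℝ) := by
      intro e he
      obtain ⟨b1, b2, -, -, b3, -⟩ := hFF e he
      have b4 : ((Fp e).sigma fun e' => S e'.2.2).card = (Fp e).card * s := by
        rw [Finset.card_sigma, ← smul_eq_mul, ← Finset.sum_const]
        exact Finset.sum_congr rfl fun e' h' =>
          (hI _ (hIE _ (Finset.mem_filter.1 (b1 h')).1).2.1).2.1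
      rw [Finset.card_product, b4]
      have b5 := mul_le_mul ((hFc e (hE3 he)).trans b2)
        ((hFc _ (hE2m e (hE3 he)).2.2).trans b3) hδ0.le (by positivity)
      have b6 := mul_le_mul_of_nonneg_right b5 hsr.le
      push_cast at b6 ⊢
      nlinarith
    have a2 := Finset.sum_le_sum a1
    rw [Finset.sum_const, nsmul_eq_mul, ← Finset.mul_sum] at a2
    have a3 := mul_le_mul_of_nonneg_right hE3c (show 0 ≤ δ ^ 2 * s by positivity)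
    have a4 := mul_le_mul_of_nonneg_left a2 hJ.le
    rw [Nat.cast_sum]
    nlinarith
  have hTI : ∀ τ ∈ T, IsT Q K X S τ ∧ τ.1 ∈ E2 ∧ τ.2.1 ∈ E2 ∧ τ.2.2.1 ∈ E2 ∧
      |(b τ.1.2.2 ⨯₃ b τ.1.2.1) ⬝ᵥ b τ.2.1.2.2| ≤ om ∧
      |(b τ.1.2.1 ⨯₃ b τ.1.2.2) ⬝ᵥ b τ.2.2.1.2.2| ≤ om ∧
      (om = fl ∨ om / 2 ≤ |(b τ.1.2.1 ⨯₃ b τ.1.2.2) ⬝ᵥ b τ.2.2.1.2.2|) := by
    intro τ hτ
    obtain ⟨a1, a2, a3, a4⟩ := hTm τ hτ
    obtain ⟨b1, -, b2, b3, -, b4⟩ := hFF _ a1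
    obtain ⟨c1, c2, c3⟩ := Finset.mem_filter.1 (b1 a3)
    obtain ⟨d1, d2, -⟩ := Finset.mem_filter.1 (b3 a2)
    have e1 := hIE _ (hE3 a1)
    refine ⟨⟨e1, hIE _ d1, hIE _ c1, d2, c2, a4, c3⟩, hE3 a1, d1, c1, ?_, ?_, ?_⟩
    · refine (le_lev (hdet _ e1.2.1 _ e1.1 _ (hIE _ d1).2.1)).trans ?_
      exact mul_le_mul_of_nonneg_left (pow_le_pow_right₀ one_le_two (b4 _ a2)) (by linarith)
    · rw [hom, ← b2 _ a3]; exact le_lev (hdet _ e1.1 _ e1.2.1 _ (hIE _ c1).2.1)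
    · rw [hom, ← b2 _ a3]; exact lev_low _ _
  have hv : ∀ x ∈ X, ∀ g ∈ S x, ‖g.2‖ ≤ 1 := fun x h g hg =>
    (pi_norm_le_iff_of_nonneg zero_le_one).2 (hG.1 g ((hI x h).2.2 g hg).1)
  have hlog : 0 ≤ Real.log (2 * Q + 1) := Real.log_nonneg (by linarith)
  have hcM : 0 < cM 3 Q K 1 := by unfold cM; positivity
  set M : ℝ := 2 * ((j + 4 : ℕ) : ℝ) ^ 3 * s ^ 3 * l ^ 2 * cM 3 Q K 1 / δ ^ 3 with hM
  have hM0 : 0 < M := by positivity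
  have hbad := bad_le hG hI hQ hK hl.le hlg hM0 X'
    (T.filter fun τ => M < (hair Q K X S τ.1.2.1 τ.2.2.1.1).card) fun τ hτ => by
      obtain ⟨a1, a2⟩ := Finset.mem_filter.1 hτ
      exact ⟨(hTI τ a1).1, (hE2m _ (hTI τ a1).2.1).2.1, a2⟩
  have hgood := good_le hI hK hl.le hlg hM0.le (n3 := C1 * Q ^ 3 * om)
    (n2 := C2 * K ^ 2 * Mf / om) (by positivity) (by positivity) E2
    (T.filter fun τ => ¬M < (hair Q K X S τ.1.2.1 τ.2.2.1.1).card) (fun τ hτ => by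
      obtain ⟨a1, a2⟩ := Finset.mem_filter.1 hτ
      exact ⟨(hTI τ a1).1, (hTI τ a1).2.2.1, not_lt.1 a2⟩) (fun e D hD hDm => by
      obtain ⟨g0, hg0⟩ := hD
      obtain ⟨τ0, h0, e0, -⟩ := hDm g0 hg0
      have he : e ∈ E2 := e0 ▸ (hTI τ0 (Finset.mem_filter.1 h0).1).2.2.1
      refine hR Q D θ sb om (a e.2.1) (b e.2.1) (b e.2.2) (Sep.mono hG fun g hg => ?_) hθQ hθ1 hθsb
        (hθfl.trans hflom) (hx _ (hIE e he).1).1 (hb _ (hIE e he).1) (hb _ (hIE e he).2.1)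
        (hsbE e he).1 (hsbE e he).2 fun g hg => ?_
      · obtain ⟨τ, h1, -, rfl⟩ := hDm g hg
        have a1 := (hTI τ (Finset.mem_filter.1 h1).1).1
        exact ((hI _ a1.e2.2.1).2.2 _ a1.g3).1
      · obtain ⟨τ, h1, rfl, rfl⟩ := hDm g hg
        obtain ⟨a1, a2, -, a3, a4, a5, -⟩ := hTI τ (Finset.mem_filter.1 h1).1
        have p0 := (hx _ a1.e1.1).2.2.1
        have p1 := (hx _ a1.e1.2.1).2.2.1
        have p2 := (hx _ a1.e2.2.1).2.2.1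
        have q2 := (hsbE _ a3).1
        rw [a1.s2] at q2
        rw [a1.s0]
        exact ⟨τ.1.1.2, τ.2.2.1.1.2, a τ.1.2.2, b τ.1.2.2, a τ.2.2.1.2.2, b τ.2.2.1.2.2,
          hv _ a1.e1.1 _ a1.e1.2.2.1, hv _ a1.e2.1 _ a1.e2.2.2.1, hb _ a1.e1.2.1, hb _ a1.e2.2.1,
          p0 _ a1.e1.2.2.1, p1 _ a1.e1.2.2.2.1, p1 _ (a1.s2 ▸ a1.e2.2.2.1), p2 _ a1.e2.2.2.2.1,
          p2 _ a1.g3, (hsbE _ a2).1, (hsbE _ a2).2, q2, a4, a5⟩) fun x z D hD hDm => by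
      obtain ⟨g0, hg0⟩ := hD
      obtain ⟨τ0, h0, e0, e1, -⟩ := hDm g0 hg0
      have i0 := (hTI τ0 (Finset.mem_filter.1 h0).1).1
      have hxX : x ∈ X := e0 ▸ i0.e1.1
      have hzX : z ∈ X := e1 ▸ i0.e2.2.1
      have hDS : D ⊆ S z := fun g hg => by
        obtain ⟨τ, h1, -, rfl, rfl⟩ := hDm g hg
        exact (hTI τ (Finset.mem_filter.1 h1).1).1.e2.2.2.2.1
      rw [le_div_iff₀ hom0]
      refine hP Q K θ om Mf x z (a x) (b x) (a z) (b z) D ?_ hθQ hθ1 hK hflom (hx x hxX).1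
        (hb x hxX) (hx z hzX).1 (hb z hzX) (hI x hxX).1 (hI z hzX).1 fun g hg =>
          ⟨hv z hzX g (hDS hg), (hx z hzX).2.2.1 g (hDS hg), ?_⟩
      · rw [hθ, mul_one_div]; exact (hx z hzX).2.2.2.2.mono hDS
      obtain ⟨τ, h1, rfl, rfl, rfl⟩ := hDm g hg
      obtain ⟨a1, -, -, -, -, -, a5⟩ := hTI τ (Finset.mem_filter.1 h1).1
      refine a5.imp_right fun a5 => ?_
      have p1 := (hx _ a1.e1.2.1).2.2.1
      have q2 : τ.2.2.1.1 ∈ S τ.1.2.2 := a1.s2 ▸ a1.e2.2.2.1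
      exact ⟨τ.1.1, τ.1.2.2, a τ.1.2.2, b τ.1.2.2, (hI _ a1.e1.2.1).1, hv _ a1.e1.1 _ a1.e1.2.2.1,
        hb _ a1.e1.2.1, ((hI _ a1.e1.1).2.2 _ a1.e1.2.2.1).2,
        ((hI _ a1.e1.2.1).2.2 _ a1.e1.2.2.2.1).2, ((hI _ a1.e1.2.1).2.2 _ q2).2,
        ((hI _ a1.e2.2.1).2.2 _ a1.e2.2.2.2.1).2, a1.s2 ▸ a1.e2.2.2.2.2, a1.tr,
        (hx _ a1.e1.1).2.2.1 _ a1.e1.2.2.1, p1 _ a1.e1.2.2.2.1, p1 _ q2, a5⟩
  have hE2c : 2 * δ * X'.card ≤ E2.card := by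
    have a1 : ∀ x ∈ X', 2 * δ ≤ ((E2.filter fun e => e.2.1 = x).card : ℝ) := fun x h => by
      obtain ⟨B, hB, hB1, hB2⟩ := hdeg x h
      have : (B.card : ℝ) ≤ (E2.filter fun e => e.2.1 = x).card := Nat.cast_le.2
        (Finset.card_le_card fun e he => Finset.mem_filter.2 ⟨hB he, hB1 e he⟩)
      linarith
    have a2 := Finset.sum_le_sum a1
    rw [Finset.sum_const, nsmul_eq_mul, ← Nat.cast_sum, ← Finset.card_eq_sum_card_fiberwise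
      (fun e he => (hE2m e he).1)] at a2
    linarith
  have hsp := card_split T fun τ => M < (hair Q K X S τ.1.2.1 τ.2.2.1.1).card
  have key := alg hsr hl hφ hJ hK (Q3 := (Q : ℝ) ^ 3) (by positivity) hMf hcM (C1 := C1) (C2 := C2)
    (by linarith) (by linarith) (Nat.cast_pos.2 hne'.card_pos) hom0 hδ hM hE2c hTc (by linarith)
  have f1 : ((j + 4 : ℕ) : ℝ) ^ 11 ≤ 4 ^ 11 * ((j : ℝ) + 1) ^ 12 := by
    have j0 : (0 : ℝ) ≤ j := Nat.cast_nonneg _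
    calc _ ≤ (4 * ((j : ℝ) + 1)) ^ 11 := pow_le_pow_left₀ hJ.le (by push_cast; linarith) _
      _ = 4 ^ 11 * ((j : ℝ) + 1) ^ 11 := mul_pow _ _ _
      _ ≤ _ := mul_le_mul_of_nonneg_left (pow_le_pow_right₀ (by linarith) (by norm_num))
          (by norm_num)
  have f2 : K ^ 12 ≤ K ^ 15 := pow_le_pow_right₀ hK (by norm_num)
  calc (s : ℝ) ^ 3 * l ^ 2 * φ ^ 6 ≤ s ^ 3 * l ^ 2 * φ ^ 5 :=
        mul_le_mul_of_nonneg_left (pow_le_pow_of_le_one hφ.le hφ1 (by norm_num)) (by positivity)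
    _ ≤ _ := key
    _ = 10 ^ 7 * (40 * 43 ^ 3) * (C1 * C2) * ((j + 4 : ℕ) : ℝ) ^ 11 * K ^ 12 * Q ^ 4 *
        (1 + Real.log (2 * Q + 1)) * Mf := by unfold cM; ring
    _ ≤ 10 ^ 7 * (40 * 43 ^ 3) * (C1 * C2) * (4 ^ 11 * ((j : ℝ) + 1) ^ 12) * K ^ 15 * Q ^ 4 *
        (1 + Real.log (2 * Q + 1)) * Mf := by gcongr
    _ = _ := by ring

end Pool.Agent.MP_5168f5_an.H83
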