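import Pool.Agent.MP_5168f5_an.H83.Basic

/-! The gain for two-ended shadings. -/

namespace Pool.Agent.MP_5168f5_an.H83

open MeasureTheory Metric Finset Matrix H19 H29 H42
open scoped ENNReal

namespace GAIN

theorem num {m0 : ℝ} (h1 : 0 ≤ m0) (h2 : m0 ≤ 1) (h3 : 0 < 4 * m0 ^ 2 + 5 * m0 - 8) :
    ∃ σ γ : ℝ, 0 < γ ∧ γ ≤ 1 ∧ σ ≤ 1 ∧ ∀ μ, m0 ≤ μ → 9 / 10 ≤ μ ∧ ∀ x y, 0 ≤ y → y ≤ x →
      (3 / 4 + σ + γ) * x + 2 * y ≤ μ * x + (3 - μ) * y ∧
      ∀ H, 0 ≤ H → σ * x - 9 / 4 * y ≤ H →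
        (2 + 3 * γ) * x ≤ 2 * μ * x + μ * H + (4 - 2 * μ) * y := by
  have h4 : 921 / 1000 ≤ m0 := by
    by_contra h
    nlinarith [not_le.1 h]
  obtain ⟨γ, g0, g1, g2⟩ : ∃ γ : ℝ, 0 < γ ∧ γ ≤ 1 / 1000 ∧ 32 * γ ≤ 4 * m0 ^ 2 + 5 * m0 - 8 :=
    ⟨min (1 / 1000) ((4 * m0 ^ 2 + 5 * m0 - 8) / 32), lt_min (by norm_num) (by linarith),
      min_le_left _ _, by linarith [min_le_right (1 / 1000) ((4 * m0 ^ 2 + 5 * m0 - 8) / 32)]⟩
  obtain ⟨σ, hσ⟩ : ∃ σ, σ = m0 - 3 / 4 - γ := ⟨_, rfl⟩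
  have s0 : 17 / 100 ≤ σ := by linarith
  have s1 : σ ≤ 1 / 4 := by linarith
  have a1 : 2 + 3 * γ ≤ m0 * (2 + σ) := by
    rw [hσ]
    nlinarith
  have a2 : 2 + 3 * γ ≤ 2 * m0 + (4 - 2 * m0) * (4 / 9 * σ) := by
    rw [hσ]
    nlinarith [mul_nonneg (sub_nonneg.2 h4) (sub_nonneg.2 h2)]
  refine ⟨σ, γ, g0, by linarith, by linarith, fun μ hμ => ⟨by linarith, fun x y hy hx =>
    ⟨?_, fun H H0 H1 => ?_⟩⟩⟩
  · have := mul_le_mul_of_nonneg_right hμ (sub_nonneg.2 hx)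
    have := mul_le_mul_of_nonneg_right h2 hy
    rw [hσ]
    nlinarith
  · have hx0 : 0 ≤ x := hy.trans hx
    rcases le_total y (4 / 9 * σ * x) with h5 | h5
    · have b1 : 2 + 3 * γ ≤ μ * (2 + σ) := a1.trans (by gcongr)
      have b2 : 2 + 3 * γ ≤ 2 * μ + (4 - 2 * μ) * (4 / 9 * σ) := by nlinarith
      have b3 := mul_le_mul_of_nonneg_left H1 (show 0 ≤ μ by linarith)
      have b4 := mul_le_mul_of_nonneg_right b1 hx0
      have b5 := mul_le_mul_of_nonneg_right b2 hx0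
      rcases le_total 0 (4 - 17 / 4 * μ) with h6 | h6
      · nlinarith [mul_nonneg h6 hy]
      · nlinarith [mul_le_mul_of_nonpos_left h5 h6]
    · have b1 := mul_le_mul_of_nonneg_right hμ (sub_nonneg.2 hx)
      have b2 := mul_le_mul_of_nonneg_left h5 (show 0 ≤ 4 - 2 * m0 by linarith)
      have b3 := mul_le_mul_of_nonneg_right a2 hx0
      have b4 := mul_nonneg (show 0 ≤ μ by linarith) H0
      nlinarith

theorem large {δ : ℝ} (hδ : 0 < δ) (C : ℝ) :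
    ∃ Q0 : ℕ, ∀ Q : ℕ, Q0 ≤ Q → C * (1 + Real.log Q) ≤ (Q : ℝ) ^ δ := by
  have h1 := (tendsto_rpow_atTop (half_pos hδ)).comp tendsto_natCast_atTop_atTop
  obtain ⟨Q0, h2⟩ := Filter.eventually_atTop.1
    (h1.eventually_ge_atTop (|C| * (1 + 2 / δ) + 1))
  refine ⟨Q0 + 1, fun Q hQ => ?_⟩
  have h3 : |C| * (1 + 2 / δ) + 1 ≤ (Q : ℝ) ^ (δ / 2) := h2 Q (by omega)
  have hQ1 : (1 : ℝ) ≤ Q := by exact_mod_cast (by omega : 1 ≤ Q)
  have h4 := Real.log_le_rpow_div (by linarith : (0 : ℝ) ≤ Q) (half_pos hδ)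
  have h5 := Real.one_le_rpow hQ1 (half_pos hδ).le
  have h6 := Real.log_nonneg hQ1
  have e : (Q : ℝ) ^ δ = (Q : ℝ) ^ (δ / 2) * (Q : ℝ) ^ (δ / 2) := by
    rw [← Real.rpow_add (by linarith), add_halves]
  have h7 : 1 + Real.log Q ≤ (1 + 2 / δ) * (Q : ℝ) ^ (δ / 2) := by
    have : (Q : ℝ) ^ (δ / 2) / (δ / 2) = 2 / δ * (Q : ℝ) ^ (δ / 2) := by field_simp
    linarith
  calc C * (1 + Real.log Q) ≤ |C| * ((1 + 2 / δ) * (Q : ℝ) ^ (δ / 2)) :=
        mul_le_mul (le_abs_self C) h7 (by linarith) (abs_nonneg C)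
    _ ≤ _ := by
        rw [e, ← mul_assoc]
        exact mul_le_mul_of_nonneg_right (by linarith) (by linarith)

theorem lg {i : ℕ} {Q : ℝ} (hQ : 1 ≤ Q) (h : (2 : ℝ) ^ i ≤ 125 * Q ^ 3) :
    (i : ℝ) + 1 ≤ 8 * (1 + Real.log Q) := by
  have h1 := Real.log_le_log (by positivity)
    (h.trans (by gcongr; norm_num : 125 * Q ^ 3 ≤ 2 ^ 7 * Q ^ 3))
  rw [Real.log_mul (by positivity) (by positivity), Real.log_pow, Real.log_pow, Real.log_pow] at h1
  have h2 := Real.log_two_gt_d9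
  have h3 := Real.log_nonneg hQ
  push_cast at h1
  by_contra h4
  nlinarith [not_le.1 h4]

theorem dy {H : ℝ} (h : 0 ≤ H) : ∃ (j : ℕ) (a : ℝ), (2 : ℝ) ^ j = Real.exp a ∧ a ≤ H ∧
    H - Real.log 2 ≤ a ∧ (1 ≤ j → 0 < a) := by
  have h2 : 0 < Real.log 2 := Real.log_pos one_lt_two
  refine ⟨⌊H / Real.log 2⌋₊, ⌊H / Real.log 2⌋₊ * Real.log 2, ?_,
    (le_div_iff₀ h2).1 (Nat.floor_le (div_nonneg h h2.le)), ?_,
    fun h3 => mul_pos (by exact_mod_cast h3) h2⟩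
  · rw [Real.exp_nat_mul, Real.exp_log two_pos]
  · have := (div_lt_iff₀ h2).1 (Nat.lt_floor_add_one (H / Real.log 2))
    linarith

theorem cap_weak {m : ℕ} {r r' M M' : ℝ} {A : Finset (Line m)} (h : Cap r M A) (hr : r' ≤ r)
    (hM : M ≤ M') : Cap r' M' A :=
  fun B hB v hv => (h B hB v fun g hg k => (hv g hg k).trans hr).trans hM

theorem det_eq (w : Fin 3 → Line 3) {k k' : Fin 3} (h : k ≠ k') : ∃ j : Fin 4,
    |(Matrix.of (Fin.cons (Pi.single j 1) fun i => dv (w i) : Fin 4 → V 4)).det| =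
      |((w 2).2 k - (w 0).2 k) * ((w 1).2 k' - (w 0).2 k') -
        ((w 2).2 k' - (w 0).2 k') * ((w 1).2 k - (w 0).2 k)| := by
  have key : ∀ j : Fin 4,
      (Matrix.of (Fin.cons (Pi.single j 1) fun i => dv (w i) : Fin 4 → V 4)).det =
      (Pi.single j 1 : V 4) 0 * (Matrix.of fun i => (w i).2).det -
      (Pi.single j 1 : V 4) 1 * (((w 1).2 1 - (w 0).2 1) * ((w 2).2 2 - (w 0).2 2) -
        ((w 1).2 2 - (w 0).2 2) * ((w 2).2 1 - (w 0).2 1)) +
      (Pi.single j 1 : V 4) 2 * (((w 1).2 0 - (w 0).2 0) * ((w 2).2 2 - (w 0).2 2) -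
        ((w 1).2 2 - (w 0).2 2) * ((w 2).2 0 - (w 0).2 0)) -
      (Pi.single j 1 : V 4) 3 * (((w 1).2 0 - (w 0).2 0) * ((w 2).2 1 - (w 0).2 1) -
        ((w 1).2 1 - (w 0).2 1) * ((w 2).2 0 - (w 0).2 0)) := fun j => by
    generalize (Pi.single j 1 : V 4) = e
    have e1 : (Matrix.of (Fin.cons e fun i => dv (w i) : Fin 4 → V 4)) =
        !![e 0, e 1, e 2, e 3; 1, (w 0).2 0, (w 0).2 1, (w 0).2 2;
          1, (w 1).2 0, (w 1).2 1, (w 1).2 2; 1, (w 2).2 0, (w 2).2 1, (w 2).2 2] := by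
      ext i j
      fin_cases i <;> fin_cases j <;> rfl
    rw [e1, Matrix.det_fin_three]
    simp [Matrix.det_succ_row_zero, Fin.sum_univ_succ, Fin.succAbove]
    ring
  fin_cases k <;> fin_cases k' <;> first
    | exact absurd rfl h
    | (refine ⟨1, ?_⟩; rw [key, abs_eq_abs]; simp; first | (left; ring1) | (right; ring1))
    | (refine ⟨2, ?_⟩; rw [key, abs_eq_abs]; simp; first | (left; ring1) | (right; ring1))
    | (refine ⟨3, ?_⟩; rw [key, abs_eq_abs]; simp; first | (left; ring1) | (right; ring1))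

/-- A set that is neither in a cap nor near a line is transversal. -/
theorem geo {K θ M : ℝ} {B : Finset (Line 3)} (hK : 0 < K) (hθ : 0 < θ)
    (h1 : ∀ g ∈ B, ∀ k, |g.2 k| ≤ 1) (hc : Cap (1 / K) M B) (hM : M < B.card)
    (hp : ∀ a b : V 3, ‖a‖ ≤ 1 → ‖b‖ = 1 → ¬ Plany θ a b B) : Tri (θ / K) B := by
  obtain ⟨g1, hg1⟩ : B.Nonempty := card_pos.1 (by exact_mod_cast hc.nonneg.trans_lt hM)
  obtain ⟨g2, hg2, k1, h2⟩ : ∃ g ∈ B, ∃ k, 1 / K < |g.2 k - g1.2 k| := by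
    by_contra h
    push Not at h
    exact absurd (hc B subset_rfl g1.2 h) (not_le.2 hM)
  obtain ⟨k0, h3⟩ := Finite.exists_max fun k => |g2.2 k - g1.2 k|
  have h4 : 1 / K < |g2.2 k0 - g1.2 k0| := h2.trans_le (h3 k1)
  have h5 : 0 < |g2.2 k0 - g1.2 k0| := (one_div_pos.2 hK).trans h4
  have h6 := abs_pos.1 h5
  have h7 := hp g1.2 (fun k => (g2.2 k - g1.2 k) / (g2.2 k0 - g1.2 k0))
    ((pi_norm_le_iff_of_nonneg zero_le_one).2 (h1 g1 hg1)) (le_antisymm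
      ((pi_norm_le_iff_of_nonneg zero_le_one).2 fun k => by
        rw [Real.norm_eq_abs, abs_div, div_le_one h5]
        exact h3 k) (by
        simpa [div_self h6] using
          norm_le_pi_norm (fun k => (g2.2 k - g1.2 k) / (g2.2 k0 - g1.2 k0)) k0))
  simp only [Plany, Nr, not_forall, not_exists, not_le] at h7
  obtain ⟨g3, hg3, h8⟩ := h7
  obtain ⟨k, h9⟩ := h8 (g3.2 k0 - g1.2 k0)
  have h10 : k ≠ k0 := by
    rintro rfl
    rw [div_self h6, mul_one, sub_self, abs_zero] at h9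
    linarith
  obtain ⟨j, hj⟩ := det_eq ![g1, g2, g3] h10
  refine ⟨![g1, g2, g3], fun i => by fin_cases i <;> assumption, j, ?_⟩
  have e : (g3.2 k - g1.2 k) * (g2.2 k0 - g1.2 k0) - (g3.2 k0 - g1.2 k0) * (g2.2 k - g1.2 k) =
      (g3.2 k - g1.2 k - (g3.2 k0 - g1.2 k0) * ((g2.2 k - g1.2 k) / (g2.2 k0 - g1.2 k0))) *
        (g2.2 k0 - g1.2 k0) := by
    field_simp
  refine le_trans ?_ hj.ge
  change _ ≤ |(g3.2 k - g1.2 k) * (g2.2 k0 - g1.2 k0) - (g3.2 k0 - g1.2 k0) * (g2.2 k - g1.2 k)|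
  rw [e, abs_mul, div_eq_mul_one_div]
  exact mul_le_mul h9.le h4.le (by positivity) (abs_nonneg _)

/-- Heights near a given height meet at most seven blocks. -/
theorem ends {Q jK : ℕ} {u η : ℝ} {Y : Finset ℕ} (hK : 2 ^ jK ≤ Q) (hη : 0 ≤ η) (hu : 0 ≤ u)
    (h : ∀ k a : ℕ, 2 ^ k ≤ Q →
      ((Y.filter fun t => t / 2 ^ k = a).card : ℝ) ≤ u * ((2 : ℝ) ^ k / Q) ^ η)
    (t : ℕ) (B : Finset ℕ) (hB : B ⊆ Y) (h1 : ∀ s ∈ B, (2 : ℝ) ^ jK * |(s : ℝ) - t| < Q) :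
    (B.card : ℝ) ≤ 7 * (u * (1 / (2 : ℝ) ^ jK) ^ η) := by
  have hQ : Q ≠ 0 := by
    have := Nat.two_pow_pos jK
    omega
  obtain ⟨k, hk⟩ := Nat.exists_eq_add_of_le (Nat.le_log_of_pow_le one_lt_two hK)
  have h2 : (2 : ℝ) ^ jK * 2 ^ k ≤ Q := by
    rw [← pow_add, ← hk]
    exact_mod_cast Nat.pow_log_le_self 2 hQ
  have h3 : (Q : ℝ) < 2 ^ jK * 2 ^ k * 2 := by
    rw [← pow_add, ← hk, ← pow_succ]
    exact_mod_cast Nat.lt_pow_succ_log_self one_lt_two Q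
  have h4 : 2 ^ k ≤ Q := by
    have : (2 : ℝ) ^ k ≤ Q := le_trans (le_mul_of_one_le_left (by positivity)
      (one_le_pow₀ one_le_two)) h2
    exact_mod_cast this
  have hQ0 : (0 : ℝ) < Q := by positivity
  refine (card_le_of_fib B (fun s => ((s / 2 ^ k : ℕ) : ℤ)) (seg ⌊(t : ℝ) / 2 ^ k⌋ 2)
    (u * (1 / (2 : ℝ) ^ jK) ^ η) (fun s hs => ?_) fun D hD c _ hc => ?_).trans
    (mul_le_mul_of_nonneg_right ((card_seg_le _ zero_le_two).trans (by norm_num)) (by positivity))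
  · rw [div_cast]
    refine floor_mem_seg ?_
    rw [← sub_div, abs_div, abs_of_pos (by positivity : (0 : ℝ) < 2 ^ k),
      div_le_iff₀ (by positivity)]
    have := (h1 s hs).trans h3
    rw [mul_assoc] at this
    linarith [lt_of_mul_lt_mul_left this (by positivity)]
  · refine le_trans (Nat.cast_le.2 (card_le_card fun s hs => mem_filter.2
      ⟨hB (hD hs), ?_⟩)) ((h k c.toNat h4).trans ?_)
    · rw [← hc s hs, Int.toNat_natCast]
    · refine mul_le_mul_of_nonneg_left (Real.rpow_le_rpow (by positivity) ?_ hη) hu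
      rw [div_le_div_iff₀ hQ0 (by positivity)]
      linarith

/-- Dyadic pigeonholing of the degree. -/
theorem pigeon {m : ℕ} {G : Finset (Line m)} {E : Finset (Pt m)} {Y : Line m → Finset ℕ}
    (hY : ∀ g ∈ G, ∀ t ∈ Y g, (cell g t, t) ∈ E) :
    ∃ (i : ℕ) (X : Finset (Pt m)), X ⊆ E ∧ (∀ x ∈ X, 2 ^ i ≤ (thru G id Y x).card) ∧
      ∑ g ∈ G, ((Y g).card : ℝ) ≤ (Nat.log 2 G.card + 1) * (2 * 2 ^ i * X.card) := by
  classical
  obtain ⟨i, -, X, h1, h2, h3⟩ := exists_fib (E.filter fun x => (thru G id Y x).card ≠ 0)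
    (fun x => Nat.log 2 (thru G id Y x).card) (range (Nat.log 2 G.card + 1)) (by simp)
    (fun x => ((thru G id Y x).card : ℝ)) fun x _ => mem_range.2 (Nat.lt_succ_of_le
      (Nat.log_mono_right (card_le_card fun g hg => (mem_thru.1 hg).1)))
  refine ⟨i, X, h1.trans (filter_subset _ _), fun x hx => ?_, ?_⟩
  · rw [← (h2 x (h1 hx)).1 hx]
    exact Nat.pow_log_le_self 2 (mem_filter.1 (h1 hx)).2
  · have e : ∑ g ∈ G, ((Y g).card : ℝ) =
        ∑ x ∈ E.filter fun x => (thru G id Y x).card ≠ 0, ((thru G id Y x).card : ℝ) := by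
      rw [← Nat.cast_sum, ← Nat.cast_sum, sum_filter_ne_zero, sum_thru]
      congr 1
      exact sum_congr rfl fun g hg => congrArg card (filter_true_of_mem (hY g hg)).symm
    rw [card_range] at h3
    push_cast at h3
    refine e.le.trans (h3.trans (mul_le_mul_of_nonneg_left ?_ (by positivity)))
    refine (sum_le_card_nsmul _ _ (2 * 2 ^ i) fun x hx => ?_).trans (by rw [nsmul_eq_mul, mul_comm])
    have := Nat.lt_pow_succ_log_self one_lt_two (thru G id Y x).card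
    rw [(h2 x (h1 hx)).1 hx, pow_succ'] at this
    exact_mod_cast this.le

/-- The three alternatives for the degree. -/
theorem core {Q j : ℕ} {l R K Mk Mf C3 CP : ℝ} {G : Finset (Line 3)} {E : Finset (Pt 3)}
    {Y : Line 3 → Finset ℕ} (hG : Sep Q G) (hne : G.Nonempty) (hl : 0 < l) (hR : 1 ≤ R)
    (hK : 1 ≤ K) (hj : 2 ^ j ≤ Q) (hY : ∀ g ∈ G, ∀ t ∈ Y g, t < Q ∧ (cell g t, t) ∈ E)
    (h2l : ∀ g ∈ G, ((Y g).card : ℝ) ≤ 2 * l) (hs : l * G.card / 2 ≤ ∑ g ∈ G, ((Y g).card : ℝ))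
    (hLg : 16 * ((Nat.log 2 G.card : ℝ) + 1) ≤ R)
    (he : ∀ g ∈ G, ∀ t : ℕ, ∀ B ⊆ Y g, (∀ s ∈ B, K * |(s : ℝ) - t| < Q) →
      (B.card : ℝ) ≤ 1 / R ^ 3 * (2 * l) / 4)
    (hk : ∀ x, Cap (1 / K) Mk (thru G id Y x)) (hf : ∀ x, Cap (2 / 2 ^ j) Mf (thru G id Y x))
    (h3 : 0 < C3) (h3' : C3 ≤ R ^ 2) (hP : CP ≤ R) (hjR : (j : ℝ) + 1 ≤ R)
    (hlog : 1 + Real.log (2 * Q + 1) ≤ R)
    (hT : ∀ (s : ℕ) (l θ : ℝ) (X : Finset (Pt 3)) (S : Pt 3 → Finset (Line 3)),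
      Incid Q s G X S → X.Nonempty → 0 < s → 0 < l → l * G.card ≤ s * X.card → 0 < θ →
      (∀ x ∈ X, Rob (1 / C3) θ (S x)) → (s * θ) ^ 4 * l ^ 17 ≤ C3 * (Q : ℝ) ^ 20)
    (hPl : ∀ (s : ℕ) (l φ : ℝ) (X : Finset (Pt 3))
      (S : Pt 3 → Finset (Line 3)) (a b : Pt 3 → V 3), Incid Q s G X S → X.Nonempty →
      0 < s → 0 < φ → φ ≤ 1 → 0 < l →
      (∀ x ∈ X, ‖a x‖ ≤ 1 ∧ ‖b x‖ = 1 ∧ Plany (1 / 2 ^ j) (a x) (b x) (S x) ∧
        Cap (1 / K) Mk (S x) ∧ Cap (2 / 2 ^ j) Mf (S x)) →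
      (∀ g ∈ G, ∀ B ⊆ X, (∀ x ∈ B, g ∈ S x) → (B.card : ℝ) ≤ l) →
      φ * l * G.card ≤ s * X.card →
      (∀ g ∈ G, ∀ t : ℕ, ∀ B ⊆ X, (∀ x ∈ B, g ∈ S x ∧ K * |(x.2 : ℝ) - t| < Q) →
        (B.card : ℝ) ≤ φ * l / 4) →
      CP * (j + 1) * Mk ≤ φ * s →
      (s : ℝ) ^ 3 * l ^ 2 * φ ^ 6 ≤
        CP * ((j : ℝ) + 1) ^ 12 * K ^ 15 * (Q : ℝ) ^ 4 * (1 + Real.log (2 * Q + 1)) * Mf) :
    ∃ s : ℝ, 0 < s ∧ l * G.card ≤ R * s * E.card ∧ (s ≤ R ^ 7 * Mk ∨
      s ^ 3 * l ^ 2 ≤ R ^ 38 * K ^ 15 * (Q : ℝ) ^ 4 * Mf ∨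
      (1 ≤ j ∧ (s * (1 / 2 ^ j / K)) ^ 4 * (l / R) ^ 17 ≤ R ^ 2 * (Q : ℝ) ^ 20)) := by
  classical
  obtain ⟨i, X, hXE, hX, h1⟩ := pigeon fun g hg t ht => (hY g hg t ht).2
  obtain ⟨s, hs0⟩ : ∃ s : ℝ, s = 2 ^ i := ⟨_, rfl⟩
  have hsp : 0 < s := by rw [hs0]; positivity
  have hR0 : 0 < R := by linarith
  have hMk := (hk 0).nonneg
  have hMf := (hf 0).nonneg
  have hlG : 0 < l * G.card := mul_pos hl (by exact_mod_cast hne.card_pos)
  have h2 : 4 * (l * G.card) ≤ R * s * X.card := by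
    have := mul_le_mul_of_nonneg_right hLg (by positivity : 0 ≤ s * X.card)
    rw [← hs0] at h1
    nlinarith
  have hXc : (X.card : ℝ) ≤ E.card := by exact_mod_cast card_le_card hXE
  refine ⟨s, hsp, by nlinarith [mul_le_mul_of_nonneg_left hXc (mul_pos hR0 hsp).le], ?_⟩
  refine or_iff_not_imp_left.2 fun hn => ?_
  have hn' : R ^ 2 * Mk < s / R ^ 2 / R ^ 3 := by
    rw [lt_div_iff₀ (by positivity), lt_div_iff₀ (by positivity)]
    linarith [not_le.1 hn]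
  have hinc : ∀ (n : ℕ) (X' : Finset (Pt 3)) (S : Pt 3 → Finset (Line 3)), 0 < n →
      (∀ x ∈ X', S x ⊆ thru G id Y x ∧ (S x).card = n) → Incid Q n G X' S :=
    fun n X' S hn h x hx => by
      obtain ⟨g, hg⟩ : (S x).Nonempty := card_pos.1 (by rw [(h x hx).2]; exact hn)
      obtain ⟨a1, a2, -⟩ := mem_thru.1 ((h x hx).1 hg)
      exact ⟨(hY g a1 _ a2).1, (h x hx).2, fun g hg =>
        ⟨(mem_thru.1 ((h x hx).1 hg)).1, (mem_thru.1 ((h x hx).1 hg)).2.2⟩⟩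
  obtain ⟨p, hp⟩ : ∃ p : Pt 3 → Prop, ∀ x, p x ↔ ∃ (a b : V 3) (B : Finset (Line 3)), ‖a‖ ≤ 1 ∧
    ‖b‖ = 1 ∧ B ⊆ thru G id Y x ∧ s / R ^ 2 ≤ B.card ∧ Plany (1 / 2 ^ j) a b B :=
    ⟨_, fun _ => Iff.rfl⟩
  have hsp2 : 0 < s / R ^ 2 := by positivity
  have hsplit : ((X.filter p).card : ℝ) + (X.filter fun x => ¬ p x).card = X.card := by
    exact_mod_cast card_filter_add_card_filter_not p
  have hne' : ∀ X' : Finset (Pt 3), 2 * (l * G.card) ≤ R * s * X'.card → X'.Nonempty :=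
    fun X' h => X'.eq_empty_or_nonempty.resolve_left fun h0 => by
      rw [h0, card_empty, Nat.cast_zero, mul_zero] at h
      linarith
  rcases le_total (X.card : ℝ) (2 * (X.filter p).card) with h4 | h4
  · left
    have h5 : 2 * (l * G.card) ≤ R * s * (X.filter p).card := by
      nlinarith [mul_le_mul_of_nonneg_left h4 (mul_pos hR0 hsp).le]
    have h6 : ∀ x, ∃ (a b : V 3) (S : Finset (Line 3)), p x → ‖a‖ ≤ 1 ∧ ‖b‖ = 1 ∧
        S ⊆ thru G id Y x ∧ S.card = ⌈s / R ^ 2⌉₊ ∧ Plany (1 / 2 ^ j) a b S := fun x => by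
      by_cases hx : p x
      · obtain ⟨a, b, B, b1, b2, b3, b4, b5⟩ := (hp x).1 hx
        obtain ⟨S, b6, b7⟩ := exists_subset_card_eq (Nat.ceil_le.2 b4)
        exact ⟨a, b, S, fun _ => ⟨b1, b2, b6.trans b3, b7, fun g hg => b5 g (b6 hg)⟩⟩
      · exact ⟨0, 0, ∅, fun h => absurd h hx⟩
    choose a b S hS using h6
    have hS' := fun x (hx : x ∈ X.filter p) => hS x (mem_filter.1 hx).2
    have hI := hinc _ _ S (Nat.ceil_pos.2 hsp2) fun x hx => ⟨(hS' x hx).2.2.1, (hS' x hx).2.2.2.1⟩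
    have hce := Nat.le_ceil (s / R ^ 2)
    have him : ∀ g ∈ G, ∀ B ⊆ X.filter p, (∀ x ∈ B, g ∈ S x) →
        (B.image fun x => x.2).card = B.card ∧ (B.image fun x => x.2) ⊆ Y g := fun g _ B hB h =>
      ⟨card_image_of_injOn fun x hx y hy e => hI.eq_of (hB hx) (hB hy) (h x hx) (h y hy) e,
        image_subset_iff.2 fun x hx => (mem_thru.1 ((hS' x (hB hx)).2.2.1 (h x hx))).2.1⟩
    have h7 := hPl _ (2 * l) (1 / R ^ 3) _ S a b hI (hne' _ h5) (Nat.ceil_pos.2 hsp2)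
      (by positivity) ((div_le_one (by positivity)).2 (one_le_pow₀ hR)) (by positivity)
      (fun x hx => ⟨(hS' x hx).1, (hS' x hx).2.1, (hS' x hx).2.2.2.2,
        (hk x).mono (hS' x hx).2.2.1, (hf x).mono (hS' x hx).2.2.1⟩)
      (fun g hg B hB h => by
        rw [← (him g hg B hB h).1]
        exact (Nat.cast_le.2 (card_le_card (him g hg B hB h).2)).trans (h2l g hg))
      (by
        refine le_trans ?_ (mul_le_mul_of_nonneg_right hce (Nat.cast_nonneg _))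
        calc 1 / R ^ 3 * (2 * l) * G.card = 2 * (l * G.card) / R ^ 3 := by ring
          _ ≤ R * s * (X.filter p).card / R ^ 3 := by gcongr
          _ = _ := by field_simp)
      (fun g hg t B hB h => by
        obtain ⟨b1, b2⟩ := him g hg B hB fun x hx => (h x hx).1
        rw [← b1]
        exact he g hg t _ b2 (forall_mem_image.2 fun x hx => (h x hx).2))
      (calc CP * (j + 1) * Mk ≤ R * R * Mk := by gcongr
        _ ≤ s / R ^ 2 / R ^ 3 := by linarith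
        _ ≤ ⌈s / R ^ 2⌉₊ / R ^ 3 := by gcongr
        _ = _ := by ring)
    have hQ1 : (1 : ℝ) ≤ 2 * Q + 1 := by linarith [Nat.cast_nonneg (α := ℝ) Q]
    have := Real.log_nonneg hQ1
    calc s ^ 3 * l ^ 2 = R ^ 24 * ((s / R ^ 2) ^ 3 * l ^ 2 * (1 / R ^ 3) ^ 6) := by field_simp
      _ ≤ R ^ 24 * ((⌈s / R ^ 2⌉₊ : ℝ) ^ 3 * (2 * l) ^ 2 * (1 / R ^ 3) ^ 6) := by
          gcongr
          linarith
      _ ≤ R ^ 24 * (R * R ^ 12 * K ^ 15 * (Q : ℝ) ^ 4 * R * Mf) := by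
          gcongr R ^ 24 * ?_
          refine h7.trans ?_
          gcongr
      _ = _ := by ring
  · right
    have h5 : 2 * (l * G.card) ≤ R * s * (X.filter fun x => ¬ p x).card := by
      nlinarith [mul_le_mul_of_nonneg_left (show (X.card : ℝ) ≤
        2 * (X.filter fun x => ¬ p x).card by linarith) (mul_pos hR0 hsp).le]
    have hsR : s / R ^ 2 ≤ s := div_le_self hsp.le (one_le_pow₀ hR)
    refine ⟨?_, ?_⟩
    · by_contra h6
      obtain rfl : j = 0 := by omega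
      obtain ⟨x, hx⟩ := hne' _ h5
      refine (mem_filter.1 hx).2 ((hp x).2 ⟨0, fun _ => 1, _, by simp, by simp, subset_rfl,
        hsR.trans ?_, fun g hg => ⟨0, fun k => by simpa using hG.1 g (mem_thru.1 hg).1 k⟩⟩)
      rw [hs0]
      exact_mod_cast hX x (mem_filter.1 hx).1
    · have h6 : ∀ x, ∃ S : Finset (Line 3), x ∈ X → S ⊆ thru G id Y x ∧ S.card = 2 ^ i := fun x => by
        by_cases hx : x ∈ X
        · obtain ⟨S, b⟩ := exists_subset_card_eq (hX x hx)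
          exact ⟨S, fun _ => b⟩
        · exact ⟨∅, fun h => absurd h hx⟩
      choose S hS using h6
      have e : ((2 ^ i : ℕ) : ℝ) = s := by rw [hs0]; push_cast; rfl
      have h7 := hT (2 ^ i) (l / R) (1 / 2 ^ j / K) _ S
        (hinc _ _ S (Nat.two_pow_pos i) fun x hx => hS x (mem_filter.1 hx).1) (hne' _ h5)
        (Nat.two_pow_pos i) (by positivity) (by
          rw [e, div_mul_eq_mul_div, div_le_iff₀ hR0]
          linarith) (by positivity) fun x hx B hB hc => by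
          obtain ⟨b1, b2⟩ := hS x (mem_filter.1 hx).1
          have b3 : s / R ^ 2 ≤ B.card := by
            rw [b2, e, one_div_mul_eq_div] at hc
            exact le_trans (by gcongr) hc
          refine geo (by linarith) (by positivity)
            (fun g hg => hG.1 g (mem_thru.1 (b1 (hB hg))).1) ((hk x).mono (hB.trans b1)) ?_
            fun a b b4 b5 b6 => (mem_filter.1 hx).2 ((hp x).2 ⟨a, b, B, b4, b5, hB.trans b1, b3, b6⟩)
          calc Mk ≤ R ^ 2 * Mk := le_mul_of_one_le_left hMk (one_le_pow₀ hR)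
            _ < _ := hn'
            _ ≤ s / R ^ 2 := div_le_self hsp2.le (one_le_pow₀ hR)
            _ ≤ _ := b3
      rw [e] at h7
      exact h7.trans (by gcongr)

theorem mb {C Q l δ d x y r a K : ℝ} (hQ : Q = Real.exp x) (hl : l = Real.exp (x - y))
    (hr : Q ^ δ = Real.exp r) (hK : K = Real.exp a) (hC : C ≤ Real.exp r) :
    C * Q ^ δ * (Q / K) ^ (((3 : ℕ) : ℝ) + 1 - d) * (Q / l) ^ (d - 1) ≤
      Real.exp (2 * r + (4 - d) * (x - a) + (d - 1) * y) := by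
  rw [hr, hQ, hl, hK, ← Real.exp_sub, ← Real.exp_sub, ← Real.exp_mul, ← Real.exp_mul]
  calc _ ≤ Real.exp r * Real.exp r * Real.exp ((x - a) * (((3 : ℕ) : ℝ) + 1 - d)) *
        Real.exp ((x - (x - y)) * (d - 1)) := by gcongr
    _ = _ := by
      rw [← Real.exp_add, ← Real.exp_add, ← Real.exp_add]
      congr 1
      push_cast
      ring

end GAIN

open GAIN in
theorem gain (hT : StmtTRI) (hU : StmtTUBE) (hP : StmtPLANE) : StmtGAIN := by
  intro d0 h3 h4 hq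
  obtain ⟨σ, γ, g0, g1, s1, hnum⟩ := num (m0 := 4 - d0) (by linarith) (by linarith) (by linarith)
  refine ⟨γ / 80, by positivity, fun d d1 d2 hGK η e0 e1 ε hε => ?_⟩
  obtain ⟨δ, hδ⟩ : ∃ δ, δ = γ * η / 800 := ⟨_, rfl⟩
  have δ0 : 0 < δ := by rw [hδ]; positivity
  obtain ⟨C3, c3, hT⟩ := hT 3 (by norm_num) δ δ0
  obtain ⟨CU, cU, hU⟩ := hU 3 d d1 (by push_cast; linarith) hGK δ δ0
  obtain ⟨CP, cP, hP⟩ := hP
  obtain ⟨Q0, hQ0⟩ := large δ0 (1000 + C3 + CU + CP)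
  refine ⟨125 * (Q0 : ℝ) ^ (d + γ / 80) + 1, by positivity, fun Q l G E Y hl hG hY h2l h2e => ?_⟩
  rcases G.eq_empty_or_nonempty with rfl | hne
  · rw [card_empty, Nat.cast_zero, zero_mul]
    positivity
  obtain ⟨g, hg⟩ := id hne
  have hlQ : l ≤ Q := (h2l g hg).1.trans (Nat.cast_le.2
    ((card_le_card fun t ht => mem_range.2 (hY g hg t ht).1).trans (card_range Q).le))
  have hQ1 : (1 : ℝ) ≤ Q := hl.trans hlQ
  have hl0 : 0 < l := by linarith
  have hGc := Sep.card_le hG (by exact_mod_cast (by linarith : (0 : ℝ) < Q))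
  have hE : (1 : ℝ) ≤ E.card := by
    obtain ⟨t, ht⟩ : (Y g).Nonempty := card_pos.1 (by exact_mod_cast hl0.trans_le (h2l g hg).1)
    exact_mod_cast card_pos.2 ⟨_, (hY g hg t ht).2⟩
  have hε1 := Real.one_le_rpow hQ1 hε.le
  rcases le_total Q Q0 with hQ | hQ
  · have h5 : l ^ (d + γ / 80) ≤ (Q0 : ℝ) ^ (d + γ / 80) :=
      Real.rpow_le_rpow hl0.le (hlQ.trans (Nat.cast_le.2 hQ)) (by linarith)
    calc _ ≤ 5 ^ 3 * (Q : ℝ) ^ 3 * (Q0 : ℝ) ^ (d + γ / 80) := by gcongr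
      _ = 125 * (Q0 : ℝ) ^ (d + γ / 80) * 1 * (Q : ℝ) ^ 3 * 1 := by ring
      _ ≤ _ := by
        gcongr
        linarith
  have hR := hQ0 Q hQ
  obtain ⟨x, hx⟩ : ∃ x, x = Real.log Q := ⟨_, rfl⟩
  obtain ⟨y, hy⟩ : ∃ y, y = x - Real.log l := ⟨_, rfl⟩
  obtain ⟨r, hr⟩ : ∃ r, r = x * δ := ⟨_, rfl⟩
  have eQ : (Q : ℝ) = Real.exp x := by rw [hx, Real.exp_log (by linarith)]
  have el : l = Real.exp (x - y) := by rw [hy, sub_sub_cancel, Real.exp_log hl0]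
  have eR : (Q : ℝ) ^ δ = Real.exp r := by rw [hr, Real.exp_mul, ← eQ]
  have y0 : 0 ≤ y := by rw [hy, hx]; linarith [Real.log_le_log hl0 hlQ]
  have yx : y ≤ x := by rw [hy]; linarith [Real.log_nonneg hl]
  have x0 : 0 ≤ x := y0.trans yx
  rw [eR, ← hx] at hR
  have hR' : 1000 + C3 + CU + CP ≤ Real.exp r := le_trans (le_mul_of_one_le_right (by linarith)
    (by linarith)) hR
  have hR1 : 1000 * (1 + x) ≤ Real.exp r := le_trans (by gcongr; linarith) hR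
  have r2 : Real.log 2 ≤ r := (Real.log_le_iff_le_exp two_pos).2 (by linarith)
  have r0 : 0 ≤ r := (Real.log_nonneg one_le_two).trans r2
  have gx : 0 ≤ γ * x := by positivity
  have gx1 : γ * x ≤ x := mul_le_of_le_one_left x0 g1
  have rη : 800 * r = η * (γ * x) := by rw [hr, hδ]; ring
  have rγ : 800 * r ≤ γ * x := rη.trans_le (mul_le_of_le_one_left gx e1)
  obtain ⟨μ0, hnum⟩ := hnum (4 - d) (by linarith)
  obtain ⟨n2, n1⟩ := hnum x y y0 yx
  obtain ⟨jK, k, ek, k1, k2, -⟩ := dy (H := γ * x / 20) (by positivity)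
  obtain ⟨j, h, eh, h1, h2, h0⟩ := dy (le_max_left 0 (σ * x - 9 / 4 * y))
  have hle : ∀ {i : ℕ} {a : ℝ}, (2 : ℝ) ^ i = Real.exp a → a ≤ x → 2 ^ i ≤ Q := fun e ha => by
    have := e.trans_le ((Real.exp_le_exp.2 ha).trans eQ.ge)
    exact_mod_cast this
  have hjK := hle ek (by linarith)
  have hj := hle eh (h1.trans (max_le x0 (by linarith [mul_le_of_le_one_left x0 s1])))
  obtain ⟨Y1, a1, a2, a3⟩ := hU Q jK l G Y hjK hG (fun g hg t ht => (hY g hg t ht).1) hl0 hlQ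
  obtain ⟨Y2, b1, b2, b3⟩ := hU Q j l G Y1 hj hG (fun g hg t ht => (hY g hg t (a1 g ht)).1) hl0 hlQ
  have hsum : l * G.card ≤ ∑ g ∈ G, ((Y g).card : ℝ) := by
    rw [mul_comm, ← nsmul_eq_mul]
    exact card_nsmul_le_sum _ _ _ fun g hg => (h2l g hg).1
  have hK1 : (1 : ℝ) ≤ 2 ^ jK := one_le_pow₀ one_le_two
  have hQ3 : (Q : ℝ) ≤ 125 * (Q : ℝ) ^ 3 := by nlinarith [one_le_pow₀ (n := 2) hQ1]
  obtain ⟨s, hs, c1, c2⟩ := core (R := Real.exp r) (K := 2 ^ jK) (C3 := C3 * (Q : ℝ) ^ δ)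
    (E := E) (Y := Y2) hG hne hl0 (by linarith) hK1 hj (fun g hg t ht => hY g hg t (a1 g (b1 g ht)))
    (fun g hg => (Nat.cast_le.2 (card_le_card ((b1 g).trans (a1 g)))).trans (h2l g hg).2)
    (by linarith) (by
      have := lg hQ1 (i := Nat.log 2 G.card) (le_trans (by
        exact_mod_cast Nat.pow_log_le_self 2 hne.card_pos.ne') (hGc.trans (by norm_num)))
      linarith)
    (fun g hg t B hB hb => by
      refine (ends hjK e0.le (by linarith) (h2e g hg) t B (hB.trans ((b1 g).trans (a1 g))) hb).trans ?_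
      have h5 : 28 * Real.exp r ^ 3 ≤ Real.exp k ^ η := by
        calc _ ≤ Real.exp r * Real.exp r ^ 3 := by gcongr; linarith
          _ ≤ _ := by
            rw [← Real.exp_nat_mul, ← Real.exp_add, ← Real.exp_mul, Real.exp_le_exp]
            have := mul_le_mul_of_nonneg_left (show γ * x / 20 - r ≤ k by linarith) e0.le
            have := mul_le_of_le_one_left r0 e1
            push_cast
            linarith
      rw [ek, one_div, Real.inv_rpow (by positivity)]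
      calc _ ≤ 7 * (2 * l * (28 * Real.exp r ^ 3)⁻¹) := by gcongr
        _ = _ := by
          field_simp
          norm_num)
    (fun z => cap_weak ((a3 z).mono fun g hg => mem_thru.2 ⟨(mem_thru.1 hg).1,
      b1 g (mem_thru.1 hg).2.1, (mem_thru.1 hg).2.2⟩) (by gcongr; norm_num)
      (mb eQ el eR ek (by linarith)))
    (fun z => cap_weak (b3 z) le_rfl (mb eQ el eR eh (by linarith))) (by positivity)
    (by rw [eR, sq]; gcongr; linarith) (show CP ≤ _ by linarith) (by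
      have := lg hQ1 (i := j) (le_trans (by exact_mod_cast hj) hQ3)
      linarith) (by
      have h5 := Real.log_le_log (by linarith) (show 2 * (Q : ℝ) + 1 ≤ 3 * Q by linarith)
      rw [Real.log_mul (by norm_num) (by linarith)] at h5
      linarith [Real.log_le_sub_one_of_pos (show (0 : ℝ) < 3 by norm_num)])
    (fun s l θ X S => hT Q s l θ G X S hG)
    (fun s l φ X S a b i1 i2 i3 => hP Q s j _ l φ _ _ G X S a b hG i1 i2 i3 hj hK1)
  obtain ⟨a, rfl⟩ : ∃ a, s = Real.exp a := ⟨_, (Real.exp_log hs).symm⟩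
  have m1 := mul_le_mul_of_nonneg_right (show 4 - d ≤ 3 by linarith) r0
  have key : a + r ≤ (4 - d) * x + (d - 1) * y - γ * x / 80 := by
    rw [eh, ek, eQ, el] at c2
    simp only [one_div, ← Real.exp_neg, ← Real.exp_nat_mul, ← Real.exp_add, ← Real.exp_sub,
      Real.exp_le_exp] at c2
    push_cast at c2
    rcases c2 with c2 | c2 | ⟨c2, c3⟩
    · have := mul_le_mul_of_nonneg_left (show γ * x / 20 - r ≤ k by linarith)
        (show 0 ≤ 4 - d by linarith)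
      have := mul_le_mul_of_nonneg_right μ0 gx
      linarith
    · have := mul_le_mul_of_nonneg_left (show max 0 (σ * x - 9 / 4 * y) - r ≤ h by linarith)
        (show 0 ≤ 4 - d by linarith)
      have := n1 _ (le_max_left _ _) (le_max_right _ _)
      linarith
    · have := (le_max_iff.1 h1).resolve_left (not_le.2 (h0 c2))
      linarith
  have e1 : l ^ (d + γ / 80) = l * Real.exp ((x - y) * (d - 1 + γ / 80)) := by
    rw [el, ← Real.exp_mul, ← Real.exp_add]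
    congr 1
    ring
  calc _ = l * G.card * Real.exp ((x - y) * (d - 1 + γ / 80)) := by rw [e1]; ring
    _ ≤ Real.exp r * Real.exp a * E.card * Real.exp ((x - y) * (d - 1 + γ / 80)) := by gcongr
    _ = Real.exp (r + a + (x - y) * (d - 1 + γ / 80)) * E.card := by
        rw [Real.exp_add, Real.exp_add]
        ring
    _ ≤ 1 * 1 * (Q : ℝ) ^ 3 * E.card := by
        rw [one_mul, one_mul, eQ, ← Real.exp_nat_mul]
        refine mul_le_mul_of_nonneg_right (Real.exp_le_exp.2 ?_) (Nat.cast_nonneg _)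
        push_cast
        linarith [mul_nonneg g0.le y0]
    _ ≤ _ := by
        have := Real.rpow_nonneg (Nat.cast_nonneg (α := ℝ) Q0) (d + γ / 80)
        exact mul_le_mul_of_nonneg_right (mul_le_mul_of_nonneg_right (mul_le_mul (by linarith) hε1
          zero_le_one (by linarith)) (pow_nonneg (Nat.cast_nonneg _) _)) (Nat.cast_nonneg _)

end Pool.Agent.MP_5168f5_an.H83
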