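import Pool.Agent.MP_5168f5_an.H83.Basic

/-! Abstract counting tools for the planar estimate. -/

namespace Pool.Agent.MP_5168f5_an.H83.PLANE

open Finset H19 H29

/-- Counting through the image and the fibres of a map. -/
theorem fib_bound {α β : Type} (A : Finset α) (f : α → β) {n u : ℝ} (hu : 0 ≤ u)
    (h1 : ∀ T : Finset β, (∀ c ∈ T, ∃ a ∈ A, f a = c) → (T.card : ℝ) ≤ n)
    (h2 : ∀ B ⊆ A, ∀ c, (∀ a ∈ B, f a = c) → (B.card : ℝ) ≤ u) : (A.card : ℝ) ≤ n * u := by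
  classical
  refine (card_le_of_fib A f (A.image f) u (fun i hi => Finset.mem_image_of_mem f hi)
    fun B hB c _ hc => h2 B hB c hc).trans ?_
  exact mul_le_mul_of_nonneg_right (h1 _ fun c hc => Finset.mem_image.1 hc) hu

theorem card_le_one' {α : Type} (A : Finset α) (h : ∀ a ∈ A, ∀ b ∈ A, a = b) : (A.card : ℝ) ≤ 1 := by
  exact_mod_cast Finset.card_le_one.2 h

/-- The dyadic level of `w` above the floor `F`. -/
noncomputable def lev (F w : ℝ) : ℕ := sInf {i : ℕ | w ≤ F * 2 ^ i}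

theorem lev_le {F w : ℝ} {N : ℕ} (h : w ≤ F * 2 ^ N) : lev F w ≤ N := Nat.sInf_le h

theorem le_lev {F w : ℝ} {N : ℕ} (h : w ≤ F * 2 ^ N) : w ≤ F * 2 ^ lev F w :=
  Nat.sInf_mem (s := {i : ℕ | w ≤ F * 2 ^ i}) ⟨N, h⟩

theorem lev_low (F w : ℝ) : F * 2 ^ lev F w = F ∨ F * 2 ^ lev F w / 2 ≤ w := by
  rcases h : lev F w with _ | i
  · left; simp
  · right
    have h1 : i ∉ {i : ℕ | w ≤ F * 2 ^ i} := Nat.notMem_of_lt_sInf (by unfold lev at h; omega)
    have h2 : F * 2 ^ i < w := not_le.1 h1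
    rw [pow_succ]; linarith

/-- Passing to a subgraph of large minimal degree. -/
theorem prune {α ε : Type} (X : Finset α) (E : Finset ε) (src tgt : ε → α) (rev : ε → ε)
    (hX : ∀ e ∈ E, src e ∈ X ∧ tgt e ∈ X) (hr : ∀ e ∈ E, rev e ∈ E) (hrr : ∀ e, rev (rev e) = e)
    (hs : ∀ e, src (rev e) = tgt e) {d : ℝ} (hd : 0 < d) (hne : X.Nonempty)
    (hE : d * X.card ≤ E.card) :
    ∃ X' ⊆ X, X'.Nonempty ∧ ∃ E' ⊆ E, (∀ e ∈ E', src e ∈ X' ∧ tgt e ∈ X' ∧ rev e ∈ E') ∧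
      ∀ x ∈ X', ∃ B ⊆ E', (∀ e ∈ B, src e = x) ∧ d / 4 ≤ B.card := by
  classical
  have ht : ∀ e, tgt (rev e) = src e := fun e => by rw [← hs, hrr]
  set EE : Finset α → Finset ε := fun Z => E.filter fun e => src e ∈ Z ∧ tgt e ∈ Z with hEE
  obtain ⟨Z, hZ, hmax⟩ := Finset.exists_max_image X.powerset
    (fun Z => ((EE Z).card : ℝ) - d / 2 * Z.card) ⟨∅, Finset.empty_mem_powerset _⟩
  have hZX := Finset.mem_powerset.1 hZ
  have h1 : EE X = E := Finset.filter_true_of_mem hX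
  have h2 := hmax X (Finset.mem_powerset_self X)
  have h3 : (0 : ℝ) < X.card := by exact_mod_cast hne.card_pos
  refine ⟨Z, hZX, ?_, EE Z, Finset.filter_subset _ _, ?_, ?_⟩
  · rcases Z.eq_empty_or_nonempty with rfl | h
    · have : EE ∅ = ∅ := by simp [hEE]
      rw [h1, this] at h2
      simp only [Finset.card_empty, Nat.cast_zero] at h2
      nlinarith
    · exact h
  · intro e he
    obtain ⟨e1, e2, e3⟩ := Finset.mem_filter.1 he
    exact ⟨e2, e3, Finset.mem_filter.2 ⟨hr e e1, by rw [hs, ht]; exact ⟨e3, e2⟩⟩⟩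
  · intro x hx
    refine ⟨(EE Z).filter fun e => src e = x, Finset.filter_subset _ _,
      fun e he => (Finset.mem_filter.1 he).2, ?_⟩
    have h4 := hmax (Z.erase x) (Finset.mem_powerset.2 ((Finset.erase_subset _ _).trans hZX))
    have h5 : ((Z.erase x).card : ℝ) + 1 = Z.card := by exact_mod_cast Finset.card_erase_add_one hx
    have h6 : ((EE Z).filter fun e => tgt e = x).card ≤ ((EE Z).filter fun e => src e = x).card := by
      refine Finset.card_le_card_of_injOn rev ?_ fun a _ b _ e => by rw [← hrr a, e, hrr]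
      intro e he
      obtain ⟨e0, e4⟩ := Finset.mem_filter.1 he
      obtain ⟨e1, e2, e3⟩ := Finset.mem_filter.1 e0
      exact Finset.mem_filter.2 ⟨Finset.mem_filter.2 ⟨hr e e1, by rw [hs, ht]; exact ⟨e3, e2⟩⟩,
        by rw [hs]; exact e4⟩
    have h7 : EE Z ⊆ EE (Z.erase x) ∪ (((EE Z).filter fun e => src e = x) ∪
        ((EE Z).filter fun e => tgt e = x)) := by
      intro e he
      obtain ⟨e1, e2, e3⟩ := Finset.mem_filter.1 he
      simp only [Finset.mem_union, Finset.mem_filter, hEE, Finset.mem_erase]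
      tauto
    have h8 := (Finset.card_le_card h7).trans ((Finset.card_union_le _ _).trans
      (Nat.add_le_add_left (Finset.card_union_le _ _) _))
    have h9 : ((EE Z).card : ℝ) ≤ (EE (Z.erase x)).card +
        2 * (((EE Z).filter fun e => src e = x).card : ℝ) := by exact_mod_cast (by omega)
    nlinarith

/-- Popular levels in both directions. -/
theorem levels {ε : Type} (E : Finset ε) (rev : ε → ε) (hr : ∀ e ∈ E, rev e ∈ E)
    (hrr : ∀ e, rev (rev e) = e) (F : ε → Finset ε) (lv : ε → ε → ℕ) {J : ℕ} (hJ : 0 < J)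
    (hlv : ∀ e ∈ E, ∀ e' ∈ F e, lv e e' < J) :
    ∃ i : ℕ, ∃ E3 ⊆ E, (E.card : ℝ) ≤ 2 * J * E3.card ∧ ∃ Fp Fm : ε → Finset ε, ∀ e ∈ E3,
      Fp e ⊆ F e ∧ ((F e).card : ℝ) ≤ J * (Fp e).card ∧ (∀ e' ∈ Fp e, lv e e' = i) ∧
      Fm e ⊆ F (rev e) ∧ ((F (rev e)).card : ℝ) ≤ J * (Fm e).card ∧
      ∀ e' ∈ Fm e, lv (rev e) e' ≤ i := by
  classical
  have h0 : ∀ e, ∃ c : ℕ, ∃ B : Finset ε, e ∈ E → c < J ∧ B ⊆ F e ∧ (∀ e' ∈ B, lv e e' = c) ∧
      ((F e).card : ℝ) ≤ J * B.card := by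
    intro e
    by_cases he : e ∈ E
    · obtain ⟨c, hc, B, hB, h1, h2⟩ := exists_fib (F e) (lv e) (Finset.range J)
        ⟨0, Finset.mem_range.2 hJ⟩ (fun _ => 1) fun i hi => Finset.mem_range.2 (hlv e he i hi)
      refine ⟨c, B, fun _ => ⟨Finset.mem_range.1 hc, hB, fun e' he' => (h1 e' (hB he')).1 he', ?_⟩⟩
      simpa using h2
    · exact ⟨0, ∅, fun h => absurd h he⟩
  choose jp B hB using h0
  set A := E.filter fun e => jp (rev e) ≤ jp e with hA
  have h1 : (E.filter fun e => ¬jp (rev e) ≤ jp e).card ≤ A.card := by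
    refine Finset.card_le_card_of_injOn rev ?_ fun a _ b _ e => by rw [← hrr a, e, hrr]
    intro e he
    obtain ⟨e1, e2⟩ := Finset.mem_filter.1 he
    exact Finset.mem_filter.2 ⟨hr e e1, by rw [hrr]; omega⟩
  have h2 : (E.card : ℝ) ≤ 2 * A.card := by
    have := Finset.card_filter_add_card_filter_not (s := E) fun e => jp (rev e) ≤ jp e
    rw [← hA] at this
    exact_mod_cast (by omega : E.card ≤ 2 * A.card)
  obtain ⟨c, -, E3, h3, h4, h5⟩ := exists_fib A jp (Finset.range J) ⟨0, Finset.mem_range.2 hJ⟩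
    (fun _ => 1) fun e he => Finset.mem_range.2 (hB e (Finset.mem_filter.1 he).1).1
  simp only [Finset.sum_const, nsmul_eq_mul, mul_one, Finset.card_range] at h5
  refine ⟨c, E3, h3.trans (Finset.filter_subset _ _), by linarith, B, fun e => B (rev e), ?_⟩
  intro e he
  obtain ⟨e1, e2⟩ := Finset.mem_filter.1 (h3 he)
  have e3 := (h4 e (h3 he)).1 he
  obtain ⟨-, a2, a3, a4⟩ := hB e e1
  obtain ⟨-, b2, b3, b4⟩ := hB _ (hr e e1)
  exact ⟨a2, a4, fun e' h => (a3 e' h).trans e3, b2, b4, fun e' h => by rw [b3 e' h, ← e3]; exact e2⟩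

/-- An edge: a line and two cells on it. -/
abbrev Edge : Type := Line 3 × Pt 3 × Pt 3

/-- The reversed edge. -/
def rev (e : Edge) : Edge := (e.1, e.2.2, e.2.1)

/-- The condition on an edge. -/
def IsE (Q : ℕ) (K : ℝ) (X : Finset (Pt 3)) (S : Pt 3 → Finset (Line 3)) (e : Edge) : Prop :=
  e.2.1 ∈ X ∧ e.2.2 ∈ X ∧ e.1 ∈ S e.2.1 ∧ e.1 ∈ S e.2.2 ∧ (Q : ℝ) ≤ K * |(e.2.1.2 : ℝ) - e.2.2.2|

theorem IsE.rev {Q : ℕ} {K : ℝ} {X : Finset (Pt 3)} {S : Pt 3 → Finset (Line 3)} {e : Edge}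
    (h : IsE Q K X S e) : IsE Q K X S (rev e) :=
  ⟨h.2.1, h.1, h.2.2.2.1, h.2.2.1, by rw [abs_sub_comm]; exact h.2.2.2.2⟩

/-- There are many edges. -/
theorem edges {Q s : ℕ} {K l φ : ℝ} {G : Finset (Line 3)} {X : Finset (Pt 3)}
    {S : Pt 3 → Finset (Line 3)} (hI : Incid Q s G X S) (hφl : 0 < φ * l)
    (hav : φ * l * G.card ≤ s * X.card)
    (h2e : ∀ g ∈ G, ∀ t : ℕ, ∀ B ⊆ X, (∀ x ∈ B, g ∈ S x ∧ K * |(x.2 : ℝ) - t| < Q) →
      (B.card : ℝ) ≤ φ * l / 4) :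
    ∃ E : Finset Edge, (∀ e, e ∈ E ↔ IsE Q K X S e) ∧ 3 / 4 * (φ * l) * s * X.card ≤ E.card := by
  classical
  set Y : Line 3 → Finset (Pt 3) := fun g => X.filter fun x => g ∈ S x with hY
  refine ⟨(G ×ˢ X ×ˢ X).filter (IsE Q K X S), fun e => ?_, ?_⟩
  · rw [Finset.mem_filter]
    exact ⟨fun h => h.2, fun h => ⟨Finset.mem_product.2 ⟨((hI _ h.1).2.2 _ h.2.2.1).1,
      Finset.mem_product.2 ⟨h.1, h.2.1⟩⟩, h⟩⟩
  have h1 : ∑ g ∈ G, ((Y g).card : ℝ) = s * X.card := by exact_mod_cast hI.sum_card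
  have h2 : ∀ g ∈ G, ((Y g).card : ℝ) * ((Y g).card - φ * l / 4) ≤
      ∑ x ∈ X, ∑ y ∈ X, if IsE Q K X S (g, x, y) then (1 : ℝ) else 0 := by
    intro g hg
    calc _ = ∑ _x ∈ Y g, (((Y g).card : ℝ) - φ * l / 4) := by rw [Finset.sum_const, nsmul_eq_mul]
      _ ≤ ∑ x ∈ Y g, ∑ y ∈ X, if IsE Q K X S (g, x, y) then (1 : ℝ) else 0 := by
        refine Finset.sum_le_sum fun x hx => ?_
        obtain ⟨x1, x2⟩ := Finset.mem_filter.1 hx
        have a1 := card_split (Y g) fun y => K * |(y.2 : ℝ) - x.2| < Q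
        have a2 := h2e g hg x.2 ((Y g).filter fun y => K * |(y.2 : ℝ) - x.2| < Q)
          ((Finset.filter_subset _ _).trans (Finset.filter_subset _ _)) fun y hy =>
            ⟨(Finset.mem_filter.1 (Finset.mem_filter.1 hy).1).2, (Finset.mem_filter.1 hy).2⟩
        have a3 : ((Y g).filter fun y => ¬K * |(y.2 : ℝ) - x.2| < Q) ⊆
            X.filter fun y => IsE Q K X S (g, x, y) := by
          intro y hy
          obtain ⟨y0, y3⟩ := Finset.mem_filter.1 hy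
          obtain ⟨y1, y2⟩ := Finset.mem_filter.1 y0
          exact Finset.mem_filter.2 ⟨y1, x1, y1, x2, y2, by rw [abs_sub_comm]; exact not_lt.1 y3⟩
        have a4 : (((Y g).filter fun y => ¬K * |(y.2 : ℝ) - x.2| < Q).card : ℝ) ≤
            (X.filter fun y => IsE Q K X S (g, x, y)).card := by
          exact_mod_cast Finset.card_le_card a3
        rw [Finset.sum_boole]
        linarith
      _ ≤ _ := Finset.sum_le_sum_of_subset_of_nonneg (Finset.filter_subset _ _) fun _ _ _ =>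
          Finset.sum_nonneg fun _ _ => by split_ifs <;> norm_num
  have h3 : (((G ×ˢ X ×ˢ X).filter (IsE Q K X S)).card : ℝ) =
      ∑ g ∈ G, ∑ x ∈ X, ∑ y ∈ X, if IsE Q K X S (g, x, y) then (1 : ℝ) else 0 := by
    rw [← Finset.sum_boole, Finset.sum_product]
    exact Finset.sum_congr rfl fun g _ => Finset.sum_product _ _ _
  have h4 : ∀ g ∈ G, 2 * (φ * l) * (Y g).card - (φ * l) ^ 2 - (Y g).card * (φ * l / 4) ≤
      ((Y g).card : ℝ) * ((Y g).card - φ * l / 4) := fun g _ => by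
    nlinarith [sq_nonneg (((Y g).card : ℝ) - φ * l)]
  have h5 := (Finset.sum_le_sum h4).trans (Finset.sum_le_sum h2)
  rw [Finset.sum_sub_distrib, Finset.sum_sub_distrib, ← Finset.mul_sum, ← Finset.sum_mul, h1,
    Finset.sum_const, nsmul_eq_mul] at h5
  rw [h3]
  nlinarith [mul_le_mul_of_nonneg_left hav hφl.le]

end Pool.Agent.MP_5168f5_an.H83.PLANE
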