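import Pool.Agent.MP_5168f5_an.H83.Basic

/-! Row BOX: a polynomial that bisects all small parallelepipeds. -/

namespace Pool.Agent.MP_5168f5_an.H83

open MeasureTheory Metric Finset Matrix H19 H29 H42
open scoped ENNReal

namespace BOX

variable {n : ℕ}

/-- half open unit cube -/
def cb (z : Fin n → ℤ) : Set (V n) := Set.pi Set.univ fun i => Set.Ico (z i : ℝ) (z i + 1)

theorem measurableSet_cb (z : Fin n → ℤ) : MeasurableSet (cb z) :=
  MeasurableSet.univ_pi fun _ => measurableSet_Ico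

theorem vol_cb (z : Fin n → ℤ) : volume (cb z) = 1 := by
  simp [cb, Real.volume_pi_Ico]

theorem floor_of_mem {z : Fin n → ℤ} {b : V n} (h : b ∈ cb z) (i : Fin n) : ⌊b i⌋ = z i :=
  Int.floor_eq_iff.2 (h i (Set.mem_univ i))

theorem mem_cb_floor (b : V n) : b ∈ cb fun i => ⌊b i⌋ := fun _ _ =>
  ⟨Int.floor_le _, Int.lt_floor_add_one _⟩

theorem norm_sub_le {z : Fin n → ℤ} {b b' : V n} (h : b ∈ cb z) (h' : b' ∈ cb z) :
    ‖b' - b‖ ≤ 1 := by
  refine (pi_norm_le_iff_of_nonneg zero_le_one).2 fun i => ?_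
  have h1 := h i (Set.mem_univ i)
  have h2 := h' i (Set.mem_univ i)
  rw [Pi.sub_apply, Real.norm_eq_abs, abs_le]
  constructor <;> linarith [h1.1, h1.2, h2.1, h2.2]

theorem corner_mem (z : Fin n → ℤ) : (fun i => (z i : ℝ)) ∈ cb z := fun _ _ =>
  ⟨le_rfl, lt_add_one _⟩

/-- the parallelepiped with index `z` -/
def bx (L : V n ≃ₗ[ℝ] V n) (z : Fin n → ℤ) : Set (V n) := L.symm ⁻¹' cb z

theorem meas_equiv (L : V n ≃ₗ[ℝ] V n) : Measurable L :=
  (LinearMap.continuous_of_finiteDimensional (L : V n →ₗ[ℝ] V n)).measurable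

theorem measurableSet_bx (L : V n ≃ₗ[ℝ] V n) (z : Fin n → ℤ) : MeasurableSet (bx L z) :=
  meas_equiv L.symm (measurableSet_cb z)

theorem vol_pre (L : V n ≃ₗ[ℝ] V n) (A : Set (V n)) :
    volume (L.symm ⁻¹' A) = ENNReal.ofReal |LinearMap.det (L : V n →ₗ[ℝ] V n)| * volume A := by
  rw [Measure.addHaar_preimage_linearEquiv, LinearEquiv.symm_symm]

theorem vol_bx (L : V n ≃ₗ[ℝ] V n) (z : Fin n → ℤ) :
    volume (bx L z) = ENNReal.ofReal |LinearMap.det (L : V n →ₗ[ℝ] V n)| := by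
  rw [bx, vol_pre, vol_cb, mul_one]

theorem disj_bx (L : V n ≃ₗ[ℝ] V n) (Z : Finset (Fin n → ℤ)) (A : Set (V n)) :
    Set.PairwiseDisjoint (Z : Set (Fin n → ℤ)) fun z => bx L z ∩ A := by
  intro z _ z' _ hne
  refine Set.disjoint_left.2 fun y h h' => hne (funext fun i => ?_)
  rw [← floor_of_mem h.1 i, ← floor_of_mem h'.1 i]

theorem finite_Z (L : V n ≃ₗ[ℝ] V n) (c : V n) :
    {z : Fin n → ℤ | L (fun i => (z i : ℝ)) ∈ closedBall c 1}.Finite := by
  obtain ⟨K, hK, h⟩ := (LinearMap.toContinuousLinearMap (L.symm : V n →ₗ[ℝ] V n)).bound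
  refine (Set.finite_Icc (fun _ : Fin n => -⌈K * (‖c‖ + 1)⌉) (fun _ => ⌈K * (‖c‖ + 1)⌉)).subset
    fun z hz => ?_
  have h1 := h (L fun i => (z i : ℝ))
  have h2 : ‖L fun i => (z i : ℝ)‖ ≤ ‖c‖ + 1 := by
    have h3 := mem_closedBall_iff_norm.1 hz
    have h4 := norm_le_insert' (L fun i => (z i : ℝ)) c
    linarith
  have h3 : ‖fun i => (z i : ℝ)‖ ≤ (⌈K * (‖c‖ + 1)⌉ : ℤ) := by
    refine le_trans ?_ (Int.le_ceil _)
    simpa using h1.trans (mul_le_mul_of_nonneg_left h2 hK.le)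
  have h4 : ∀ i, |z i| ≤ ⌈K * (‖c‖ + 1)⌉ := fun i => by
    have h5 := (norm_le_pi_norm (fun i => (z i : ℝ)) i).trans h3
    rw [Real.norm_eq_abs] at h5
    exact_mod_cast h5
  exact ⟨fun i => (abs_le.1 (h4 i)).1, fun i => (abs_le.1 (h4 i)).2⟩

theorem half_le {a b : ℝ≥0∞} (h : a ≤ b + b) : a / 2 ≤ b := by
  rw [← two_mul] at h
  exact ENNReal.div_le_of_le_mul' h

theorem one (L : V n ≃ₗ[ℝ] V n) (hL : ∀ b, ‖L b‖ ≤ ‖b‖ / 2) (c : V n) :
    ∃ Z : Finset (Fin n → ℤ), (Z.card : ℝ) * |LinearMap.det (L : V n →ₗ[ℝ] V n)| ≤ 4 ^ n ∧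
      ∀ F : V n → ℝ, Measurable F → volume {y | F y = 0} = 0 →
        (∀ z ∈ Z, volume (bx L z ∩ {y | 0 < F y}) = volume (bx L z ∩ {y | F y < 0})) →
        ∃ β : V n, ‖β‖ ≤ 1 ∧ ENNReal.ofReal (1 / 2 ^ (n + 3)) ≤
          volume (closedBall c 2 ∩ chg F (L β)) := by
  classical
  set D := ENNReal.ofReal |LinearMap.det (L : V n →ₗ[ℝ] V n)| with hD
  have hD0 : D ≠ 0 := by
    have := (LinearEquiv.isUnit_det' L).ne_zero
    simpa [hD] using this
  have hDt : D ≠ ∞ := ENNReal.ofReal_ne_top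
  have near : ∀ z y, y ∈ bx L z → ‖y - L fun i => (z i : ℝ)‖ ≤ 1 / 2 := fun z y hy => by
    have h1 := hL (L.symm y - fun i => (z i : ℝ))
    rw [map_sub, LinearEquiv.apply_symm_apply] at h1
    have h2 := norm_sub_le (corner_mem z) hy
    linarith
  obtain ⟨Z, hZ⟩ : ∃ Z : Finset (Fin n → ℤ), ∀ z, z ∈ Z ↔ L (fun i => (z i : ℝ)) ∈ closedBall c 1 :=
    ⟨(finite_Z L c).toFinset, fun z => by simp⟩
  have hsub : ∀ z ∈ Z, bx L z ⊆ closedBall c 2 := fun z hz y hy => by
    have h1 := near z y hy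
    have h2 := mem_closedBall_iff_norm.1 ((hZ z).1 hz)
    have h3 := norm_sub_le_norm_sub_add_norm_sub y (L fun i => (z i : ℝ)) c
    exact mem_closedBall_iff_norm.2 (by linarith)
  have hcov : closedBall c (1 / 2) ⊆ ⋃ z ∈ Z, bx L z := fun y hy => by
    have h0 : y ∈ bx L fun i => ⌊L.symm y i⌋ := mem_cb_floor _
    refine Set.mem_biUnion (Finset.mem_coe.2 ((hZ _).2 ?_)) h0
    have h1 := near _ y h0
    have h2 := mem_closedBall_iff_norm.1 hy
    have h3 := norm_sub_le_norm_sub_add_norm_sub (L fun i => ((⌊L.symm y i⌋ : ℤ) : ℝ)) y c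
    rw [norm_sub_rev] at h1
    exact mem_closedBall_iff_norm.2 (by linarith)
  refine ⟨Z, ?_, fun F hF h0 hb => ?_⟩
  · have h1 := measure_biUnion_finset (μ := volume) (disj_bx L Z Set.univ)
      fun z _ => (measurableSet_bx L z).inter MeasurableSet.univ
    simp only [Set.inter_univ, vol_bx, Finset.sum_const, nsmul_eq_mul] at h1
    have h2 : volume (⋃ z ∈ Z, bx L z) ≤ volume (closedBall c 2) :=
      measure_mono (Set.iUnion₂_subset hsub)
    rw [h1, Real.volume_pi_closedBall c (by norm_num), ← ENNReal.ofReal_natCast,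
      ← ENNReal.ofReal_mul (Nat.cast_nonneg _),
      ENNReal.ofReal_le_ofReal_iff (by positivity)] at h2
    simpa [show (2 : ℝ) * 2 = 4 by norm_num] using h2
  have hP : MeasurableSet {y | 0 < F y} := measurableSet_lt measurable_const hF
  have hsplit : ∀ z, volume (bx L z) ≤
      volume (bx L z ∩ {y | 0 < F y}) + volume (bx L z ∩ {y | F y < 0}) := fun z => by
    have h1 : bx L z ⊆ (bx L z ∩ {y | 0 < F y} ∪ bx L z ∩ {y | F y < 0}) ∪ {y | F y = 0} := by
      intro y hy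
      rcases lt_trichotomy (F y) 0 with h | h | h
      · exact Or.inl (Or.inr ⟨hy, h⟩)
      · exact Or.inr h
      · exact Or.inl (Or.inl ⟨hy, h⟩)
    refine (measure_mono h1).trans ((measure_union_le _ _).trans ?_)
    rw [h0, add_zero]
    exact measure_union_le _ _
  set P : Set (V n) := ⋃ z ∈ Z, bx L z ∩ {y | 0 < F y} with hPdef
  have hPm : MeasurableSet P :=
    Finset.measurableSet_biUnion _ fun z _ => (measurableSet_bx L z).inter hP
  have hPv : 1 / 2 ≤ volume P := by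
    refine half_le ?_
    have h1 : volume (closedBall c (1 / 2)) = 1 := by
      rw [Real.volume_pi_closedBall c (by norm_num)]; simp
    rw [hPdef, measure_biUnion_finset (disj_bx L Z _) fun z _ => (measurableSet_bx L z).inter hP,
      ← Finset.sum_add_distrib, ← h1]
    refine (measure_mono hcov).trans ((measure_biUnion_finset_le _ _).trans
      (Finset.sum_le_sum fun z hz => ?_))
    have h2 := hsplit z
    rwa [← hb z hz] at h2
  set E : Set (V n × V n) := P ×ˢ closedBall 0 1 ∩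
    {q | SignType.sign (F (q.1 + L q.2)) ≠ SignType.sign (F q.1)} with hE
  have hEm : MeasurableSet E :=
    (hPm.prod measurableSet_closedBall).inter (measurableSet_sign_ne
      (hF.comp (measurable_fst.add ((meas_equiv L).comp measurable_snd))) (hF.comp measurable_fst))
  have low : 1 / 2 * volume P ≤ (volume : Measure (V n)).prod volume E := by
    rw [Measure.prod_apply hEm, ← lintegral_indicator_const hPm]
    refine lintegral_mono fun y => ?_
    by_cases hy : y ∈ P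
    · rw [Set.indicator_of_mem hy]
      obtain ⟨z, hz, hy1, hy2⟩ := Set.mem_iUnion₂.1 hy
      have h1 : 1 / 2 ≤ volume (cb z ∩ {b | F (L b) < 0}) := by
        refine half_le ?_
        have h2 := hsplit z
        have h3 : bx L z ∩ {y | F y < 0} = L.symm ⁻¹' (cb z ∩ {b | F (L b) < 0}) := by
          ext y; simp [bx]
        rw [hb z hz, h3, vol_pre, vol_bx, ← hD, ← mul_add] at h2
        rwa [← ENNReal.mul_le_mul_iff_right hD0 hDt, mul_one]
      rw [← measure_preimage_add volume (L.symm y) (cb z ∩ {b | F (L b) < 0})] at h1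
      refine h1.trans (measure_mono fun β hβ => ⟨⟨hy, ?_⟩, ?_⟩)
      · have h2 := norm_sub_le hy1 hβ.1
        simpa using h2
      · have h2 : F (y + L β) < 0 := by simpa using hβ.2
        exact mem_chg_of' hy2 h2
    · rw [Set.indicator_of_notMem hy]
      exact zero_le
  by_contra hcon
  push Not at hcon
  have up : (volume : Measure (V n)).prod volume E ≤
      ENNReal.ofReal (1 / 2 ^ (n + 3)) * volume (closedBall (0 : V n) 1) := by
    rw [Measure.prod_apply_symm hEm, ← lintegral_indicator_const measurableSet_closedBall]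
    refine lintegral_mono fun β => ?_
    by_cases hβ : β ∈ closedBall (0 : V n) 1
    · rw [Set.indicator_of_mem hβ]
      refine le_trans (measure_mono fun y hy => ?_) (hcon β (by simpa using hβ)).le
      obtain ⟨z, hz, hy1, -⟩ := Set.mem_iUnion₂.1 hy.1.1
      exact ⟨hsub z hz hy1, hy.2⟩
    · rw [Set.indicator_of_notMem hβ]
      have : (fun y => (y, β)) ⁻¹' E = ∅ := Set.eq_empty_of_forall_notMem fun y hy => hβ hy.1.2
      rw [this, measure_empty]
  have h1 := ((mul_le_mul_right hPv _).trans low).trans up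
  rw [Real.volume_pi_closedBall _ zero_le_one, ← ENNReal.ofReal_mul (by positivity)] at h1
  have h2 : (1 / 2 ^ (n + 3) : ℝ) * (2 * 1) ^ Fintype.card (Fin n) = 1 / 8 := by
    rw [Fintype.card_fin, pow_add]; field_simp; norm_num
  have h3 : (1 / 2 : ℝ≥0∞) * (1 / 2) = ENNReal.ofReal (1 / 4) := by
    rw [show (1 / 4 : ℝ) = 1 / 2 * (1 / 2) by norm_num, ENNReal.ofReal_mul (by norm_num),
      ENNReal.ofReal_div_of_pos (by norm_num)]
    simp
  rw [h2, h3, ENNReal.ofReal_le_ofReal_iff (by norm_num)] at h1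
  norm_num at h1

theorem exists_L (W : Fin n → V n) {h δ : ℝ} (hh : 0 < h) (h2 : 2 * n * h ≤ 1) (hδ : 0 < δ)
    (hW : ∀ i, ‖W i‖ ≤ 1) (hd : δ ≤ |(Matrix.of W).det|) :
    ∃ L : V n ≃ₗ[ℝ] V n, (∀ b, L b = h • ∑ i, b i • W i) ∧ (∀ b, ‖L b‖ ≤ ‖b‖ / 2) ∧
      h ^ n * δ ≤ |LinearMap.det (L : V n →ₗ[ℝ] V n)| := by
  have h1 : LinearMap.det (Matrix.toLin' (h • (Matrix.of W)ᵀ)) = h ^ n * (Matrix.of W).det := by
    rw [LinearMap.det_toLin', Matrix.det_smul, Matrix.det_transpose, Fintype.card_fin]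
  have h3 : h ^ n * δ ≤ |LinearMap.det (Matrix.toLin' (h • (Matrix.of W)ᵀ))| := by
    rw [h1, abs_mul, abs_of_pos (pow_pos hh n)]
    exact mul_le_mul_of_nonneg_left hd (pow_pos hh n).le
  have h4 : IsUnit (LinearMap.det (Matrix.toLin' (h • (Matrix.of W)ᵀ))) :=
    isUnit_iff_ne_zero.2 (abs_pos.1 ((mul_pos (pow_pos hh n) hδ).trans_le h3))
  have h5 : ∀ b, LinearMap.equivOfIsUnitDet h4 b = h • ∑ i, b i • W i := fun b => by
    rw [LinearMap.equivOfIsUnitDet_apply]
    funext k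
    simp [Matrix.toLin'_apply, Matrix.mulVec, dotProduct, Finset.sum_apply, Finset.mul_sum,
      mul_comm]
  refine ⟨LinearMap.equivOfIsUnitDet h4, h5, fun b => ?_, by
    rwa [LinearMap.coe_equivOfIsUnitDet]⟩
  have h6 : ‖∑ i, b i • W i‖ ≤ n * ‖b‖ := by
    refine (norm_sum_le _ _).trans ?_
    have : ∀ i ∈ (Finset.univ : Finset (Fin n)), ‖b i • W i‖ ≤ ‖b‖ := fun i _ => by
      rw [norm_smul]
      exact (mul_le_of_le_one_right (norm_nonneg _) (hW i)).trans (norm_le_pi_norm b i)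
    simpa using Finset.sum_le_card_nsmul _ _ _ this
  rw [h5, norm_smul, Real.norm_eq_abs, abs_of_pos hh]
  have h7 := norm_nonneg b
  nlinarith [mul_le_mul_of_nonneg_left h6 hh.le, mul_le_mul_of_nonneg_right h2 h7]

theorem exists_e {n : ℕ} (hn : 0 < n) (N : ℕ) : ∃ e : ℕ, N < (e + 1) ^ n ∧ e ^ n ≤ N := by
  have h0 : ∃ e : ℕ, N < (e + 1) ^ n :=
    ⟨N, (Nat.lt_succ_self N).trans_le (Nat.le_self_pow hn.ne' _)⟩
  classical
  refine ⟨Nat.find h0, Nat.find_spec h0, ?_⟩
  rcases Nat.eq_zero_or_pos (Nat.find h0) with h | h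
  · rw [h, zero_pow hn.ne']; exact Nat.zero_le _
  · have h1 := Nat.find_min h0 (Nat.sub_lt h Nat.one_pos)
    rw [Nat.sub_add_cancel h] at h1
    exact not_lt.1 h1

end BOX

theorem box : StmtHAM → StmtBOX := by
  intro ham n κ X c W h δ hn hh h2 hδ hW hd
  classical
  choose L hL1 hL2 hL3 using fun x : X => BOX.exists_L (W x) hh h2 hδ (hW x x.2) (hd x x.2)
  choose Z hZ1 hZ2 using fun x : X => BOX.one (L x) (hL2 x) (c x)
  obtain ⟨e, he1, he2⟩ := BOX.exists_e hn (Fintype.card (Σ x : X, Z x))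
  obtain ⟨F, hF, h0, hb⟩ := ham n e (Σ x : X, Z x)
    (fun q => volume.restrict (BOX.bx (L q.1) q.2))
    (fun q => ⟨by rw [Measure.restrict_apply_univ, BOX.vol_bx]; exact ENNReal.ofReal_lt_top⟩)
    (fun q => Measure.absolutelyContinuous_of_le Measure.restrict_le_self) he1
  refine ⟨F, e, hF, ?_, fun x hx => ?_⟩
  · have h1 : ((e : ℝ)) ^ n ≤ ∑ x : X, ((Z x).card : ℝ) := by
      rw [Fintype.card_sigma] at he2
      simp only [Fintype.card_coe] at he2
      exact_mod_cast he2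
    have h3 : ∑ x : X, ((Z x).card : ℝ) * (h ^ n * δ) ≤ ∑ _x : X, (4 : ℝ) ^ n :=
      Finset.sum_le_sum fun x _ =>
        (mul_le_mul_of_nonneg_left (hL3 x) (Nat.cast_nonneg _)).trans (hZ1 x)
    rw [← Finset.sum_mul, Finset.sum_const, Finset.card_univ, Fintype.card_coe, nsmul_eq_mul] at h3
    rw [mul_pow, mul_assoc, mul_comm ((4 : ℝ) ^ n)]
    exact (mul_le_mul_of_nonneg_right h1 (mul_pos (pow_pos hh n) hδ).le).trans h3
  · obtain ⟨β, hβ1, hβ2⟩ := hZ2 ⟨x, hx⟩ F hF.measurable (null_zero hF h0) fun z hz => by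
      have h1 := hb ⟨⟨x, hx⟩, ⟨z, hz⟩⟩
      rwa [Measure.restrict_apply (measurableSet_lt measurable_const hF.measurable),
        Measure.restrict_apply (measurableSet_lt hF.measurable measurable_const),
        Set.inter_comm, Set.inter_comm {y | F y < 0}] at h1
    exact ⟨β, hβ1, by rwa [hL1] at hβ2⟩

end Pool.Agent.MP_5168f5_an.H83
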