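import Pool.Agent.MP_5168f5_an.H83.Basic
import Pool.Agent.MP_5168f5_an.H19.Part

/-! The two-ends reduction. -/

namespace Pool.Agent.MP_5168f5_an.H83

open MeasureTheory Metric Finset Matrix H19 H29 H42
open scoped ENNReal

namespace ENDS

variable {m : ℕ}

/-- The heights of a block, counted from its start. -/
def blk (Y : Finset ℕ) (k a : ℕ) : Finset ℕ := (range (2 ^ k)).filter fun r => a * 2 ^ k + r ∈ Y

theorem card_blk (Y : Finset ℕ) (k a : ℕ) :
    (blk Y k a).card = (Y.filter fun t => t / 2 ^ k = a).card := by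
  have h0 : 0 < 2 ^ k := by positivity
  refine Finset.card_bij (fun r _ => a * 2 ^ k + r) (fun r hr => ?_)
    (fun r _ r' _ e => Nat.add_left_cancel e) fun t ht => ?_
  · simp only [blk, mem_filter, mem_range] at hr ⊢
    refine ⟨hr.2, ?_⟩
    rw [add_comm, Nat.add_mul_div_right _ _ h0, Nat.div_eq_of_lt hr.1, zero_add]
  · obtain ⟨h1, h2⟩ := mem_filter.1 ht
    have e : a * 2 ^ k + t % 2 ^ k = t := by rw [← h2, mul_comm]; exact Nat.div_add_mod t _
    exact ⟨t % 2 ^ k, mem_filter.2 ⟨mem_range.2 (Nat.mod_lt _ h0), e.symm ▸ h1⟩, e⟩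

theorem card_sub (Y : Finset ℕ) {k k' : ℕ} (a a' : ℕ) (h : k' ≤ k) :
    ((blk Y k a).filter fun t => t / 2 ^ k' = a').card ≤
      (Y.filter fun t => t / 2 ^ k' = a' + a * 2 ^ (k - k')).card := by
  refine Finset.card_le_card_of_injOn (fun r => a * 2 ^ k + r) (fun r hr => ?_)
    fun r _ r' _ e => Nat.add_left_cancel e
  obtain ⟨h1, h2⟩ := mem_filter.1 hr
  refine mem_coe.2 (mem_filter.2 ⟨(mem_filter.1 h1).2, ?_⟩)
  obtain ⟨j, rfl⟩ := Nat.exists_eq_add_of_le' h
  change (a * 2 ^ (j + k') + r) / 2 ^ k' = _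
  rw [Nat.add_sub_cancel, pow_add, ← mul_assoc, add_comm, Nat.add_mul_div_right _ _ (by positivity),
    h2]

theorem shift_inj (s : ℕ) : Function.Injective fun g : Line m => shift g s := fun g g' e => by
  have h2 : g.2 = g'.2 := (Prod.ext_iff.1 e).2
  refine Prod.ext (funext fun k => ?_) h2
  have h1 : g.1 k + s * g.2 k = g'.1 k + s * g'.2 k := congrFun (Prod.ext_iff.1 e).1 k
  rwa [h2, add_left_inj] at h1

/-- The estimate in one block. -/
theorem block {d η ε C : ℝ} (hε : 0 < ε) (hC : 0 < C)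
    (H : ∀ (Q : ℕ) (l : ℝ) (G : Finset (Line m)) (E : Finset (Pt m)) (Y : Line m → Finset ℕ),
      1 ≤ l → Sep Q G → (∀ g ∈ G, ∀ t ∈ Y g, t < Q ∧ (cell g t, t) ∈ E) →
      (∀ g ∈ G, l ≤ (Y g).card ∧ ((Y g).card : ℝ) ≤ 2 * l) →
      (∀ g ∈ G, ∀ k a : ℕ, 2 ^ k ≤ Q →
        (((Y g).filter fun t => t / 2 ^ k = a).card : ℝ) ≤ 2 * l * ((2 : ℝ) ^ k / Q) ^ η) →
      (G.card : ℝ) * l ^ d ≤ C * (Q : ℝ) ^ ε * (Q : ℝ) ^ m * E.card)
    {Q k a : ℕ} {l : ℝ} {G : Finset (Line m)} {E : Finset (Pt m)} (hl : 1 ≤ l) (hG : Sep Q G)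
    (hk : 2 ^ k ≤ Q)
    (h1 : ∀ g ∈ G, l ≤ ((shade E (range Q) g).filter fun t => t / 2 ^ k = a).card ∧
      (((shade E (range Q) g).filter fun t => t / 2 ^ k = a).card : ℝ) ≤ 2 * l)
    (h2 : ∀ g ∈ G, ∀ k' a' : ℕ, 2 ^ k' ≤ Q →
      (((shade E (range Q) g).filter fun t => t / 2 ^ k' = a').card : ℝ) / ((2 : ℝ) ^ k') ^ η ≤
        ((shade E (range Q) g).filter fun t => t / 2 ^ k = a).card / ((2 : ℝ) ^ k) ^ η) :
    (G.card : ℝ) * l ^ d ≤
      7 ^ m * C * (Q : ℝ) ^ ε * (Q : ℝ) ^ m * (E.filter fun z => z.2 / 2 ^ k = a).card := by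
  classical
  have h0 : 0 < 2 ^ k := by positivity
  have r0 : (0 : ℝ) < 2 ^ k := by positivity
  have hk' : (2 : ℝ) ^ k ≤ Q := by exact_mod_cast hk
  obtain ⟨G', hG', hS, hc⟩ := thin (Q' := 2 ^ k) (R := Q / 2 ^ k + 1)
    (by rw [mul_comm]; exact (Nat.lt_mul_div_succ Q h0).le) hG
  have e : ∀ g : Line m, ((range (2 ^ k)).filter fun r => a * 2 ^ k + r < Q ∧
      (cell (shift g (a * 2 ^ k)) r, a * 2 ^ k + r) ∈ E) = blk (shade E (range Q) g) k a :=
    fun g => by simp [blk, shade, cell_shift]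
  have key := H (2 ^ k) l (G'.image fun g => shift g (a * 2 ^ k))
    ((E.filter fun z => z.2 / 2 ^ k = a).image fun z => (z.1, z.2 - a * 2 ^ k))
    (fun g => (range (2 ^ k)).filter fun r => a * 2 ^ k + r < Q ∧ (cell g r, a * 2 ^ k + r) ∈ E)
    hl ⟨by simpa only [forall_mem_image, shift] using hS.1, by
      simp only [forall_mem_image]
      exact fun g hg g' hg' hne => hS.2 g hg g' hg' fun h => hne (h ▸ rfl)⟩
    (fun g _ t ht => by
      simp only [mem_filter, mem_range] at ht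
      refine ⟨ht.1, mem_image.2 ⟨_, mem_filter.2 ⟨ht.2.2, ?_⟩, by simp⟩⟩
      rw [add_comm, Nat.add_mul_div_right _ _ h0, Nat.div_eq_of_lt ht.1, zero_add])
    (by
      simp only [forall_mem_image, e, card_blk]
      exact fun g hg => h1 g (hG' hg))
    (by
      simp only [forall_mem_image, e]
      intro g hg k' a' hk'
      have d1 := card_sub (shade E (range Q) g) a a'
        ((Nat.pow_le_pow_iff_right (by norm_num)).1 hk')
      have d2 := h2 g (hG' hg) k' (a' + a * 2 ^ (k - k')) (hk'.trans hk)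
      rw [div_le_iff₀ (by positivity)] at d2
      refine (Nat.cast_le.2 d1).trans (d2.trans ?_)
      push_cast
      rw [Real.div_rpow (by positivity) (by positivity), div_mul_eq_mul_div, mul_div_assoc]
      exact mul_le_mul_of_nonneg_right (h1 g (hG' hg)).2 (by positivity))
  rw [card_image_of_injective _ (shift_inj _)] at key
  have e1 : (G.card : ℝ) ≤ (7 * (Q / 2 ^ k)) ^ m * G'.card := by
    refine (Nat.cast_le.2 hc).trans ?_
    have b1 : ((Q / 2 ^ k : ℕ) : ℝ) ≤ Q / 2 ^ k := by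
      simpa using Nat.cast_div_le (α := ℝ) (m := Q) (n := 2 ^ k)
    have b2 : (1 : ℝ) ≤ Q / 2 ^ k := (one_le_div r0).2 hk'
    push_cast
    gcongr
    linarith
  have e2 : (((E.filter fun z => z.2 / 2 ^ k = a).image fun z => (z.1, z.2 - a * 2 ^ k)).card : ℝ) ≤
      (E.filter fun z => z.2 / 2 ^ k = a).card := Nat.cast_le.2 card_image_le
  push_cast at key
  calc (G.card : ℝ) * l ^ d ≤ (7 * (Q / 2 ^ k)) ^ m * (G'.card * l ^ d) := by
        rw [← mul_assoc]
        gcongr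
    _ ≤ (7 * (Q / 2 ^ k)) ^ m * (C * (Q : ℝ) ^ ε * ((2 : ℝ) ^ k) ^ m *
        (E.filter fun z => z.2 / 2 ^ k = a).card) := by
        refine mul_le_mul_of_nonneg_left (key.trans ?_) (by positivity)
        gcongr
    _ = _ := by
        rw [mul_pow, div_pow]
        field_simp

theorem top {Q k a : ℕ} (hQ : 0 < Q) {η : ℝ} (hη : 0 < η) {Y : Finset ℕ} (hY : ∀ t ∈ Y, t < Q)
    (h : ∀ k' a' : ℕ, 2 ^ k' ≤ Q →
      ((Y.filter fun t => t / 2 ^ k' = a').card : ℝ) / ((2 : ℝ) ^ k') ^ η ≤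
        (Y.filter fun t => t / 2 ^ k = a).card / ((2 : ℝ) ^ k) ^ η) :
    (Y.card : ℝ) ≤ 2 * ((Y.filter fun t => t / 2 ^ k = a).card * (Q : ℝ) ^ η) := by
  have h1 := Nat.pow_log_le_self 2 hQ.ne'
  have h2 := Nat.lt_pow_succ_log_self one_lt_two Q
  have := card_le_of_fib Y (fun t => t / 2 ^ Nat.log 2 Q) (range 2)
    ((Y.filter fun t => t / 2 ^ k = a).card * (Q : ℝ) ^ η) (fun t ht => by
      rw [mem_range, Nat.div_lt_iff_lt_mul (by positivity), mul_comm, ← pow_succ]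
      exact (hY t ht).trans h2) fun B hB c _ hc => by
      have d1 : B.card ≤ (Y.filter fun t => t / 2 ^ Nat.log 2 Q = c).card :=
        card_le_card fun t ht => mem_filter.2 ⟨hB ht, hc t ht⟩
      have d2 := h _ c h1
      rw [div_le_iff₀ (by positivity)] at d2
      refine (Nat.cast_le.2 d1).trans (d2.trans ?_)
      gcongr
      · exact div_le_self (by positivity) (Real.one_le_rpow (one_le_pow₀ one_le_two) hη.le)
      · exact_mod_cast h1
  simpa using this

theorem log_le {Q : ℕ} (hQ : 0 < Q) {ε : ℝ} (hε : 0 < ε) :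
    (Nat.log 2 Q : ℝ) + 1 ≤ (2 / ε + 1) * (Q : ℝ) ^ ε := by
  have h1 : (2 : ℝ) ^ Nat.log 2 Q ≤ Q := by exact_mod_cast Nat.pow_log_le_self 2 hQ.ne'
  have h2 := Real.log_le_log (by positivity) h1
  rw [Real.log_pow] at h2
  have h3 := Real.log_le_rpow_div (Nat.cast_nonneg Q) hε
  have h4 : (1 : ℝ) ≤ (Q : ℝ) ^ ε := Real.one_le_rpow (by exact_mod_cast hQ) hε.le
  have h5 := mul_le_mul_of_nonneg_left Real.log_two_gt_d9.le (Nat.cast_nonneg (Nat.log 2 Q))
  have h6 : (2 / ε + 1) * (Q : ℝ) ^ ε = 2 * ((Q : ℝ) ^ ε / ε) + (Q : ℝ) ^ ε := by ring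
  have h7 : (0 : ℝ) ≤ Nat.log 2 Q := Nat.cast_nonneg _
  linarith

end ENDS

open ENDS in
theorem ends : StmtENDS := by
  classical
  intro m d hd H ε hε
  obtain ⟨η, h0, h1, h2⟩ : ∃ η : ℝ, 0 < η ∧ η ≤ 1 ∧ η * d ≤ ε / 3 :=
    ⟨min 1 (ε / 3 / d), by positivity, min_le_left _ _,
      (le_div_iff₀ (by positivity)).1 (min_le_right _ _)⟩
  obtain ⟨C, hC, H⟩ := H η h0 h1 (ε / 3) (by positivity)
  refine ⟨(2 / (ε / 6) + 1) ^ 2 * (4 ^ d * (7 ^ m * C)), by positivity, fun Q l G E hl hG hs => ?_⟩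
  rcases G.eq_empty_or_nonempty with rfl | ⟨g0, hg0⟩
  · simp only [card_empty, Nat.cast_zero]
    positivity
  have hY : ∀ g : Line m, ∀ t ∈ shade E (range Q) g, t < Q := fun g t ht =>
    mem_range.1 (mem_filter.1 ht).1
  have hQ : 0 < Q := by
    obtain ⟨t, ht⟩ := card_pos.1 (hl.trans_le (hs g0 hg0))
    exact (Nat.zero_le t).trans_lt (hY _ t ht)
  have hQ1 : (1 : ℝ) ≤ Q := by exact_mod_cast hQ
  have hl0 : (0 : ℝ) < l := by exact_mod_cast hl
  choose k a hk hm using fun g : Line m => exists_block hQ (shade E (range Q) g) η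
  obtain ⟨n, hn⟩ : ∃ n : Line m → ℕ, ∀ g,
      n g = ((shade E (range Q) g).filter fun t => t / 2 ^ k g = a g).card := ⟨_, fun _ => rfl⟩
  have n1 : ∀ g ∈ G, (l : ℝ) ≤ 2 * (n g * (Q : ℝ) ^ η) := fun g hg =>
    (Nat.cast_le.2 (hs g hg)).trans (hn g ▸ top hQ h0 (hY g) (hm g (hY g)))
  have n2 : ∀ g ∈ G, n g ≠ 0 := fun g hg e => by
    have := n1 g hg
    rw [e, Nat.cast_zero, zero_mul, mul_zero] at this
    exact this.not_gt hl0
  have n3 : ∀ g, n g ≤ Q := fun g => by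
    rw [hn]
    exact (card_le_card ((filter_subset _ _).trans (filter_subset _ _))).trans (card_range Q).le
  have main := card_le_of_fib G (fun g => (k g, Nat.log 2 (n g)))
    (range (Nat.log 2 Q + 1) ×ˢ range (Nat.log 2 Q + 1))
    (4 ^ d * (Q : ℝ) ^ (ε / 3) * (7 ^ m * C * (Q : ℝ) ^ (ε / 3) * (Q : ℝ) ^ m) * E.card / l ^ d)
    (fun g _ => mem_product.2 ⟨mem_range.2 (Nat.lt_succ_of_le (Nat.le_log_of_pow_le one_lt_two
      (hk g))), mem_range.2 (Nat.lt_succ_of_le (Nat.log_mono_right (b := 2) (n3 g)))⟩) (by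
      rintro B hB ⟨k0, i⟩ - hc
      simp only [Prod.mk.injEq] at hc
      rw [le_div_iff₀ (by positivity), card_eq_sum_card_image a B, Nat.cast_sum, sum_mul]
      refine le_trans (sum_le_sum (g := fun c => 4 ^ d * (Q : ℝ) ^ (ε / 3) *
        (7 ^ m * C * (Q : ℝ) ^ (ε / 3) * (Q : ℝ) ^ m) *
          ((E.filter fun z => z.2 / 2 ^ k0 = c).card : ℝ)) fun c hc' => ?_) ?_
      · obtain ⟨g1, hg1, -⟩ := mem_image.1 hc'
        have b1 : ∀ g ∈ B, (2 : ℝ) ^ i ≤ n g ∧ (n g : ℝ) ≤ 2 * 2 ^ i := fun g hg => by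
          have c1 := Nat.pow_log_le_self 2 (n2 g (hB hg))
          have c2 := (Nat.lt_pow_succ_log_self one_lt_two (n g)).le
          rw [(hc g hg).2] at c1 c2
          rw [pow_succ'] at c2
          exact ⟨by exact_mod_cast c1, by exact_mod_cast c2⟩
        have b2 := block (G := B.filter fun g => a g = c) (E := E) (k := k0) (a := c) (l := 2 ^ i)
          (by positivity) hC H (one_le_pow₀ one_le_two)
          (Sep.mono hG ((filter_subset _ _).trans hB)) ((hc g1 hg1).1 ▸ hk g1)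
          (fun g hg => by
            obtain ⟨c1, c2⟩ := mem_filter.1 hg
            rw [← c2, ← (hc g c1).1, ← hn]
            exact b1 g c1)
          (fun g hg => by
            obtain ⟨c1, c2⟩ := mem_filter.1 hg
            rw [← c2, ← (hc g c1).1]
            exact hm g (hY g))
        have b3 : (l : ℝ) ^ d ≤ 4 ^ d * (Q : ℝ) ^ (ε / 3) * ((2 : ℝ) ^ i) ^ d := by
          have c1 : (l : ℝ) ≤ 4 * (Q : ℝ) ^ η * 2 ^ i := by
            have := mul_le_mul_of_nonneg_right (b1 g1 hg1).2 (Real.rpow_nonneg (Nat.cast_nonneg Q) η)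
            linarith [n1 g1 (hB hg1)]
          refine (Real.rpow_le_rpow hl0.le c1 (by linarith)).trans ?_
          rw [Real.mul_rpow (by positivity) (by positivity),
            Real.mul_rpow (by positivity) (by positivity), ← Real.rpow_mul (Nat.cast_nonneg _)]
          gcongr
        calc _ ≤ ((B.filter fun g => a g = c).card : ℝ) *
              (4 ^ d * (Q : ℝ) ^ (ε / 3) * ((2 : ℝ) ^ i) ^ d) := by gcongr
          _ = 4 ^ d * (Q : ℝ) ^ (ε / 3) *
              (((B.filter fun g => a g = c).card : ℝ) * ((2 : ℝ) ^ i) ^ d) := by ring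
          _ ≤ _ := by
            rw [mul_assoc (4 ^ d * (Q : ℝ) ^ (ε / 3))]
            exact mul_le_mul_of_nonneg_left b2 (by positivity)
      · rw [← mul_sum, ← Nat.cast_sum, sum_card_fiberwise_eq_card_filter]
        gcongr
        exact filter_subset _ _)
  have e : (Q : ℝ) ^ ε =
      ((Q : ℝ) ^ (ε / 6)) ^ 2 * ((Q : ℝ) ^ (ε / 3) * (Q : ℝ) ^ (ε / 3)) := by
    rw [sq, ← Real.rpow_add (by linarith), ← Real.rpow_add (by linarith),
      ← Real.rpow_add (by linarith)]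
    congr 1
    ring
  have b := log_le hQ (show 0 < ε / 6 by positivity)
  rw [card_product, card_range, ← sq] at main
  push_cast at main
  rw [Real.rpow_one, e]
  refine main.trans (le_of_le_of_eq (mul_le_mul_of_nonneg_right
    (pow_le_pow_left₀ (by positivity) b 2) (by positivity)) ?_)
  ring

end Pool.Agent.MP_5168f5_an.H83
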