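import Pool.Agent.MP_5168f5_an.H83.Basic

/-! The multilinear lower bound. -/

namespace Pool.Agent.MP_5168f5_an.H83

open MeasureTheory Metric Finset Matrix H19 H29 H42
open scoped ENNReal

namespace MK

variable {m n d : ℕ}

/-- The volume of the sign changes in a cube. -/
noncomputable def vr (F : V n → ℝ) (c : V n) (R : ℝ) (w : V n) : ℝ :=
  (volume (closedBall c R ∩ chg F w)).toReal

section

variable {F : V n → ℝ} {c w w' : V n} {R R' : ℝ}

theorem fin (F : V n → ℝ) (c : V n) (R : ℝ) (w : V n) : volume (closedBall c R ∩ chg F w) ≠ ∞ :=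
  ((measure_mono Set.inter_subset_left).trans_lt measure_closedBall_lt_top).ne

theorem vr_nonneg : 0 ≤ vr F c R w := ENNReal.toReal_nonneg

theorem vr_zero : vr F c R 0 = 0 := by simp [vr, chg]

theorem vr_add (h : ‖w‖ + R ≤ R') : vr F c R (w + w') ≤ vr F c R w + vr F c R' w' := by
  rw [vr, vr, vr, ← ENNReal.toReal_add (fin _ _ _ _) (fin _ _ _ _)]
  refine ENNReal.toReal_mono (ENNReal.add_ne_top.2 ⟨fin _ _ _ _, fin _ _ _ _⟩)
    (vol_chg_add F w w' fun y hy => ?_)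
  rw [mem_closedBall, dist_eq_norm] at hy ⊢
  rw [add_sub_right_comm]
  linarith [norm_add_le (y - c) w]

theorem vr_sum {ι : Type} (s : Finset ι) (w : ι → V n) (h : ∑ k ∈ s, ‖w k‖ + R ≤ R') :
    vr F c R (∑ k ∈ s, w k) ≤ ∑ k ∈ s, vr F c R' (w k) := by
  classical
  induction s using Finset.induction_on with
  | empty => simp [vr_zero]
  | insert a s ha ih =>
    rw [sum_insert ha] at h
    rw [sum_insert ha, sum_insert ha, add_comm (w a), add_comm (vr F c R' _)]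
    have h1 := norm_nonneg (w a)
    have h2 := norm_sum_le s w
    exact (vr_add (by linarith)).trans (add_le_add (ih (by linarith)) le_rfl)

theorem vr_one (hV : StmtVAR) (hF : IsPoly d F) (hw : ‖w‖ ≤ 1) (hR : 0 ≤ R) (β : ℝ) :
    vr F c R (β • w) ≤ (2 * (R + 1)) ^ n * (d * |β|) := by
  have h := hV n d F hF w β {0} (fun _ => closedBall c R) (closedBall c (R + 1))
    (fun _ _ => measurableSet_closedBall) measurableSet_closedBall (fun t ht y hy τ h0 h1 => by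
      rw [mem_closedBall, dist_eq_norm] at hy ⊢
      rw [mem_singleton.1 ht, Nat.cast_zero, zero_add, sub_right_comm]
      refine (norm_sub_le _ _).trans (add_le_add hy ?_)
      rw [norm_smul, Real.norm_of_nonneg h0]
      exact mul_le_one₀ h1 (norm_nonneg _) hw)
  rw [sum_singleton, Real.volume_pi_closedBall _ (by linarith), Fintype.card_fin,
    ← ENNReal.ofReal_mul (by positivity)] at h
  exact ENNReal.toReal_le_of_le_ofReal (by positivity) h

/-- A multiple of a direction with few sign changes. -/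
theorem vr_dir (hV : StmtVAR) (hF : IsPoly d F) (hw : ‖w‖ ≤ 1) {b A γ γ0 : ℝ} (hb : 0 < b)
    (h1 : vr F c 3 (b • w) + vr F c 3 ((-b) • w) ≤ A) (h2 : |γ| ≤ γ0) (h3 : γ0 ≤ 1 / 2) :
    vr F c (5 / 2) (γ • w) ≤ γ0 / b * A + 8 ^ n * (d * b) := by
  have p1 := vr_nonneg (F := F) (c := c) (R := 3) (w := b • w)
  have p2 := vr_nonneg (F := F) (c := c) (R := 3) (w := (-b) • w)
  obtain ⟨J, hJ1, hJ2⟩ : ∃ J : ℕ, J * b ≤ |γ| ∧ |γ| ≤ J * b + b :=
    ⟨⌊|γ| / b⌋₊, (le_div_iff₀ hb).1 (Nat.floor_le (by positivity)), by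
      have := (div_lt_iff₀ hb).1 (Nat.lt_floor_add_one (|γ| / b))
      linarith⟩
  obtain ⟨σ, s1, s2, s3⟩ : ∃ σ : ℝ, |σ| = b ∧ vr F c 3 (σ • w) ≤ A ∧ |γ - J * σ| ≤ b := by
    rcases le_total 0 γ with h | h
    · rw [abs_of_nonneg h] at hJ1 hJ2
      exact ⟨b, abs_of_pos hb, by linarith, abs_le.2 ⟨by linarith, by linarith⟩⟩
    · rw [abs_of_nonpos h] at hJ1 hJ2
      exact ⟨-b, by rw [abs_neg, abs_of_pos hb], by linarith, abs_le.2 ⟨by linarith, by linarith⟩⟩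
  have e : γ • w = ∑ _k ∈ range J, σ • w + (γ - J * σ) • w := by
    rw [sum_const, card_range, ← Nat.cast_smul_eq_nsmul ℝ, smul_smul, ← add_smul]
    congr 1
    ring
  have h4 : ∑ _k ∈ range J, ‖σ • w‖ + 5 / 2 ≤ 3 := by
    rw [sum_const, card_range, nsmul_eq_mul, norm_smul, Real.norm_eq_abs, s1, ← mul_assoc]
    have := mul_le_of_le_one_right (a := J * b) (by positivity) hw
    linarith
  rw [e]
  refine (vr_add (R' := 3) ((add_le_add (norm_sum_le _ _) le_rfl).trans h4)).trans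
    (add_le_add ((vr_sum _ _ h4).trans ?_) ((vr_one hV hF hw (by norm_num) _).trans ?_))
  · rw [sum_const, card_range, nsmul_eq_mul]
    exact mul_le_mul ((le_div_iff₀ hb).2 (hJ1.trans h2)) s2 vr_nonneg
      (div_nonneg ((abs_nonneg _).trans h2) hb.le)
  · norm_num
    gcongr

/-- The sign changes along a combination of good directions. -/
theorem vr_comb (hV : StmtVAR) (hF : IsPoly d F) {b A γ0 l : ℝ} (hb : 0 < b) (hl : 1 ≤ l)
    (hA : 0 ≤ A) (h0 : 0 ≤ γ0) (h1 : n * γ0 ≤ 1 / 2) (U : Fin n → V n) (γ : Fin n → ℝ)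
    (h2 : ∀ k, |γ k| ≤ γ0)
    (hU : ∀ k, (‖U k‖ ≤ 1 ∧ vr F c 3 (b • U k) + vr F c 3 ((-b) • U k) ≤ A) ∨
      ∃ j, U k = Pi.single j (1 / l)) :
    vr F c 2 (∑ k, γ k • U k) ≤ n * (γ0 / b * A + 8 ^ n * (d * b) + 7 ^ n * (d * (γ0 / l))) := by
  have l0 : 0 < l := by linarith
  have h3 : ∀ k, ‖U k‖ ≤ 1 := fun k => (hU k).elim (fun h => h.1) fun ⟨j, h⟩ => by
    rw [h, Pi.norm_single, Real.norm_of_nonneg (by positivity)]
    exact (div_le_one l0).2 hl
  have h4 : ∑ k, ‖γ k • U k‖ ≤ n * γ0 := by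
    refine (sum_le_card_nsmul _ _ γ0 fun k _ => ?_).trans (by simp)
    rw [norm_smul]
    exact (mul_le_of_le_one_right (norm_nonneg _) (h3 k)).trans (h2 k)
  refine (vr_sum (R' := 5 / 2) _ _ (by linarith)).trans
    ((sum_le_card_nsmul _ _ _ fun k _ => ?_).trans
      (by rw [card_univ, Fintype.card_fin, nsmul_eq_mul]))
  rcases hU k with h | ⟨j, h⟩
  · have h5 : (1 : ℝ) ≤ n := Nat.one_le_cast.2 k.pos
    exact (vr_dir hV hF h.1 hb h.2 (h2 k) (by nlinarith)).trans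
      (le_add_of_nonneg_right (by positivity))
  · have e : γ k • U k = (γ k / l) • (Pi.single j 1 : V n) := by
      rw [h, ← Pi.single_smul', ← Pi.single_smul', smul_eq_mul, smul_eq_mul, mul_one_div, mul_one]
    rw [e]
    refine (vr_one hV hF (by simp [Pi.norm_single]) (by norm_num) _).trans
      (le_trans ?_ (le_add_of_nonneg_left (by positivity)))
    rw [abs_div, abs_of_pos l0]
    norm_num
    gcongr
    exact h2 k

end

/-- The sign changes along a line. -/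
theorem vr_line (hV : StmtVAR) {F : V (m + 1) → ℝ} (hF : IsPoly d F) {g : Line m}
    (hg : ∀ k, |g.2 k| ≤ 1) (B : Finset (Pt m)) (hB : ∀ x ∈ B, cell g x.2 = x.1) (β : ℝ) :
    ∑ x ∈ B, vr F (cor x) 3 (β • dv g) ≤ 10 ^ (m + 1) * (d * |β|) := by
  have h := hV (m + 1) d F hF (dv g) β (B.image fun x => x.2)
    (fun t => closedBall (cor (cell g t, t)) 3) (closedBall (pt 0 g.1) 5)
    (fun _ _ => measurableSet_closedBall) measurableSet_closedBall (fun t _ y hy τ h0 h1 => by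
      rw [mem_closedBall, dist_eq_norm] at hy ⊢
      have h2 := dist_cor (g := g) (x := (cell g t, t)) rfl
      have h3 : ‖τ • dv g‖ ≤ 1 := by
        rw [norm_smul, Real.norm_of_nonneg h0]
        exact mul_le_one₀ h1 (norm_nonneg _) (norm_dv_le hg)
      have e : y - ((t : ℝ) + τ) • dv g - pt 0 g.1 = y - cor (cell g t, t) -
          (pt t (pos g t) - cor (cell g t, t)) - τ • dv g := by
        rw [pt_pos, add_smul]
        abel
      rw [e]
      refine (norm_sub_le _ _).trans ((add_le_add ((norm_sub_le _ _).trans (add_le_add hy h2))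
        h3).trans (by norm_num)))
  rw [sum_image fun x hx y hy e => Prod.ext (by rw [← hB x hx, ← hB y hy, e]) e,
    Real.volume_pi_closedBall _ (by norm_num), Fintype.card_fin,
    ← ENNReal.ofReal_mul (by positivity),
    sum_congr rfl fun x hx => by rw [hB x hx]] at h
  simp only [vr]
  rw [← ENNReal.toReal_sum fun _ _ => fin _ _ _ _]
  refine ENNReal.toReal_le_of_le_ofReal (by positivity) (h.trans_eq ?_)
  norm_num

theorem markov {ι : Type} (A : Finset ι) (a : ι → ℝ) (h0 : ∀ i, 0 ≤ a i) {μ : ℝ} (hμ : 0 ≤ μ)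
    (h : ∑ i ∈ A, a i ≤ A.card * μ) : ∃ S ⊆ A, A.card ≤ 2 * S.card ∧ ∀ i ∈ S, a i ≤ 2 * μ := by
  refine ⟨A.filter fun i => a i ≤ 2 * μ, filter_subset _ _, ?_, fun i hi => (mem_filter.1 hi).2⟩
  have h1 := card_filter_add_card_filter_not (s := A) fun i => a i ≤ 2 * μ
  rcases (A.filter fun i => ¬ a i ≤ 2 * μ).eq_empty_or_nonempty with h2 | h2
  · rw [h2, card_empty] at h1
    omega
  · have h3 := sum_lt_sum_of_nonempty h2 (f := fun _ => 2 * μ) (g := a)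
      fun i hi => not_le.1 (mem_filter.1 hi).2
    have h4 := sum_le_sum_of_subset_of_nonneg (filter_subset (fun i => ¬ a i ≤ 2 * μ) A)
      fun i _ _ => h0 i
    rw [sum_const, nsmul_eq_mul, ← mul_assoc] at h3
    have h5 := lt_of_mul_lt_mul_right (h3.trans_le (h4.trans h)) hμ
    have h6 : (A.filter fun i => ¬ a i ≤ 2 * μ).card * 2 < A.card := by exact_mod_cast h5
    omega

theorem det_le {T : Fin n → V n} (h : ∀ i, ‖T i‖ ≤ 1) : |(Matrix.of T).det| ≤ n.factorial := by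
  simpa using Matrix.det_le (A := Matrix.of T) (abv := AbsoluteValue.abs) (x := 1)
    fun i j => (norm_le_pi_norm (T i) j).trans (h i)

theorem det_cons (j : Fin (m + 1)) (r : ℝ) (w : Fin m → V (m + 1)) :
    (Matrix.of (Fin.cons (Pi.single j r) w : Fin (m + 1) → V (m + 1))).det =
      r * (Matrix.of (Fin.cons (Pi.single j 1) w : Fin (m + 1) → V (m + 1))).det := by
  conv_rhs => rw [← Matrix.updateRow_eq_self (Matrix.of _) 0, ← Matrix.det_updateRow_smul]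
  congr 1
  ext i k
  refine Fin.cases ?_ (fun i => ?_) i
  · simp [Pi.single_apply]
  · simp [Fin.succ_ne_zero]

/-- The degree of the polynomial is large. -/
theorem deg_ge (hV : StmtVAR) {Q s r : ℕ} {l K h : ℝ} {G : Finset (Line m)} {X : Finset (Pt m)}
    {S S0 : Pt m → Finset (Line m)} (hG : ∀ g ∈ G, ∀ k, |g.2 k| ≤ 1) (hI : Incid Q s G X S)
    (hX : X.Nonempty) (hl : 1 ≤ l) (hs : l * G.card ≤ s * X.card) (h1 : ∀ x ∈ X, S0 x ⊆ S x)
    (h2 : ∀ x ∈ X, (S x).card ≤ 2 ^ r * (S0 x).card) {W : Pt m → Fin (m + 1) → V (m + 1)}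
    (h3 : ∀ x ∈ X, ∀ S' ⊆ S0 x, (S0 x).card ≤ 2 * S'.card → ∃ U : Fin (m + 1) → V (m + 1),
      (∀ k, (∃ a ∈ S', U k = dv a) ∨ ∃ j, U k = Pi.single j (1 / l)) ∧
      ∀ i, ∃ b : Fin (m + 1) → ℝ, (∀ k, |b k| ≤ K) ∧ W x i = ∑ k, b k • U k)
    {F : V (m + 1) → ℝ} (hF : IsPoly d F) (hh : 0 ≤ h) (hK : 0 ≤ K)
    (hhK : (m + 1 : ℕ) * (h * ((m + 1 : ℕ) * K)) ≤ 1 / 2)
    (h4 : ∀ x ∈ X, ∃ β : V (m + 1), ‖β‖ ≤ 1 ∧ ENNReal.ofReal (1 / 2 ^ (m + 1 + 3)) ≤
      volume (closedBall (cor x) 2 ∩ chg F (h • ∑ i, β i • W x i))) :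
    l ≤ 2 ^ (m + 1 + 4) * (2 ^ (r + 2) * 10 ^ (m + 1) + 7 ^ (m + 1)) * d := by
  classical
  have l0 : 0 < l := by linarith
  have x0 : (0 : ℝ) < X.card := Nat.cast_pos.2 hX.card_pos
  obtain ⟨b, hb, hb1⟩ : ∃ b : ℝ, 0 < b ∧
      (m + 1 : ℕ) * (8 ^ (m + 1) * (d * b)) ≤ 1 / 2 ^ (m + 1 + 4) := by
    refine ⟨1 / 2 ^ (m + 1 + 4) / ((m + 1 : ℕ) * (8 ^ (m + 1) * d) + 1), by positivity, ?_⟩
    rw [← mul_assoc, ← mul_assoc, mul_assoc _ _ (d : ℝ), ← mul_div_assoc,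
      div_le_iff₀ (by positivity), mul_comm]
    gcongr
    linarith
  obtain ⟨a, ha⟩ : ∃ a : Pt m → Line m → ℝ, ∀ x g,
      a x g = vr F (cor x) 3 (b • dv g) + vr F (cor x) 3 ((-b) • dv g) := ⟨_, fun _ _ => rfl⟩
  have h5 : ∑ x ∈ X, ∑ g ∈ S0 x, a x g ≤ G.card * (2 * (10 ^ (m + 1) * (d * b))) := by
    rw [sum_comm' (t' := G) (s' := fun g => X.filter fun x => g ∈ S0 x) fun x g => by
      rw [mem_filter]
      exact ⟨fun h => ⟨h, ((hI x h.1).2.2 g (h1 x h.1 h.2)).1⟩, fun h => h.1⟩]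
    refine (sum_le_card_nsmul _ _ _ fun g hg => ?_).trans (nsmul_eq_mul _ _).le
    have h6 := fun β => vr_line hV hF (hG g hg) (X.filter fun x => g ∈ S0 x) (fun x hx =>
      ((hI x (mem_filter.1 hx).1).2.2 g (h1 x (mem_filter.1 hx).1 (mem_filter.1 hx).2)).2) β
    have h7 := h6 b
    have h8 := h6 (-b)
    rw [abs_neg] at h8
    rw [abs_of_pos hb] at h7 h8
    simp only [ha, sum_add_distrib]
    linarith
  obtain ⟨x, hx, h6⟩ := exists_le_of_sum_le hX (f := fun x => ∑ g ∈ S0 x, a x g)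
    (g := fun _ => s / l * (2 * (10 ^ (m + 1) * (d * b)))) (h5.trans (by
      rw [sum_const, nsmul_eq_mul, ← mul_assoc (X.card : ℝ)]
      gcongr
      rw [← mul_div_assoc, le_div_iff₀ l0]
      linarith))
  obtain ⟨S', s1, s2, s3⟩ := markov (S0 x) (a x)
    (fun g => by rw [ha]; exact add_nonneg vr_nonneg vr_nonneg)
    (μ := 2 ^ r / l * (2 * (10 ^ (m + 1) * (d * b)))) (by positivity) (h6.trans (by
      rw [← mul_assoc ((S0 x).card : ℝ), ← mul_div_assoc]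
      gcongr
      rw [← (hI x hx).2.1, mul_comm]
      exact_mod_cast h2 x hx))
  obtain ⟨U, u1, u2⟩ := h3 x hx S' s1 s2
  choose c c1 c2 using u2
  obtain ⟨β, b1, b2⟩ := h4 x hx
  have e : h • ∑ i, β i • W x i = ∑ k, (h * ∑ i, β i * c i k) • U k := by
    simp only [c2, smul_sum, smul_smul, mul_sum, sum_smul]
    exact sum_comm
  have h7 := vr_comb (c := cor x) hV hF hb hl
    (A := 2 * (2 ^ r / l * (2 * (10 ^ (m + 1) * (d * b))))) (by positivity) (by positivity) hhK U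
    (fun k => h * ∑ i, β i * c i k) (fun k => by
      rw [abs_mul, abs_of_nonneg hh]
      refine mul_le_mul_of_nonneg_left ((abs_sum_le_sum_abs _ _).trans
        ((sum_le_card_nsmul _ _ K fun i _ => ?_).trans (by simp))) hh
      rw [abs_mul]
      exact (mul_le_of_le_one_left (abs_nonneg _) ((norm_le_pi_norm β i).trans b1)).trans (c1 i k))
    (fun k => (u1 k).imp_left fun ⟨g, g1, g2⟩ => by
      rw [g2, ← ha]
      exact ⟨norm_dv_le (hG g ((hI x hx).2.2 g (h1 x hx (s1 g1))).1), s3 g g1⟩)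
  rw [e] at b2
  have h8 := ((ENNReal.ofReal_le_iff_le_toReal (fin _ _ _ _)).1 b2).trans h7
  generalize h * ((m + 1 : ℕ) * K) = γ at h8 hhK
  generalize ((m + 1 : ℕ) : ℝ) = N at h8 hhK hb1
  have e2 : N * (γ / b * (2 * (2 ^ r / l * (2 * (10 ^ (m + 1) * (d * b))))) +
      8 ^ (m + 1) * (d * b) + 7 ^ (m + 1) * (d * (γ / l))) =
      N * γ * ((2 ^ (r + 2) * 10 ^ (m + 1) + 7 ^ (m + 1)) * d / l) +
        N * (8 ^ (m + 1) * (d * b)) := by
    field_simp
    ring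
  have e3 : (1 : ℝ) / 2 ^ (m + 1 + 3) = 1 / 2 ^ (m + 1 + 4) + 1 / 2 ^ (m + 1 + 4) := by
    field_simp
    ring
  have h9 := mul_le_of_le_one_left
    (b := (2 ^ (r + 2) * 10 ^ (m + 1) + 7 ^ (m + 1)) * d / l) (by positivity)
    (show N * γ ≤ 1 by linarith)
  rw [mul_assoc, ← div_le_iff₀' (by positivity), div_eq_mul_one_div, ← le_div_iff₀' l0]
  linarith

end MK

open MK in
theorem mk : StmtVAR → StmtSEL → StmtBOX → StmtMK := by
  intro hV hS hB m _ ε hε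
  obtain ⟨r, r0, hr⟩ : ∃ r : ℕ, 0 < r ∧ ((m + 1 : ℕ) : ℝ) ≤ ε / (m + 1 : ℕ) * r := by
    obtain ⟨r, hr⟩ := exists_nat_gt (((m + 1 : ℕ) : ℝ) / (ε / (m + 1 : ℕ)))
    exact ⟨r, Nat.cast_pos.1 (lt_trans (by positivity) hr),
      ((div_lt_iff₀' (by positivity)).1 hr).le⟩
  obtain ⟨f, hf⟩ : ∃ f : ℝ, f = (m + 1).factorial := ⟨_, rfl⟩
  have f1 : 1 ≤ f := hf ▸ Nat.one_le_cast.2 (Nat.factorial_pos _)
  obtain ⟨C1, hC1⟩ : ∃ C1 : ℝ, C1 = 2 ^ (m + 1 + 4) * (2 ^ (r + 2) * 10 ^ (m + 1) + 7 ^ (m + 1)) :=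
    ⟨_, rfl⟩
  have c0 : 0 ≤ C1 := by rw [hC1]; positivity
  obtain ⟨C, k1, k2, k3⟩ : ∃ C : ℝ, f ≤ C ∧ 2 ^ r ≤ C ∧
      (C1 * (2 * ((m + 1 : ℕ) : ℝ) ^ 3) * f) ^ (m + 1) * 4 ^ (m + 1) ≤ C :=
    ⟨max f (max _ _), le_max_left _ _, le_max_of_le_right (le_max_left _ _),
      le_max_of_le_right (le_max_right _ _)⟩
  have C0 : 0 < C := by linarith
  refine ⟨C, f1.trans k1, fun Q s l θ G X S hG hI hX hs l0 hl θ0 hR => ?_⟩
  obtain ⟨x₀, hx₀⟩ := hX
  have q1 : (1 : ℝ) ≤ Q := Nat.one_le_cast.2 (Nat.zero_lt_of_lt (hI x₀ hx₀).1)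
  have x1 : (1 : ℝ) ≤ X.card := Nat.one_le_cast.2 (card_pos.2 ⟨x₀, hx₀⟩)
  have hd : ∀ x ∈ X, ∀ g ∈ S x, ‖dv g‖ ≤ 1 := fun x hx g hg =>
    norm_dv_le (hG g ((hI x hx).2.2 g hg).1)
  rcases le_total l 1 with l1 | l1
  · obtain ⟨w, w1, j, w2⟩ := hR x₀ hx₀ _ subset_rfl
      (mul_le_of_le_one_left (by positivity) ((div_le_one C0).2 (f1.trans k1)))
    have h1 := w2.trans (det_le fun i => Fin.cases (by simp [Pi.norm_single])
      (fun i => hd x₀ hx₀ _ (w1 i)) i)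
    have h2 := mul_le_of_le_one_right θ0.le (pow_le_one₀ (n := m) l0.le l1)
    have h3 := le_mul_of_one_le_right C0.le (one_le_mul_of_one_le_of_one_le
      (Real.one_le_rpow q1 hε.le) x1)
    rw [mul_assoc]
    linarith
  have lQ : l ≤ Q := by
    obtain ⟨g, hg⟩ := card_pos.1 ((hI x₀ hx₀).2.1 ▸ hs : 0 < (S x₀).card)
    have g0 : (0 : ℝ) < G.card := Nat.cast_pos.2 (card_pos.2 ⟨g, ((hI x₀ hx₀).2.2 g hg).1⟩)
    exact le_of_mul_le_mul_right (hl.trans (by exact_mod_cast hI.total_le)) g0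
  obtain ⟨K, hK⟩ : ∃ K : ℝ, K = f * (Q : ℝ) ^ (ε / (m + 1 : ℕ)) := ⟨_, rfl⟩
  have K1 : 1 ≤ K := hK ▸ one_le_mul_of_one_le_of_one_le f1 (Real.one_le_rpow q1 (by positivity))
  have he : ∀ j : Fin (m + 1), ‖(Pi.single j (1 / l) : V (m + 1))‖ ≤ 1 := fun j => by
    rw [Pi.norm_single, Real.norm_of_nonneg (by positivity)]
    exact (div_le_one l0).2 l1
  have hsel := fun x (hx : x ∈ X) => hS (m + 1) r (Line m) (S x) dv (fun j => Pi.single j (1 / l))
    K ((1 / l) ^ (m + 1)) f r0 K1 (by positivity) (by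
      have : Matrix.of (fun j : Fin (m + 1) => (Pi.single j (1 / l) : V (m + 1))) =
          Matrix.diagonal fun _ => 1 / l := by
        ext i j
        simp [Pi.single_apply, Matrix.diagonal_apply, eq_comm]
      rw [this, Matrix.det_diagonal, prod_const, card_univ, Fintype.card_fin]
      exact le_abs_self _) (by
      rw [hK, mul_pow, _root_.one_div_pow, mul_one_div, le_div_iff₀ (by positivity),
        ← Real.rpow_mul_natCast (by positivity)]
      refine mul_le_mul (le_self_pow₀ f1 r0.ne') ((pow_le_pow_left₀ l0.le lQ _).trans ?_)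
        (by positivity) (by positivity)
      rw [← Real.rpow_natCast]
      exact Real.rpow_le_rpow_of_exponent_le q1 hr) (fun T hT => hf ▸ det_le fun i => by
      rcases hT i with ⟨g, g1, g2⟩ | ⟨j, g2⟩
      · exact g2 ▸ hd x hx g g1
      · exact g2 ▸ he j)
  choose! S0 s1 s2 W w1 w2 w3 using hsel
  obtain ⟨h, h0, hh⟩ : ∃ h : ℝ, 0 < h ∧ 2 * ((m + 1 : ℕ) : ℝ) ^ 2 * K * h = 1 :=
    ⟨1 / (2 * ((m + 1 : ℕ) : ℝ) ^ 2 * K), by positivity, by field_simp⟩
  have n1 : (1 : ℝ) ≤ (m + 1 : ℕ) := Nat.one_le_cast.2 m.succ_pos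
  obtain ⟨F, e, hF, b1, b2⟩ := hB (m + 1) (Pt m) X cor W h (θ / l) m.succ_pos h0 (by
      have := le_mul_of_one_le_right (a := 2 * ((m + 1 : ℕ) : ℝ) * h) (by positivity)
        (one_le_mul_of_one_le_of_one_le n1 K1)
      linarith) (by positivity) (fun x hx i => by
      rcases w1 x hx i with ⟨g, g1, g2⟩ | ⟨j, g2⟩
      · exact g2 ▸ hd x hx g (s1 x hx g1)
      · exact g2 ▸ he j) (fun x hx => by
      obtain ⟨w, t1, j, t2⟩ := hR x hx _ (s1 x hx) (by
        rw [one_div, inv_mul_le_iff₀ C0]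
        exact le_trans (by exact_mod_cast s2 x hx) (mul_le_mul_of_nonneg_right k2 (by positivity)))
      refine le_trans ?_ (w2 x hx (Fin.cons (Pi.single j (1 / l)) fun i => dv (w i))
        fun i => Fin.cases (Or.inr ⟨j, rfl⟩) (fun i => Or.inl ⟨w i, t1 i, rfl⟩) i)
      rw [det_cons, abs_mul, abs_of_pos (by positivity : 0 < 1 / l), div_eq_mul_one_div, mul_comm]
      exact mul_le_mul_of_nonneg_left t2 (by positivity))
  have h1 := deg_ge hV hG hI ⟨x₀, hx₀⟩ l1 hl s1 s2 w3 hF h0.le (by linarith) (by linarith) b2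
  rw [← hC1, Nat.cast_mul] at h1
  have h2 : l ≤ C1 * (2 * ((m + 1 : ℕ) : ℝ) ^ 3) * K * (e * h) := h1.trans_eq (by
    linear_combination (-(C1 * (m + 1 : ℕ) * e)) * hh)
  have h3 := pow_le_pow_left₀ l0.le h2 (m + 1)
  rw [hK, ← mul_assoc _ f, mul_pow, mul_pow _ (_ ^ _ : ℝ), ← Real.rpow_mul_natCast (by positivity),
    div_mul_cancel₀ _ (by positivity)] at h3
  calc θ * l ^ m = l ^ (m + 1) * (θ / l) := by
        rw [pow_succ]
        field_simp
    _ ≤ (C1 * (2 * ((m + 1 : ℕ) : ℝ) ^ 3) * f) ^ (m + 1) * (Q : ℝ) ^ ε *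
        ((e * h) ^ (m + 1) * (θ / l)) := by
      rw [← mul_assoc _ _ (θ / l)]
      exact mul_le_mul_of_nonneg_right h3 (by positivity)
    _ ≤ (C1 * (2 * ((m + 1 : ℕ) : ℝ) ^ 3) * f) ^ (m + 1) * (Q : ℝ) ^ ε *
        (4 ^ (m + 1) * X.card) := mul_le_mul_of_nonneg_left b1 (by positivity)
    _ = (C1 * (2 * ((m + 1 : ℕ) : ℝ) ^ 3) * f) ^ (m + 1) * 4 ^ (m + 1) * (Q : ℝ) ^ ε * X.card := by
      ring
    _ ≤ _ := by gcongr

end Pool.Agent.MP_5168f5_an.H83
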