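import Pool.Agent.MP_5168f5_an.H83.Basic
import Pool.Agent.MP_36f34d_co.H52.BU

/-! The polynomial ham sandwich theorem for measures and the iterated partition. -/

namespace Pool.Agent.MP_5168f5_an.H83

open MeasureTheory Metric Finset Matrix H19 H29 H42
open scoped ENNReal

namespace PART

variable {n e : ℕ}

/-- The theorem of Borsuk and Ulam for arbitrary finite index types. -/
theorem bu' {ι κ : Type} [Fintype ι] [Fintype κ] (h : Fintype.card ι < Fintype.card κ)
    (g : (κ → ℝ) → ι → ℝ) (hg : Continuous g) (ho : ∀ v, g (-v) = -g v) :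
    ∃ v, v ≠ 0 ∧ g v = 0 := by
  classical
  obtain ⟨N, hN⟩ : ∃ N, Fintype.card κ = N + 1 := ⟨Fintype.card κ - 1, by omega⟩
  let E : κ ≃ Fin (N + 1) := Fintype.equivFinOfCardEq hN
  obtain ⟨j⟩ : Nonempty (ι ↪ Fin N) :=
    Function.Embedding.nonempty_of_card_le (by rw [Fintype.card_fin]; omega)
  obtain ⟨v, hv, h0⟩ := MP_36f34d_co.H52.bu N
    (fun v k => ∑ i, if j i = k then g (fun a => v (E a)) i else 0) (by
      refine continuous_pi fun k => continuous_finsetSum _ fun i _ => ?_
      split_ifs
      · exact (continuous_apply i).comp (hg.comp (continuous_pi fun a => continuous_apply _))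
      · exact continuous_const) (by
      intro v
      funext k
      have h1 : (fun a => (-v) (E a)) = -fun a => v (E a) := rfl
      rw [h1, ho, Pi.neg_apply, ← Finset.sum_neg_distrib]
      refine Finset.sum_congr rfl fun i _ => ?_
      split_ifs <;> simp)
  refine ⟨fun a => v (E a), fun h1 => hv ?_, ?_⟩
  · funext k
    simpa using congrFun h1 (E.symm k)
  · funext i
    simpa [j.injective.eq_iff] using congrFun h0 (j i)

/-- The polynomial function with coefficient vector `c`. -/
noncomputable def pc (c : (Fin n → Fin (e + 1)) → ℝ) (y : V n) : ℝ :=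
  ∑ a, c a * ∏ i, y i ^ (a i : ℕ)

theorem isPoly_pc (c : (Fin n → Fin (e + 1)) → ℝ) : IsPoly (n * e) (pc c) := by
  refine IsPoly.sum _ fun a _ => IsPoly.const_mul ?_ _
  refine (IsPoly.prod Finset.univ (d := fun i => (a i : ℕ) * 1)
    fun i _ => (IsPoly.coord i).pow (a i)).mono ?_
  refine (Finset.sum_le_card_nsmul _ _ e fun i _ => ?_).trans (by simp)
  have := (a i).isLt
  omega

theorem pc_ne {c : (Fin n → Fin (e + 1)) → ℝ} (hc : c ≠ 0) : ∃ y, pc c y ≠ 0 := by
  classical
  obtain ⟨a0, h0⟩ := Function.ne_iff.1 hc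
  let ex : (Fin n → Fin (e + 1)) → (Fin n →₀ ℕ) :=
    fun a => Finsupp.equivFunOnFinite.symm fun i => (a i : ℕ)
  have hex : Function.Injective ex := by
    intro a b h
    funext i
    exact Fin.ext (congrFun (Finsupp.equivFunOnFinite.symm.injective h) i)
  have hp : (∑ a, MvPolynomial.monomial (ex a) (c a) : MvPolynomial (Fin n) ℝ) ≠ 0 := by
    intro h
    have h1 := congrArg (MvPolynomial.coeff (ex a0)) h
    simp only [MvPolynomial.coeff_sum, MvPolynomial.coeff_monomial, hex.eq_iff,
      Finset.sum_ite_eq', Finset.mem_univ, if_true, MvPolynomial.coeff_zero] at h1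
    exact h0 h1
  obtain ⟨y, hy⟩ := IsPoly.eval_ne_zero hp
  refine ⟨y, fun h => hy ?_⟩
  rw [← h, map_sum]
  refine Finset.sum_congr rfl fun a _ => ?_
  rw [MvPolynomial.eval_monomial, Finsupp.prod_fintype _ _ fun i => pow_zero _]
  simp [ex]

theorem pc_neg (c : (Fin n → Fin (e + 1)) → ℝ) (y : V n) : pc (-c) y = -pc c y := by
  simp [pc]

theorem continuous_pc (y : V n) : Continuous fun c : (Fin n → Fin (e + 1)) → ℝ => pc c y :=
  continuous_finsetSum _ fun a _ => (continuous_apply a).mul continuous_const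

/-- The mass of the positive side. -/
noncomputable def ms (μ : Measure (V n)) (c : (Fin n → Fin (e + 1)) → ℝ) : ℝ :=
  (μ {y | 0 < pc c y}).toReal

theorem continuousAt_ms (μ : Measure (V n)) [IsFiniteMeasure μ] (hμ : μ ≪ volume)
    {c : (Fin n → Fin (e + 1)) → ℝ} (hc : c ≠ 0) : ContinuousAt (ms μ) c := by
  have hm (c : (Fin n → Fin (e + 1)) → ℝ) : MeasurableSet {y | 0 < pc c y} :=
    measurableSet_lt measurable_const (isPoly_pc c).measurable
  refine (ENNReal.tendsto_toReal (measure_ne_top μ _)).comp ?_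
  refine tendsto_measure_of_ae_tendsto_indicator_of_isFiniteMeasure _ (hm c) hm ?_
  filter_upwards [hμ.ae_le (ae_ne_zero (isPoly_pc c) (pc_ne hc))] with y hy
  rcases lt_or_gt_of_ne hy with h | h
  · filter_upwards [(continuous_pc y).continuousAt.eventually (gt_mem_nhds h)] with c' hc'
    exact iff_of_false (not_lt.2 hc'.le) (not_lt.2 h.le)
  · filter_upwards [(continuous_pc y).continuousAt.eventually (lt_mem_nhds h)] with c' hc'
    exact iff_of_true hc' h

theorem ms_nonneg (μ : Measure (V n)) (c : (Fin n → Fin (e + 1)) → ℝ) : 0 ≤ ms μ c :=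
  ENNReal.toReal_nonneg

theorem ms_le (μ : Measure (V n)) [IsFiniteMeasure μ] (c : (Fin n → Fin (e + 1)) → ℝ) :
    ms μ c ≤ (μ Set.univ).toReal :=
  ENNReal.toReal_mono (measure_ne_top μ _) (measure_mono (Set.subset_univ _))

theorem continuous_ms (μ : Measure (V n)) [IsFiniteMeasure μ] (hμ : μ ≪ volume) :
    Continuous fun c : (Fin n → Fin (e + 1)) → ℝ => ‖c‖ * ms μ c := by
  refine continuous_iff_continuousAt.2 fun c => ?_
  by_cases hc : c = 0
  · subst hc
    have h1 : Filter.Tendsto (fun c : (Fin n → Fin (e + 1)) → ℝ => ‖c‖ * (μ Set.univ).toReal)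
        (nhds 0) (nhds 0) := by
      simpa using (continuous_norm.tendsto (0 : (Fin n → Fin (e + 1)) → ℝ)).mul_const
        (μ Set.univ).toReal
    have h2 := squeeze_zero (fun c => mul_nonneg (norm_nonneg c) (ms_nonneg μ c))
      (fun c => mul_le_mul_of_nonneg_left (ms_le μ c) (norm_nonneg c)) h1
    simpa [ContinuousAt] using h2
  · exact continuous_norm.continuousAt.mul (continuousAt_ms μ hμ hc)

/-- The sum of the degrees. -/
theorem deg_sum (hn : 0 < n) (q : ℕ) :
    ∑ i ∈ range (n * q), n * 2 ^ (i / n + 1) ≤ 2 * n ^ 2 * 2 ^ q := by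
  induction q with
  | zero => simp
  | succ q ih =>
    rw [Nat.mul_succ, Finset.sum_range_add]
    have h1 : ∑ i ∈ range n, n * 2 ^ ((n * q + i) / n + 1) = n * (n * 2 ^ (q + 1)) := by
      rw [Finset.sum_congr rfl (g := fun _ => n * 2 ^ (q + 1))]
      · simp
      · intro i hi
        rw [Nat.mul_add_div hn, Nat.div_eq_of_lt (Finset.mem_range.1 hi)]
    rw [h1]
    calc _ ≤ 2 * n ^ 2 * 2 ^ q + n * (n * 2 ^ (q + 1)) := Nat.add_le_add_right ih _
      _ = _ := by ring

end PART

open PART in
theorem ham : StmtHAM := by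
  intro n e ι _ μ hf hac hc
  obtain ⟨c, hc0, h0⟩ := bu' (ι := ι) (κ := Fin n → Fin (e + 1)) (by simpa using hc)
    (fun c i => ‖c‖ * ms (μ i) c - ‖-c‖ * ms (μ i) (-c))
    (continuous_pi fun i => (continuous_ms (μ i) (hac i)).sub
      ((continuous_ms (μ i) (hac i)).comp continuous_neg))
    (fun v => by funext i; simp)
  refine ⟨pc c, isPoly_pc c, pc_ne hc0, fun i => ?_⟩
  have h1 := congrFun h0 i
  simp only [norm_neg, Pi.zero_apply, ← mul_sub, mul_eq_zero, norm_eq_zero, hc0, false_or,
    sub_eq_zero, ms, pc_neg, Left.neg_pos_iff] at h1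
  exact (ENNReal.toReal_eq_toReal_iff' (measure_ne_top _ _) (measure_ne_top _ _)).1 h1

namespace PART

variable {n : ℕ}

/-- The iterated bisection. -/
theorem iter (μ : Measure (V n)) (hn : 0 < n) [IsFiniteMeasure μ] (hμ : μ ≪ volume) (r : ℕ) :
    ∃ f : ℕ → V n → ℝ, (∀ i, IsPoly (n * 2 ^ (i / n + 1)) (f i)) ∧ (∀ i, ∃ y, f i y ≠ 0) ∧
      ∀ P : Finset ℕ, 2 ^ r * μ (sgnSet f r P) ≤ μ Set.univ := by
  classical
  induction r with
  | zero =>
    exact ⟨fun _ _ => 1, fun i => IsPoly.const _ 1, fun i => ⟨0, one_ne_zero⟩, fun P => by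
      simpa using measure_mono (Set.subset_univ _)⟩
  | succ r ih =>
    obtain ⟨f, h1, h2, h3⟩ := ih
    obtain ⟨F, hF, hF0, hb⟩ := ham n (2 ^ (r / n + 1)) (range r).powerset
      (fun P => μ.restrict (sgnSet f r P)) (fun P => inferInstance)
      (fun P => Measure.absolutelyContinuous_restrict.trans hμ) (by
        rw [Fintype.card_coe, Finset.card_powerset, Finset.card_range]
        calc 2 ^ r < 2 ^ ((r / n + 1) * n) :=
              Nat.pow_lt_pow_right one_lt_two (by rw [mul_comm]; exact Nat.lt_mul_div_succ r hn)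
          _ = (2 ^ (r / n + 1)) ^ n := pow_mul _ _ _
          _ ≤ _ := Nat.pow_le_pow_left (Nat.le_succ _) _)
    refine ⟨Function.update f r F, fun i => ?_, fun i => ?_, fun P => ?_⟩
    · by_cases h : i = r
      · subst h; simpa using hF
      · simpa [h] using h1 i
    · by_cases h : i = r
      · subst h; simpa using hF0
      · simpa [h] using h2 i
    · have hp : MeasurableSet {y | 0 < F y} := measurableSet_lt measurable_const hF.measurable
      have hq : MeasurableSet {y | F y < 0} := measurableSet_lt hF.measurable measurable_const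
      set S := sgnSet f r (P ∩ range r) with hS
      have h4 : μ ({y | 0 < F y} ∩ S) = μ ({y | F y < 0} ∩ S) := by
        have := hb ⟨P ∩ range r, Finset.mem_powerset.2 Finset.inter_subset_right⟩
        rwa [Measure.restrict_apply hp, Measure.restrict_apply hq] at this
      have h5 : μ ({y | 0 < F y} ∩ S) + μ ({y | F y < 0} ∩ S) ≤ μ S := by
        rw [← Measure.restrict_apply hp, ← Measure.restrict_apply hq, ← measure_union _ hq,
          ← Measure.restrict_apply_univ S]
        · exact measure_mono (Set.subset_univ _)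
        · exact Set.disjoint_left.2 fun y (a : 0 < F y) (b : F y < 0) => lt_asymm a b
      have h6 : sgnSet (Function.update f r F) (r + 1) P ⊆ S := by
        intro y hy i hi
        have := hy i (by omega)
        rw [Function.update_of_ne hi.ne] at this
        simpa [hi] using this
      have h7 : μ (sgnSet (Function.update f r F) (r + 1) P) ≤ μ ({y | 0 < F y} ∩ S) := by
        by_cases hr : r ∈ P
        · refine measure_mono fun y hy => ⟨?_, h6 hy⟩
          simpa using (hy r (by omega)).1 hr
        · rw [h4]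
          refine measure_mono fun y hy => ⟨?_, h6 hy⟩
          simpa using (hy r (by omega)).2 hr
      calc 2 ^ (r + 1) * μ (sgnSet (Function.update f r F) (r + 1) P)
          ≤ 2 ^ (r + 1) * μ ({y | 0 < F y} ∩ S) := by gcongr
        _ = 2 ^ r * (μ ({y | 0 < F y} ∩ S) + μ ({y | F y < 0} ∩ S)) := by rw [← h4]; ring
        _ ≤ 2 ^ r * μ S := by gcongr
        _ ≤ _ := h3 _

end PART

open PART in
theorem part : StmtPART := by
  intro n q μ hn hf hμ
  obtain ⟨f, h1, h2, h3⟩ := iter μ hn hμ (n * q)
  exact ⟨f, fun i => n * 2 ^ (i / n + 1), h1, h2, deg_sum hn q, h3⟩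

end Pool.Agent.MP_5168f5_an.H83
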