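import Pool.Agent.MP_5168f5_an.H83.Basic

/-! Row ROOT: the directions that are reached from one root lie in a thin box. -/

namespace Pool.Agent.MP_5168f5_an.H83

open MeasureTheory Metric Finset Matrix H19 H29 H42
open scoped ENNReal

namespace ROOT

theorem abs_mul_le (u v : V 3) (i j : Fin 3) : |u i * v j| ≤ ‖u‖ * ‖v‖ := by
  rw [abs_mul]
  exact mul_le_mul (norm_le_pi_norm u i) (norm_le_pi_norm v j) (abs_nonneg _) (norm_nonneg _)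

theorem abs_minor (u v : V 3) (i j : Fin 3) : |u i * v j - u j * v i| ≤ 2 * (‖u‖ * ‖v‖) :=
  (abs_sub _ _).trans (by linarith [abs_mul_le u v i j, abs_mul_le u v j i])

theorem norm_cross {u v : V 3} {a b : ℝ} (ha : ‖u‖ ≤ a) (hb : ‖v‖ ≤ b) :
    ‖u ⨯₃ v‖ ≤ 2 * (a * b) := by
  have h : ‖u‖ * ‖v‖ ≤ a * b := mul_le_mul ha hb (norm_nonneg _) ((norm_nonneg _).trans ha)
  refine le_trans ((pi_norm_le_iff_of_nonneg (by positivity)).2 fun k => ?_)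
    (mul_le_mul_of_nonneg_left h zero_le_two)
  rw [cross_apply]
  fin_cases k
  · exact abs_minor u v 1 2
  · exact abs_minor u v 2 0
  · exact abs_minor u v 0 1

theorem abs_dot {u v : V 3} {a b : ℝ} (ha : ‖u‖ ≤ a) (hb : ‖v‖ ≤ b) : |u ⬝ᵥ v| ≤ 3 * (a * b) := by
  have h : ‖u‖ * ‖v‖ ≤ a * b := mul_le_mul ha hb (norm_nonneg _) ((norm_nonneg _).trans ha)
  rw [dotProduct, Fin.sum_univ_three]
  refine (abs_add_three _ _ _).trans ?_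
  linarith [abs_mul_le u v 0 0, abs_mul_le u v 1 1, abs_mul_le u v 2 2]

theorem sq_le_dot (u : V 3) : ‖u‖ ^ 2 ≤ u ⬝ᵥ u := by
  have h : ∀ k, u k ^ 2 ≤ u ⬝ᵥ u := fun k => by
    rw [sq]
    exact Finset.single_le_sum (f := fun i => u i * u i) (fun i _ => mul_self_nonneg _)
      (Finset.mem_univ k)
  exact (Real.le_sqrt (norm_nonneg _) ((sq_nonneg _).trans (h 0))).1
    ((pi_norm_le_iff_of_nonneg (Real.sqrt_nonneg _)).2 fun k => Real.abs_le_sqrt (h k))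

theorem norm_smul_le' {c a b : ℝ} {u : V 3} (hc : |c| ≤ a) (hu : ‖u‖ ≤ b) : ‖c • u‖ ≤ a * b := by
  rw [norm_smul]
  exact mul_le_mul hc hu (norm_nonneg _) ((abs_nonneg _).trans hc)

theorem abs_mul_le' {c d a b : ℝ} (hc : |c| ≤ a) (hd : |d| ≤ b) : |c * d| ≤ a * b := by
  rw [abs_mul]
  exact mul_le_mul hc hd (abs_nonneg _) ((abs_nonneg _).trans hc)

/-- Two points near a line differ by a multiple of its direction. -/
theorem diff {θ : ℝ} {a b u v : V 3} (h0 : 0 ≤ θ) (h1 : θ ≤ 1) (hb : ‖b‖ = 1) (hu : ‖u‖ ≤ 1)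
    (hv : ‖v‖ ≤ 1) (k1 : Nr θ a b u) (k2 : Nr θ a b v) :
    ∃ (β : ℝ) (e : V 3), |β| ≤ 4 ∧ ‖e‖ ≤ 2 * θ ∧ v = u + β • b + e := by
  obtain ⟨σ, k1⟩ := k1
  obtain ⟨τ, k2⟩ := k2
  have he : ‖v - u - (τ - σ) • b‖ ≤ 2 * θ := by
    refine (pi_norm_le_iff_of_nonneg (by positivity)).2 fun k => ?_
    have e : (v - u - (τ - σ) • b) k = (v k - a k - τ * b k) - (u k - a k - σ * b k) := by
      simp only [Pi.sub_apply, Pi.smul_apply, smul_eq_mul]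
      ring
    rw [e]
    exact (abs_sub _ _).trans (by linarith [k1 k, k2 k])
  refine ⟨τ - σ, _, ?_, he, by abel⟩
  have e : (τ - σ) • b = v - u - (v - u - (τ - σ) • b) := by abel
  have h2 := (norm_sub_le _ _).trans (add_le_add (norm_sub_le v u) he)
  rw [← e, norm_smul, hb, mul_one, Real.norm_eq_abs] at h2
  linarith

theorem cross_trans {b0 b1 b2 : V 3} {s : ℝ} (h0 : ‖b0‖ = 1) (h1 : ‖b1‖ = 1) (h2 : ‖b2‖ = 1)
    (k1 : ‖b0 ⨯₃ b1‖ ≤ s) (k2 : ‖b1 ⨯₃ b2‖ ≤ s) : ‖b0 ⨯₃ b2‖ ≤ 7 * s := by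
  have e : (b1 ⬝ᵥ b1) • b0 ⨯₃ b2 = (b1 ⬝ᵥ b2) • b0 ⨯₃ b1 - b0 ⨯₃ (b1 ⨯₃ (b1 ⨯₃ b2)) := by
    funext k
    fin_cases k <;> simp [cross_apply, dotProduct, Fin.sum_univ_three] <;> ring
  have h3 := sq_le_dot b1
  rw [h1, one_pow] at h3
  have h4 := (norm_sub_le _ _).trans (add_le_add (norm_smul_le' (abs_dot h1.le h2.le) k1)
    (norm_cross h0.le (norm_cross h1.le k2)))
  rw [← e, norm_smul, Real.norm_of_nonneg (zero_le_one.trans h3)] at h4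
  nlinarith [norm_nonneg (b0 ⨯₃ b2)]

theorem exists_cross {b : V 3} (h : ‖b‖ = 1) : ∃ c : V 3, ‖c‖ ≤ 1 ∧ 1 ≤ ‖b ⨯₃ c‖ := by
  obtain ⟨k, hk⟩ : ∃ k, 1 ≤ |b k| := by
    by_contra h'
    push Not at h'
    exact ((pi_norm_lt_iff one_pos).2 h').ne h
  have hs : ∀ j : Fin 3, ‖(Pi.single j 1 : V 3)‖ ≤ 1 := fun j => by simp [Pi.norm_single]
  fin_cases k
  · exact ⟨_, hs 1, le_trans (by simpa [cross_apply] using hk) (norm_le_pi_norm _ 2)⟩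
  · exact ⟨_, hs 2, le_trans (by simpa [cross_apply] using hk) (norm_le_pi_norm _ 0)⟩
  · exact ⟨_, hs 0, le_trans (by simpa [cross_apply] using hk) (norm_le_pi_norm _ 1)⟩

/-- Separated directions whose neighbourhoods lie in a set of small volume. -/
theorem count {Q : ℕ} {G : Finset (Line 3)} (h : Sep Q G) (hQ : (0 : ℝ) < Q) {A : Set (V 3)}
    {M : ℝ} (hM : 0 ≤ M) (hA : volume A ≤ ENNReal.ofReal M)
    (hs : ∀ g ∈ G, ball g.2 (1 / (2 * Q)) ⊆ A) : (G.card : ℝ) ≤ M * (Q : ℝ) ^ 3 := by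
  have hr : (0 : ℝ) < 1 / (2 * Q) := by positivity
  have hd : Set.PairwiseDisjoint (G : Set (Line 3)) fun g => ball g.2 (1 / (2 * (Q : ℝ))) := by
    intro g hg g' hg' hne
    obtain ⟨j, hj⟩ := h.2 g hg g' hg' hne
    refine ball_disjoint_ball (le_trans ?_ (dist_le_pi_dist g.2 g'.2 j))
    rw [Real.dist_eq, ← add_div, div_le_iff₀ (by positivity)]
    linarith
  have h1 := (measure_mono (Set.iUnion₂_subset hs)).trans hA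
  rw [measure_biUnion_finset hd fun _ _ => measurableSet_ball] at h1
  simp only [Real.volume_pi_ball _ hr, Finset.sum_const, nsmul_eq_mul, Fintype.card_fin] at h1
  rw [← ENNReal.ofReal_natCast, ← ENNReal.ofReal_mul (Nat.cast_nonneg _),
    ENNReal.ofReal_le_ofReal_iff hM] at h1
  have e : (2 * (1 / (2 * (Q : ℝ)))) ^ 3 = 1 / (Q : ℝ) ^ 3 := by field_simp
  rwa [e, mul_one_div, div_le_iff₀ (by positivity)] at h1

/-- The volume of a box in the frame of `b` and `N`. -/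
theorem vol_box {a b N : V 3} {n R0 R1 R2 : ℝ} (hb : ‖b‖ = 1) (hn : 0 < n) (hN : n ≤ ‖N‖)
    (h : b ⬝ᵥ N = 0) (h0 : 0 ≤ R0) (h1 : 0 ≤ R1) (h2 : 0 ≤ R2) :
    volume {x : V 3 | |b ⬝ᵥ (x - a)| ≤ R0 ∧ |N ⬝ᵥ (x - a)| ≤ R1 ∧ |(b ⨯₃ N) ⬝ᵥ (x - a)| ≤ R2} ≤
      ENNReal.ofReal (8 * R0 * R1 * R2 / n ^ 2) := by
  have e1 : LinearMap.det (Matrix.toLin' (Matrix.of ![b, N, b ⨯₃ N])) =
      (b ⬝ᵥ b) * (N ⬝ᵥ N) - (b ⬝ᵥ N) ^ 2 := by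
    rw [LinearMap.det_toLin', Matrix.det_fin_three]
    simp [cross_apply, dotProduct, Fin.sum_univ_three]
    ring
  have h3 := sq_le_dot b
  rw [hb, one_pow] at h3
  have h4 : n ^ 2 ≤ N ⬝ᵥ N := (pow_le_pow_left₀ hn.le hN 2).trans (sq_le_dot N)
  have h5 : 0 < n ^ 2 := by positivity
  have h6 : n ^ 2 ≤ LinearMap.det (Matrix.toLin' (Matrix.of ![b, N, b ⨯₃ N])) := by
    rw [e1, h]
    nlinarith
  have e2 : {x : V 3 | |b ⬝ᵥ (x - a)| ≤ R0 ∧ |N ⬝ᵥ (x - a)| ≤ R1 ∧ |(b ⨯₃ N) ⬝ᵥ (x - a)| ≤ R2} =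
      (fun x => x + -a) ⁻¹' (Matrix.toLin' (Matrix.of ![b, N, b ⨯₃ N]) ⁻¹'
        Set.Icc ![-R0, -R1, -R2] ![R0, R1, R2]) := by
    ext x
    simp only [Set.mem_ofPred_eq, Set.mem_preimage, Set.mem_Icc, Pi.le_def, Fin.forall_fin_succ,
      abs_le, ← sub_eq_add_neg, Matrix.toLin'_apply, Matrix.mulVec]
    simp
    tauto
  rw [e2, measure_preimage_add_right, Measure.addHaar_preimage_linearMap _ (h5.trans_le h6).ne',
    Real.volume_Icc_pi, Fin.prod_univ_three, ← ENNReal.ofReal_mul, ← ENNReal.ofReal_mul,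
    ← ENNReal.ofReal_mul (abs_nonneg _)]
  · refine ENNReal.ofReal_le_ofReal ?_
    rw [abs_of_pos (inv_pos.2 (h5.trans_le h6)), div_eq_inv_mul]
    refine mul_le_mul (inv_anti₀ h5 h6) (le_of_eq ?_) ?_ (by positivity)
    · simp
      ring
    · simp
      positivity
  · simp
    positivity
  · simp
    positivity

theorem dot_cross (b c w : V 3) : |(b ⨯₃ c) ⬝ᵥ w| = |c ⬝ᵥ (b ⨯₃ w)| := by
  rw [← abs_neg]
  congr 1
  simp [cross_apply, dotProduct, Fin.sum_univ_three]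
  ring

/-- The bounds for one direction. -/
theorem bounds {θ sb om α β γ : ℝ} {b0 b1 b2 bs e w : V 3} (h0 : 0 < θ) (h1 : θ ≤ 1) (h2 : θ ≤ sb)
    (h3 : θ ≤ om) (hb0 : ‖b0‖ = 1) (hb1 : ‖b1‖ = 1) (hb2 : ‖b2‖ = 1) (hN : ‖b0 ⨯₃ bs‖ ≤ sb)
    (k1 : ‖b0 ⨯₃ b1‖ ≤ sb) (k2 : ‖b1 ⨯₃ b2‖ ≤ sb) (k3 : |(b1 ⨯₃ b0) ⬝ᵥ bs| ≤ om)
    (k4 : |(b0 ⨯₃ b1) ⬝ᵥ b2| ≤ om) (hα : |α| ≤ 4) (hβ : |β| ≤ 4) (hγ : |γ| ≤ 4) (he : ‖e‖ ≤ 7 * θ)
    (hw : w = α • b2 + β • b1 + γ • b0 + e) : ‖w‖ ≤ 19 ∧ ‖b0 ⨯₃ w‖ ≤ 46 * sb ∧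
      (sb / 2 ≤ ‖b0 ⨯₃ b1‖ → sb ≤ 4 → |(b0 ⨯₃ bs) ⬝ᵥ w| ≤ 152 * om) := by
  have k5 := cross_trans hb0 hb1 hb2 k1 k2
  refine ⟨?_, ?_, fun l1 l2 => ?_⟩
  · rw [hw]
    refine norm_add₄_le.trans ?_
    linarith [norm_smul_le' hα hb2.le, norm_smul_le' hβ hb1.le, norm_smul_le' hγ hb0.le]
  · have e1 : b0 ⨯₃ w = α • b0 ⨯₃ b2 + β • b0 ⨯₃ b1 + b0 ⨯₃ e := by simp [hw]
    rw [e1]
    refine norm_add₃_le.trans ?_
    linarith [norm_smul_le' hα k5, norm_smul_le' hβ k1, norm_cross hb0.le he]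
  · have e1 : (b0 ⨯₃ bs) ⬝ᵥ w =
        α * ((b0 ⨯₃ bs) ⬝ᵥ b2) + β * ((b1 ⨯₃ b0) ⬝ᵥ bs) + (b0 ⨯₃ bs) ⬝ᵥ e := by
      simp [hw, cross_apply, dotProduct, Fin.sum_univ_three]
      ring
    have e2 : ((b0 ⨯₃ bs) ⬝ᵥ b2) • b0 ⨯₃ b1 =
        ((b1 ⨯₃ b0) ⬝ᵥ bs) • b0 ⨯₃ b2 + ((b0 ⨯₃ b1) ⬝ᵥ b2) • b0 ⨯₃ bs := by
      funext k
      fin_cases k <;> simp [cross_apply, dotProduct, Fin.sum_univ_three] <;> ring
    have l3 := (norm_add_le _ _).trans (add_le_add (norm_smul_le' k3 k5) (norm_smul_le' k4 hN))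
    rw [← e2, norm_smul, Real.norm_eq_abs] at l3
    have l4 : |(b0 ⨯₃ bs) ⬝ᵥ b2| ≤ 16 * om := by
      have := mul_le_mul_of_nonneg_left l1 (abs_nonneg ((b0 ⨯₃ bs) ⬝ᵥ b2))
      exact le_of_mul_le_mul_right (by linarith) (h0.trans_le h2)
    rw [e1]
    refine (abs_add_three _ _ _).trans ?_
    linarith [abs_mul_le' hα l4, abs_mul_le' hβ k3, abs_dot (hN.trans l2) he]

end ROOT

open ROOT in
theorem root : StmtROOT := by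
  refine ⟨10 ^ 8, by norm_num,
    fun Q G θ sb om a0 b0 bs hG hθQ hθ1 hθs hθo ha0 hb0 hbs hN1 hN2 H => ?_⟩
  have hθ : 0 < θ := pos_of_mul_pos_left (zero_lt_one.trans_le hθQ) (Nat.cast_nonneg Q)
  have hQ : (0 : ℝ) < Q := pos_of_mul_pos_right (zero_lt_one.trans_le hθQ) hθ.le
  have hs : 0 < sb := hθ.trans_le hθs
  have ho : 0 < om := hθ.trans_le hθo
  have key : ∀ g ∈ G, ∀ x ∈ ball g.2 (1 / (2 * (Q : ℝ))), ‖x - a0‖ ≤ 19 ∧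
      ‖b0 ⨯₃ (x - a0)‖ ≤ 46 * sb ∧ (sb ≠ θ → sb ≤ 4 → |(b0 ⨯₃ bs) ⬝ᵥ (x - a0)| ≤ 152 * om) := by
    intro g hg x hx
    obtain ⟨v1, v2, a1, b1, a2, b2, hv1, hv2, hb1, hb2, n1, n2, n3, n4, n5, k1, k2, k3, k4, k5⟩ :=
      H g hg
    obtain ⟨γ, e1, hγ, he1, q1⟩ := diff hθ.le hθ1 hb0 ha0 hv1 ⟨0, fun k => by simpa using hθ.le⟩ n1
    obtain ⟨β, e2, hβ, he2, q2⟩ := diff hθ.le hθ1 hb1 hv1 hv2 n2 n3
    obtain ⟨α, e3, hα, he3, q3⟩ := diff hθ.le hθ1 hb2 hv2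
      ((pi_norm_le_iff_of_nonneg zero_le_one).2 (hG.1 g hg)) n4 n5
    have hx' : ‖x - g.2‖ ≤ θ := by
      refine (mem_ball_iff_norm.1 hx).le.trans ?_
      rw [div_le_iff₀ (by positivity)]
      linarith
    obtain ⟨r1, r2, r3⟩ := bounds (e := e1 + e2 + e3 + (x - g.2)) (w := x - a0) hθ hθ1 hθs hθo hb0
      hb1 hb2 hN1 k1 k3 k4 k5 hα hβ hγ (norm_add₄_le.trans (by linarith))
      (by rw [q3, q2, q1]; abel)
    exact ⟨r1, r2, fun h => r3 (k2.resolve_left h)⟩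
  have fin : ∀ (c : V 3) (n N R : ℝ), 0 < n → n ≤ ‖b0 ⨯₃ c‖ → ‖b0 ⨯₃ c‖ ≤ N → 0 ≤ R →
      (∀ g ∈ G, ∀ x ∈ ball g.2 (1 / (2 * (Q : ℝ))), |(b0 ⨯₃ c) ⬝ᵥ (x - a0)| ≤ R) →
      8 * 57 * R * (3 * (N * (46 * sb))) / n ^ 2 ≤ 10 ^ 8 * om →
      (G.card : ℝ) ≤ 10 ^ 8 * (Q : ℝ) ^ 3 * om := by
    intro c n N R hn h1 h2 h3 h4 h5
    have hN : 0 < N := hn.trans_le (h1.trans h2)
    rw [mul_right_comm]
    refine count hG hQ (by positivity) ((vol_box (a := a0) hb0 hn h1 (dot_self_cross _ _)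
      (by norm_num) h3 (by positivity)).trans (ENNReal.ofReal_le_ofReal h5)) fun g hg x hx => ?_
    obtain ⟨r1, r2, -⟩ := key g hg x hx
    refine ⟨(abs_dot hb0.le r1).trans (by norm_num), h4 g hg x hx, ?_⟩
    rw [dot_cross]
    exact abs_dot h2 r2
  by_cases h : sb = θ
  · obtain ⟨c, hc, hc'⟩ := exists_cross hb0
    refine fin c 1 _ (3 * (1 * (46 * sb))) one_pos hc' (norm_cross hb0.le hc) (by positivity)
      (fun g hg x hx => ?_) ?_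
    · rw [dot_cross]
      exact abs_dot hc (key g hg x hx).2.1
    · rw [h]
      nlinarith
  · have h1 := hN2.resolve_left h
    have h2 := norm_cross hb0.le hbs.le
    refine fin bs (sb / 2) sb (152 * om) (by positivity) h1 hN1 (by positivity)
      (fun g hg x hx => (key g hg x hx).2.2 h (by linarith)) ?_
    rw [div_le_iff₀ (by positivity)]
    nlinarith [mul_pos ho (mul_pos hs hs)]

end Pool.Agent.MP_5168f5_an.H83
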