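import Pool.Agent.MP_5168f5_an.H83.Basic

/-! Choice of a robust frame. -/

namespace Pool.Agent.MP_5168f5_an.H83

open MeasureTheory Metric Finset Matrix H19 H29 H42
open scoped ENNReal

namespace SEL

variable {n : ℕ} {ι : Type}

/-- Tuples whose entries are vectors of `S` or auxiliary vectors. -/
def Tup (u : ι → V n) (e : Fin n → V n) (S : Finset ι) (T : Fin n → V n) : Prop :=
  ∀ i, (∃ a ∈ S, T i = u a) ∨ ∃ j, T i = e j

theorem Tup.mono {u : ι → V n} {e : Fin n → V n} {S S' : Finset ι} {T : Fin n → V n}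
    (h : Tup u e S T) (hS : S ⊆ S') : Tup u e S' T :=
  fun i => (h i).imp (fun ⟨a, ha, h1⟩ => ⟨a, hS ha, h1⟩) id

theorem exists_max (u : ι → V n) (e : Fin n → V n) (S : Finset ι) : ∃ W, Tup u e S W ∧
    ∀ T, Tup u e S T → |(Matrix.of T).det| ≤ |(Matrix.of W).det| := by
  have h1 : {T | Tup u e S T}.Finite := by
    refine (Set.Finite.pi' (t := fun _ : Fin n => u '' S ∪ Set.range e) fun _ =>
      (S.finite_toSet.image u).union (Set.finite_range e)).subset fun T hT i => ?_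
    rcases hT i with ⟨a, ha, h⟩ | ⟨j, h⟩
    · exact Or.inl ⟨a, ha, h.symm⟩
    · exact Or.inr ⟨j, h.symm⟩
  exact Set.exists_max_image _ (fun T => |(Matrix.of T).det|) h1 ⟨e, fun i => Or.inr ⟨i, rfl⟩⟩

theorem cram (U : Fin n → V n) (w : V n) (h : (Matrix.of U).det ≠ 0) :
    w = ∑ k, ((Matrix.of (Function.update U k w)).det / (Matrix.of U).det) • U k := by
  have h1 := Matrix.mulVec_cramer (Matrix.of U)ᵀ w
  rw [Matrix.mulVec_transpose, Matrix.vecMul_eq_sum, Matrix.det_transpose] at h1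
  refine (inv_smul_smul₀ h w).symm.trans ?_
  rw [← h1, Finset.smul_sum]
  refine Finset.sum_congr rfl fun k _ => ?_
  rw [smul_smul, Matrix.cramer_transpose_apply, div_eq_inv_mul]
  rfl

theorem drop {r : ℕ} {K lo hi : ℝ} (δ : ℕ → ℝ) (hr : 0 < r) (hK : 1 ≤ K) (h0 : δ 0 ≤ hi)
    (h1 : lo ≤ δ r) (h2 : hi ≤ K ^ r * lo) : ∃ i < r, δ i ≤ K * δ (i + 1) := by
  by_contra hc
  push Not at hc
  have hK0 : 0 < K := by linarith
  have key : ∀ i, i < r → K ^ (i + 1) * δ (i + 1) < δ 0 := by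
    intro i
    induction i with
    | zero => intro h; simpa using hc 0 h
    | succ i ih =>
      intro h
      have h3 := mul_lt_mul_of_pos_left (hc (i + 1) h) (pow_pos hK0 (i + 1))
      rw [← mul_assoc, ← pow_succ] at h3
      exact h3.trans (ih (by omega))
  obtain ⟨r, rfl⟩ : ∃ r', r = r' + 1 := ⟨r - 1, by omega⟩
  have h3 := key r (by omega)
  have h4 := mul_le_mul_of_nonneg_left h1 (pow_pos hK0 (r + 1)).le
  linarith

end SEL

open SEL in
theorem sel : StmtSEL := by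
  classical
  intro n r ι A u e K lo hi hr hK hlo he hhi hA
  choose W hW hmax using exists_max u e
  have hlow : ∀ S, lo ≤ |(Matrix.of (W S)).det| := fun S =>
    he.trans (hmax S e fun i => Or.inr ⟨i, rfl⟩)
  have hex : ∀ i : ℕ, ∃ S, (S ⊆ A ∧ A.card ≤ 2 ^ i * S.card) ∧ ∀ S', S' ⊆ A →
      A.card ≤ 2 ^ i * S'.card → |(Matrix.of (W S)).det| ≤ |(Matrix.of (W S')).det| := by
    intro i
    obtain ⟨S, h1, h2⟩ := Finset.exists_min_image
      (A.powerset.filter fun S => A.card ≤ 2 ^ i * S.card) (fun S => |(Matrix.of (W S)).det|)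
      ⟨A, mem_filter.2 ⟨mem_powerset_self A, Nat.le_mul_of_pos_left _ (Nat.two_pow_pos i)⟩⟩
    exact ⟨S, ⟨mem_powerset.1 (mem_filter.1 h1).1, (mem_filter.1 h1).2⟩, fun S' h3 h4 =>
      h2 S' (mem_filter.2 ⟨mem_powerset.2 h3, h4⟩)⟩
  choose S hS hmin using hex
  obtain ⟨i, hi1, hi2⟩ := drop (fun i => |(Matrix.of (W (S i))).det|) hr hK
    (hA _ ((hW _).mono (hS 0).1)) (hlow _) hhi
  refine ⟨S i, (hS i).1, (hS i).2.trans (Nat.mul_le_mul_right _
    (Nat.pow_le_pow_right two_pos hi1.le)), W (S i), hW _, hmax _, fun S' h1 h2 => ?_⟩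
  have h3 := hmin (i + 1) S' (h1.trans (hS i).1) ((hS i).2.trans (by
    rw [pow_succ, mul_assoc]
    exact Nat.mul_le_mul_left _ h2))
  have h4 : 0 < |(Matrix.of (W S')).det| := hlo.trans_le (hlow S')
  refine ⟨W S', hW S', fun j => ⟨_, fun k => ?_, cram (W S') (W (S i) j) (abs_pos.1 h4)⟩⟩
  rw [abs_div, div_le_iff₀ h4]
  refine (hmax (S i) _ fun l => ?_).trans
    (hi2.trans (mul_le_mul_of_nonneg_left h3 (zero_le_one.trans hK)))
  by_cases hl : l = k
  · rw [hl, Function.update_self]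
    exact hW _ j
  · rw [Function.update_of_ne hl]
    exact (hW S').mono h1 l

end Pool.Agent.MP_5168f5_an.H83
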