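import Pool.Agent.MP_5168f5_an.H83.Basic

/-! The multiplicity bound for transversal configurations. -/

namespace Pool.Agent.MP_5168f5_an.H83

open MeasureTheory Metric Finset Matrix H19 H29 H42
open scoped ENNReal

namespace TRI

variable {m : ℕ}

/-- Some class of cells meets few lines. -/
theorem group {κ ρ : Type} {X : Finset (Pt m)} {G : Finset (Line m)}
    {S : Pt m → Finset (Line m)} (γ : Pt m → κ) (ψ : Line m → Pt m → ρ) (R : Finset ρ)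
    (hX : X.Nonempty) (hG : ∀ x ∈ X, ∀ g ∈ S x, g ∈ G ∧ ψ g x ∈ R)
    (h : ∀ x ∈ X, ∀ y ∈ X, ∀ g ∈ S x, g ∈ S y → ψ g x = ψ g y → γ x = γ y) :
    ∃ B ⊆ X, B.Nonempty ∧ (∀ x ∈ B, ∀ y ∈ B, γ x = γ y) ∧ ∃ H ⊆ G, (∀ x ∈ B, S x ⊆ H) ∧
      X.card * H.card ≤ R.card * G.card * B.card := by
  classical
  let B : κ → Finset (Pt m) := fun c => X.filter fun x => γ x = c
  let P : κ → Finset (Line m × ρ) := fun c =>
    (G ×ˢ R).filter fun p => ∃ x ∈ B c, p.1 ∈ S x ∧ ψ p.1 x = p.2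
  let H : κ → Finset (Line m) := fun c => (P c).image Prod.fst
  have h1 : ∑ c ∈ X.image γ, (P c).card ≤ R.card * G.card := by
    rw [← Finset.card_biUnion, mul_comm, ← Finset.card_product]
    · exact card_le_card (biUnion_subset.2 fun c _ => filter_subset _ _)
    · intro c _ c' _ hne
      refine Finset.disjoint_left.2 fun p hp hp' => hne ?_
      obtain ⟨x, hx, h1, h2⟩ := (mem_filter.1 hp).2
      obtain ⟨y, hy, h3, h4⟩ := (mem_filter.1 hp').2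
      rw [← (mem_filter.1 hx).2, ← (mem_filter.1 hy).2]
      exact h x (mem_filter.1 hx).1 y (mem_filter.1 hy).1 _ h1 h3 (h2.trans h4.symm)
  have h2 : ∑ c ∈ X.image γ, (B c).card = X.card := (Finset.card_eq_sum_card_image γ X).symm
  obtain ⟨c, hc, h3⟩ := Finset.exists_le_of_sum_le (hX.image γ)
    (f := fun c => X.card * (H c).card) (g := fun c => R.card * G.card * (B c).card) (by
      rw [← mul_sum, ← mul_sum, h2, mul_comm]
      exact Nat.mul_le_mul_right _ ((sum_le_sum fun c _ => card_image_le).trans h1))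
  obtain ⟨x0, hx0, rfl⟩ := mem_image.1 hc
  refine ⟨B (γ x0), filter_subset _ _, ⟨x0, mem_filter.2 ⟨hx0, rfl⟩⟩, fun x hx y hy =>
    (mem_filter.1 hx).2.trans (mem_filter.1 hy).2.symm, H (γ x0), fun g hg => ?_,
    fun x hx g hg => ?_, h3⟩
  · obtain ⟨p, hp, rfl⟩ := mem_image.1 hg
    exact (mem_product.1 (mem_filter.1 hp).1).1
  · have h4 := hG x (mem_filter.1 hx).1 g hg
    exact mem_image.2 ⟨(g, ψ g x), mem_filter.2 ⟨mem_product.2 h4, x, hx, hg, rfl⟩, rfl⟩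

/-- The class of `group` with its average number of cells on a line. -/
theorem pick {κ ρ : Type} {Q s : ℕ} {X : Finset (Pt m)} {G : Finset (Line m)}
    {S : Pt m → Finset (Line m)} (γ : Pt m → κ) (ψ : Line m → Pt m → ρ) (R : Finset ρ)
    (hi : Incid Q s G X S) (hs : 0 < s) (hX : X.Nonempty) (hG : ∀ x ∈ X, ∀ g ∈ S x, ψ g x ∈ R)
    (h : ∀ x ∈ X, ∀ y ∈ X, ∀ g ∈ S x, g ∈ S y → ψ g x = ψ g y → γ x = γ y) :
    ∃ B ⊆ X, B.Nonempty ∧ (∀ x ∈ B, ∀ y ∈ B, γ x = γ y) ∧ ∃ H ⊆ G, Incid Q s H B S ∧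
      ∃ l : ℝ, 0 < l ∧ l * H.card = s * B.card ∧ (s : ℝ) * X.card ≤ R.card * G.card * l := by
  obtain ⟨B, hB, hne, hc, H, hH, hS, hle⟩ := group γ ψ R hX
    (fun x hx g hg => ⟨((hi x hx).2.2 g hg).1, hG x hx g hg⟩) h
  have h1 : (0 : ℝ) < H.card := by
    obtain ⟨x, hx⟩ := hne
    have := card_le_card (hS x hx)
    rw [(hi x (hB hx)).2.1] at this
    exact_mod_cast hs.trans_le this
  have h2 : (0 : ℝ) < B.card := by exact_mod_cast hne.card_pos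
  have h3 : (0 : ℝ) < s := by exact_mod_cast hs
  have h4 : (X.card : ℝ) * H.card ≤ R.card * G.card * B.card := by exact_mod_cast hle
  refine ⟨B, hB, hne, hc, H, hH, fun x hx => ⟨(hi x (hB hx)).1, (hi x (hB hx)).2.1, fun g hg =>
    ⟨hS x hx hg, ((hi x (hB hx)).2.2 g hg).2⟩⟩, s * B.card / H.card, by positivity,
    div_mul_cancel₀ _ h1.ne', ?_⟩
  rw [← mul_div_assoc, le_div_iff₀ h1]
  nlinarith

/-- The iteration of the partition ends with the wall alternative. -/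
theorem iter {Q s d : ℕ} {r : ℝ} {G : Finset (Line m)} {X : Finset (Pt m)}
    {S : Pt m → Finset (Line m)} (W : Finset (Pt m) → (Pt m → List (Finset ℕ)) → Prop)
    (hr : 2 < r) (hi : Incid Q s G X S) (hX : X.Nonempty)
    (hstep : ∀ (s L : ℕ) (b : ℝ) (X : Finset (Pt m)) (S : Pt m → Finset (Line m))
      (cl : Pt m → List (Finset ℕ)) (lab : Line m → ℕ → ℕ), St Q s L b G X S cl lab →
      W X cl ∨ ∃ X' ⊆ X, X.card ≤ 4 * X'.card ∧ ∃ (s' : ℕ) (S' : Pt m → Finset (Line m))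
        (cl' : Pt m → List (Finset ℕ)) (lab' : Line m → ℕ → ℕ), s ≤ 2 * s' ∧ (∀ x, S' x ⊆ S x) ∧
        St Q s' (L * d) (2 * b / r) G X' S' cl' lab') :
    ∃ k : ℕ, ∃ X' ⊆ X, X.card ≤ 4 ^ k * X'.card ∧ ∃ (s' : ℕ) (S' : Pt m → Finset (Line m))
      (cl : Pt m → List (Finset ℕ)) (lab : Line m → ℕ → ℕ), s ≤ 2 ^ k * s' ∧ (∀ x, S' x ⊆ S x) ∧
      St Q s' (d ^ k) (X.card * (2 / r) ^ k) G X' S' cl lab ∧ W X' cl := by
  by_contra hno
  have h1 : ∀ k : ℕ, ∃ X' ⊆ X, X.card ≤ 4 ^ k * X'.card ∧ ∃ (s' : ℕ)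
      (S' : Pt m → Finset (Line m)) (cl : Pt m → List (Finset ℕ)) (lab : Line m → ℕ → ℕ),
      s ≤ 2 ^ k * s' ∧ (∀ x, S' x ⊆ S x) ∧
      St Q s' (d ^ k) (X.card * (2 / r) ^ k) G X' S' cl lab := by
    intro k
    induction k with
    | zero =>
      refine ⟨X, subset_rfl, by simp, s, S, fun _ => [], fun _ _ => 0, by simp,
        fun _ => subset_rfl, hi, by simp, by simp, by simp, fun B hB _ _ => ?_⟩
      simpa using card_le_card hB
    | succ k ih =>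
      obtain ⟨X1, a1, a2, s1, S1, cl, lab, a3, a4, a5⟩ := ih
      rcases hstep _ _ _ _ _ _ _ a5 with hw | ⟨X2, b1, b2, s2, S2, cl', lab', b3, b4, b5⟩
      · exact absurd ⟨k, X1, a1, a2, s1, S1, cl, lab, a3, a4, a5, hw⟩ hno
      · refine ⟨X2, b1.trans a1, ?_, s2, S2, cl', lab', ?_, fun x => (b4 x).trans (a4 x), ?_⟩
        · rw [pow_succ, mul_assoc]
          exact a2.trans (Nat.mul_le_mul_left _ b2)
        · rw [pow_succ, mul_assoc]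
          exact a3.trans (Nat.mul_le_mul_left _ b3)
        · have e : (X.card : ℝ) * (2 / r) ^ (k + 1) = 2 * (X.card * (2 / r) ^ k) / r := by ring
          rw [pow_succ, e]
          exact b5
  have h2 : (0 : ℝ) < X.card := by exact_mod_cast hX.card_pos
  obtain ⟨k, hk⟩ := exists_pow_lt_of_lt_one (inv_pos.2 h2)
    (show 2 / r < 1 by rw [div_lt_one (by linarith)]; exact hr)
  obtain ⟨X1, -, a2, s1, S1, cl, lab, -, -, a5⟩ := h1 k
  have h3 : X1.Nonempty := by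
    rw [← card_pos]
    have := hX.card_pos
    exact Nat.pos_of_mul_pos_left (this.trans_le a2)
  obtain ⟨x, hx⟩ := h3
  have h4 := a5.small {x} (by simpa using hx) (cl x) (by simp)
  have h5 := mul_lt_mul_of_pos_left hk h2
  rw [mul_inv_cancel₀ h2.ne'] at h5
  simp only [card_singleton, Nat.cast_one] at h4
  linarith

/-- Lines with many cells carry half of the incidences. -/
theorem heavy {Q s ρ : ℕ} {l : ℝ} {H : Finset (Line m)} {B : Finset (Pt m)}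
    {S : Pt m → Finset (Line m)} (hi : Incid Q s H B S) (hl : 0 < l)
    (he : l * H.card = s * B.card) (t0 : ℕ) (ht : ∀ x ∈ B, t0 ≤ x.2 ∧ x.2 < t0 + ρ) :
    ∃ H' ⊆ H, ∃ Y : Line m → Finset ℕ, (∀ g ∈ H', l / 2 ≤ (Y g).card) ∧
      (∀ g, ∀ t ∈ Y g, ∃ x ∈ B, g ∈ S x ∧ x.2 = t) ∧ (s : ℝ) * B.card ≤ 2 * (H'.card * ρ) := by
  classical
  let Z : Line m → Finset (Pt m) := fun g => B.filter fun x => g ∈ S x
  have hinj : ∀ g, ((Z g).image Prod.snd).card = (Z g).card := fun g =>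
    card_image_of_injOn fun x hx y hy e =>
      hi.eq_of (mem_filter.1 hx).1 (mem_filter.1 hy).1 (mem_filter.1 hx).2 (mem_filter.1 hy).2 e
  have hρ : ∀ g, ((Z g).card : ℝ) ≤ ρ := by
    intro g
    have : ((Z g).image Prod.snd) ⊆ Finset.Ico t0 (t0 + ρ) := by
      intro t h
      obtain ⟨x, hx, rfl⟩ := mem_image.1 h
      exact mem_Ico.2 (ht x (mem_filter.1 hx).1)
    have h2 := card_le_card this
    rw [hinj, Nat.card_Ico] at h2
    exact_mod_cast h2.trans (by omega)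
  refine ⟨H.filter fun g => l / 2 ≤ (Z g).card, filter_subset _ _, fun g => (Z g).image Prod.snd,
    fun g hg => ?_, fun g t h => ?_, ?_⟩
  · rw [hinj]
    exact (mem_filter.1 hg).2
  · obtain ⟨x, hx, rfl⟩ := mem_image.1 h
    exact ⟨x, (mem_filter.1 hx).1, (mem_filter.1 hx).2, rfl⟩
  · have h1 : ∑ g ∈ H, ((Z g).card : ℝ) = s * B.card := by exact_mod_cast hi.sum_card
    rw [← sum_filter_add_sum_filter_not H fun g => l / 2 ≤ ((Z g).card : ℝ)] at h1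
    have h2 : ∑ g ∈ H.filter fun g => l / 2 ≤ ((Z g).card : ℝ), ((Z g).card : ℝ) ≤
        (H.filter fun g => l / 2 ≤ ((Z g).card : ℝ)).card * ρ := by
      simpa using sum_le_card_nsmul _ _ _ fun g _ => hρ g
    have h3 : ∑ g ∈ H.filter fun g => ¬l / 2 ≤ ((Z g).card : ℝ), ((Z g).card : ℝ) ≤
        (H.filter fun g => ¬l / 2 ≤ ((Z g).card : ℝ)).card * (l / 2) := by
      simpa using sum_le_card_nsmul _ (fun g => ((Z g).card : ℝ)) (l / 2) fun g hg =>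
        (not_le.1 (mem_filter.1 hg).2).le
    have h4 : ((H.filter fun g => ¬l / 2 ≤ ((Z g).card : ℝ)).card : ℝ) ≤ H.card := by
      exact_mod_cast card_filter_le _ _
    nlinarith

/-- The bound that comes from the wall cells. -/
theorem two {Q s L nq ρ Δ d : ℕ} {b η θ cw C2 : ℝ} {G : Finset (Line m)} {X X' : Finset (Pt m)}
    {S : Pt m → Finset (Line m)} {cl : Pt m → List (Finset ℕ)} {lab : Line m → ℕ → ℕ}
    {f : List (Finset ℕ) → ℕ → V (m + 1) → ℝ} {idx : Pt m → ℕ}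
    (hst : St Q s L b G X S cl lab) (hsep : Sep Q G) (hX : X' ⊆ X) (hne : X'.Nonempty)
    (hs : 0 < s) (hf : ∀ c i, IsPoly d (f c i))
    (hw : ∀ x ∈ X', idx x < nq ∧ Wall η (f (cl x) (idx x)) x) (hρ : 0 < ρ) (hQ : Q ≤ ρ * Δ)
    (hcw : 0 ≤ cw)
    (hmk : ∀ (l : ℝ) (H : Finset (Line m)) (B : Finset (Pt m)), H ⊆ G → B ⊆ X → Incid Q s H B S →
      B.Nonempty → 0 < l → l * H.card ≤ s * B.card → θ * l ^ m ≤ cw * B.card)
    (hwall : ∀ F : V (m + 1) → ℝ, IsPoly d F → ∀ (t0 : ℕ) (z0 : V m) (l : ℝ)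
      (G : Finset (Line m)) (Y : Line m → Finset ℕ), Sep Q G → 0 < l →
      (∀ g ∈ G, l ≤ (Y g).card) →
      (∀ g ∈ G, ∀ t ∈ Y g, t0 ≤ t ∧ t < t0 + ρ ∧ (∀ k, |(cell g t k : ℝ) - z0 k| ≤ ρ) ∧
        Wall η F (cell g t, t)) →
      (G.card : ℝ) * ρ * l ^ (2 * m + 2) ≤ C2 * (Q : ℝ) ^ m * (ρ : ℝ) ^ (2 * m + 2)) :
    ∃ l : ℝ, 0 < l ∧ (s : ℝ) * X'.card ≤ (L + Δ) * nq * 5 ^ m * G.card * l ∧
      s * θ * l ^ (3 * m + 2) ≤ 2 ^ (2 * m + 3) * cw * C2 * (Q : ℝ) ^ m * (ρ : ℝ) ^ (2 * m + 2) := by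
  have hρ' : (0 : ℝ) < ρ := by exact_mod_cast hρ
  have hb : ∀ t : ℕ, ρ * (t / ρ) ≤ t ∧ t < ρ * (t / ρ) + ρ := fun t =>
    ⟨Nat.mul_div_le t ρ, by have := Nat.div_add_mod t ρ; have := Nat.mod_lt t hρ; omega⟩
  obtain ⟨B, hB, hBn, hc, H, hH, hi, l, hl, he, hle⟩ := pick
    (fun x : Pt m => (cl x, idx x, x.2 / ρ, fun k => ⌊(x.1 k : ℝ) / ρ⌋))
    (fun (g : Line m) (x : Pt m) => (lab g x.2 + x.2 / ρ, idx x,
      fun k => ⌊(x.1 k : ℝ) / ρ⌋ - ⌊pos g (ρ * (x.2 / ρ) : ℕ) k / ρ⌋))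
    (range (L + Δ) ×ˢ range nq ×ˢ cube 0 1) (hst.inc.mono hX) hs hne (by
      intro x hx g hg
      have h1 := hst.inc x (hX hx)
      have h2 := hst.lt x (hX hx) g hg
      have h3 : x.2 / ρ < Δ := (Nat.div_lt_iff_lt_mul hρ).2 (by rw [mul_comm]; omega)
      refine mem_product.2 ⟨mem_range.2 (by dsimp only; omega), mem_product.2
        ⟨mem_range.2 (hw x hx).1, mem_cube fun k => ?_⟩⟩
      simp only [Pi.zero_apply, sub_zero]
      refine floor_near ?_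
      have h4 := pos_sub_cell g x.2 k
      rw [(h1.2.2 g hg).2] at h4
      have h5 := hsep.1 g (h1.2.2 g hg).1 k
      have h6 : ((ρ * (x.2 / ρ) : ℕ) : ℝ) ≤ x.2 := by exact_mod_cast (hb x.2).1
      have h7 : (x.2 : ℝ) + 1 ≤ (ρ * (x.2 / ρ) : ℕ) + ρ := by exact_mod_cast (hb x.2).2
      generalize ((ρ * (x.2 / ρ) : ℕ) : ℝ) = u at h6 h7
      rw [← sub_div, abs_div, abs_of_pos hρ', div_le_one hρ']
      have e : (x.1 k : ℝ) - pos g u k = (x.2 - u) * g.2 k - (pos g x.2 k - x.1 k) := by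
        unfold pos; ring
      have h8 : |((x.2 : ℝ) - u) * g.2 k| ≤ x.2 - u := by
        rw [abs_mul, abs_of_nonneg (by linarith)]
        exact mul_le_of_le_one_right (by linarith) h5
      rw [e]
      have := abs_sub (((x.2 : ℝ) - u) * g.2 k) (pos g x.2 k - x.1 k)
      linarith) (by
      intro x hx y hy g h1 h2 e
      simp only [Prod.mk.injEq] at e ⊢
      obtain ⟨e1, e2, e3⟩ := e
      have h3 : lab g x.2 = lab g y.2 ∧ x.2 / ρ = y.2 / ρ := by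
        rcases le_total x.2 y.2 with h | h
        · have := hst.mono x (hX hx) y (hX hy) g h1 h2 h
          have := Nat.div_le_div_right (c := ρ) h
          omega
        · have := hst.mono y (hX hy) x (hX hx) g h2 h1 h
          have := Nat.div_le_div_right (c := ρ) h
          omega
      refine ⟨hst.det x (hX hx) y (hX hy) g h1 h2 h3.1, e2, h3.2, funext fun k => ?_⟩
      have := congrFun e3 k
      rw [h3.2] at this
      exact sub_left_injective this)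
  have m1 := hmk l H B hH (hB.trans hX) hi hBn hl he.le
  obtain ⟨x0, hx0⟩ := hBn
  have hc' : ∀ x ∈ B, cl x = cl x0 ∧ idx x = idx x0 ∧ x.2 / ρ = x0.2 / ρ ∧
      ∀ k, ⌊(x.1 k : ℝ) / ρ⌋ = ⌊(x0.1 k : ℝ) / ρ⌋ := by
    intro x hx
    have := hc x hx x0 hx0
    simp only [Prod.mk.injEq] at this
    exact ⟨this.1, this.2.1, this.2.2.1, congrFun this.2.2.2⟩
  have ht : ∀ x ∈ B, ρ * (x0.2 / ρ) ≤ x.2 ∧ x.2 < ρ * (x0.2 / ρ) + ρ := fun x hx =>
    (hc' x hx).2.2.1 ▸ hb x.2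
  obtain ⟨H', hH', Y, y1, y2, y3⟩ := heavy hi hl he _ ht
  have m2 := hwall _ (hf (cl x0) (idx x0)) (ρ * (x0.2 / ρ)) (fun k => ρ * ⌊(x0.1 k : ℝ) / ρ⌋)
    (l / 2) H' Y (Sep.mono hsep (hH'.trans hH)) (half_pos hl) y1 (by
      intro g _ t h
      obtain ⟨x, hx, hg, rfl⟩ := y2 g t h
      rw [((hi x hx).2.2 g hg).2]
      obtain ⟨c1, c2, -, c4⟩ := hc' x hx
      refine ⟨(ht x hx).1, (ht x hx).2, fun k => ?_, by rw [← c1, ← c2]; exact (hw x (hB hx)).2⟩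
      rw [← c4 k]
      have f1 := Int.floor_le ((x.1 k : ℝ) / ρ)
      have f2 := Int.lt_floor_add_one ((x.1 k : ℝ) / ρ)
      rw [le_div_iff₀ hρ'] at f1
      rw [div_lt_iff₀ hρ'] at f2
      rw [abs_le]
      constructor <;> nlinarith)
  refine ⟨l, hl, hle.trans ?_, ?_⟩
  · refine mul_le_mul_of_nonneg_right (mul_le_mul_of_nonneg_right ?_ (Nat.cast_nonneg _)) hl.le
    rw [card_product, card_product, card_range, card_range, mul_assoc]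
    push_cast
    have := card_cube_le (0 : Fin m → ℤ) zero_le_one
    norm_num at this
    gcongr
  · have e1 : l ^ (2 * m + 2) = 2 ^ (2 * m + 2) * (l / 2) ^ (2 * m + 2) := by
      rw [← mul_pow]; congr 1; ring
    have e2 : l ^ (3 * m + 2) = l ^ m * l ^ (2 * m + 2) := by rw [← pow_add]; congr 1; ring
    calc (s : ℝ) * θ * l ^ (3 * m + 2) = s * (θ * l ^ m) * l ^ (2 * m + 2) := by rw [e2]; ring
      _ ≤ s * (cw * B.card) * l ^ (2 * m + 2) := by gcongr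
      _ = cw * (s * B.card) * l ^ (2 * m + 2) := by ring
      _ ≤ cw * (2 * (H'.card * ρ)) * l ^ (2 * m + 2) := by gcongr
      _ = 2 ^ (2 * m + 3) * cw * (H'.card * ρ * (l / 2) ^ (2 * m + 2)) := by rw [e1]; ring
      _ ≤ 2 ^ (2 * m + 3) * cw * (C2 * (Q : ℝ) ^ m * (ρ : ℝ) ^ (2 * m + 2)) := by gcongr
      _ = _ := by ring

theorem lam_le {lam g s X A sk X' R l M Δ E : ℝ} (hg : 0 < g) (h1 : lam * g = s * X)
    (h2 : s ≤ A * sk) (h3 : X ≤ 2 * A ^ 2 * X') (h4 : sk * X' ≤ R * g * l) (h5 : R ≤ M * Δ)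
    (h6 : 2 * A ^ 3 * M ≤ E) (hA : 0 ≤ A) (hX : 0 ≤ X) (hk : 0 ≤ sk) (hl : 0 ≤ l) (hΔ : 0 ≤ Δ) :
    lam ≤ E * Δ * l := by
  refine le_of_mul_le_mul_right ?_ hg
  calc lam * g = s * X := h1
    _ ≤ A * sk * (2 * A ^ 2 * X') := by gcongr
    _ = 2 * A ^ 3 * (sk * X') := by ring
    _ ≤ 2 * A ^ 3 * (R * g * l) := by gcongr
    _ ≤ 2 * A ^ 3 * (M * Δ * g * l) := by gcongr
    _ = 2 * A ^ 3 * M * (Δ * l * g) := by ring
    _ ≤ E * (Δ * l * g) := by gcongr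
    _ = _ := by ring

theorem num1 {s θ lam Δ E l cw b A X g Q : ℝ} (h1 : lam ≤ E * Δ * l) (h2 : θ * l ^ m ≤ cw * b)
    (h3 : b * Δ ^ (m + 1) = A * X) (h4 : lam * g = s * X) (h5 : g ≤ 5 ^ m * Q ^ m)
    (h6 : cw * A * 5 ^ m ≤ E) (hs : 0 ≤ s) (hθ : 0 ≤ θ) (hl : 0 ≤ lam) (hΔ : 0 ≤ Δ) (hE : 0 ≤ E)
    (hc : 0 ≤ cw) (hA : 0 ≤ A) (hQ : 0 ≤ Q) :
    s * θ * lam ^ m * Δ ≤ E ^ (m + 1) * (lam * Q ^ m) :=
  calc s * θ * lam ^ m * Δ ≤ s * θ * (E * Δ * l) ^ m * Δ := by gcongr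
    _ = E ^ m * s * Δ ^ (m + 1) * (θ * l ^ m) := by ring
    _ ≤ E ^ m * s * Δ ^ (m + 1) * (cw * b) := by gcongr
    _ = E ^ m * s * cw * (b * Δ ^ (m + 1)) := by ring
    _ = E ^ m * cw * A * (s * X) := by rw [h3]; ring
    _ = E ^ m * cw * A * lam * g := by rw [← h4]; ring
    _ ≤ E ^ m * cw * A * lam * (5 ^ m * Q ^ m) := by gcongr
    _ = E ^ m * (lam * Q ^ m) * (cw * A * 5 ^ m) := by ring
    _ ≤ E ^ m * (lam * Q ^ m) * E := by gcongr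
    _ = _ := by ring

theorem num2 {s θ lam Δ E l c A sk ρ Q : ℝ} (h1 : lam ≤ E * Δ * l) (h2 : s ≤ A * sk)
    (h3 : sk * θ * l ^ (3 * m + 2) ≤ c * Q ^ m * ρ ^ (2 * m + 2)) (h4 : A * c ≤ E)
    (h5 : ρ * Δ ≤ E * Q) (hk : 0 ≤ sk) (hθ : 0 ≤ θ) (hl : 0 ≤ lam) (hΔ : 0 ≤ Δ) (hE : 0 ≤ E)
    (hA : 0 ≤ A) (hQ : 0 ≤ Q) (hρ : 0 ≤ ρ) :
    s * θ * lam ^ (3 * m + 2) ≤ E ^ (5 * m + 5) * (Q ^ (3 * m + 2) * Δ ^ m) :=
  calc s * θ * lam ^ (3 * m + 2) ≤ A * sk * θ * (E * Δ * l) ^ (3 * m + 2) := by gcongr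
    _ = A * (E * Δ) ^ (3 * m + 2) * (sk * θ * l ^ (3 * m + 2)) := by ring
    _ ≤ A * (E * Δ) ^ (3 * m + 2) * (c * Q ^ m * ρ ^ (2 * m + 2)) := by gcongr
    _ = A * c * (ρ * Δ) ^ (2 * m + 2) * (E ^ (3 * m + 2) * Q ^ m * Δ ^ m) := by ring
    _ ≤ E * (E * Q) ^ (2 * m + 2) * (E ^ (3 * m + 2) * Q ^ m * Δ ^ m) := by gcongr
    _ = _ := by ring

theorem num3 {u lam Δ E Q : ℝ} (h1 : u * lam ^ m * Δ ≤ E ^ (m + 1) * (lam * Q ^ m))
    (h2 : u * lam ^ (3 * m + 2) ≤ E ^ (5 * m + 5) * (Q ^ (3 * m + 2) * Δ ^ m)) (hu : 0 ≤ u)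
    (hl : 0 < lam) (hΔ : 0 < Δ) (hE : 0 ≤ E) (hQ : 0 ≤ Q) :
    u ^ (m + 1) * lam ^ (m ^ 2 + 2 * m + 2) ≤ E ^ (m ^ 2 + 6 * m + 5) * Q ^ (m ^ 2 + 3 * m + 2) := by
  refine le_of_mul_le_mul_right ?_ (show 0 < (lam * Δ) ^ m by positivity)
  calc _ = (u * lam ^ m * Δ) ^ m * (u * lam ^ (3 * m + 2)) := by ring
    _ ≤ (E ^ (m + 1) * (lam * Q ^ m)) ^ m * (E ^ (5 * m + 5) * (Q ^ (3 * m + 2) * Δ ^ m)) := by
        gcongr
    _ = _ := by ring

theorem le_big {x y K W : ℝ} {j c : ℕ} (h : x ≤ y * W ^ j) (hy : y ≤ K) (hK : 0 ≤ K) (hj : j ≤ c)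
    (hW : 1 ≤ W) : x ≤ K * W ^ c :=
  h.trans (mul_le_mul hy (pow_le_pow_right₀ hW hj) (by positivity) hK)

theorem deg_le (n q : ℕ) : 2 * n ^ 2 * 2 ^ q + 1 ≤ 2 ^ (2 * n + 2) * 2 ^ q := by
  have h1 : n ^ 2 ≤ (2 ^ n) ^ 2 := Nat.pow_le_pow_left Nat.lt_two_pow_self.le 2
  have h2 : 0 < 2 ^ q := by positivity
  have h3 : 0 < (2 ^ n) ^ 2 := by positivity
  have e : 2 ^ (2 * n + 2) = 4 * (2 ^ n) ^ 2 := by ring
  rw [e]
  nlinarith

end TRI

open TRI in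
theorem tri : StmtSTEP → StmtMK → StmtWALL → StmtTRI := by
  intro hSTEP hMK hWALL m hm ε hε
  obtain ⟨p, hp, hpε⟩ : ∃ p : ℕ, 0 < p ∧
      (((2 * (m + 1) + 2 + 3) * (m ^ 2 + 6 * m + 5) : ℕ) : ℝ) ≤ ε * p := by
    obtain ⟨p, hp⟩ := exists_nat_ge ((((2 * (m + 1) + 2 + 3) * (m ^ 2 + 6 * m + 5) : ℕ) : ℝ) / ε)
    rw [div_le_iff₀ hε] at hp
    exact ⟨p + 1, p.succ_pos, by push_cast at hp ⊢; nlinarith⟩
  have hp' : (0 : ℝ) < p := by exact_mod_cast hp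
  obtain ⟨η, hη, hstep⟩ := hSTEP m (p + 1)
  obtain ⟨C1, hC1, hmk⟩ := hMK m hm (p : ℝ)⁻¹ (by positivity)
  obtain ⟨C2, hC2, hwall⟩ := hWALL m (2 * (m + 1) ^ 2 * 2 ^ (p + 1)) η hη
  obtain ⟨c, hc⟩ : ∃ c, c = 2 * (m + 1) + 2 := ⟨_, rfl⟩
  obtain ⟨N, hN⟩ : ∃ N, N = m ^ 2 + 6 * m + 5 := ⟨_, rfl⟩
  obtain ⟨nq, hnq⟩ : ∃ nq, nq = (m + 1) * (p + 1) := ⟨_, rfl⟩
  have hnq2 : 2 ≤ nq := by rw [hnq]; nlinarith
  rw [← hc, ← hN] at hpε
  obtain ⟨K, k1, k2, k3, k4⟩ : ∃ K : ℝ, 4 * 5 ^ (c + 3) * nq * 5 ^ m ≤ K ∧ C1 * 5 ^ (m + 1) ≤ K ∧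
      5 * 2 ^ (2 * m + 3) * C1 * C2 ≤ K ∧ 26 ≤ K :=
    ⟨max (max _ _) (max _ _), le_max_of_le_left (le_max_left _ _),
      le_max_of_le_left (le_max_right _ _), le_max_of_le_right (le_max_left _ _),
      le_max_of_le_right (le_max_right _ _)⟩
  have hK : 0 ≤ K := by linarith
  refine ⟨K ^ N, one_le_pow₀ (by linarith), ?_⟩
  intro Q s l θ G X S hsep hi hX hs hl hle hθ hrob
  have hQ : 0 < Q := by
    obtain ⟨x, hx⟩ := hX
    have := (hi x hx).1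
    omega
  have hQ1 : (1 : ℝ) ≤ Q := by exact_mod_cast hQ
  have hG : (0 : ℝ) < G.card := by
    have h1 := hi.total_le
    have h2 := Nat.mul_pos hs hX.card_pos
    exact_mod_cast Nat.pos_of_mul_pos_left (h2.trans_le h1)
  have hGle := Sep.card_le hsep hQ
  have hs1 : (1 : ℝ) ≤ s := by exact_mod_cast hs
  have hX0 : (0 : ℝ) < X.card := by exact_mod_cast hX.card_pos
  have hXle : (X.card : ℝ) ≤ (5 * Q) ^ (m + 1) := by
    have h1 : (s : ℝ) * X.card ≤ Q * G.card := by exact_mod_cast hi.total_le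
    calc (X.card : ℝ) ≤ s * X.card := le_mul_of_one_le_left hX0.le hs1
      _ ≤ Q * G.card := h1
      _ ≤ 5 * Q * (5 ^ m * (Q : ℝ) ^ m) := by gcongr; linarith
      _ = _ := by ring
  obtain ⟨W, hW⟩ : ∃ W : ℝ, W = (Q : ℝ) ^ (p : ℝ)⁻¹ := ⟨_, rfl⟩
  have hW1 : 1 ≤ W := hW ▸ Real.one_le_rpow hQ1 (by positivity)
  have hWp : W ^ p = Q := hW ▸ Real.rpow_inv_natCast_pow (by positivity) hp.ne'
  obtain ⟨E, hE⟩ : ∃ E : ℝ, E = K * W ^ (c + 3) := ⟨_, rfl⟩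
  have hE1 : 1 ≤ E := hE ▸ one_le_mul_of_one_le_of_one_le (by linarith) (one_le_pow₀ hW1)
  have hEN : E ^ N ≤ K ^ N * (Q : ℝ) ^ ε := by
    rw [hE, mul_pow, ← pow_mul, hW, ← Real.rpow_natCast _ ((c + 3) * N),
      ← Real.rpow_mul (by positivity)]
    refine mul_le_mul_of_nonneg_left (Real.rpow_le_rpow_of_exponent_le hQ1 ?_) (by positivity)
    rwa [inv_mul_le_iff₀ hp', mul_comm (p : ℝ)]
  obtain ⟨k, X1, a1, a2, s1, S1, cl, lab, a3, a4, hst, X2, b1, b2, f, idx, hf, hw⟩ := iter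
    (r := 2 ^ ((m + 1) * (p + 1))) _ (by
      rw [← hnq]
      exact lt_of_lt_of_le (by norm_num) (pow_le_pow_right₀ one_le_two hnq2)) hi hX
    fun s L b X S cl lab => hstep Q s L b G X S cl lab
  rw [← hnq] at hw
  obtain ⟨A, hA⟩ : ∃ A : ℝ, A = 2 ^ k := ⟨_, rfl⟩
  obtain ⟨D, hD⟩ : ∃ D : ℕ, D = 2 ^ ((p + 1) * k) := ⟨_, rfl⟩
  have hA1 : 1 ≤ A := hA ▸ one_le_pow₀ one_le_two
  have hD0 : 0 < D := by rw [hD]; positivity
  have hD1 : (0 : ℝ) < D := by exact_mod_cast hD0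
  have hDA : (D : ℝ) = A ^ p * A := by rw [hD, hA]; push_cast; ring
  have hs0 : 0 < s1 := Nat.pos_of_mul_pos_left (hs.trans_le a3)
  have hn1 : X1.Nonempty := card_pos.1 (Nat.pos_of_mul_pos_left (hX.card_pos.trans_le a2))
  have hn2 : X2.Nonempty := card_pos.1 (Nat.pos_of_mul_pos_left (hn1.card_pos.trans_le b2))
  have a2' : (X.card : ℝ) ≤ A ^ 2 * X1.card := by
    have : (X.card : ℝ) ≤ 4 ^ k * X1.card := by exact_mod_cast a2
    rwa [hA, ← pow_mul, mul_comm k, pow_mul, show (2 : ℝ) ^ 2 = 4 by norm_num]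
  have a3' : (s : ℝ) ≤ A * s1 := by rw [hA]; exact_mod_cast a3
  have b2' : (X1.card : ℝ) ≤ 2 * X2.card := by exact_mod_cast b2
  obtain ⟨b, hb⟩ : ∃ b : ℝ, b = X.card * (2 / 2 ^ ((m + 1) * (p + 1))) ^ k := ⟨_, rfl⟩
  obtain ⟨L, hL⟩ : ∃ L : ℕ, L = (2 * (m + 1) ^ 2 * 2 ^ (p + 1) + 1) ^ k := ⟨_, rfl⟩
  rw [← hb, ← hL] at hst
  have hbD : b * (D : ℝ) ^ (m + 1) = A * X.card := by
    rw [hb, hD, hA, div_pow]
    push_cast
    field_simp
    ring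
  have hb1 : 1 ≤ b := by
    obtain ⟨x, hx⟩ := hn1
    simpa using hst.small {x} (by simpa using hx) (cl x) (by simp)
  have hDQ : (D : ℝ) ≤ A * (5 * Q) := by
    refine le_of_pow_le_pow_left₀ m.succ_ne_zero (by positivity) ?_
    calc (D : ℝ) ^ (m + 1) ≤ b * (D : ℝ) ^ (m + 1) := le_mul_of_one_le_left (by positivity) hb1
      _ = A * X.card := hbD
      _ ≤ A ^ (m + 1) * (5 * Q) ^ (m + 1) := by
          gcongr
          exact le_self_pow₀ hA1 m.succ_ne_zero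
      _ = _ := by rw [← mul_pow]
  have hAW : A ≤ 5 * W := by
    refine le_of_pow_le_pow_left₀ hp.ne' (by positivity) ?_
    have h1 : A ^ p ≤ 5 * Q := by
      refine le_of_mul_le_mul_right ?_ (show 0 < A by linarith)
      rw [← hDA, mul_comm]
      exact hDQ
    rw [mul_pow, hWp]
    refine h1.trans (mul_le_mul_of_nonneg_right ?_ (by positivity))
    exact le_self_pow₀ (by norm_num) hp.ne'
  have hLD : (L : ℝ) ≤ A ^ c * D := by
    have h1 := Nat.pow_le_pow_left (deg_le (m + 1) (p + 1)) k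
    rw [← hL, ← hc, mul_pow, ← pow_mul, ← pow_mul, ← hD, mul_comm c, pow_mul] at h1
    rw [hA]
    exact_mod_cast h1
  have hAc : 1 ≤ A ^ c := one_le_pow₀ hA1
  have hnq1 : (1 : ℝ) ≤ nq * 5 ^ m :=
    one_le_mul_of_one_le_of_one_le (by exact_mod_cast one_le_two.trans hnq2)
      (one_le_pow₀ (by norm_num))
  have e1 : 2 * A ^ 3 * (2 * A ^ c * (nq * 5 ^ m)) ≤ E := by
    rw [hE]
    refine le_big ?_ k1 hK le_rfl hW1
    calc _ = 4 * A ^ (c + 3) * (nq * 5 ^ m) := by ring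
      _ ≤ 4 * (5 * W) ^ (c + 3) * (nq * 5 ^ m) := by gcongr
      _ = _ := by ring
  have e2 : C1 * W * A * 5 ^ m ≤ E := by
    rw [hE]
    refine le_big (j := 2) ?_ k2 hK (by omega) hW1
    calc _ ≤ C1 * W * (5 * W) * 5 ^ m := by gcongr
      _ = _ := by ring
  have e3 : A * (2 ^ (2 * m + 3) * (C1 * W) * C2) ≤ E := by
    rw [hE]
    refine le_big (j := 2) ?_ k3 hK (by omega) hW1
    calc _ ≤ 5 * W * (2 ^ (2 * m + 3) * (C1 * W) * C2) := by gcongr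
      _ = _ := by ring
  have e4 : 26 * W ≤ E := by
    rw [hE]
    exact le_big (j := 1) (by rw [pow_one]) k4 hK (by omega) hW1
  have e5 : C1 * A ≤ K ^ N * (Q : ℝ) ^ ε := by
    refine le_trans ?_ (e2.trans ((le_self_pow₀ hE1 (by omega)).trans hEN))
    calc C1 * A = C1 * 1 * A * 1 := by ring
      _ ≤ _ := by
        gcongr
        exact one_le_pow₀ (by norm_num)
  have hmk' : ∀ (l : ℝ) (H : Finset (Line m)) (B : Finset (Pt m)), H ⊆ G → B ⊆ X1 →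
      Incid Q s1 H B S1 → B.Nonempty → 0 < l → l * H.card ≤ s1 * B.card →
      θ * l ^ m ≤ C1 * W * B.card := by
    intro l H B hH hB h1 h2 h3 h4
    rw [hW]
    refine hmk Q s1 l θ H B S1 (fun g hg => hsep.1 g (hH hg)) h1 h2 hs0 h3 h4 hθ ?_
    intro x hx T hT h5
    refine hrob x (a1 (hB hx)) T (hT.trans (a4 x)) (le_trans ?_ h5)
    rw [(h1 x hx).2.1, (hi x (a1 (hB hx))).2.1]
    calc 1 / (K ^ N * (Q : ℝ) ^ ε) * s ≤ 1 / (C1 * A) * (A * s1) := by gcongr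
      _ = _ := by field_simp
  obtain ⟨lam, hlam⟩ : ∃ lam : ℝ, lam * G.card = s * X.card := ⟨_, div_mul_cancel₀ _ hG.ne'⟩
  have hll : l ≤ lam := le_of_mul_le_mul_right (hle.trans_eq hlam.symm) hG
  have hl0 : 0 < lam := hl.trans_le hll
  obtain ⟨B, hB, hBn, hBc, H, hH, hBi, l1, p1, p2, p3⟩ := pick cl (fun g x => lab g x.2) (range L)
    hst.inc hs0 hn1 (fun x hx g hg => mem_range.2 (hst.lt x hx g hg)) hst.det
  rw [card_range] at p3
  have p4 : θ * l1 ^ m ≤ C1 * W * b := by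
    refine (hmk' l1 H B hH hB hBi hBn p1 p2.le).trans ?_
    obtain ⟨x, hx⟩ := hBn
    exact mul_le_mul_of_nonneg_left (hst.small B hB (cl x) fun y hy => hBc y hy x hx)
      (by positivity)
  have p5 : lam ≤ E * D * l1 := lam_le hG hlam a3'
    (a2'.trans (by have : 0 ≤ A ^ 2 * X1.card := by positivity
                   linarith)) p3
    (hLD.trans (mul_le_mul_of_nonneg_right (by nlinarith) hD1.le)) e1 (by linarith) hX0.le
    (Nat.cast_nonneg _) p1.le hD1.le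
  have n1 := num1 p5 p4 hbD hlam hGle e2 (by linarith) hθ.le hl0.le hD1.le (by linarith)
    (by positivity) (by linarith) (by linarith)
  obtain ⟨ρ, r1, r2, r3, r4⟩ : ∃ ρ : ℕ, 0 < ρ ∧ ρ ≤ Q ∧ Q ≤ ρ * D ∧ ρ * D ≤ Q + D := by
    have h1 := Nat.div_add_mod (Q - 1) D
    have h2 := Nat.mod_lt (Q - 1) hD0
    have h3 := Nat.div_le_self (Q - 1) D
    refine ⟨(Q - 1) / D + 1, Nat.succ_pos _, by omega, ?_, ?_⟩ <;>
      rw [add_mul, mul_comm _ D] <;> omega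
  obtain ⟨l2, q1, q2, q3⟩ := two hst hsep b1 hn2 hs0 hf hw r1 r3 (by positivity) hmk'
    fun F hF t0 z0 l G Y h1 => hwall F hF Q ρ t0 z0 l G Y h1 r1 r2
  have q4 : lam ≤ E * D * l2 := lam_le hG hlam a3'
    (a2'.trans (by have := mul_le_mul_of_nonneg_left b2' (sq_nonneg A)
                   linarith)) q2 (by
      calc ((L : ℝ) + D) * nq * 5 ^ m = (L + 1 * D) * (nq * 5 ^ m) := by ring
        _ ≤ (A ^ c * D + A ^ c * D) * (nq * 5 ^ m) := by gcongr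
        _ = _ := by ring) e1 (by linarith) hX0.le (Nat.cast_nonneg _) q1.le hD1.le
  have q5 : (ρ : ℝ) * D ≤ E * Q := by
    have h1 : (ρ : ℝ) * D ≤ Q + D := by exact_mod_cast r4
    calc (ρ : ℝ) * D ≤ 1 * Q + A * (5 * Q) := by linarith
      _ ≤ W * Q + 5 * W * (5 * Q) := by gcongr
      _ = 26 * W * Q := by ring
      _ ≤ _ := by gcongr
  have n2 := num2 q4 a3' q3 e3 q5 (Nat.cast_nonneg _) hθ.le hl0.le hD1.le (by linarith)
    (by linarith) (by linarith) (Nat.cast_nonneg _)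
  have n3 := num3 n1 n2 (by positivity) hl0 hD1 (by linarith) (by linarith)
  rw [← hN] at n3
  calc _ ≤ (s * θ) ^ (m + 1) * lam ^ (m ^ 2 + 2 * m + 2) := by gcongr
    _ ≤ _ := n3
    _ ≤ _ := by gcongr

end Pool.Agent.MP_5168f5_an.H83
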