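import Pool.Agent.MP_5168f5_an.H83.Basic

/-! Few lines through a cell have their direction in a small cap, after a refinement. -/

namespace Pool.Agent.MP_5168f5_an.H83

open MeasureTheory Metric Finset Matrix H19 H29 H42
open scoped ENNReal

namespace TUBE

variable {m : ℕ}

/-- The class of the direction of a line at scale `1 / N`. -/
noncomputable def cl (N : ℕ) (g : Line m) : Fin m → ℤ := fun k => ⌊(N : ℝ) * g.2 k⌋

/-- The rescaled line. -/
noncomputable def res (N r : ℕ) (c : Fin m → ℤ) (g : Line m) : Line m :=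
  (fun k => g.1 k + r * g.2 k, fun k => (N : ℝ) * g.2 k - c k)

open Classical in
/-- The lines of a given class. -/
noncomputable def part (N : ℕ) (G : Finset (Line m)) (c : Fin m → ℤ) : Finset (Line m) :=
  G.filter fun g => cl N g = c

theorem mem_part {N : ℕ} {G : Finset (Line m)} {c : Fin m → ℤ} {g : Line m} :
    g ∈ part N G c ↔ g ∈ G ∧ cl N g = c := by
  unfold part; rw [Finset.mem_filter]

/-- The number of lines of class `c` through the cell `x`. -/
noncomputable def mult (N : ℕ) (G : Finset (Line m)) (Y : Line m → Finset ℕ) (x : Pt m)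
    (c : Fin m → ℤ) : ℕ := (thru (part N G c) id Y x).card

theorem res_inj {N : ℕ} (hN : 0 < N) (r : ℕ) (c : Fin m → ℤ) :
    Function.Injective (res N r c : Line m → Line m) := by
  intro g g' h
  have hN' : (N : ℝ) ≠ 0 := by exact_mod_cast hN.ne'
  have h2 : g.2 = g'.2 := by
    funext k
    have := congrFun (congrArg Prod.snd h) k
    simp only [res] at this
    exact mul_left_cancel₀ hN' (by linarith)
  refine Prod.ext ?_ h2
  funext k
  have := congrFun (congrArg Prod.fst h) k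
  simp only [res] at this
  rw [h2] at this
  linarith

theorem cell_res (N r : ℕ) (c : Fin m → ℤ) (g : Line m) (t : ℕ) :
    cell (res N r c g) t = fun k => cell g (r + N * t) k - t * c k := by
  funext k
  simp only [cell, res]
  rw [← Int.floor_sub_intCast]
  congr 1
  push_cast
  ring

theorem sep_res {Q N : ℕ} (hN : 0 < N) (r : ℕ) (c : Fin m → ℤ) {G A : Finset (Line m)}
    (hG : Sep Q G) (hA : A ⊆ part N G c) [DecidableEq (Line m)] :
    H19.Sep (Q / N + 1) (A.image (res N r c)) := by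
  constructor
  · intro g hg k
    obtain ⟨g0, h0, rfl⟩ := Finset.mem_image.1 hg
    have h1 := congrFun (mem_part.1 (hA h0)).2 k
    simp only [cl] at h1
    simp only [res]
    rw [← h1, abs_le]
    have h2 := Int.floor_le ((N : ℝ) * g0.2 k)
    have h3 := Int.lt_floor_add_one ((N : ℝ) * g0.2 k)
    constructor <;> linarith
  · intro g hg g' hg' hne
    obtain ⟨g0, h0, rfl⟩ := Finset.mem_image.1 hg
    obtain ⟨g1, h1, rfl⟩ := Finset.mem_image.1 hg'
    obtain ⟨k, hk⟩ := hG.2 g0 (mem_part.1 (hA h0)).1 g1 (mem_part.1 (hA h1)).1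
      fun e => hne (by rw [e])
    refine ⟨k, hk.trans ?_⟩
    simp only [res]
    have h2 : (N : ℝ) * g0.2 k - c k - (N * g1.2 k - c k) = N * (g0.2 k - g1.2 k) := by ring
    rw [h2, abs_mul, Nat.abs_cast, ← mul_assoc]
    refine mul_le_mul_of_nonneg_right ?_ (abs_nonneg _)
    have h3 : Q ≤ (Q / N + 1) * N := by
      have := Nat.lt_div_mul_add (a := Q) hN
      rw [add_mul, one_mul]
      exact this.le
    exact_mod_cast h3

/-- The layer cake bound. -/
theorem layer {ι : Type} (A : Finset ι) (b : ι → ℕ) (P a0 : ℕ) (K d : ℝ) (ha : 0 < a0)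
    (hd : 1 ≤ d) (hK : 0 ≤ K) (hb : ∀ g ∈ A, b g ≤ P + 1)
    (hA : ∀ a : ℕ, 0 < a → ((A.filter fun g => a ≤ b g).card : ℝ) ≤ K / (a : ℝ) ^ d) :
    ∑ g ∈ A, (b g : ℝ) ≤ ((a0 : ℝ) - 1) * A.card +
      K * (a0 : ℝ) ^ (1 - d) * (1 + Real.log (P + 1)) := by
  classical
  have h1 : ∀ g ∈ A, (b g : ℝ) ≤ ((a0 : ℝ) - 1) +
      ∑ i ∈ (range (P + 1)).filter (fun i => a0 ≤ i + 1), if i + 1 ≤ b g then (1 : ℝ) else 0 := by
    intro g hg
    rw [Finset.sum_boole, Finset.filter_filter]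
    have h2 : Finset.Ico (a0 - 1) (b g) ⊆
        (range (P + 1)).filter fun i => a0 ≤ i + 1 ∧ i + 1 ≤ b g := by
      intro i hi
      have := hb g hg
      rw [Finset.mem_Ico] at hi
      rw [Finset.mem_filter, Finset.mem_range]
      omega
    have h3 := Finset.card_le_card h2
    rw [Nat.card_Ico] at h3
    have h4 : b g + 1 ≤ a0 +
        ((range (P + 1)).filter fun i => a0 ≤ i + 1 ∧ i + 1 ≤ b g).card := by omega
    have h5 : (b g : ℝ) + 1 ≤ a0 +
        (((range (P + 1)).filter fun i => a0 ≤ i + 1 ∧ i + 1 ≤ b g).card : ℝ) := by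
      exact_mod_cast h4
    linarith
  refine (Finset.sum_le_sum h1).trans ?_
  rw [Finset.sum_add_distrib, Finset.sum_const, nsmul_eq_mul, mul_comm, Finset.sum_comm]
  refine add_le_add le_rfl ?_
  have ha' : (0 : ℝ) < a0 := by exact_mod_cast ha
  have h6 : ∀ i ∈ (range (P + 1)).filter (fun i => a0 ≤ i + 1),
      (∑ g ∈ A, if i + 1 ≤ b g then (1 : ℝ) else 0) ≤
        K * (a0 : ℝ) ^ (1 - d) * (1 / ((i : ℝ) + 1)) := by
    intro i hi
    rw [Finset.sum_boole]
    refine (hA (i + 1) (Nat.succ_pos i)).trans ?_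
    have h7 : (a0 : ℝ) ≤ (i : ℝ) + 1 := by exact_mod_cast (Finset.mem_filter.1 hi).2
    have h8 : (0 : ℝ) < (i : ℝ) + 1 := by positivity
    have h9 : ((i : ℝ) + 1) ^ (1 - d) ≤ (a0 : ℝ) ^ (1 - d) :=
      Real.rpow_le_rpow_of_nonpos ha' h7 (by linarith)
    have h10 : K / (((i + 1 : ℕ) : ℝ)) ^ d = K * ((i : ℝ) + 1) ^ (1 - d) * (1 / ((i : ℝ) + 1)) := by
      push_cast
      rw [Real.rpow_sub h8, Real.rpow_one]
      have := Real.rpow_pos_of_pos h8 d
      field_simp
    rw [h10]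
    exact mul_le_mul_of_nonneg_right (mul_le_mul_of_nonneg_left h9 hK) (by positivity)
  refine (Finset.sum_le_sum h6).trans ?_
  rw [← Finset.mul_sum]
  refine mul_le_mul_of_nonneg_left ?_ (mul_nonneg hK (Real.rpow_nonneg ha'.le _))
  refine le_trans ?_ (harm_sum P)
  exact Finset.sum_le_sum_of_subset_of_nonneg (Finset.filter_subset _ _) fun i _ _ => by positivity

open Classical in
/-- The bad heights of a line. -/
noncomputable def bad (N : ℕ) (M : ℝ) (G : Finset (Line m)) (Y : Line m → Finset ℕ) (g : Line m) :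
    Finset ℕ := (Y g).filter fun t => M < mult N G Y (cell g t, t) (cl N g)

theorem mem_bad {N : ℕ} {M : ℝ} {G : Finset (Line m)} {Y : Line m → Finset ℕ} {g : Line m}
    {t : ℕ} : t ∈ bad N M G Y g ↔ t ∈ Y g ∧ M < mult N G Y (cell g t, t) (cl N g) := by
  unfold bad; rw [Finset.mem_filter]

/-- The bad incidences of one class and one residue. -/
theorem one {Q N a0 : ℕ} {d K0 : ℝ} {G : Finset (Line m)} {Y : Line m → Finset ℕ} (hN : 0 < N)
    (ha : 0 < a0) (hd : 1 ≤ d) (hK0 : 0 ≤ K0) (hG : Sep Q G) (hY : ∀ g ∈ G, ∀ t ∈ Y g, t < Q)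
    (hk : ∀ (l : ℕ) (G : Finset (Line m)) (E : Finset (Pt m)), 0 < l → H19.Sep (Q / N + 1) G →
      (∀ g ∈ G, l ≤ (shade E (Finset.range (Q / N + 1)) g).card) →
      (G.card : ℝ) ≤ K0 * E.card / (l : ℝ) ^ d)
    {M : ℝ} (hM : M = 2 * (K0 * (a0 : ℝ) ^ (1 - d) * (1 + Real.log ((Q / N : ℕ) + 1))))
    (c : Fin m → ℤ) (r : ℕ) :
    ∑ g ∈ part N G c, (((bad N M G Y g).filter fun t => t % N = r).card : ℝ) ≤
      2 * ((a0 : ℝ) - 1) * (part N G c).card := by
  classical
  set B : Line m → Finset ℕ := fun g => (bad N M G Y g).filter fun t => t % N = r with hB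
  have hmem : ∀ g t, t ∈ B g ↔ (t ∈ Y g ∧ M < mult N G Y (cell g t, t) (cl N g)) ∧ t % N = r := by
    intro g t
    rw [hB, Finset.mem_filter, mem_bad]
  set X : Finset (Pt m) := (part N G c).biUnion fun g => (B g).image fun t => (cell g t, t) with hX
  have hXm : ∀ x ∈ X, M < mult N G Y x c ∧ x.2 % N = r := by
    intro x hx
    obtain ⟨g, hg, hx⟩ := Finset.mem_biUnion.1 hx
    obtain ⟨t, ht, rfl⟩ := Finset.mem_image.1 hx
    have h1 := (hmem g t).1 ht
    rw [(mem_part.1 hg).2] at h1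
    exact ⟨h1.1.2, h1.2⟩
  have h1 : M * X.card ≤ ∑ g ∈ part N G c, ((B g).card : ℝ) := by
    have h2 : ∑ z ∈ X, (thru (part N G c) id Y z).card ≤ ∑ g ∈ part N G c, (B g).card := by
      rw [sum_thru]
      refine Finset.sum_le_sum fun g hg => Finset.card_le_card fun t ht => ?_
      rw [Finset.mem_filter] at ht
      have h3 := hXm _ ht.2
      rw [hmem, (mem_part.1 hg).2]
      exact ⟨⟨ht.1, h3.1⟩, h3.2⟩
    have h3 : ∑ z ∈ X, ((thru (part N G c) id Y z).card : ℝ) ≤
        ∑ g ∈ part N G c, ((B g).card : ℝ) := by exact_mod_cast h2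
    refine le_trans ?_ h3
    rw [mul_comm, ← nsmul_eq_mul, ← Finset.sum_const]
    exact Finset.sum_le_sum fun x hx => (hXm x hx).1.le
  set E : Finset (Pt m) :=
    X.image fun x => (fun k => x.1 k - ((x.2 / N : ℕ) : ℤ) * c k, x.2 / N) with hE
  have hEX : (E.card : ℝ) ≤ X.card := by exact_mod_cast Finset.card_image_le
  have h2 : ∀ g ∈ part N G c,
      (B g).card ≤ (shade E (Finset.range (Q / N + 1)) (res N r c g)).card := by
    intro g hg
    refine Finset.card_le_card_of_injOn (fun t => t / N) (fun t ht => ?_) fun t ht t' ht' e => ?_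
    · have h3 := (hmem g t).1 (Finset.mem_coe.1 ht)
      have h4 := hY g (mem_part.1 hg).1 t h3.1.1
      rw [Finset.mem_coe]
      unfold shade
      rw [Finset.mem_filter, Finset.mem_range]
      refine ⟨Nat.lt_succ_of_le (Nat.div_le_div_right h4.le), ?_⟩
      have h5 : r + N * (t / N) = t := by rw [← h3.2]; exact Nat.mod_add_div t N
      rw [cell_res, h5]
      exact Finset.mem_image.2 ⟨(cell g t, t),
        Finset.mem_biUnion.2 ⟨g, hg, Finset.mem_image.2 ⟨t, Finset.mem_coe.1 ht, rfl⟩⟩, rfl⟩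
    · have h3 := ((hmem g t).1 (Finset.mem_coe.1 ht)).2
      have h4 := ((hmem g t').1 (Finset.mem_coe.1 ht')).2
      have e' : t / N = t' / N := e
      rw [← Nat.mod_add_div t N, ← Nat.mod_add_div t' N, h3, h4, e']
  have h3 := layer (part N G c) (fun g => (B g).card) (Q / N) a0 (K0 * X.card) d ha hd
    (by positivity) (fun g hg => (h2 g hg).trans (by
      unfold shade
      exact (Finset.card_filter_le _ _).trans (Finset.card_range _).le)) (by
      intro a ha'
      have h4 := hk a (((part N G c).filter fun g => a ≤ (B g).card).image (res N r c)) E ha'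
        (sep_res hN r c hG (Finset.filter_subset _ _)) (by
          intro g hg
          obtain ⟨g0, h0, rfl⟩ := Finset.mem_image.1 hg
          rw [Finset.mem_filter] at h0
          exact h0.2.trans (h2 g0 h0.1))
      rw [Finset.card_image_of_injective _ (res_inj hN r c)] at h4
      refine h4.trans ?_
      exact div_le_div_of_nonneg_right (mul_le_mul_of_nonneg_left hEX hK0)
        (Real.rpow_nonneg (Nat.cast_nonneg _) _))
  have h4 : K0 * X.card * (a0 : ℝ) ^ (1 - d) * (1 + Real.log ((Q / N : ℕ) + 1)) =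
      M * X.card / 2 := by rw [hM]; ring
  rw [h4] at h3
  linarith

/-- All bad incidences. -/
theorem total {N : ℕ} {M u : ℝ} {G : Finset (Line m)} {Y : Line m → Finset ℕ} (hN : 0 < N)
    (h : ∀ (c : Fin m → ℤ) (r : ℕ),
      ∑ g ∈ part N G c, (((bad N M G Y g).filter fun t => t % N = r).card : ℝ) ≤
        u * (part N G c).card) :
    ∑ g ∈ G, ((bad N M G Y g).card : ℝ) ≤ N * u * G.card := by
  classical
  have h1 : ∀ g : Line m, ((bad N M G Y g).card : ℝ) =
      ∑ r ∈ range N, (((bad N M G Y g).filter fun t => t % N = r).card : ℝ) := by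
    intro g
    rw [Finset.card_eq_sum_card_fiberwise (f := fun t => t % N) (t := range N)
      fun t _ => Finset.mem_coe.2 (Finset.mem_range.2 (Nat.mod_lt t hN))]
    push_cast
    rfl
  have h2 : ∀ f : Line m → ℝ, ∑ g ∈ G, f g = ∑ c ∈ G.image (cl N), ∑ g ∈ part N G c, f g := by
    intro f
    rw [← Finset.sum_fiberwise_of_maps_to (s := G) (t := G.image (cl N)) (g := cl N)
      (fun g hg => Finset.mem_image_of_mem _ hg) f]
    refine Finset.sum_congr rfl fun c _ => Finset.sum_congr ?_ fun _ _ => rfl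
    ext g
    rw [mem_part, Finset.mem_filter]
  rw [Finset.sum_congr rfl fun g _ => h1 g, Finset.sum_comm]
  have h3 : ∀ r ∈ range N,
      ∑ g ∈ G, (((bad N M G Y g).filter fun t => t % N = r).card : ℝ) ≤ u * G.card := by
    intro r _
    have h4 : u * (G.card : ℝ) = ∑ _g ∈ G, u := by rw [Finset.sum_const, nsmul_eq_mul, mul_comm]
    rw [h4, h2, h2 fun _ => u]
    refine Finset.sum_le_sum fun c _ => (h c r).trans (le_of_eq ?_)
    rw [Finset.sum_const, nsmul_eq_mul, mul_comm]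
  refine (Finset.sum_le_sum h3).trans (le_of_eq ?_)
  rw [Finset.sum_const, Finset.card_range, nsmul_eq_mul, mul_assoc]

/-- The cap bound for the good heights. -/
theorem cap {N : ℕ} {M : ℝ} (G : Finset (Line m)) (Y : Line m → Finset ℕ) (hN : 0 < N)
    (hM : 0 ≤ M) (x : Pt m) :
    Cap (2 / N) (7 ^ m * M) (thru G id (fun g => Y g \ bad N M G Y g) x) := by
  intro B hB v hv
  have hN' : (0 : ℝ) < N := by exact_mod_cast hN
  have h1 := card_le_of_fib B (cl N) (cube (fun k => ⌊(N : ℝ) * v k⌋) 2) M (fun g hg => by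
    refine floor_mem_cube (a := fun k => (N : ℝ) * g.2 k) (b := fun k => (N : ℝ) * v k) fun k => ?_
    rw [← mul_sub, abs_mul, Nat.abs_cast]
    have := hv g hg k
    rw [le_div_iff₀ hN'] at this
    linarith) (by
    intro D hD c _ hc
    rcases D.eq_empty_or_nonempty with rfl | ⟨g, hg⟩
    · simpa using hM
    have h2 := mem_thru.1 (hB (hD hg))
    have h3 := Finset.mem_sdiff.1 h2.2.1
    have h4 : (mult N G Y x c : ℝ) ≤ M := by
      by_contra h5
      refine h3.2 (mem_bad.2 ⟨h3.1, ?_⟩)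
      have h6 : (cell g x.2, x.2) = x := Prod.ext h2.2.2 rfl
      rw [h6, hc g hg]
      exact not_le.1 h5
    refine le_trans ?_ h4
    unfold mult
    exact_mod_cast Finset.card_le_card fun g' hg' => by
      have h7 := mem_thru.1 (hB (hD hg'))
      exact mem_thru.2 ⟨mem_part.2 ⟨h7.1, hc g' hg'⟩, (Finset.mem_sdiff.1 h7.2.1).1, h7.2.2⟩)
  refine h1.trans (mul_le_mul_of_nonneg_right ?_ hM)
  refine (card_cube_le _ (by norm_num)).trans (le_of_eq ?_)
  norm_num

/-- The numerical bound. -/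
theorem num {Q N P a0 l d ε : ℝ} (hN : 1 ≤ N) (hQ : N ≤ Q) (hP : 1 ≤ P) (hPQ : P ≤ 2 * (Q / N))
    (hl : 0 < l) (ha : l / (8 * N) ≤ a0) (hd : 1 ≤ d) (hε : 0 < ε) :
    P ^ (ε / 2) * P ^ m * a0 ^ (1 - d) * (1 + Real.log P) ≤
      (1 + 2 / ε) * 2 ^ ε * 2 ^ m * 8 ^ (d - 1) * Q ^ ε * (Q / N) ^ ((m : ℝ) + 1 - d) *
        (Q / l) ^ (d - 1) := by
  have hN0 : 0 < N := by linarith
  have hQ0 : 0 < Q := by linarith
  have hP0 : 0 < P := by linarith
  have h0 : 0 < l / (8 * N) := by positivity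
  have h1 : 1 + Real.log P ≤ (1 + 2 / ε) * P ^ (ε / 2) := by
    have h2 := Real.log_le_rpow_div hP0.le (half_pos hε)
    have h3 : 1 ≤ P ^ (ε / 2) := Real.one_le_rpow hP (half_pos hε).le
    have h4 : P ^ (ε / 2) / (ε / 2) = 2 / ε * P ^ (ε / 2) := by field_simp
    rw [add_mul]
    linarith
  have h2 : P ^ (ε / 2) * P ^ (ε / 2) ≤ 2 ^ ε * Q ^ ε := by
    rw [← Real.rpow_add hP0, add_halves, ← Real.mul_rpow (by norm_num) hQ0.le]
    refine Real.rpow_le_rpow hP0.le (hPQ.trans ?_) hε.le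
    have := div_le_self hQ0.le hN
    linarith
  have h3 : P ^ m ≤ 2 ^ m * (Q / N) ^ m := by
    rw [← mul_pow]
    exact pow_le_pow_left₀ hP0.le hPQ m
  have h4 : a0 ^ (1 - d) ≤ 8 ^ (d - 1) * (N / l) ^ (d - 1) := by
    refine (Real.rpow_le_rpow_of_nonpos h0 ha (by linarith)).trans (le_of_eq ?_)
    rw [← Real.mul_rpow (by norm_num) (by positivity), ← neg_sub d 1, Real.rpow_neg h0.le,
      ← Real.inv_rpow h0.le]
    congr 1
    field_simp
  have h5 : (Q / N) ^ ((m : ℝ) + 1 - d) * (Q / l) ^ (d - 1) = (Q / N) ^ m * (N / l) ^ (d - 1) := by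
    have h6 : 0 < Q / N := by positivity
    have h7 : Q / l = Q / N * (N / l) := by field_simp
    rw [h7, Real.mul_rpow h6.le (by positivity), ← mul_assoc, ← Real.rpow_add h6,
      ← Real.rpow_natCast]
    congr 2
    ring
  have ha0 : 0 ≤ a0 ^ (1 - d) := Real.rpow_nonneg (h0.le.trans ha) _
  have h8 : 0 ≤ P ^ (ε / 2) := Real.rpow_nonneg hP0.le _
  calc P ^ (ε / 2) * P ^ m * a0 ^ (1 - d) * (1 + Real.log P)
      ≤ P ^ (ε / 2) * P ^ m * a0 ^ (1 - d) * ((1 + 2 / ε) * P ^ (ε / 2)) :=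
        mul_le_mul_of_nonneg_left h1 (by positivity)
    _ = (1 + 2 / ε) * (P ^ (ε / 2) * P ^ (ε / 2)) * P ^ m * a0 ^ (1 - d) := by ring
    _ ≤ (1 + 2 / ε) * (2 ^ ε * Q ^ ε) * (2 ^ m * (Q / N) ^ m) *
          (8 ^ (d - 1) * (N / l) ^ (d - 1)) := by gcongr
    _ = (1 + 2 / ε) * 2 ^ ε * 2 ^ m * 8 ^ (d - 1) * Q ^ ε *
          ((Q / N) ^ ((m : ℝ) + 1 - d) * (Q / l) ^ (d - 1)) := by rw [h5]; ring
    _ = _ := by ring

end TUBE

open TUBE in
theorem tube : StmtTUBE := by
  intro m d hd _ hGK ε hε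
  obtain ⟨C0, hC0, hk⟩ := hGK (ε / 2) (half_pos hε)
  refine ⟨7 ^ m * (2 * C0) * ((1 + 2 / ε) * 2 ^ ε * 2 ^ m * 8 ^ (d - 1)), by positivity, ?_⟩
  intro Q j l G Y hj hG hY hl _
  have hN : 0 < 2 ^ j := by positivity
  set N : ℕ := 2 ^ j with hNd
  have hN' : ((2 : ℝ) ^ j) = N := by rw [hNd]; push_cast; rfl
  have hN1 : (1 : ℝ) ≤ N := by exact_mod_cast hN
  have hNQ : (N : ℝ) ≤ Q := by exact_mod_cast hj
  rw [hN']
  set a0 : ℕ := ⌈l / (8 * N)⌉₊ with ha0
  have h0 : 0 < l / (8 * N) := by positivity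
  have ha : 0 < a0 := Nat.ceil_pos.2 h0
  set P : ℝ := ((Q / N : ℕ) : ℝ) + 1 with hP
  have hP1 : 1 ≤ P := by rw [hP]; have := Nat.cast_nonneg (α := ℝ) (Q / N); linarith
  have hPQ : P ≤ 2 * ((Q : ℝ) / N) := by
    have h1 : ((Q / N : ℕ) : ℝ) ≤ (Q : ℝ) / N := Nat.cast_div_le
    have h2 : 1 ≤ (Q : ℝ) / N := by rw [le_div_iff₀ (by linarith)]; linarith
    rw [hP]; linarith
  set K0 : ℝ := C0 * P ^ (ε / 2) * P ^ m with hK0
  have hK0' : 0 ≤ K0 := by positivity
  have hlog : 0 ≤ 1 + Real.log P := by have := Real.log_nonneg hP1; linarith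
  set M : ℝ := 2 * (K0 * (a0 : ℝ) ^ (1 - d) * (1 + Real.log P)) with hM
  have hM0 : 0 ≤ M := by positivity
  refine ⟨fun g => Y g \ bad N M G Y g, fun g => Finset.sdiff_subset, ?_, fun x => ?_⟩
  · have h1 := total (M := M) (G := G) (Y := Y) hN (one hN ha hd hK0' hG hY (by
      intro l' G' E h1 h2 h3
      have h4 := hk (Q / N + 1) l' G' E h1 h2 h3
      rw [Real.rpow_one] at h4
      push_cast at h4
      exact h4) hM)
    have h2 : (a0 : ℝ) - 1 ≤ l / (8 * N) := by
      have := Nat.ceil_lt_add_one h0.le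
      linarith
    have h3 : (N : ℝ) * (2 * ((a0 : ℝ) - 1)) ≤ l / 4 := by
      rw [le_div_iff₀ (by positivity)] at h2
      nlinarith
    have h4 : ∀ g : Line m, ((Y g).card : ℝ) =
        ((Y g \ bad N M G Y g).card : ℝ) + (bad N M G Y g).card := by
      intro g
      exact_mod_cast (Finset.card_sdiff_add_card_eq_card fun t ht => (mem_bad.1 ht).1).symm
    rw [Finset.sum_congr rfl fun g _ => h4 g, Finset.sum_add_distrib]
    have h5 := mul_le_mul_of_nonneg_right h3 (Nat.cast_nonneg (α := ℝ) G.card)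
    linarith
  · intro B hB v hv
    refine (cap G Y hN hM0 x B hB v hv).trans ?_
    have h1 := num (m := m) hN1 hNQ hP1 hPQ hl (Nat.le_ceil _) hd hε
    have h2 := mul_le_mul_of_nonneg_left h1 (by positivity : (0 : ℝ) ≤ 7 ^ m * (2 * C0))
    refine le_trans (le_of_eq ?_) (h2.trans (le_of_eq ?_))
    · rw [hM, hK0]; ring
    · ring

end Pool.Agent.MP_5168f5_an.H83
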