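import Pool.Agent.MP_5168f5_an.H83.Basic

/-! Sign changes of a polynomial along a direction. -/

namespace Pool.Agent.MP_5168f5_an.H83

open MeasureTheory Metric Finset Matrix H19 H29 H42
open scoped ENNReal

namespace VAR

/-- A sign change on an interval forces a root in it. -/
theorem root_of_ne (q : Polynomial ℝ) (a b : ℝ)
    (h : SignType.sign (q.eval b) ≠ SignType.sign (q.eval a)) :
    ∃ r ∈ Set.uIcc a b, q.eval r = 0 := by
  have hc : ContinuousOn (fun x => q.eval x) (Set.uIcc a b) := q.continuous.continuousOn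
  have hI := intermediate_value_uIcc hc
  have h0 : (0 : ℝ) ∈ Set.uIcc (q.eval a) (q.eval b) := by
    rw [sign_ne_iff] at h
    rw [Set.mem_uIcc]
    rcases lt_trichotomy (q.eval a) 0 with h1 | h1 | h1 <;>
      rcases lt_trichotomy (q.eval b) 0 with h2 | h2 | h2
    · exact absurd (Or.inr (Or.inr ⟨h2, h1⟩)) h
    · exact Or.inl ⟨h1.le, h2.ge⟩
    · exact Or.inl ⟨h1.le, h2.le⟩
    · exact Or.inr ⟨h2.le, h1.ge⟩
    · exact Or.inl ⟨h1.le, h2.ge⟩
    · exact Or.inl ⟨h1.le, h2.le⟩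
    · exact Or.inr ⟨h2.le, h1.le⟩
    · exact Or.inr ⟨h2.le, h1.le⟩
    · exact absurd (Or.inl ⟨h2, h1⟩) h
  obtain ⟨r, hr, hr0⟩ := hI h0
  exact ⟨r, hr, hr0⟩

/-- The one-dimensional bound. -/
theorem one_dim (q : Polynomial ℝ) {d : ℕ} (hd : q.natDegree ≤ d) (β : ℝ) :
    volume {τ : ℝ | SignType.sign (q.eval (τ + β)) ≠ SignType.sign (q.eval τ)} ≤
      ENNReal.ofReal (d * |β|) := by
  classical
  by_cases hq : q = 0
  · subst hq
    simp
  have hsub : {τ : ℝ | SignType.sign (q.eval (τ + β)) ≠ SignType.sign (q.eval τ)} ⊆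
      ⋃ r ∈ q.roots.toFinset, Set.uIcc r (r - β) := by
    intro τ hτ
    obtain ⟨r, hr, hr0⟩ := root_of_ne q τ (τ + β) hτ
    simp only [Set.mem_iUnion]
    refine ⟨r, Multiset.mem_toFinset.2 ((Polynomial.mem_roots hq).2 hr0), ?_⟩
    rw [Set.mem_uIcc] at hr ⊢
    rcases hr with h | h
    · exact Or.inr ⟨by linarith [h.2], h.1⟩
    · exact Or.inl ⟨h.2, by linarith [h.1]⟩
  refine (measure_mono hsub).trans ((measure_biUnion_finset_le _ _).trans ?_)
  have hv : ∀ r ∈ q.roots.toFinset, volume (Set.uIcc r (r - β)) = ENNReal.ofReal |β| := by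
    intro r _
    rw [Real.volume_interval]
    have : r - β - r = -β := by ring
    rw [this, abs_neg]
  rw [Finset.sum_congr rfl hv, Finset.sum_const, nsmul_eq_mul,
    ENNReal.ofReal_mul (Nat.cast_nonneg d), ENNReal.ofReal_natCast]
  have hc : q.roots.toFinset.card ≤ d :=
    (Multiset.toFinset_card_le _).trans ((Polynomial.card_roots' q).trans hd)
  gcongr

end VAR

theorem var : StmtVAR := by
  intro n d F hF u β T A S _ hS hAS
  have hFm : Measurable F := hF.measurable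
  let K : Set (V n × ℝ) := {p | p.1 ∈ S ∧ p.1 + p.2 • u ∈ chg F (β • u)}
  have hmap : Measurable fun p : V n × ℝ => p.1 + p.2 • u := by fun_prop
  have hK : MeasurableSet K :=
    (measurable_fst hS).inter (hmap (measurableSet_chg hFm (β • u)))
  let φ : ℝ → ℝ≥0∞ := fun τ => volume ((fun y => (y, τ)) ⁻¹' K)
  have h1 : ∀ t ∈ T, volume (A t ∩ chg F (β • u)) ≤ ∫⁻ τ in Set.Ico (t : ℝ) (t + 1), φ τ := by
    intro t ht
    have hle : ∀ τ ∈ Set.Ico (t : ℝ) (t + 1), volume (A t ∩ chg F (β • u)) ≤ φ τ := by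
      intro τ hτ
      rw [← measure_preimage_add_right volume (τ • u) (A t ∩ chg F (β • u))]
      refine measure_mono fun y hy => ⟨?_, hy.2⟩
      have h := hAS t ht _ hy.1 (τ - t) (by linarith [hτ.1]) (by linarith [hτ.2])
      have e : (t : ℝ) + (τ - t) = τ := by ring
      rw [e] at h
      simpa using h
    calc volume (A t ∩ chg F (β • u))
        = ∫⁻ _ in Set.Ico (t : ℝ) (t + 1), volume (A t ∩ chg F (β • u)) := by
          rw [setLIntegral_const, Real.volume_Ico]
          simp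
      _ ≤ _ := setLIntegral_mono' measurableSet_Ico hle
  have hdis : Set.PairwiseDisjoint (↑T : Set ℕ) fun t : ℕ => Set.Ico (t : ℝ) (t + 1) := by
    intro a _ b _ hab
    refine Set.disjoint_left.2 fun x hx hx' => hab ?_
    have h3 : (a : ℝ) < b + 1 := lt_of_le_of_lt hx.1 hx'.2
    have h4 : (b : ℝ) < a + 1 := lt_of_le_of_lt hx'.1 hx.2
    have h5 : a < b + 1 := by exact_mod_cast h3
    have h6 : b < a + 1 := by exact_mod_cast h4
    omega
  have h2 : ∑ t ∈ T, ∫⁻ τ in Set.Ico (t : ℝ) (t + 1), φ τ ≤ ∫⁻ τ, φ τ := by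
    rw [← lintegral_biUnion_finset hdis fun t _ => measurableSet_Ico]
    exact setLIntegral_le_lintegral _ _
  have h3 : ∫⁻ τ, φ τ = ∫⁻ y, volume (Prod.mk y ⁻¹' K) := by
    rw [← Measure.prod_apply hK, Measure.prod_apply_symm hK]
  have h4 : ∀ y, volume (Prod.mk y ⁻¹' K) ≤
      S.indicator (fun _ => ENNReal.ofReal (d * |β|)) y := by
    intro y
    by_cases hy : y ∈ S
    · rw [Set.indicator_of_mem hy]
      obtain ⟨q, hq, he⟩ := hF.line y u
      refine le_trans (measure_mono fun τ hτ => ?_) (VAR.one_dim q hq β)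
      have h := hτ.2
      simp only [chg, Set.mem_ofPred_eq] at h ⊢
      rw [← he, ← he, add_smul, ← add_assoc]
      exact h
    · have e : Prod.mk y ⁻¹' K = ∅ := Set.eq_empty_of_forall_notMem fun τ hτ => hy hτ.1
      rw [e, measure_empty]
      exact zero_le
  calc ∑ t ∈ T, volume (A t ∩ chg F (β • u))
      ≤ ∑ t ∈ T, ∫⁻ τ in Set.Ico (t : ℝ) (t + 1), φ τ := Finset.sum_le_sum h1
    _ ≤ ∫⁻ y, volume (Prod.mk y ⁻¹' K) := h3 ▸ h2
    _ ≤ ∫⁻ y, S.indicator (fun _ => ENNReal.ofReal (d * |β|)) y := lintegral_mono h4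
    _ = volume S * ENNReal.ofReal (d * |β|) := by
      rw [lintegral_indicator hS, setLIntegral_const, mul_comm]

end Pool.Agent.MP_5168f5_an.H83
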