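import Pool.Agent.MP_5168f5_an.H83.Basic

/-! The polynomial Wolff estimate for wall cells in a box. -/

namespace Pool.Agent.MP_5168f5_an.H83

open MeasureTheory Metric Finset Matrix H19 H29 H42
open scoped ENNReal

namespace WALL

variable {m : ℕ}

theorem cnt (T : Finset ℕ) {c r : ℝ} (hr : 0 ≤ r) (h : ∀ t ∈ T, |(t : ℝ) - c| ≤ r) :
    (T.card : ℝ) ≤ 2 * r + 3 := by
  have := heights_le T (c := -c) (σ := 1) one_ne_zero hr fun t ht => by
    have h1 := h t ht
    rwa [show -c + (t : ℝ) * 1 = t - c by ring]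
  simpa using this

theorem sum_lint {X ι : Type} [MeasurableSpace X] (μ : Measure X) (T : Finset ι)
    (f : ι → X → ℝ≥0∞) : ∑ t ∈ T, ∫⁻ x, f t x ∂μ ≤ ∫⁻ x, ∑ t ∈ T, f t x ∂μ := by
  classical
  induction T using Finset.induction_on with
  | empty => simp
  | insert a s ha ih =>
    simp only [Finset.sum_insert ha]
    exact le_trans (add_le_add le_rfl ih) (le_lintegral_add _ _)

theorem ind_le {α : Type} {s : Set α} {a b : ℝ≥0∞} {x : α} (h : x ∈ s → a ≤ b) :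
    s.indicator (fun _ => a) x ≤ b := Set.indicator_apply_le (g := fun _ => b) h

theorem swap {α β : Type} [MeasurableSpace α] [MeasurableSpace β] (μ : Measure α) (ν : Measure β)
    [SFinite μ] [SFinite ν] {P : α → β → Prop} (hs : MeasurableSet {p : α × β | P p.1 p.2}) :
    ∫⁻ a, ν {b | P a b} ∂μ = ∫⁻ b, μ {a | P a b} ∂ν :=
  (Measure.prod_apply hs).symm.trans (Measure.prod_apply_symm hs)

/-- Choice of a good parameter by averaging. -/
theorem select {X : Type} [MeasurableSpace X] (μ : Measure X) (T : Finset ℕ)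
    (a b : ℕ → X → ℝ≥0∞) (M : ℝ≥0∞) (hM0 : M ≠ 0) (hM : M ≠ ∞) {α B N K c : ℝ} (hK : 0 < K)
    (hc : 0 ≤ c) (hN : 0 ≤ N) (hB : 0 ≤ B) (ha : ∀ t x, a t x ≤ M)
    (hμ : T.card * μ Set.univ ≤ ENNReal.ofReal N)
    (hL : ENNReal.ofReal α * M ≤ ∑ t ∈ T, ∫⁻ x, a t x ∂μ)
    (hU : ∑ t ∈ T, ∫⁻ x, b t x ∂μ ≤ ENNReal.ofReal B) (h : c * N + 1 / K * B < α) :
    ∃ t ∈ T, ∃ x, b t x ≤ ENNReal.ofReal K ∧ ENNReal.ofReal c * M ≤ a t x := by
  by_contra hcon
  push Not at hcon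
  have h1 : ∀ t ∈ T, ∀ x, a t x ≤
      ENNReal.ofReal c * M + M * ENNReal.ofReal (1 / K) * b t x := by
    intro t ht x
    by_cases hb : b t x ≤ ENNReal.ofReal K
    · exact (hcon t ht x hb).le.trans le_self_add
    · refine (ha t x).trans (le_trans ?_ le_add_self)
      have h2 : M * ENNReal.ofReal (1 / K) * ENNReal.ofReal K = M := by
        rw [mul_assoc, ← ENNReal.ofReal_mul (by positivity), one_div_mul_cancel hK.ne']
        simp
      calc M = M * ENNReal.ofReal (1 / K) * ENNReal.ofReal K := h2.symm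
        _ ≤ _ := by gcongr; exact (not_le.1 hb).le
  have h2 : ∀ t ∈ T, ∫⁻ x, a t x ∂μ ≤
      ENNReal.ofReal c * M * μ Set.univ + M * ENNReal.ofReal (1 / K) * ∫⁻ x, b t x ∂μ := by
    intro t ht
    refine (lintegral_mono (h1 t ht)).trans (le_of_eq ?_)
    rw [lintegral_add_left measurable_const, lintegral_const,
      lintegral_const_mul' _ _ (ENNReal.mul_ne_top hM ENNReal.ofReal_ne_top)]
  have h3 : ENNReal.ofReal α * M ≤ ENNReal.ofReal (c * N + 1 / K * B) * M := by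
    refine hL.trans ((Finset.sum_le_sum h2).trans ?_)
    rw [Finset.sum_add_distrib, Finset.sum_const, ← Finset.mul_sum, nsmul_eq_mul,
      ENNReal.ofReal_add (by positivity) (by positivity), ENNReal.ofReal_mul hc,
      ENNReal.ofReal_mul (by positivity), add_mul]
    refine add_le_add ?_ ?_
    · calc (T.card : ℝ≥0∞) * (ENNReal.ofReal c * M * μ Set.univ)
          = ENNReal.ofReal c * (T.card * μ Set.univ) * M := by ring
        _ ≤ _ := by gcongr
    · calc M * ENNReal.ofReal (1 / K) * ∑ t ∈ T, ∫⁻ x, b t x ∂μ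
          ≤ M * ENNReal.ofReal (1 / K) * ENNReal.ofReal B := by gcongr
        _ = _ := by ring
  have h4 := (ENNReal.mul_le_mul_iff_left hM0 hM).1 h3
  have h5 : 0 ≤ c * N + 1 / K * B := by positivity
  rw [ENNReal.ofReal_le_ofReal_iff h5] at h4
  linarith

theorem cpt {α : Type} [TopologicalSpace α] (t : ℝ) {f : α → V m} (hf : Continuous f) :
    Continuous fun x => pt t (f x) :=
  continuous_pt.comp (continuous_const.prodMk hf)

/-- The cube of radius four. -/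
def B4 (m : ℕ) : Set (V (m + 1)) := closedBall 0 4

theorem meas_B4 : MeasurableSet (B4 m) := measurableSet_closedBall

theorem vol_ball {n : ℕ} (c : V n) {r : ℝ} (hr : 0 ≤ r) :
    volume (closedBall c r) = ENNReal.ofReal ((2 * r) ^ n) := by
  rw [Real.volume_pi_closedBall c hr, Fintype.card_fin]

theorem vol_B4 : volume (B4 m) = ENNReal.ofReal (8 ^ (m + 1)) := by
  rw [B4, vol_ball _ (by norm_num)]; norm_num

/-- The parameter measure. -/
noncomputable def mu (m : ℕ) : Measure (V (m + 1) × V (m + 1)) :=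
  (volume.restrict (B4 m)).prod (volume.restrict (B4 m))

theorem sf (m : ℕ) : SFinite (mu m) := by unfold mu; infer_instance

theorem mu_univ : mu m Set.univ = ENNReal.ofReal (64 ^ (m + 1)) := by
  rw [mu, ← Set.univ_prod_univ, Measure.prod_prod, Measure.restrict_apply_univ, vol_B4,
    ← ENNReal.ofReal_mul (by positivity), ← mul_pow]
  norm_num

/-- Slices of a set, averaged over shifts and summed over the heights. -/
theorem slices (T : Finset ℕ) {H : Set (V (m + 1))} (hH : MeasurableSet H) :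
    ∑ t ∈ T, ∫⁻ w in B4 m, volume {z : V m | pt t z + w ∈ H} ≤
      ENNReal.ofReal (11 * 8 ^ m) * volume H := by
  have h1 : ∀ t : ℕ, ∫⁻ w in B4 m, volume {z : V m | pt t z + w ∈ H} =
      ∫⁻ y in H, volume {z : V m | dist y (pt t z) ≤ 4} := by
    intro t
    have m1 : MeasurableSet {p : V (m + 1) × V m | pt t p.2 + p.1 ∈ H} :=
      ((cpt t continuous_snd).add continuous_fst).measurable hH
    have m2 : MeasurableSet {p : V (m + 1) × V m | dist p.1 (pt t p.2) ≤ 4} :=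
      (isClosed_le (continuous_fst.dist (cpt t continuous_snd)) continuous_const).measurableSet
    rw [swap (volume.restrict (B4 m)) volume (P := fun w z => pt t z + w ∈ H) m1,
      swap (volume.restrict H) volume (P := fun y z => dist y (pt t z) ≤ 4) m2]
    refine lintegral_congr fun z => ?_
    rw [Measure.restrict_apply' meas_B4, Measure.restrict_apply' hH,
      ← measure_preimage_add volume (pt t z) ({y | dist y (pt t z) ≤ 4} ∩ H)]
    congr 1
    ext w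
    simp [B4, dist_eq_norm, and_comm]
  simp only [h1]
  refine (sum_lint _ _ _).trans ?_
  rw [← setLIntegral_const]
  refine lintegral_mono fun y => ?_
  have h2 : ∀ t : ℕ, volume {z : V m | dist y (pt t z) ≤ 4} ≤
      if |(t : ℝ) - y 0| ≤ 4 then ENNReal.ofReal (8 ^ m) else 0 := by
    intro t
    split_ifs with h
    · have : {z : V m | dist y (pt t z) ≤ 4} ⊆ closedBall (Fin.tail y) 4 := by
        intro z hz
        rw [mem_closedBall, dist_comm, dist_pi_le_iff (by norm_num)]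
        intro k
        exact (dist_le_pi_dist y (pt t z) k.succ).trans hz
      refine (measure_mono this).trans (le_of_eq ?_)
      rw [vol_ball _ (by norm_num)]; norm_num
    · have : {z : V m | dist y (pt t z) ≤ 4} = ∅ := by
        ext z
        simp only [Set.mem_ofPred_eq, Set.mem_empty_iff_false, iff_false]
        intro hz
        refine h ?_
        have := (dist_le_pi_dist y (pt t z) 0).trans hz
        rwa [pt_zero, dist_comm, Real.dist_eq] at this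
      rw [this, measure_empty]
  refine (Finset.sum_le_sum fun t _ => h2 t).trans ?_
  rw [← Finset.sum_filter, Finset.sum_const, nsmul_eq_mul, ENNReal.ofReal_mul (by norm_num)]
  have h3 := cnt (T.filter fun t : ℕ => |(t : ℝ) - y 0| ≤ 4) (c := y 0) (r := 4) (by norm_num)
    fun t ht => (Finset.mem_filter.1 ht).2
  gcongr
  rw [← ENNReal.ofReal_natCast]
  exact ENNReal.ofReal_le_ofReal (by linarith)

/-- Sign changes in a large cube. -/
theorem chg_big (hV : StmtVAR) {d : ℕ} {F : V (m + 1) → ℝ} (hF : IsPoly d F) {ρ : ℕ} (hρ : 0 < ρ)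
    (c u : V (m + 1)) (hu : u ∈ B4 m) :
    volume (closedBall c (7 * (m + 1) * ρ) ∩ chg F u) ≤
      ENNReal.ofReal ((22 * (m + 1)) ^ (m + 1) * d * (ρ : ℝ) ^ m) := by
  have hρ' : (1 : ℝ) ≤ ρ := by exact_mod_cast hρ
  have hm : (0 : ℝ) ≤ m := Nat.cast_nonneg m
  have h := hV (m + 1) d F hF u 1 (range ρ) (fun _ => closedBall c (7 * (m + 1) * ρ))
    (closedBall c (11 * (m + 1) * ρ)) (fun _ _ => measurableSet_closedBall)
    measurableSet_closedBall (by
      intro t ht y hy τ h0 h1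
      have ht' : (t : ℝ) + 1 ≤ ρ := by exact_mod_cast Finset.mem_range.1 ht
      have hu' : ‖u‖ ≤ 4 := by simpa [B4] using hu
      rw [mem_closedBall, dist_eq_norm] at hy ⊢
      have e : y - ((t : ℝ) + τ) • u - c = (y - c) - ((t : ℝ) + τ) • u := by abel
      rw [e]
      refine (norm_sub_le _ _).trans ?_
      rw [norm_smul, Real.norm_of_nonneg (by positivity)]
      have h2 : ((t : ℝ) + τ) * ‖u‖ ≤ ρ * 4 := by gcongr; linarith
      nlinarith)
  rw [Finset.sum_const, Finset.card_range, nsmul_eq_mul, one_smul, vol_ball _ (by positivity),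
    ← ENNReal.ofReal_mul (by positivity)] at h
  have e : (2 * (11 * ((m : ℝ) + 1) * ρ)) ^ (m + 1) * (d * |(1 : ℝ)|) =
      ρ * ((22 * (m + 1)) ^ (m + 1) * d * (ρ : ℝ) ^ m) := by
    rw [abs_one, show 2 * (11 * ((m : ℝ) + 1) * ρ) = 22 * (m + 1) * ρ by ring, mul_pow]
    ring
  rw [e, ENNReal.ofReal_mul (by positivity), ENNReal.ofReal_natCast] at h
  exact (ENNReal.mul_le_mul_iff_right (by exact_mod_cast hρ.ne') (by simp)).1 h

/-- The three polynomial conditions. -/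
noncomputable def om (F : V (m + 1) → ℝ) (z0 : V m) (ρ : ℕ) (t : ℕ) (x : V (m + 1) × V (m + 1)) :
    Fin 3 → V m → ℝ :=
  ![fun z => F (pt t z + x.2), fun z => -F (pt t z + x.2 + x.1),
    fun z => (m * ((ρ : ℝ) + 2) ^ 2 + 1) - ∑ k, (z k - z0 k) ^ 2]

theorem om_iff (F : V (m + 1) → ℝ) (z0 : V m) (ρ : ℕ) (t : ℕ) (x : V (m + 1) × V (m + 1))
    (z : V m) : (∀ k, 0 < om F z0 ρ t x k z) ↔ 0 < F (pt t z + x.2) ∧
      F (pt t z + x.2 + x.1) < 0 ∧ ∑ k, (z k - z0 k) ^ 2 < m * ((ρ : ℝ) + 2) ^ 2 + 1 := by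
  simp [om, Fin.forall_fin_succ]

theorem om_poly {d : ℕ} {F : V (m + 1) → ℝ} (hF : IsPoly d F) (z0 : V m) (ρ : ℕ) (t : ℕ)
    (x : V (m + 1) × V (m + 1)) (k : Fin 3) : IsPoly (d + 2) (om F z0 ρ t x k) := by
  have h1 : ∀ w : V (m + 1), IsPoly (d + 2) fun z : V m => F (pt t z + w) := fun w =>
    ((hF.shift w).comp_aff (isPoly_pt t)).mono (by omega)
  fin_cases k
  · exact h1 x.2
  · exact (h1 (x.2 + x.1)).neg.congr fun z => by simp [om, add_assoc]
  · refine IsPoly.mono (d := 2) ((IsPoly.const 2 _).sub (IsPoly.sum _ fun k _ => ?_)) (by omega)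
    exact ((IsPoly.coord k).sub (IsPoly.const 1 (z0 k))).pow 2

theorem near_of {z z0 : V m} {ρ : ℕ} (hρ : 0 < ρ)
    (h : ∑ k, (z k - z0 k) ^ 2 < m * ((ρ : ℝ) + 2) ^ 2 + 1) (k : Fin m) :
    |z k - z0 k| ≤ 3 * (m + 1) * ρ := by
  have hρ' : (1 : ℝ) ≤ ρ := by exact_mod_cast hρ
  have hm : (0 : ℝ) ≤ m := Nat.cast_nonneg m
  have h1 : (z k - z0 k) ^ 2 ≤ ∑ k, (z k - z0 k) ^ 2 :=
    Finset.single_le_sum (f := fun k => (z k - z0 k) ^ 2) (fun _ _ => sq_nonneg _)
      (Finset.mem_univ k)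
  refine abs_le_of_sq_le_sq' ?_ (by positivity) |> abs_le.2
  have h2 : ((ρ : ℝ) + 2) ^ 2 ≤ (3 * ρ) ^ 2 := by gcongr; linarith
  have h3 : (1 : ℝ) ≤ (3 * ρ) ^ 2 := by nlinarith
  have h4 : (m : ℝ) * ((ρ : ℝ) + 2) ^ 2 ≤ m * (3 * ρ) ^ 2 := by gcongr
  have h5 : ((m : ℝ) + 1) * (3 * ρ) ^ 2 ≤ (m + 1) ^ 2 * (3 * ρ) ^ 2 := by gcongr; nlinarith
  nlinarith

/-- The upper bound for the total volume of the slices. -/
theorem upper (hV : StmtVAR) {d : ℕ} {F : V (m + 1) → ℝ} (hF : IsPoly d F) {ρ : ℕ} (hρ : 0 < ρ)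
    (t0 : ℕ) (z0 : V m) (T : Finset ℕ) (hT : ∀ t ∈ T, t0 ≤ t ∧ t < t0 + ρ) :
    ∑ t ∈ T, ∫⁻ x, volume {z | ∀ k, 0 < om F z0 ρ t x k z} ∂mu m ≤
      ENNReal.ofReal (11 * 8 ^ m * (22 * (m + 1)) ^ (m + 1) * d * 8 ^ (m + 1) * (ρ : ℝ) ^ m) := by
  have hρ' : (1 : ℝ) ≤ ρ := by exact_mod_cast hρ
  have hm : (0 : ℝ) ≤ m := Nat.cast_nonneg m
  refine (Finset.sum_le_sum fun t _ => lintegral_prod_le _).trans ((sum_lint _ _ _).trans ?_)
  have e : ENNReal.ofReal
      (11 * 8 ^ m * (22 * (m + 1)) ^ (m + 1) * d * 8 ^ (m + 1) * (ρ : ℝ) ^ m) =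
      ∫⁻ _ in B4 m, ENNReal.ofReal (11 * 8 ^ m) *
        ENNReal.ofReal ((22 * (m + 1)) ^ (m + 1) * d * (ρ : ℝ) ^ m) := by
    rw [setLIntegral_const, vol_B4, ← ENNReal.ofReal_mul (by positivity),
      ← ENNReal.ofReal_mul (by positivity)]
    congr 1
    ring
  rw [e]
  refine setLIntegral_mono' meas_B4 fun u hu => ?_
  have hH : MeasurableSet (closedBall (pt t0 z0) (7 * (m + 1) * ρ) ∩ chg F u) :=
    measurableSet_closedBall.inter (measurableSet_chg hF.measurable u)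
  refine le_trans ?_ ((slices T hH).trans (by gcongr; exact chg_big hV hF hρ _ u hu))
  refine Finset.sum_le_sum fun t ht => setLIntegral_mono' meas_B4 fun w hw => measure_mono ?_
  intro z hz
  obtain ⟨h1, h2, h3⟩ := (om_iff F z0 ρ t (u, w) z).1 hz
  refine ⟨?_, mem_chg_of' h1 h2⟩
  have hw' : ‖w‖ ≤ 4 := by simpa [B4] using hw
  rw [mem_closedBall, dist_eq_norm, add_sub_right_comm, pt_sub]
  refine (norm_add_le _ _).trans ?_
  have h4 : ‖pt ((t : ℝ) - t0) (z - z0)‖ ≤ 3 * (m + 1) * ρ := by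
    refine norm_pt_le ?_ (near_of hρ h3)
    have h5 : (t0 : ℝ) ≤ t := by exact_mod_cast (hT t ht).1
    have h6 : (t : ℝ) ≤ t0 + ρ := by exact_mod_cast (hT t ht).2.le
    rw [abs_of_nonneg (by linarith)]
    nlinarith
  nlinarith

/-- The parameters that see both signs near a wall cell. -/
theorem mu_ge {F : V (m + 1) → ℝ} (hF : Continuous F) {η : ℝ} {x : Pt m} (hW : Wall η F x)
    {y : V (m + 1)} (hy : dist y (cor x) ≤ 2) :
    ENNReal.ofReal η * ENNReal.ofReal η ≤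
      mu m {p | 0 < F (y + p.2) ∧ F (y + p.2 + p.1) < 0} := by
  have m1 : MeasurableSet {p : V (m + 1) × V (m + 1) | 0 < F (y + p.2) ∧ F (y + p.2 + p.1) < 0} :=
    ((isOpen_lt continuous_const (hF.comp (continuous_const.add continuous_snd))).inter
      (isOpen_lt (hF.comp ((continuous_const.add continuous_snd).add continuous_fst))
        continuous_const)).measurableSet
  have key : ∀ (a : V (m + 1)) (A : Set (V (m + 1))), dist a (cor x) ≤ 2 →
      volume (closedBall (cor x) 2 ∩ A) =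
        volume.restrict (B4 m) ((fun w => a + w) ⁻¹' (closedBall (cor x) 2 ∩ A)) := by
    intro a A ha
    have h0 : (fun w => a + w) ⁻¹' (closedBall (cor x) 2 ∩ A) ⊆ B4 m := by
      intro w hw
      have h1 : dist (a + w) (cor x) ≤ 2 := hw.1
      have h2 := dist_triangle_right (a + w) a (cor x)
      rw [dist_self_add_left] at h2
      simp only [B4, mem_closedBall, dist_zero_right]
      linarith
    rw [Measure.restrict_apply' meas_B4, Set.inter_eq_left.2 h0, measure_preimage_add]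
  have m2 : MeasurableSet ((fun w => y + w) ⁻¹' (closedBall (cor x) 2 ∩ {y | 0 < F y})) :=
    measurable_const_add y (measurableSet_closedBall.inter
      (isOpen_lt continuous_const hF).measurableSet)
  rw [mu, Measure.prod_apply_symm m1]
  calc ENNReal.ofReal η * ENNReal.ofReal η
      ≤ ENNReal.ofReal η * volume.restrict (B4 m)
        ((fun w => y + w) ⁻¹' (closedBall (cor x) 2 ∩ {y | 0 < F y})) := by
        rw [← key y _ hy]; gcongr; exact hW.1
    _ = ∫⁻ w, ((fun w => y + w) ⁻¹' (closedBall (cor x) 2 ∩ {y | 0 < F y})).indicator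
        (fun _ => ENNReal.ofReal η) w ∂volume.restrict (B4 m) := by
        rw [lintegral_indicator_const m2]
    _ ≤ _ := by
        refine lintegral_mono fun w => ?_
        refine ind_le fun hw => ?_
        refine hW.2.trans ?_
        rw [key (y + w) _ hw.1]
        exact measure_mono fun u hu => ⟨hw.2, hu.2⟩

theorem cont_om {F : V (m + 1) → ℝ} (hF : Continuous F) (z0 : V m) (ρ t : ℕ) (k : Fin 3)
    {α : Type} [TopologicalSpace α] {x : α → V (m + 1) × V (m + 1)} {z : α → V m}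
    (hx : Continuous x) (hz : Continuous z) : Continuous fun a => om F z0 ρ t (x a) k (z a) := by
  fin_cases k
  · exact hF.comp ((cpt t hz).add hx.snd)
  · exact (hF.comp (((cpt t hz).add hx.snd).add hx.fst)).neg
  · refine continuous_const.sub (continuous_finsetSum _ fun k _ => ?_)
    exact (((continuous_apply k).comp hz).sub continuous_const).pow 2

theorem meas_om {F : V (m + 1) → ℝ} (hF : Continuous F) (z0 : V m) (ρ t : ℕ)
    {α : Type} [TopologicalSpace α] [MeasurableSpace α] [OpensMeasurableSpace α]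
    {x : α → V (m + 1) × V (m + 1)} {z : α → V m} (hx : Continuous x) (hz : Continuous z) :
    MeasurableSet {a | ∀ k, 0 < om F z0 ρ t (x a) k (z a)} := by
  rw [Set.ofPred_forall]
  exact MeasurableSet.iInter fun k =>
    (isOpen_lt continuous_const (cont_om hF z0 ρ t k hx hz)).measurableSet

/-- The lower bound for one line and one height. -/
theorem lower {F : V (m + 1) → ℝ} (hF : Continuous F) {η : ℝ} {Q ρ t0 t : ℕ} {z0 : V m}
    {g : Line m} (hρ : 0 < ρ) (hQ : ρ ≤ Q) (h0 : t0 ≤ t) (h1 : t < t0 + ρ)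
    (hz : ∀ k, |(cell g t k : ℝ) - z0 k| ≤ ρ) (hW : Wall η F (cell g t, t)) {W : Set (V m)}
    (mW : MeasurableSet W) (sW : W ⊆ ball g.2 (1 / (2 * Q))) :
    ENNReal.ofReal η * ENNReal.ofReal η * volume W ≤
      ∫⁻ x, volume {v | v ∈ W ∧
        ∀ k, 0 < om F z0 ρ t x k (pos g t0 + ((t : ℝ) - t0) • v)} ∂mu m := by
  have m1 : MeasurableSet {p : (V (m + 1) × V (m + 1)) × V m | p.2 ∈ W ∧
      ∀ k, 0 < om F z0 ρ t p.1 k (pos g t0 + ((t : ℝ) - t0) • p.2)} :=
    (measurable_snd mW).inter (meas_om hF z0 ρ t continuous_fst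
      (z := fun p => pos g t0 + ((t : ℝ) - t0) • p.2) (by fun_prop))
  have := sf m
  rw [swap (mu m) volume (P := fun x v => v ∈ W ∧
    ∀ k, 0 < om F z0 ρ t x k (pos g t0 + ((t : ℝ) - t0) • v)) m1, ← lintegral_indicator_const mW]
  refine lintegral_mono fun v => ?_
  refine ind_le fun hv => ?_
  have hQ' : (0 : ℝ) < Q := by exact_mod_cast hρ.trans_le hQ
  have h2 : ∀ k, |(pos g t0 + ((t : ℝ) - t0) • v : V m) k - cell g t k| ≤ 2 := by
    intro k
    have h3 := pos_sub_cell g t k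
    have h4 : |v k - g.2 k| ≤ 1 / (2 * Q) :=
      (dist_le_pi_dist v g.2 k).trans (mem_ball.1 (sW hv)).le
    have h5 : (t0 : ℝ) ≤ t := by exact_mod_cast h0
    have h6 : (t : ℝ) - t0 ≤ Q := by
      have : (t : ℝ) ≤ t0 + Q := by exact_mod_cast (by omega : t ≤ t0 + Q)
      linarith
    have h7 : |((t : ℝ) - t0) * (v k - g.2 k)| ≤ 1 / 2 := by
      rw [abs_mul, abs_of_nonneg (by linarith)]
      calc ((t : ℝ) - t0) * |v k - g.2 k| ≤ Q * (1 / (2 * Q)) := by gcongr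
        _ = 1 / 2 := by field_simp
    have e : (pos g t0 + ((t : ℝ) - t0) • v : V m) k - cell g t k =
        ((t : ℝ) - t0) * (v k - g.2 k) + (pos g t k - cell g t k) := by
      simp only [Pi.add_apply, Pi.smul_apply, smul_eq_mul, pos]
      ring
    rw [e]
    refine (abs_add_le _ _).trans ?_
    linarith
  have h3 : dist (pt t (pos g t0 + ((t : ℝ) - t0) • v)) (cor (cell g t, t)) ≤ 2 := by
    rw [dist_eq_norm, cor, pt_sub]
    exact norm_pt_le (by simp) h2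
  refine (mu_ge hF hW h3).trans (measure_mono fun x hx => ⟨hv, ?_⟩)
  refine (om_iff F z0 ρ t x _).2 ⟨hx.1, hx.2, ?_⟩
  have h4 : ∀ k, ((pos g t0 + ((t : ℝ) - t0) • v : V m) k - z0 k) ^ 2 ≤ ((ρ : ℝ) + 2) ^ 2 := by
    intro k
    have h5 := abs_le.1 (h2 k)
    have h6 := abs_le.1 (hz k)
    exact sq_le_sq' (by linarith) (by linarith)
  have h5 := Finset.sum_le_sum fun k (_ : k ∈ (univ : Finset (Fin m))) => h4 k
  rw [Finset.sum_const, Finset.card_univ, Fintype.card_fin, nsmul_eq_mul] at h5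
  linarith

/-- Many heights are far from the chosen ones. -/
theorem far_card {i : ℕ} (ts : Fin i → ℕ) (hi : i ≤ m) {l : ℝ} (hl : 12 * ((m : ℝ) + 1) ≤ l)
    (A T : Finset ℕ) (hA : l ≤ A.card)
    (hT : ∀ t ∈ A, (∀ j, l / (8 * (m + 1)) ≤ |(t : ℝ) - ts j|) → t ∈ T) :
    l / 2 ≤ (A ∩ T).card := by
  classical
  have hm : (0 : ℝ) ≤ m := Nat.cast_nonneg m
  have hl0 : 0 < l := by linarith
  have h1 : A ⊆ (A ∩ T) ∪
      univ.biUnion fun j => A.filter fun t : ℕ => |(t : ℝ) - ts j| ≤ l / (8 * (m + 1)) := by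
    intro t ht
    by_cases h : ∀ j, l / (8 * (m + 1)) ≤ |(t : ℝ) - ts j|
    · exact Finset.mem_union_left _ (Finset.mem_inter.2 ⟨ht, hT t ht h⟩)
    · push Not at h
      obtain ⟨j, hj⟩ := h
      exact Finset.mem_union_right _
        (Finset.mem_biUnion.2 ⟨j, Finset.mem_univ _, Finset.mem_filter.2 ⟨ht, hj.le⟩⟩)
  have h2 := (Finset.card_le_card h1).trans ((Finset.card_union_le _ _).trans
    (Nat.add_le_add_left Finset.card_biUnion_le _))
  have h3 : (A.card : ℝ) ≤ (A ∩ T).card +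
      ∑ j, ((A.filter fun t : ℕ => |(t : ℝ) - ts j| ≤ l / (8 * (m + 1))).card : ℝ) := by
    exact_mod_cast h2
  have h4 : ∑ j, ((A.filter fun t : ℕ => |(t : ℝ) - ts j| ≤ l / (8 * (m + 1))).card : ℝ) ≤
      ∑ _j : Fin i, (2 * (l / (8 * (m + 1))) + 3) :=
    Finset.sum_le_sum fun j _ => cnt _ (by positivity) fun t ht => (Finset.mem_filter.1 ht).2
  rw [Finset.sum_const, Finset.card_univ, Fintype.card_fin, nsmul_eq_mul] at h4
  have h5 : (i : ℝ) ≤ m + 1 := by exact_mod_cast hi.trans (Nat.le_succ m)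
  have h6 : (i : ℝ) * (2 * (l / (8 * (m + 1))) + 3) ≤ (m + 1) * (2 * (l / (8 * (m + 1))) + 3) := by
    gcongr
  have h7 : ((m : ℝ) + 1) * (2 * (l / (8 * (m + 1))) + 3) = l / 4 + 3 * (m + 1) := by
    field_simp
    ring
  linarith

/-- One more height. -/
theorem step (hV : StmtVAR) (m d : ℕ) {η : ℝ} (hη : 0 < η) : ∃ c K : ℝ, 0 < c ∧ 0 < K ∧
    ∀ F : V (m + 1) → ℝ, IsPoly d F → ∀ (Q ρ t0 : ℕ) (z0 : V m) (l : ℝ) (G : Finset (Line m))
    (Y : Line m → Finset ℕ), 0 < ρ → ρ ≤ Q → 12 * ((m : ℝ) + 1) ≤ l →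
    (∀ g ∈ G, l ≤ (Y g).card) →
    (∀ g ∈ G, ∀ t ∈ Y g, t0 ≤ t ∧ t < t0 + ρ ∧ (∀ k, |(cell g t k : ℝ) - z0 k| ≤ ρ) ∧
      Wall η F (cell g t, t)) →
    ∀ (i : ℕ) (ts : Fin i → ℕ), i ≤ m → ∀ W : Line m → Set (V m), (∀ g, MeasurableSet (W g)) →
    (∀ g, W g ⊆ ball g.2 (1 / (2 * Q))) → ∑ g ∈ G, volume (W g) ≠ 0 →
    ∃ (t : ℕ) (x : V (m + 1) × V (m + 1)), (∀ j, l / (8 * (m + 1)) ≤ |(t : ℝ) - ts j|) ∧
      volume {z | ∀ k, 0 < om F z0 ρ t x k z} ≤ ENNReal.ofReal (K * (ρ : ℝ) ^ m / l) ∧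
      ENNReal.ofReal (c * l / ρ) * ∑ g ∈ G, volume (W g) ≤ ∑ g ∈ G, volume {v | v ∈ W g ∧
        ∀ k, 0 < om F z0 ρ t x k (pos g t0 + ((t : ℝ) - t0) • v)} := by
  classical
  obtain ⟨B0, hB0, eB⟩ : ∃ B0 : ℝ, 0 ≤ B0 ∧
      B0 = 11 * 8 ^ m * (22 * (m + 1)) ^ (m + 1) * d * 8 ^ (m + 1) := ⟨_, by positivity, rfl⟩
  obtain ⟨N0, hN0, eN⟩ : ∃ N0 : ℝ, 0 < N0 ∧ N0 = 64 ^ (m + 1) := ⟨_, by positivity, rfl⟩
  refine ⟨η ^ 2 / (8 * N0), (8 * B0 + 1) / η ^ 2, by positivity, by positivity, ?_⟩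
  intro F hF Q ρ t0 z0 l G Y hρ hQ hl hY hW i ts hi W mW sW h0
  have hm : (0 : ℝ) ≤ m := Nat.cast_nonneg m
  have hl0 : 0 < l := by linarith
  have hρ' : (0 : ℝ) < ρ := by exact_mod_cast hρ
  obtain ⟨T, hT⟩ : ∃ T : Finset ℕ, ∀ t, t ∈ T ↔
      (t0 ≤ t ∧ t < t0 + ρ) ∧ ∀ j, l / (8 * (m + 1)) ≤ |(t : ℝ) - ts j| :=
    ⟨(Finset.Ico t0 (t0 + ρ)).filter fun t => ∀ j, l / (8 * (m + 1)) ≤ |(t : ℝ) - ts j|,
      fun t => by rw [Finset.mem_filter, Finset.mem_Ico]⟩
  have hTc : T.card ≤ ρ := by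
    have : T ⊆ Finset.Ico t0 (t0 + ρ) := fun t ht => Finset.mem_Ico.2 ((hT t).1 ht).1
    simpa using Finset.card_le_card this
  have hfin : ∑ g ∈ G, volume (W g) ≠ ∞ :=
    ENNReal.sum_ne_top.2 fun g _ => ((measure_mono (sW g)).trans_lt measure_ball_lt_top).ne
  have hU := upper hV hF hρ t0 z0 T fun t ht => ((hT t).1 ht).1
  rw [← eB] at hU
  obtain ⟨t, ht, x, h1, h2⟩ := select (mu m) T
    (fun t x => ∑ g ∈ G, volume {v | v ∈ W g ∧
      ∀ k, 0 < om F z0 ρ t x k (pos g t0 + ((t : ℝ) - t0) • v)})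
    (fun t x => volume {z | ∀ k, 0 < om F z0 ρ t x k z}) _ h0 hfin
    (α := l / 2 * (η * η)) (N := ρ * N0) (K := (8 * B0 + 1) / η ^ 2 * (ρ : ℝ) ^ m / l)
    (c := η ^ 2 / (8 * N0) * l / ρ) (by positivity) (by positivity) (by positivity)
    (by positivity) (fun t x => Finset.sum_le_sum fun g _ => measure_mono fun v hv => hv.1)
    (by
      rw [mu_univ, ← eN, ENNReal.ofReal_mul hρ'.le, ENNReal.ofReal_natCast]
      gcongr)
    (by
      refine le_trans ?_ (Finset.sum_le_sum fun t _ => sum_lint _ _ _)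
      rw [Finset.sum_comm, Finset.mul_sum]
      refine Finset.sum_le_sum fun g hg => ?_
      refine le_trans ?_ (Finset.sum_le_sum_of_subset (Finset.inter_subset_right (s₁ := Y g)))
      refine le_trans ?_ (Finset.sum_le_sum
        (f := fun _ => ENNReal.ofReal η * ENNReal.ofReal η * volume (W g)) fun t ht => ?_)
      rotate_left
      · obtain ⟨a1, a2, a3, a4⟩ := hW g hg t (Finset.mem_inter.1 ht).1
        exact lower hF.continuous hρ hQ a1 a2 a3 a4 (mW g) (sW g)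
      · have h3 := far_card ts hi hl (Y g) T (hY g hg) fun t ht h =>
          (hT t).2 ⟨⟨(hW g hg t ht).1, (hW g hg t ht).2.1⟩, h⟩
        rw [Finset.sum_const, nsmul_eq_mul, ENNReal.ofReal_mul (by positivity),
          ENNReal.ofReal_mul hη.le, mul_assoc]
        gcongr
        rw [← ENNReal.ofReal_natCast]
        exact ENNReal.ofReal_le_ofReal h3)
    hU (by
      have e1 : η ^ 2 / (8 * N0) * l / ρ * (ρ * N0) = l * η ^ 2 / 8 := by field_simp
      have e2 : 1 / ((8 * B0 + 1) / η ^ 2 * (ρ : ℝ) ^ m / l) * (B0 * (ρ : ℝ) ^ m) =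
          l * η ^ 2 * (B0 / (8 * B0 + 1)) := by field_simp
      have e3 : B0 / (8 * B0 + 1) ≤ 1 / 8 := by
        rw [div_le_div_iff₀ (by positivity) (by norm_num)]; linarith
      have e4 : 0 < l * η ^ 2 := by positivity
      rw [e1, e2]
      nlinarith)
  exact ⟨t, x, ((hT t).1 ht).2, h1, h2⟩

/-- The choice of all heights. -/
theorem iter (hV : StmtVAR) (m d : ℕ) {η : ℝ} (hη : 0 < η) : ∃ c K : ℝ, 0 < c ∧ 0 < K ∧
    ∀ F : V (m + 1) → ℝ, IsPoly d F → ∀ (Q ρ t0 : ℕ) (z0 : V m) (l : ℝ) (G : Finset (Line m))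
    (Y : Line m → Finset ℕ), 0 < ρ → ρ ≤ Q → 12 * ((m : ℝ) + 1) ≤ l →
    (∀ g ∈ G, l ≤ (Y g).card) →
    (∀ g ∈ G, ∀ t ∈ Y g, t0 ≤ t ∧ t < t0 + ρ ∧ (∀ k, |(cell g t k : ℝ) - z0 k| ≤ ρ) ∧
      Wall η F (cell g t, t)) → ∑ g ∈ G, volume (ball g.2 (1 / (2 * Q))) ≠ 0 →
    ∀ i : ℕ, i ≤ m + 1 → ∃ (ts : Fin i → ℕ) (xs : Fin i → V (m + 1) × V (m + 1)),
      (∀ j j', j ≠ j' → l / (8 * (m + 1)) ≤ |(ts j : ℝ) - ts j'|) ∧
      (∀ j, volume {z | ∀ k, 0 < om F z0 ρ (ts j) (xs j) k z} ≤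
        ENNReal.ofReal (K * (ρ : ℝ) ^ m / l)) ∧
      ENNReal.ofReal (c * l / ρ) ^ i * ∑ g ∈ G, volume (ball g.2 (1 / (2 * Q))) ≤
        ∑ g ∈ G, volume {v | v ∈ ball g.2 (1 / (2 * Q)) ∧
          ∀ j k, 0 < om F z0 ρ (ts j) (xs j) k (pos g t0 + ((ts j : ℝ) - t0) • v)} := by
  obtain ⟨c, K, hc, hK, h⟩ := step hV m d hη
  refine ⟨c, K, hc, hK, ?_⟩
  intro F hF Q ρ t0 z0 l G Y hρ hQ hl hY hW h0 i
  have hm : (0 : ℝ) ≤ m := Nat.cast_nonneg m
  have hl0 : 0 < l := by linarith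
  have hρ' : (0 : ℝ) < ρ := by exact_mod_cast hρ
  induction i with
  | zero =>
    intro _
    refine ⟨Fin.elim0, Fin.elim0, fun j => j.elim0, fun j => j.elim0, ?_⟩
    rw [pow_zero, one_mul]
    exact Finset.sum_le_sum fun g _ => measure_mono fun v hv => ⟨hv, fun j => j.elim0⟩
  | succ i ih =>
    intro hi
    obtain ⟨ts, xs, h1, h2, h3⟩ := ih (by omega)
    have h4 : ENNReal.ofReal (c * l / ρ) ≠ 0 := (ENNReal.ofReal_pos.2 (by positivity)).ne'
    obtain ⟨t, x, h5, h6, h7⟩ := h F hF Q ρ t0 z0 l G Y hρ hQ hl hY hW i ts (by omega)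
      (fun g => {v | v ∈ ball g.2 (1 / (2 * Q)) ∧
        ∀ j k, 0 < om F z0 ρ (ts j) (xs j) k (pos g t0 + ((ts j : ℝ) - t0) • v)})
      (fun g => by
        refine measurableSet_ball.inter ?_
        change MeasurableSet {v | ∀ j k,
          0 < om F z0 ρ (ts j) (xs j) k (pos g t0 + ((ts j : ℝ) - t0) • v)}
        rw [Set.ofPred_forall]
        exact MeasurableSet.iInter fun j => meas_om hF.continuous z0 ρ (ts j) continuous_const
          (z := fun v => pos g t0 + ((ts j : ℝ) - t0) • v) (by fun_prop))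
      (fun g v hv => hv.1)
      (fun e => mul_ne_zero (pow_ne_zero i h4) h0 (le_zero_iff.1 (h3.trans e.le)))
    refine ⟨Fin.cons t ts, Fin.cons x xs, ?_, ?_, ?_⟩
    · intro j j'
      refine Fin.cases ?_ (fun j => ?_) j <;> refine Fin.cases ?_ (fun j' => ?_) j'
      · exact fun e => absurd rfl e
      · exact fun _ => h5 j'
      · intro _
        rw [abs_sub_comm]
        exact h5 j
      · exact fun e => h1 j j' fun e' => e (by rw [e'])
    · exact fun j => Fin.cases h6 h2 j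
    · rw [pow_succ', mul_assoc]
      refine le_trans (by gcongr) (h7.trans ?_)
      exact Finset.sum_le_sum fun g _ => measure_mono fun v hv =>
        ⟨hv.1.1, fun j => Fin.cases hv.2 hv.1.2 j⟩

theorem caps_disj {Q : ℕ} {G : Finset (Line m)} (h : Sep Q G) (hQ : 0 < Q) :
    Set.PairwiseDisjoint (G : Set (Line m)) fun g => ball g.2 (1 / (2 * (Q : ℝ))) := by
  intro g hg g' hg' e
  obtain ⟨k, hk⟩ := h.2 g hg g' hg' e
  have hQ' : (0 : ℝ) < Q := by exact_mod_cast hQ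
  refine ball_disjoint_ball (le_trans ?_ (dist_le_pi_dist g.2 g'.2 k))
  rw [Real.dist_eq, show 1 / (2 * (Q : ℝ)) + 1 / (2 * Q) = 1 / Q by field_simp; norm_num,
    div_le_iff₀ hQ']
  linarith

end WALL

open WALL in
theorem wall : StmtVAR → StmtJL → StmtWALL := by
  intro hV hJ m d η hη
  obtain ⟨c, K, hc, hK, h⟩ := iter hV m d hη
  obtain ⟨C, hC, hJ⟩ := hJ m (d + 2) 3
  have hm : (0 : ℝ) ≤ m := Nat.cast_nonneg m
  obtain ⟨C1, hC1, e1⟩ : ∃ C1 : ℝ, 0 < C1 ∧ C1 = 5 ^ m * (12 * ((m : ℝ) + 1)) ^ (2 * m + 2) :=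
    ⟨_, by positivity, rfl⟩
  obtain ⟨C2, hC2, e2⟩ : ∃ C2 : ℝ, 0 < C2 ∧
      C2 = C * (8 * ((m : ℝ) + 1)) ^ m * (m + 1) * K / c ^ (m + 1) := ⟨_, by positivity, rfl⟩
  refine ⟨C1 + C2, by positivity, ?_⟩
  intro F hF Q ρ t0 z0 l G Y hS hρ hQ hl0 hY hW
  have hρ' : (1 : ℝ) ≤ ρ := by exact_mod_cast hρ
  have hQ0 : 0 < Q := hρ.trans_le hQ
  have hQ' : (0 : ℝ) < Q := by exact_mod_cast hQ0
  rcases le_total l (12 * ((m : ℝ) + 1)) with hl | hl
  · have h1 := Sep.card_le hS hQ0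
    have h2 : (ρ : ℝ) ≤ (ρ : ℝ) ^ (2 * m + 2) := le_self_pow₀ hρ' (by omega)
    calc (G.card : ℝ) * ρ * l ^ (2 * m + 2)
        ≤ 5 ^ m * (Q : ℝ) ^ m * (ρ : ℝ) ^ (2 * m + 2) * (12 * ((m : ℝ) + 1)) ^ (2 * m + 2) := by
          gcongr
      _ = C1 * (Q : ℝ) ^ m * (ρ : ℝ) ^ (2 * m + 2) := by rw [e1]; ring
      _ ≤ _ := by gcongr; linarith
  rcases G.eq_empty_or_nonempty with rfl | hG
  · simp only [Finset.card_empty, Nat.cast_zero, zero_mul]
    positivity
  have hG' : (0 : ℝ) < G.card := by exact_mod_cast hG.card_pos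
  have h1 : ∑ g ∈ G, volume (ball g.2 (1 / (2 * (Q : ℝ)))) =
      ENNReal.ofReal (G.card * (1 / (Q : ℝ)) ^ m) := by
    have : ∀ g ∈ G, volume (ball g.2 (1 / (2 * (Q : ℝ)))) = ENNReal.ofReal ((1 / (Q : ℝ)) ^ m) := by
      intro g _
      rw [Real.volume_pi_ball _ (by positivity), Fintype.card_fin]
      congr 2
      field_simp
    rw [Finset.sum_congr rfl this, Finset.sum_const, nsmul_eq_mul,
      ENNReal.ofReal_mul hG'.le, ENNReal.ofReal_natCast]
  obtain ⟨ts, xs, h2, h3, h4⟩ := h F hF Q ρ t0 z0 l G Y hρ hQ hl hY hW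
    (by rw [h1]; exact (ENNReal.ofReal_pos.2 (by positivity)).ne') (m + 1) le_rfl
  have h5 := hJ (fun j => om F z0 ρ (ts j) (xs j)) (fun j => (ts j : ℝ) - t0)
    (l / (8 * (m + 1))) (‖z0‖ + 3 * (m + 1) * ρ) (fun j k => om_poly hF z0 ρ _ _ k)
    (by positivity) (fun j j' e => by simpa using h2 j j' e) (fun z hz => by
      have h6 : ‖z - z0‖ ≤ 3 * (m + 1) * ρ := (pi_norm_le_iff_of_nonneg (by positivity)).2
        (near_of hρ ((om_iff F z0 ρ _ _ z).1 hz).2.2)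
      have h7 := norm_le_norm_add_norm_sub' z z0
      linarith)
  have h6 : ∑ g ∈ G, volume {v | v ∈ ball g.2 (1 / (2 * (Q : ℝ))) ∧
      ∀ j k, 0 < om F z0 ρ (ts j) (xs j) k (pos g t0 + ((ts j : ℝ) - t0) • v)} ≤
      volume {v : V m | ∃ a : V m, ∀ j k,
        0 < om F z0 ρ (ts j) (xs j) k (a + ((ts j : ℝ) - t0) • v)} := by
    rw [← measure_biUnion_finset ((caps_disj hS hQ0).mono fun g v hv => hv.1)]
    · refine measure_mono (Set.iUnion₂_subset fun g _ v hv => ⟨_, hv.2⟩)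
    · intro g _
      refine measurableSet_ball.inter ?_
      change MeasurableSet {v | ∀ j k,
        0 < om F z0 ρ (ts j) (xs j) k (pos g t0 + ((ts j : ℝ) - t0) • v)}
      rw [Set.ofPred_forall]
      exact MeasurableSet.iInter fun j => meas_om hF.continuous z0 ρ (ts j) continuous_const
        (z := fun v => pos g t0 + ((ts j : ℝ) - t0) • v) (by fun_prop)
  have h7 : ∑ j, volume {z | ∀ k, 0 < om F z0 ρ (ts j) (xs j) k z} ≤
      ENNReal.ofReal ((m + 1) * (K * (ρ : ℝ) ^ m / l)) := by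
    refine (Finset.sum_le_sum fun j _ => h3 j).trans (le_of_eq ?_)
    rw [Finset.sum_const, Finset.card_univ, Fintype.card_fin, nsmul_eq_mul,
      ENNReal.ofReal_mul (by positivity), ← Nat.cast_succ, ENNReal.ofReal_natCast]
  have h8 := h4.trans (h6.trans (h5.trans (mul_le_mul_right h7 _)))
  rw [h1, ← ENNReal.ofReal_pow (by positivity), ← ENNReal.ofReal_mul (by positivity),
    ← ENNReal.ofReal_mul (by positivity), ENNReal.ofReal_le_ofReal_iff (by positivity)] at h8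
  have h9 := mul_le_mul_of_nonneg_right h8
    (show 0 ≤ (Q : ℝ) ^ m * (ρ : ℝ) ^ (m + 2) * l ^ (m + 1) / c ^ (m + 1) by positivity)
  calc (G.card : ℝ) * ρ * l ^ (2 * m + 2)
      = (c * l / ρ) ^ (m + 1) * (G.card * (1 / (Q : ℝ)) ^ m) *
        ((Q : ℝ) ^ m * (ρ : ℝ) ^ (m + 2) * l ^ (m + 1) / c ^ (m + 1)) := by
        rw [div_pow, mul_pow, div_pow, one_pow]
        field_simp
        ring
    _ ≤ _ := h9
    _ = C2 * (Q : ℝ) ^ m * (ρ : ℝ) ^ (2 * m + 2) := by
        rw [e2, div_pow]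
        field_simp
        ring
    _ ≤ _ := by gcongr; linarith

end Pool.Agent.MP_5168f5_an.H83
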