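import Pool.Agent.MP_5168f5_an.H83.AREA
import Pool.Agent.MP_5168f5_an.H83.BOX
import Pool.Agent.MP_5168f5_an.H83.Boot
import Pool.Agent.MP_5168f5_an.H83.CAPS
import Pool.Agent.MP_5168f5_an.H83.ENDS
import Pool.Agent.MP_5168f5_an.H83.GAIN
import Pool.Agent.MP_5168f5_an.H83.JL
import Pool.Agent.MP_5168f5_an.H83.MK
import Pool.Agent.MP_5168f5_an.H83.PART
import Pool.Agent.MP_5168f5_an.H83.PLANE
import Pool.Agent.MP_5168f5_an.H83.ROOT
import Pool.Agent.MP_5168f5_an.H83.SEL
import Pool.Agent.MP_5168f5_an.H83.STEP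
import Pool.Agent.MP_5168f5_an.H83.TRI
import Pool.Agent.MP_5168f5_an.H83.TUBE
import Pool.Agent.MP_5168f5_an.H83.VAR
import Pool.Agent.MP_5168f5_an.H83.WALL

/-! Assembly of the modules. -/

namespace Pool.Agent.MP_5168f5_an.H83

theorem mk_all : StmtMK := mk var sel (box ham)

theorem wall_all : StmtWALL := wall var (jl area)

theorem tri_all : StmtTRI := tri (step part) mk_all wall_all

theorem gk_final : H42.GK 3 1 ((37 - √153) / 8) :=
  gk_four (gain tri_all tube (plane root caps)) ends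

end Pool.Agent.MP_5168f5_an.H83
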