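import Pool.Agent.MP_5168f5_an.H83.PlaneA

/-! Upper bounds for the number of trees. -/

namespace Pool.Agent.MP_5168f5_an.H83.PLANE

open Finset Matrix H19 H29

/-- A tree: the middle edge, the root edge, the last edge and a line through its end. -/
abbrev Tr : Type := Edge × Edge × Edge × Line 3

/-- The condition on a tree. -/
structure IsT (Q : ℕ) (K : ℝ) (X : Finset (Pt 3)) (S : Pt 3 → Finset (Line 3)) (τ : Tr) : Prop where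
  e1 : IsE Q K X S τ.1
  e0 : IsE Q K X S τ.2.1
  e2 : IsE Q K X S τ.2.2.1
  s0 : τ.2.1.2.1 = τ.1.2.1
  s2 : τ.2.2.1.2.1 = τ.1.2.2
  g3 : τ.2.2.2 ∈ S τ.2.2.1.2.2
  tr : 1 ≤ K * ‖τ.1.1.2 - τ.2.2.1.1.2‖

open Classical in
/-- The lines through `x` that meet `g` far from `x`. -/
noncomputable def hair (Q : ℕ) (K : ℝ) (X : Finset (Pt 3)) (S : Pt 3 → Finset (Line 3))
    (x : Pt 3) (g : Line 3) : Finset (Line 3) :=
  (S x).filter fun g' => ∃ y ∈ X, g' ∈ S y ∧ g ∈ S y ∧ (Q : ℝ) ≤ K * |(x.2 : ℝ) - y.2|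

theorem exists_coord {K : ℝ} (hK : 0 ≤ K) {v : V 3} (h : 1 ≤ K * ‖v‖) : ∃ k, 1 ≤ K * |v k| := by
  obtain ⟨k, -, hk⟩ := Finset.exists_max_image Finset.univ (fun k => |v k|) Finset.univ_nonempty
  have : ‖v‖ ≤ |v k| :=
    (pi_norm_le_iff_of_nonneg (abs_nonneg _)).2 fun i => hk i (Finset.mem_univ _)
  exact ⟨k, h.trans (mul_le_mul_of_nonneg_left this hK)⟩

variable {Q s : ℕ} {K l : ℝ} {G : Finset (Line 3)} {X : Finset (Pt 3)}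
  {S : Pt 3 → Finset (Line 3)}

theorem card_S (hI : Incid Q s G X S) {x : Pt 3} (hx : x ∈ X) {T : Finset (Line 3)}
    (hT : ∀ g ∈ T, g ∈ S x) : (T.card : ℝ) ≤ s := by
  rw [← (hI x hx).2.1]
  exact_mod_cast Finset.card_le_card hT

theorem near_of (hI : Incid Q s G X S) (hK : 1 ≤ K) {y : Pt 3} (hy : y ∈ X) {g g' : Line 3}
    (h : g ∈ S y) (h' : g' ∈ S y) : Near K g g' y.2 := fun k =>
  (pos_close (((hI y hy).2.2 g h).2.trans ((hI y hy).2.2 g' h').2.symm) k).trans hK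

/-- Edges that start at `x` with their line in `A`. -/
theorem out_le (hI : Incid Q s G X S) (hl0 : 0 ≤ l)
    (hl : ∀ g ∈ G, ∀ B ⊆ X, (∀ x ∈ B, g ∈ S x) → (B.card : ℝ) ≤ l) {x : Pt 3} {n : ℝ}
    (B : Finset Edge) (hB : ∀ e ∈ B, IsE Q K X S e ∧ e.2.1 = x)
    (hn : ∀ T : Finset (Line 3), (∀ g ∈ T, ∃ e ∈ B, e.1 = g) → (T.card : ℝ) ≤ n) :
    (B.card : ℝ) ≤ n * l := by
  refine fib_bound B (fun e => e.1) hl0 hn fun D hD g hg => ?_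
  have := fib_bound D (fun e => e.2.2) (n := l) zero_le_one (fun T hT => ?_) fun D' hD' y hy =>
    card_le_one' _ fun a ha b hb => Prod.ext ((hg a (hD' ha)).trans (hg b (hD' hb)).symm)
      (Prod.ext ((hB a (hD (hD' ha))).2.trans (hB b (hD (hD' hb))).2.symm)
        ((hy a ha).trans (hy b hb).symm))
  · simpa using this
  rcases T.eq_empty_or_nonempty with rfl | ⟨y, hy⟩
  · simpa using hl0
  obtain ⟨e, he, -⟩ := hT y hy
  have h1 := (hB e (hD he)).1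
  refine hl g (hg e he ▸ ((hI _ h1.1).2.2 _ h1.2.2.1).1) T (fun z hz => ?_) fun z hz => ?_
  · obtain ⟨e', he', rfl⟩ := hT z hz
    exact (hB e' (hD he')).1.2.1
  · obtain ⟨e', he', rfl⟩ := hT z hz
    rw [← hg e' he']
    exact (hB e' (hD he')).1.2.2.2.1

/-- Few cells of a line carry many hairs. -/
theorem rich_le (hG : Sep Q G) (hI : Incid Q s G X S) (hQ : 0 < Q) (hK : 1 ≤ K) {M : ℝ}
    (hM : 0 < M) {g1 g2 : Line 3} {y : Pt 3} (hy : y ∈ X) (h1 : g1 ∈ S y) (h2 : g2 ∈ S y)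
    (htr : 1 ≤ K * ‖g1.2 - g2.2‖) (T : Finset (Pt 3))
    (hT : ∀ x ∈ T, x ∈ X ∧ g1 ∈ S x ∧ M < (hair Q K X S x g2).card) :
    (T.card : ℝ) ≤ cM 3 Q K 1 / M := by
  classical
  obtain ⟨k, hk⟩ := exists_coord (by linarith) htr
  obtain ⟨W, hW, hW'⟩ := cordW hQ hK (g := id) hG.1 (Sep.dirM hG) ((hI y hy).2.2 g2 h2).1
    ((hI y hy).2.2 g1 h1).1 ⟨k, by rw [abs_sub_comm]; exact hk⟩
  have h3 : (T.sigma fun x => hair Q K X S x g2).card ≤ W.card := by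
    refine Finset.card_le_card_of_injOn (fun p => (p.1.2, p.2)) ?_ ?_
    · intro p hp
      obtain ⟨p1, p2⟩ := Finset.mem_sigma.1 hp
      obtain ⟨p3, y', p4, p5, p6, p7⟩ := Finset.mem_filter.1 p2
      obtain ⟨a1, a2, -⟩ := hT _ p1
      exact hW' _ (hI _ a1).1 _ ((hI _ a1).2.2 _ p3).1
        (((hI _ a1).2.2 _ p3).2.trans ((hI _ a1).2.2 _ a2).2.symm) y.2 y'.2
        (near_of hI hK hy h2 h1) (near_of hI hK p4 p6 p5) p7
    · intro p hp p' hp' e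
      obtain ⟨a1, a2, -⟩ := hT _ (Finset.mem_sigma.1 hp).1
      obtain ⟨b1, b2, -⟩ := hT _ (Finset.mem_sigma.1 hp').1
      exact Sigma.ext (hI.eq_of a1 b1 a2 b2 (Prod.ext_iff.1 e).1) (heq_of_eq (Prod.ext_iff.1 e).2)
  rw [Finset.card_sigma] at h3
  have h4 : (T.card : ℝ) * M ≤ ∑ x ∈ T, ((hair Q K X S x g2).card : ℝ) := by
    rw [← nsmul_eq_mul, ← Finset.sum_const]
    exact Finset.sum_le_sum fun x hx => (hT x hx).2.2.le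
  have h5 : ∑ x ∈ T, ((hair Q K X S x g2).card : ℝ) ≤ W.card := by exact_mod_cast h3
  rw [le_div_iff₀ hM]
  linarith

/-- The trees with many hairs. -/
theorem bad_le (hG : Sep Q G) (hI : Incid Q s G X S) (hQ : 0 < Q) (hK : 1 ≤ K) (hl0 : 0 ≤ l)
    (hl : ∀ g ∈ G, ∀ B ⊆ X, (∀ x ∈ B, g ∈ S x) → (B.card : ℝ) ≤ l) {M : ℝ} (hM : 0 < M)
    (X' : Finset (Pt 3)) (A : Finset Tr) (hA : ∀ τ ∈ A, IsT Q K X S τ ∧ τ.1.2.2 ∈ X' ∧
      M < (hair Q K X S τ.1.2.1 τ.2.2.1.1).card) :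
    (A.card : ℝ) ≤ X'.card * (s * (s * (cM 3 Q K 1 / M * (s * l * (l * s))))) := by
  have hc : 0 ≤ cM 3 Q K 1 / M := by
    have : 0 ≤ Real.log (2 * Q + 1) := Real.log_nonneg (by
      have : (0 : ℝ) ≤ Q := Nat.cast_nonneg _
      linarith)
    unfold cM; positivity
  refine fib_bound A (fun τ => τ.1.2.2) (by positivity) (fun T hT => ?_) fun A1 s1 y hy => ?_
  · refine Nat.cast_le.2 (Finset.card_le_card fun c hc => ?_)
    obtain ⟨τ, h1, rfl⟩ := hT c hc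
    exact (hA τ h1).2.1
  rcases A1.eq_empty_or_nonempty with rfl | ⟨τ0, h0⟩
  · simp only [Finset.card_empty, Nat.cast_zero]; positivity
  have hyX : y ∈ X := hy τ0 h0 ▸ (hA τ0 (s1 h0)).1.e1.2.1
  refine fib_bound A1 (fun τ => τ.1.1) (by positivity) (fun T hT => card_S hI hyX fun g hg => ?_)
    fun A2 s2 g1 hg1 => ?_
  · obtain ⟨τ, h1, rfl⟩ := hT g hg
    exact hy τ h1 ▸ (hA τ (s1 h1)).1.e1.2.2.2.1
  have f2 : ∀ τ ∈ A1, τ.2.2.1.1 ∈ S y := fun τ h1 => by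
    rw [← hy τ h1, ← (hA τ (s1 h1)).1.s2]; exact (hA τ (s1 h1)).1.e2.2.2.1
  refine fib_bound A2 (fun τ => τ.2.2.1.1) (by positivity)
    (fun T hT => card_S hI hyX fun g hg => ?_) fun A3 s3 g2 hg2 => ?_
  · obtain ⟨τ, h1, rfl⟩ := hT g hg
    exact f2 τ (s2 h1)
  rcases A3.eq_empty_or_nonempty with rfl | ⟨τ1, h1⟩
  · simp only [Finset.card_empty, Nat.cast_zero]; positivity
  have m3 : ∀ τ ∈ A3, τ ∈ A := fun τ h => s1 (s2 (s3 h))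
  refine fib_bound A3 (fun τ => τ.1.2.1) (by positivity) (fun T hT => ?_) fun A4 s4 x hx => ?_
  · refine rich_le hG hI hQ hK hM (g1 := g1) (g2 := g2) hyX ?_ ?_ ?_ T fun x hx => ?_
    · rw [← hg1 τ1 (s3 h1), ← hy τ1 (s2 (s3 h1))]; exact (hA τ1 (m3 τ1 h1)).1.e1.2.2.2.1
    · rw [← hg2 τ1 h1]; exact f2 τ1 (s2 (s3 h1))
    · rw [← hg1 τ1 (s3 h1), ← hg2 τ1 h1]; exact (hA τ1 (m3 τ1 h1)).1.tr
    · obtain ⟨τ, h2, rfl⟩ := hT x hx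
      obtain ⟨a1, -, a2⟩ := hA τ (m3 τ h2)
      exact ⟨a1.e1.1, hg1 τ (s3 h2) ▸ a1.e1.2.2.1, hg2 τ h2 ▸ a2⟩
  refine fib_bound A4 (fun τ => τ.2.1) (by positivity) (fun T hT => ?_) fun A5 s5 e0 he0 => ?_
  · have h2 : ∀ e ∈ T, IsE Q K X S e ∧ e.2.1 = x := fun e he => by
      obtain ⟨τ, h2, rfl⟩ := hT e he
      exact ⟨(hA τ (m3 τ (s4 h2))).1.e0, (hA τ (m3 τ (s4 h2))).1.s0.trans (hx τ h2)⟩
    refine out_le hI hl0 hl T h2 fun T' hT' => ?_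
    rcases T'.eq_empty_or_nonempty with rfl | ⟨g, hg⟩
    · simp
    obtain ⟨e, he, -⟩ := hT' g hg
    refine card_S hI ((h2 e he).2 ▸ (h2 e he).1.1) fun g' hg' => ?_
    obtain ⟨e', he', rfl⟩ := hT' g' hg'
    exact (h2 e' he').2 ▸ (h2 e' he').1.2.2.1
  have m5 : ∀ τ ∈ A5, τ ∈ A3 := fun τ h => s4 (s5 h)
  refine fib_bound A5 (fun τ => τ.2.2.1.2.2) (by positivity) (fun T hT => ?_)
    fun A6 s6 z hz => ?_
  · refine hl g2 ((hI y hyX).2.2 _ (hg2 τ1 h1 ▸ f2 τ1 (s2 (s3 h1)))).1 T (fun z hz => ?_)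
      fun z hz => ?_
    · obtain ⟨τ, h2, rfl⟩ := hT z hz
      exact (hA τ (m3 τ (m5 τ h2))).1.e2.2.1
    · obtain ⟨τ, h2, rfl⟩ := hT z hz
      exact hg2 τ (m5 τ h2) ▸ (hA τ (m3 τ (m5 τ h2))).1.e2.2.2.2.1
  rcases A6.eq_empty_or_nonempty with rfl | ⟨τ2, h2⟩
  · simp
  have m6 : ∀ τ ∈ A6, τ ∈ A3 := fun τ h => m5 τ (s6 h)
  have := fib_bound A6 (fun τ => τ.2.2.2) (n := s) zero_le_one
    (fun T hT => card_S hI (hz τ2 h2 ▸ (hA τ2 (m3 τ2 (m6 τ2 h2))).1.e2.2.1) fun g hg => by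
      obtain ⟨τ, h3, rfl⟩ := hT g hg
      exact hz τ h3 ▸ (hA τ (m3 τ (m6 τ h3))).1.g3) fun A7 s7 g3 hg3 => by
    have key : ∀ τ ∈ A7, τ = ((g1, x, y), e0, (g2, y, z), g3) := fun τ h => by
      have a := m6 τ (s7 h)
      exact Prod.ext (Prod.ext (hg1 τ (s3 a)) (Prod.ext (hx τ (s5 (s6 (s7 h)))) (hy τ (s2 (s3 a)))))
        (Prod.ext (he0 τ (s6 (s7 h))) (Prod.ext (Prod.ext (hg2 τ a)
          (Prod.ext ((hA τ (m3 τ a)).1.s2.trans (hy τ (s2 (s3 a)))) (hz τ (s7 h)))) (hg3 τ h)))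
    exact card_le_one' _ fun a ha b hb => (key a ha).trans (key b hb).symm
  simpa using this

/-- The trees with few hairs. -/
theorem good_le (hI : Incid Q s G X S) (hK : 1 ≤ K) (hl0 : 0 ≤ l)
    (hl : ∀ g ∈ G, ∀ B ⊆ X, (∀ x ∈ B, g ∈ S x) → (B.card : ℝ) ≤ l) {M n3 n2 : ℝ} (hM : 0 ≤ M)
    (hn3 : 0 ≤ n3) (hn2 : 0 ≤ n2) (E : Finset Edge) (A : Finset Tr)
    (hA : ∀ τ ∈ A, IsT Q K X S τ ∧ τ.2.1 ∈ E ∧ ((hair Q K X S τ.1.2.1 τ.2.2.1.1).card : ℝ) ≤ M)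
    (h3 : ∀ e, ∀ T : Finset (Line 3), T.Nonempty → (∀ g ∈ T, ∃ τ ∈ A, τ.2.1 = e ∧ τ.2.2.2 = g) →
      (T.card : ℝ) ≤ n3)
    (h2 : ∀ x z, ∀ T : Finset (Line 3), T.Nonempty →
      (∀ g ∈ T, ∃ τ ∈ A, τ.1.2.1 = x ∧ τ.2.2.1.2.2 = z ∧ τ.2.2.1.1 = g) → (T.card : ℝ) ≤ n2) :
    (A.card : ℝ) ≤ E.card * (n3 * (l * (n2 * (M * (2 * K + 3))))) := by
  classical
  refine fib_bound A (fun τ => τ.2.1) (by positivity) (fun T hT => ?_) fun A1 s1 e0 he0 => ?_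
  · refine Nat.cast_le.2 (Finset.card_le_card fun c hc => ?_)
    obtain ⟨τ, h1, rfl⟩ := hT c hc
    exact (hA τ h1).2.1
  have hx : ∀ τ ∈ A1, τ.1.2.1 = e0.2.1 := fun τ h => by rw [← he0 τ h, (hA τ (s1 h)).1.s0]
  refine fib_bound A1 (fun τ => τ.2.2.2) (by positivity) (fun T hT => ?_) fun A2 s2 g3 hg3 => ?_
  · rcases T.eq_empty_or_nonempty with rfl | hne
    · simpa using hn3
    refine h3 e0 T hne fun g hg => ?_
    obtain ⟨τ, h1, rfl⟩ := hT g hg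
    exact ⟨τ, s1 h1, he0 τ h1, rfl⟩
  rcases A2.eq_empty_or_nonempty with rfl | ⟨τ0, h0⟩
  · simp only [Finset.card_empty, Nat.cast_zero]; positivity
  have m2 : ∀ τ ∈ A2, IsT Q K X S τ := fun τ h => (hA τ (s1 (s2 h))).1
  refine fib_bound A2 (fun τ => τ.2.2.1.2.2) (by positivity) (fun T hT => ?_) fun A3 s3 z hz => ?_
  · refine hl g3 (hg3 τ0 h0 ▸ ((hI _ (m2 τ0 h0).e2.2.1).2.2 _ (m2 τ0 h0).g3).1) T (fun z hz => ?_)
      fun z hz => ?_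
    · obtain ⟨τ, h1, rfl⟩ := hT z hz
      exact (m2 τ h1).e2.2.1
    · obtain ⟨τ, h1, rfl⟩ := hT z hz
      exact hg3 τ h1 ▸ (m2 τ h1).g3
  refine fib_bound A3 (fun τ => τ.2.2.1.1) (by positivity) (fun T hT => ?_) fun A4 s4 g2 hg2 => ?_
  · rcases T.eq_empty_or_nonempty with rfl | hne
    · simpa using hn2
    refine h2 e0.2.1 z T hne fun g hg => ?_
    obtain ⟨τ, h1, rfl⟩ := hT g hg
    exact ⟨τ, s1 (s2 (s3 h1)), hx τ (s2 (s3 h1)), hz τ h1, rfl⟩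
  rcases A4.eq_empty_or_nonempty with rfl | ⟨τ1, h1⟩
  · simp only [Finset.card_empty, Nat.cast_zero]; positivity
  have m4 : ∀ τ ∈ A4, τ ∈ A2 := fun τ h => s3 (s4 h)
  have f2 : ∀ τ ∈ A4, g2 ∈ S τ.1.2.2 := fun τ h => by
    rw [← hg2 τ h, ← (m2 τ (m4 τ h)).s2]; exact (m2 τ (m4 τ h)).e2.2.2.1
  refine fib_bound A4 (fun τ => τ.1.1) (by positivity) (fun T hT => ?_) fun A5 s5 g1 hg1 => ?_
  · refine le_trans (Nat.cast_le.2 (Finset.card_le_card fun g hg => ?_))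
      (hA τ1 (s1 (s2 (m4 τ1 h1)))).2.2
    obtain ⟨τ, h4, rfl⟩ := hT g hg
    have a := (m2 τ (m4 τ h4)).e1
    rw [hx τ1 (s2 (m4 τ1 h1)), ← hx τ (s2 (m4 τ h4)), hg2 τ1 h1]
    exact Finset.mem_filter.2 ⟨a.2.2.1, _, a.2.1, a.2.2.2.1, f2 τ h4, a.2.2.2.2⟩
  rcases A5.eq_empty_or_nonempty with rfl | ⟨τ2, h5⟩
  · simp only [Finset.card_empty, Nat.cast_zero]; positivity
  have f1 : ∀ τ ∈ A5, τ.1.2.2 ∈ X ∧ g1 ∈ S τ.1.2.2 := fun τ h =>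
    ⟨(m2 τ (m4 τ (s5 h))).e1.2.1, hg1 τ h ▸ (m2 τ (m4 τ (s5 h))).e1.2.2.2.1⟩
  have htr : 1 ≤ K * ‖g1.2 - g2.2‖ := by
    rw [← hg1 τ2 h5, ← hg2 τ2 (s5 h5)]; exact (m2 τ2 (m4 τ2 (s5 h5))).tr
  obtain ⟨k, hk⟩ := exists_coord (by linarith) htr
  have hk0 : 0 < |(g1.2 - g2.2) k| := by
    by_contra h
    have := abs_nonneg ((g1.2 - g2.2) k)
    nlinarith
  have := fib_bound A5 (fun τ => τ.1.2.2.2) (n := 2 * K + 3) zero_le_one (fun T hT => by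
    refine (heights_le T (c := g1.1 k - g2.1 k) (abs_pos.1 hk0) zero_le_one fun t ht => ?_).trans ?_
    · obtain ⟨τ, h4, rfl⟩ := hT t ht
      have a := near_of hI le_rfl (f1 τ h4).1 (f1 τ h4).2 (f2 τ (s5 h4)) k
      unfold pos at a
      rw [Pi.sub_apply]
      refine le_trans (le_of_eq ?_) a
      congr 1; ring
    · have : 1 / |(g1.2 - g2.2) k| ≤ K := by rw [div_le_iff₀ hk0]; exact hk
      linarith) fun A6 s6 t ht => by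
    refine card_le_one' _ fun a ha b hb => ?_
    have ey : a.1.2.2 = b.1.2.2 := hI.eq_of (f1 a (s6 ha)).1 (f1 b (s6 hb)).1 (f1 a (s6 ha)).2
      (f1 b (s6 hb)).2 ((ht a ha).trans (ht b hb).symm)
    have key : ∀ τ ∈ A6, τ = ((g1, e0.2.1, τ.1.2.2), e0, (g2, τ.1.2.2, z), g3) := fun τ h => by
      have a4 := s5 (s6 h)
      have a2 := m4 τ a4
      exact Prod.ext (Prod.ext (hg1 τ (s6 h)) (Prod.ext (hx τ (s2 a2)) rfl))
        (Prod.ext (he0 τ (s2 a2)) (Prod.ext (Prod.ext (hg2 τ a4)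
          (Prod.ext (m2 τ a2).s2 (hz τ (s4 a4)))) (hg3 τ a2)))
    rw [key a ha, key b hb, ey]
  simpa using this

end Pool.Agent.MP_5168f5_an.H83.PLANE
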