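import Pool.Agent.MP_5168f5_an.H83.Basic

/-! One step of the iterated partition. -/

namespace Pool.Agent.MP_5168f5_an.H83

open MeasureTheory Metric Finset Matrix H19 H29 H42
open scoped ENNReal

namespace STEP

variable {m n : ℕ}

/-- A continuous function without zeros on a segment keeps its sign. -/
theorem sign_keep {F : ℝ → ℝ} (hF : Continuous F) {a b : ℝ} (hab : a ≤ b)
    (h0 : ∀ τ, a ≤ τ → τ ≤ b → F τ ≠ 0) : ¬(0 < F a ∧ F b < 0) ∧ ¬(F a < 0 ∧ 0 < F b) := by
  constructor
  · rintro ⟨h1, h2⟩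
    obtain ⟨τ, hτ, e⟩ := intermediate_value_Icc' hab hF.continuousOn ⟨h2.le, h1.le⟩
    exact h0 τ hτ.1 hτ.2 e
  · rintro ⟨h1, h2⟩
    obtain ⟨τ, hτ, e⟩ := intermediate_value_Icc hab hF.continuousOn ⟨h1.le, h2.le⟩
    exact h0 τ hτ.1 hτ.2 e

/-- The counter of the roots on a line. -/
theorem exists_nu {f : ℕ → V n → ℝ} {d : ℕ → ℕ} (hf : ∀ i, IsPoly (d i) (f i)) (r : ℕ)
    (a u : V n) : ∃ ν : ℕ → ℕ, Monotone ν ∧ (∀ t, ν t ≤ ∑ i ∈ range r, d i) ∧
      ∀ (t t' : ℕ) (P P' : Finset ℕ), P ⊆ range r → P' ⊆ range r → ν t = ν t' →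
        a + (t : ℝ) • u ∈ sgnSet f r P → a + (t' : ℝ) • u ∈ sgnSet f r P' → P = P' := by
  classical
  obtain ⟨q, hq, hq'⟩ := (IsPoly.prod (range r) (f := f) (d := d) fun i _ => hf i).line a u
  have key : ∀ (t t' : ℕ) (P P' : Finset ℕ), t ≤ t' → P ⊆ range r → P' ⊆ range r →
      (q.roots.filter fun z => z < (t : ℝ)).card = (q.roots.filter fun z => z < (t' : ℝ)).card →
      a + (t : ℝ) • u ∈ sgnSet f r P → a + (t' : ℝ) • u ∈ sgnSet f r P' → P = P' := by
    intro t t' P P' htt hP hP' hc h1 h2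
    have htt' : (t : ℝ) ≤ t' := by exact_mod_cast htt
    have hne : q.eval (t' : ℝ) ≠ 0 := by
      rw [← hq']
      refine Finset.prod_ne_zero_iff.2 fun i hi => ?_
      have h3 := h2 i (Finset.mem_range.1 hi)
      by_cases h : i ∈ P'
      · exact (h3.1 h).ne'
      · exact (h3.2 h).ne
    have hq0 : q ≠ 0 := by
      rintro rfl
      exact hne (by simp)
    have hle : (q.roots.filter fun z => z < (t : ℝ)) ≤ q.roots.filter fun z => z < (t' : ℝ) :=
      Multiset.monotone_filter_right _ fun z hz => lt_of_lt_of_le hz htt'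
    have heq := Multiset.eq_of_le_of_card_le hle hc.ge
    have hz : ∀ τ : ℝ, (t : ℝ) ≤ τ → τ ≤ t' → q.eval τ ≠ 0 := by
      intro τ h3 h4 h5
      rcases h4.lt_or_eq with h4 | h4
      · have h6 : τ ∈ q.roots.filter fun z => z < (t' : ℝ) :=
          Multiset.mem_filter.2 ⟨(Polynomial.mem_roots hq0).2 h5, h4⟩
        rw [← heq] at h6
        exact absurd (Multiset.mem_filter.1 h6).2 (not_lt.2 h3)
      · exact hne (h4 ▸ h5)
    have hs : ∀ i < r, ¬(0 < f i (a + (t : ℝ) • u) ∧ f i (a + (t' : ℝ) • u) < 0) ∧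
        ¬(f i (a + (t : ℝ) • u) < 0 ∧ 0 < f i (a + (t' : ℝ) • u)) := by
      intro i hi
      refine sign_keep (F := fun τ : ℝ => f i (a + τ • u))
        ((hf i).continuous.comp (by fun_prop)) htt' fun τ h3 h4 => ?_
      have h5 := hz τ h3 h4
      rw [← hq'] at h5
      exact Finset.prod_ne_zero_iff.1 h5 i (Finset.mem_range.2 hi)
    ext i
    constructor
    · intro hi
      have hr := Finset.mem_range.1 (hP hi)
      by_contra h
      exact (hs i hr).1 ⟨(h1 i hr).1 hi, (h2 i hr).2 h⟩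
    · intro hi
      have hr := Finset.mem_range.1 (hP' hi)
      by_contra h
      exact (hs i hr).2 ⟨(h1 i hr).2 h, (h2 i hr).1 hi⟩
  refine ⟨fun t => (q.roots.filter fun z => z < (t : ℝ)).card, fun t t' h => ?_, fun t => ?_,
    fun t t' P P' hP hP' hc h1 h2 => ?_⟩
  · have h' : (t : ℝ) ≤ t' := by exact_mod_cast h
    exact Multiset.card_le_card
      (Multiset.monotone_filter_right _ fun z hz => lt_of_lt_of_le hz h')
  · exact ((Multiset.card_le_card (Multiset.filter_le _ _)).trans q.card_roots').trans hq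
  · rcases le_total t t' with h | h
    · exact key t t' P P' h hP hP' hc h1 h2
    · exact (key t' t P' P h hP' hP hc.symm h2 h1).symm

/-- Averaging over a shift. -/
theorem exists_shift {ι : Type} (I : Finset ι) (A : ι → Set (V n))
    [∀ ω i, Decidable (ω ∈ A i)] (Ω : Set (V n))
    (hA : ∀ i ∈ I, MeasurableSet (A i)) (hv : ∀ i ∈ I, 4 * volume (Ω ∩ A i) ≤ 1)
    (hΩ : MeasurableSet Ω) (h1 : 1 ≤ volume Ω) :
    ∃ ω ∈ Ω, 4 * (I.filter fun i => ω ∈ A i).card ≤ I.card := by
  by_contra h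
  push Not at h
  have h2 : ∫⁻ ω in Ω, ((I.card + 1 : ℕ) : ℝ≥0∞) ≤
      ∫⁻ ω in Ω, 4 * ∑ i ∈ I, (A i).indicator 1 ω := by
    refine setLIntegral_mono' hΩ fun ω hω => ?_
    have h3 : ∑ i ∈ I, (A i).indicator (1 : V n → ℝ≥0∞) ω =
        ((I.filter fun i => ω ∈ A i).card : ℝ≥0∞) := by
      rw [Finset.card_filter]
      push_cast
      refine Finset.sum_congr rfl fun i _ => ?_
      by_cases hi : ω ∈ A i <;> simp [hi]
    rw [h3]
    exact_mod_cast h ω hω
  rw [lintegral_const_mul _ (Finset.measurable_sum _ fun i hi =>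
    measurable_one.indicator (hA i hi)), lintegral_finsetSum _ fun i hi =>
    measurable_one.indicator (hA i hi), setLIntegral_const, Finset.mul_sum] at h2
  have h4 : ∑ i ∈ I, 4 * ∫⁻ ω in Ω, (A i).indicator 1 ω ≤ ∑ _i ∈ I, (1 : ℝ≥0∞) := by
    refine Finset.sum_le_sum fun i hi => ?_
    rw [lintegral_indicator_one (hA i hi), Measure.restrict_apply (hA i hi), Set.inter_comm]
    exact hv i hi
  have h5 : ((I.card + 1 : ℕ) : ℝ≥0∞) ≤ I.card := by
    refine le_trans (le_mul_of_one_le_right' h1) (h2.trans (h4.trans ?_))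
    simp
  have h6 : I.card + 1 ≤ I.card := by exact_mod_cast h5
  omega

/-- The part of a set outside the dominant sign class. -/
theorem vol_outside {f : ℕ → V n → ℝ} {d : ℕ → ℕ} (hf : ∀ i, IsPoly (d i) (f i))
    (h0 : ∀ i, ∃ y, f i y ≠ 0) (r : ℕ) (K : Set (V n)) (P : Finset ℕ) (e : ℝ≥0∞)
    (h1 : ∀ i < r, i ∈ P → volume (K ∩ {y | f i y < 0}) ≤ e)
    (h2 : ∀ i < r, i ∉ P → volume (K ∩ {y | 0 < f i y}) ≤ e) :
    volume (K \ sgnSet f r P) ≤ r * e := by
  classical
  have hs : K \ sgnSet f r P ⊆ ⋃ i ∈ range r, ((if i ∈ P then K ∩ {y | f i y < 0}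
      else K ∩ {y | 0 < f i y}) ∪ {y | f i y = 0}) := by
    rintro y ⟨hy, hn⟩
    simp only [sgnSet, Set.mem_ofPred_eq, not_forall] at hn
    obtain ⟨i, hi, hn⟩ := hn
    refine Set.mem_iUnion₂.2 ⟨i, Finset.mem_range.2 hi, ?_⟩
    by_cases hz : f i y = 0
    · exact Or.inr hz
    · left
      by_cases hP : i ∈ P
      · rw [if_pos hP]
        refine ⟨hy, lt_of_le_of_ne (not_lt.1 fun h => hn ⟨fun _ => h, fun h' => ?_⟩) hz⟩
        exact absurd hP h'
      · rw [if_neg hP]
        refine ⟨hy, lt_of_le_of_ne (not_lt.1 fun h => hn ⟨fun h' => ?_, fun _ => h⟩)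
          (Ne.symm hz)⟩
        exact absurd h' hP
  refine (measure_mono hs).trans ((measure_biUnion_finset_le _ _).trans ?_)
  refine (Finset.sum_le_sum (g := fun _ => e) fun i hi => ?_).trans (by simp)
  refine (measure_union_le _ _).trans ?_
  rw [null_zero (hf i) (h0 i), add_zero]
  split_ifs with hP
  · exact h1 i (Finset.mem_range.1 hi) hP
  · exact h2 i (Finset.mem_range.1 hi) hP

theorem vol_ball (c : V n) : volume (closedBall c 2) = ENNReal.ofReal (4 ^ n) := by
  rw [Real.volume_pi_closedBall _ (by norm_num)]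
  norm_num

theorem one_le_vol_ball (c : V n) : 1 ≤ volume (closedBall c 2) := by
  rw [vol_ball, ENNReal.one_le_ofReal]
  exact one_le_pow₀ (by norm_num)

theorem one_le_vol_unit : 1 ≤ volume (closedBall (0 : V n) 1) := by
  rw [Real.volume_pi_closedBall _ (by norm_num), ENNReal.one_le_ofReal]
  exact one_le_pow₀ (by norm_num)

/-- At least half of the ball lies in the sign class. -/
theorem half_inside {c : V n} {T : Set (V n)} (h : 4 * volume (closedBall c 2 \ T) ≤ 1) :
    volume (closedBall c 2) ≤ 2 * volume (closedBall c 2 ∩ T) := by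
  have h1 := measure_le_inter_add_sdiff volume (closedBall c 2) T
  have h2 := one_le_vol_ball c
  have h3 : volume (closedBall c 2) ≠ ⊤ := by rw [vol_ball]; exact ENNReal.ofReal_ne_top
  have h4 : 2 * volume (closedBall c 2 \ T) ≤ volume (closedBall c 2) :=
    le_trans (le_trans (mul_le_mul_left (by norm_num) _) h) h2
  have h5 : volume (closedBall c 2) + volume (closedBall c 2) ≤
      2 * volume (closedBall c 2 ∩ T) + volume (closedBall c 2) := by
    rw [← two_mul]
    refine (mul_le_mul_right h1 2).trans ?_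
    rw [mul_add]
    exact add_le_add_right h4 _
  exact (ENNReal.add_le_add_iff_right h3).1 h5

/-- The measure of a class of cells. -/
noncomputable def mu (Y : Finset (Pt m)) : Measure (V (m + 1)) :=
  ∑ x ∈ Y, volume.restrict (closedBall (cor x) 2)

theorem mu_univ (Y : Finset (Pt m)) :
    mu Y Set.univ = Y.card * ENNReal.ofReal (4 ^ (m + 1)) := by
  unfold mu
  rw [Measure.finsetSum_apply]
  simp only [Measure.restrict_apply_univ, vol_ball]
  simp

theorem mu_fin (Y : Finset (Pt m)) : IsFiniteMeasure (mu Y) :=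
  ⟨by
    rw [mu_univ]
    exact ENNReal.mul_lt_top (by simp) ENNReal.ofReal_lt_top⟩

theorem mu_ac (Y : Finset (Pt m)) : mu Y ≪ volume := by
  intro s hs
  unfold mu
  rw [Measure.finsetSum_apply]
  exact Finset.sum_eq_zero fun x _ => Measure.absolutelyContinuous_restrict hs

/-- Cells that lie mostly in one sign class are few. -/
theorem card_small {Y B : Finset (Pt m)} (hB : B ⊆ Y) {T : Set (V (m + 1))}
    (hT : MeasurableSet T) (N : ℕ) (h : (N : ℝ≥0∞) * mu Y T ≤ mu Y Set.univ)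
    (hb : ∀ x ∈ B, 4 * volume (closedBall (cor x) 2 \ T) ≤ 1) : N * B.card ≤ 2 * Y.card := by
  have h1 : (B.card : ℝ≥0∞) * ENNReal.ofReal (4 ^ (m + 1)) ≤ 2 * mu Y T := by
    unfold mu
    rw [Measure.finsetSum_apply, Finset.mul_sum, ← nsmul_eq_mul, ← Finset.sum_const]
    refine le_trans (Finset.sum_le_sum fun x hx => ?_) (Finset.sum_le_sum_of_subset hB)
    rw [Measure.restrict_apply hT, Set.inter_comm, ← vol_ball (cor x)]
    exact half_inside (hb x hx)
  have h2 : ((N * B.card : ℕ) : ℝ≥0∞) * ENNReal.ofReal (4 ^ (m + 1)) ≤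
      ((2 * Y.card : ℕ) : ℝ≥0∞) * ENNReal.ofReal (4 ^ (m + 1)) := by
    push_cast
    calc (N : ℝ≥0∞) * B.card * ENNReal.ofReal (4 ^ (m + 1))
        = N * (B.card * ENNReal.ofReal (4 ^ (m + 1))) := mul_assoc _ _ _
      _ ≤ N * (2 * mu Y T) := mul_le_mul_right h1 _
      _ = 2 * (N * mu Y T) := mul_left_comm _ _ _
      _ ≤ 2 * mu Y Set.univ := mul_le_mul_right h _
      _ = _ := by rw [mu_univ, mul_assoc]
  have h3 : ENNReal.ofReal (4 ^ (m + 1)) ≠ 0 := by
    rw [ne_eq, ENNReal.ofReal_eq_zero, not_le]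
    positivity
  exact_mod_cast (ENNReal.mul_le_mul_iff_left h3 ENNReal.ofReal_ne_top).1 h2

/-- Half of the cells have few bad lines. -/
theorem half_good {ι : Type} (X : Finset ι) (bad : ι → ℕ) (s : ℕ)
    (h : 4 * ∑ x ∈ X, bad x ≤ s * X.card) :
    X.card ≤ 2 * (X.filter fun x => 2 * bad x ≤ s).card := by
  have h1 := Finset.card_filter_add_card_filter_not (s := X) fun x => 2 * bad x ≤ s
  have h2 : (s + 1) * (X.filter fun x => ¬2 * bad x ≤ s).card ≤ 2 * ∑ x ∈ X, bad x := by
    rw [mul_comm, ← smul_eq_mul, ← Finset.sum_const, Finset.mul_sum]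
    refine le_trans (Finset.sum_le_sum fun x hx => ?_)
      (Finset.sum_le_sum_of_subset (Finset.filter_subset _ _))
    have := (Finset.mem_filter.1 hx).2
    omega
  generalize (X.filter fun x => ¬2 * bad x ≤ s).card = a at h1 h2
  generalize (X.filter fun x => 2 * bad x ≤ s).card = b at h1 ⊢
  rw [← h1] at h ⊢
  by_contra h3
  have h4 : b < a := by omega
  nlinarith

theorem lab_lt {a b c D : ℕ} (h : a < b) (hc : c ≤ D) : a * (D + 1) + c < b * (D + 1) := by
  have := Nat.mul_le_mul_right (D + 1) (Nat.succ_le_of_lt h)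
  rw [Nat.succ_mul] at this
  omega

theorem lab_inj {a b c e D : ℕ} (hc : c ≤ D) (he : e ≤ D)
    (h : a * (D + 1) + c = b * (D + 1) + e) : a = b ∧ c = e := by
  have h1 : a = b := by
    rcases lt_trichotomy a b with h1 | h1 | h1
    · have := lab_lt h1 hc
      omega
    · exact h1
    · have := lab_lt h1 he
      omega
  subst h1
  exact ⟨rfl, by omega⟩

/-- The refinement of a state when the cells of `X1` lie mostly in one sign class. -/
theorem refine {Q s L r D : ℕ} {b : ℝ} {G : Finset (Line m)} {X X1 : Finset (Pt m)}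
    {S : Pt m → Finset (Line m)} {cl : Pt m → List (Finset ℕ)} {lab : Line m → ℕ → ℕ}
    (st : St Q s L b G X S cl lab) (hX1 : X1 ⊆ X)
    (f : List (Finset ℕ) → ℕ → V (m + 1) → ℝ) (d : List (Finset ℕ) → ℕ → ℕ)
    (hf : ∀ c i, IsPoly (d c i) (f c i)) (hd : ∀ c, ∑ i ∈ range r, d c i ≤ D)
    (P : Pt m → Finset ℕ) (hP : ∀ x, P x ⊆ range r)
    (hout : ∀ x ∈ X1, 4 * volume (closedBall (cor x) 2 \ sgnSet (f (cl x)) r (P x)) ≤ 1)
    (hsm : ∀ B ⊆ X1, ∀ c P0, (∀ x ∈ B, cl x = c ∧ P x = P0) → (B.card : ℝ) ≤ 2 * b / 2 ^ r) :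
    ∃ X' ⊆ X1, X1.card ≤ 2 * X'.card ∧ ∃ (s' : ℕ) (S' : Pt m → Finset (Line m))
      (cl' : Pt m → List (Finset ℕ)) (lab' : Line m → ℕ → ℕ), s ≤ 2 * s' ∧ (∀ x, S' x ⊆ S x) ∧
      St Q s' (L * (D + 1)) (2 * b / 2 ^ r) G X' S' cl' lab' := by
  classical
  let A : (Σ _ : Pt m, Line m) → Set (V (m + 1)) := fun p =>
    {ω | pt p.1.2 (pos p.2 p.1.2) + ω ∉ sgnSet (f (cl p.1)) r (P p.1)}
  have hm : ∀ x, MeasurableSet (sgnSet (f (cl x)) r (P x)) := fun x =>
    measurableSet_sgnSet (fun i => (hf _ i).measurable) _ _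
  obtain ⟨ω, -, hω⟩ := exists_shift (X1.sigma S) A (closedBall 0 1)
    (fun p _ => (measurable_const_add _ (hm p.1).compl))
    (fun p hp => by
      obtain ⟨h1, h2⟩ := Finset.mem_sigma.1 hp
      refine le_trans (mul_le_mul_right ?_ 4) (hout p.1 h1)
      rw [← measure_preimage_add volume (pt p.1.2 (pos p.2 p.1.2))
        (closedBall (cor p.1) 2 \ sgnSet (f (cl p.1)) r (P p.1))]
      refine measure_mono fun ω hω => ⟨?_, hω.2⟩
      have h3 := dist_cor ((st.inc p.1 (hX1 h1)).2.2 p.2 h2).2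
      have h4 : ‖ω‖ ≤ 1 := by simpa using hω.1
      rw [mem_closedBall, dist_eq_norm, add_sub_right_comm]
      exact (norm_add_le _ _).trans (by linarith))
    measurableSet_closedBall one_le_vol_unit
  let bad : Pt m → ℕ := fun x => ((S x).filter fun g => ω ∈ A ⟨x, g⟩).card
  have hb : 4 * ∑ x ∈ X1, bad x ≤ s * X1.card := by
    have h1 : ((X1.sigma S).filter fun p => ω ∈ A p).card = ∑ x ∈ X1, bad x := by
      rw [Finset.card_filter, Finset.sum_sigma]
      exact Finset.sum_congr rfl fun x _ => (Finset.card_filter _ _).symm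
    have h2 : (X1.sigma S).card = s * X1.card := by
      rw [Finset.card_sigma, mul_comm, ← smul_eq_mul, ← Finset.sum_const]
      exact Finset.sum_congr rfl fun x hx => (st.inc x (hX1 hx)).2.1
    rw [← h1, ← h2]
    exact hω
  have hX' := half_good X1 bad s hb
  set X' := X1.filter fun x => 2 * bad x ≤ s with hX'def
  have hsub : X' ⊆ X1 := Finset.filter_subset _ _
  have hS : ∀ x, ∃ T ⊆ (S x).filter fun g => ¬ω ∈ A ⟨x, g⟩, x ∈ X' → T.card = (s + 1) / 2 := by
    intro x
    by_cases hx : x ∈ X'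
    · have h1 := Finset.card_filter_add_card_filter_not (s := S x) fun g => ω ∈ A ⟨x, g⟩
      have h2 : 2 * bad x ≤ s := (Finset.mem_filter.1 hx).2
      have h3 := (st.inc x (hX1 (hsub hx))).2.1
      obtain ⟨T, h4, h5⟩ := Finset.exists_subset_card_eq
        (s := (S x).filter fun g => ¬ω ∈ A ⟨x, g⟩) (n := (s + 1) / 2) (by
          simp only [bad] at h2
          omega)
      exact ⟨T, h4, fun _ => h5⟩
    · exact ⟨∅, Finset.empty_subset _, fun h => absurd h hx⟩
  choose S' hS1 hS2 using hS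
  have hS3 : ∀ x, S' x ⊆ S x := fun x => (hS1 x).trans (Finset.filter_subset _ _)
  choose ν hν1 hν2 hν3 using fun (c : List (Finset ℕ)) (g : Line m) =>
    exists_nu (hf c) r (pt 0 g.1 + ω) (dv g)
  have hgood : ∀ x, ∀ g ∈ S' x,
      pt 0 g.1 + ω + (x.2 : ℝ) • dv g ∈ sgnSet (f (cl x)) r (P x) := by
    intro x g hg
    have h1 := (Finset.mem_filter.1 (hS1 x hg)).2
    simp only [A, Set.mem_ofPred_eq, not_not] at h1
    rwa [pt_pos, add_right_comm] at h1
  have hcell : ∀ x ∈ X', ∀ g ∈ S' x, (cell g x.2, x.2) = x := fun x hx g hg =>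
    Prod.ext ((st.inc x (hX1 (hsub hx))).2.2 g (hS3 x hg)).2 rfl
  have hνD : ∀ c g t, ν c g t ≤ D := fun c g t => (hν2 c g t).trans (hd c)
  refine ⟨X', hsub, hX', (s + 1) / 2, S', fun x => P x :: cl x,
    fun g t => lab g t * (D + 1) + ν (cl (cell g t, t)) g t, by omega, hS3, ?_, ?_, ?_, ?_, ?_⟩
  · intro x hx
    have h1 := st.inc x (hX1 (hsub hx))
    exact ⟨h1.1, hS2 x hx, fun g hg => h1.2.2 g (hS3 x hg)⟩
  · intro x hx g hg
    exact lab_lt (st.lt x (hX1 (hsub hx)) g (hS3 x hg)) (hνD _ _ _)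
  · intro x hx y hy g hg hg' hxy
    have h1 := st.mono x (hX1 (hsub hx)) y (hX1 (hsub hy)) g (hS3 x hg) (hS3 y hg') hxy
    rw [hcell x hx g hg, hcell y hy g hg']
    rcases h1.lt_or_eq with h1 | h1
    · exact (lab_lt h1 (hνD _ _ _)).le.trans (Nat.le_add_right _ _)
    · rw [h1, st.det x (hX1 (hsub hx)) y (hX1 (hsub hy)) g (hS3 x hg) (hS3 y hg') h1]
      exact Nat.add_le_add_left (hν1 _ _ hxy) _
  · intro x hx y hy g hg hg' hxy
    rw [hcell x hx g hg, hcell y hy g hg'] at hxy
    obtain ⟨h1, h2⟩ := lab_inj (hνD _ _ _) (hνD _ _ _) hxy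
    have h3 := st.det x (hX1 (hsub hx)) y (hX1 (hsub hy)) g (hS3 x hg) (hS3 y hg') h1
    have h4 := hgood x g hg
    have h5 := hgood y g hg'
    rw [h3] at h2 h4
    rw [hν3 (cl y) g x.2 y.2 (P x) (P y) (hP x) (hP y) h2 h4 h5, h3]
  · intro B hB c hc
    cases c with
    | nil =>
      refine hsm B (hB.trans hsub) [] ∅ fun x hx => ?_
      exact absurd (hc x hx) (List.cons_ne_nil _ _)
    | cons P0 c =>
      refine hsm B (hB.trans hsub) c P0 fun x hx => ?_
      have h1 := List.cons.inj (hc x hx)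
      exact ⟨h1.2, h1.1⟩

end STEP

open STEP in
theorem step : StmtPART → StmtSTEP := by
  classical
  intro hP m q
  refine ⟨1 / (4 * (((m + 1) * q : ℕ) : ℝ) + 4), by positivity, ?_⟩
  intro Q s L b G X S cl lab st
  set r := (m + 1) * q with hr
  set η : ℝ := 1 / (4 * (r : ℝ) + 4) with hη
  choose f d hf h0 hd hs using fun c : List (Finset ℕ) =>
    hP (m + 1) q (mu (X.filter fun x => cl x = c)) (Nat.succ_pos m) (mu_fin _) (mu_ac _)
  let w : Pt m → Prop := fun x => ∃ i < r, Wall η (f (cl x) i) x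
  have hc := Finset.card_filter_add_card_filter_not (s := X) w
  by_cases hw : X.card ≤ 2 * (X.filter w).card
  · left
    have h1 : ∀ x, ∃ i, w x → i < r ∧ Wall η (f (cl x) i) x := by
      intro x
      by_cases hx : w x
      · obtain ⟨i, hi⟩ := hx
        exact ⟨i, fun _ => hi⟩
      · exact ⟨0, fun h => absurd h hx⟩
    choose idx hidx using h1
    refine ⟨X.filter w, Finset.filter_subset _ _, hw,
      fun c i => if i < r then f c i else fun _ => 0, idx, fun c i => ?_, fun x hx => ?_⟩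
    · dsimp only
      split_ifs with hi
      · exact (hf c i).mono ((Finset.single_le_sum (f := d c) (fun _ _ => Nat.zero_le _)
          (Finset.mem_range.2 hi)).trans (hd c))
      · exact IsPoly.const _ 0
    · have h2 := hidx x (Finset.mem_filter.1 hx).2
      refine ⟨h2.1, ?_⟩
      dsimp only
      rw [if_pos h2.1]
      exact h2.2
  · right
    let P : Pt m → Finset ℕ := fun x => (range r).filter fun i =>
      volume (closedBall (cor x) 2 ∩ {y | f (cl x) i y < 0}) < ENNReal.ofReal η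
    have hη4 : 4 * ((r : ℝ≥0∞) * ENNReal.ofReal η) ≤ 1 := by
      rw [← ENNReal.ofReal_natCast, ← ENNReal.ofReal_mul (by positivity),
        ← ENNReal.ofReal_ofNat 4, ← ENNReal.ofReal_mul (by positivity), ENNReal.ofReal_le_one, hη,
        ← mul_assoc, mul_one_div, div_le_one (by positivity)]
      linarith
    have hout : ∀ x ∈ X.filter fun x => ¬w x,
        4 * volume (closedBall (cor x) 2 \ sgnSet (f (cl x)) r (P x)) ≤ 1 := by
      intro x hx
      refine le_trans (mul_le_mul_right (vol_outside (hf (cl x)) (h0 (cl x)) r _ (P x)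
        (ENNReal.ofReal η) (fun i _ hi => (Finset.mem_filter.1 hi).2.le) fun i hi hn => ?_) 4) hη4
      by_contra h
      refine (Finset.mem_filter.1 hx).2 ⟨i, hi, (not_le.1 h).le, ?_⟩
      by_contra h'
      exact hn (Finset.mem_filter.2 ⟨Finset.mem_range.2 hi, not_le.1 h'⟩)
    obtain ⟨X', h1, h2, h3⟩ := STEP.refine st (X1 := X.filter fun x => ¬w x)
      (Finset.filter_subset _ _) f d hf hd P (fun x => Finset.filter_subset _ _) hout (by
        intro B hB c P0 hBc
        have h1 : 2 ^ r * B.card ≤ 2 * (X.filter fun x => cl x = c).card := by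
          refine card_small (fun x hx => Finset.mem_filter.2
            ⟨(Finset.mem_filter.1 (hB hx)).1, (hBc x hx).1⟩)
            (measurableSet_sgnSet (fun i => (hf c i).measurable) r P0) _ ?_ fun x hx => ?_
          · exact_mod_cast hs c P0
          · have h2 := hout x (hB hx)
            rwa [(hBc x hx).1, (hBc x hx).2] at h2
        have h2 := st.small _ (Finset.filter_subset (fun x => cl x = c) X) c
          fun x hx => (Finset.mem_filter.1 hx).2
        have h3 : (2 : ℝ) ^ r * B.card ≤ 2 * (X.filter fun x => cl x = c).card := by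
          exact_mod_cast h1
        rw [le_div_iff₀ (by positivity)]
        linarith)
    exact ⟨X', h1.trans (Finset.filter_subset _ _), by omega, h3⟩

end Pool.Agent.MP_5168f5_an.H83
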