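import Pool.Agent.MP_5168f5_an.H29.Ends
import Pool.Agent.MP_5168f5_an.H42.Disc

/-! The Kakeya maximal estimate in dimension four: definitions and the statements of the modules. -/

namespace Pool.Agent.MP_5168f5_an.H83

open MeasureTheory Metric Finset Matrix H19 H29 H42
open scoped ENNReal

/-- Real vectors with the sup norm. -/
abbrev V (n : ℕ) : Type := Fin n → ℝ

/-- A polynomial function of total degree at most `d`. -/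
def IsPoly {σ : Type} (d : ℕ) (F : (σ → ℝ) → ℝ) : Prop :=
  ∃ p : MvPolynomial σ ℝ, p.totalDegree ≤ d ∧ ∀ y, F y = MvPolynomial.eval y p

variable {m n : ℕ}

/-- The point over `z` at height `t`; the height is coordinate zero. -/
def pt (t : ℝ) (z : V m) : V (m + 1) := Fin.cons t z

/-- The lower corner of a lattice cell. -/
def cor (x : Pt m) : V (m + 1) := pt x.2 fun k => x.1 k

/-- The direction vector of a line. -/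
def dv (g : Line m) : V (m + 1) := pt 1 g.2

/-- The points where the sign of `F` changes under the shift by `w`. -/
def chg (F : V n → ℝ) (w : V n) : Set (V n) :=
  {y | SignType.sign (F (y + w)) ≠ SignType.sign (F y)}

/-- The sign class of the first `r` functions with the positive signs in `P`. -/
def sgnSet (f : ℕ → V n → ℝ) (r : ℕ) (P : Finset ℕ) : Set (V n) :=
  {y | ∀ i < r, (i ∈ P → 0 < f i y) ∧ (i ∉ P → f i y < 0)}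

/-- Both signs of `F` occur on a set of measure at least `η` near the cell `x`. -/
def Wall (η : ℝ) (F : V (m + 1) → ℝ) (x : Pt m) : Prop :=
  ENNReal.ofReal η ≤ volume (closedBall (cor x) 2 ∩ {y | 0 < F y}) ∧
    ENNReal.ofReal η ≤ volume (closedBall (cor x) 2 ∩ {y | F y < 0})

/-- Every cell of `X` carries exactly `s` lines of `G` that pass through it. -/
def Incid (Q s : ℕ) (G : Finset (Line m)) (X : Finset (Pt m)) (S : Pt m → Finset (Line m)) : Prop :=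
  ∀ x ∈ X, x.2 < Q ∧ (S x).card = s ∧ ∀ g ∈ S x, g ∈ G ∧ cell g x.2 = x.1

/-- `A` contains `m` lines whose directions span a volume at least `θ`. -/
def Tri (θ : ℝ) (A : Finset (Line m)) : Prop :=
  ∃ w : Fin m → Line m, (∀ i, w i ∈ A) ∧ ∃ j : Fin (m + 1),
    θ ≤ |(Matrix.of (Fin.cons (Pi.single j 1) fun i => dv (w i) : Fin (m + 1) → V (m + 1))).det|

/-- Every subset of `A` of proportion at least `φ` is transversal. -/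
def Rob (φ θ : ℝ) (A : Finset (Line m)) : Prop :=
  ∀ B ⊆ A, φ * A.card ≤ B.card → Tri θ B

/-- At most `M` lines of `A` have their direction in a given cube of radius `r`. -/
def Cap (r M : ℝ) (A : Finset (Line m)) : Prop :=
  ∀ B ⊆ A, ∀ v : V m, (∀ g ∈ B, ∀ k, |g.2 k - v k| ≤ r) → (B.card : ℝ) ≤ M

/-- The vector `v` is within `θ` of the line `a + ℝ b`. -/
def Nr (θ : ℝ) (a b v : V m) : Prop := ∃ σ : ℝ, ∀ k, |v k - a k - σ * b k| ≤ θ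

/-- The directions of `A` are within `θ` of the line `a + ℝ b`. -/
def Plany (θ : ℝ) (a b : V m) (A : Finset (Line m)) : Prop := ∀ g ∈ A, Nr θ a b g.2

/-- A state of the iterated partition: classes of cells and monotone labels on the lines. -/
structure St (Q s L : ℕ) (b : ℝ) (G : Finset (Line m)) (X : Finset (Pt m))
    (S : Pt m → Finset (Line m)) (cl : Pt m → List (Finset ℕ)) (lab : Line m → ℕ → ℕ) : Prop where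
  inc : Incid Q s G X S
  lt : ∀ x ∈ X, ∀ g ∈ S x, lab g x.2 < L
  mono : ∀ x ∈ X, ∀ y ∈ X, ∀ g ∈ S x, g ∈ S y → x.2 ≤ y.2 → lab g x.2 ≤ lab g y.2
  det : ∀ x ∈ X, ∀ y ∈ X, ∀ g ∈ S x, g ∈ S y → lab g x.2 = lab g y.2 → cl x = cl y
  small : ∀ B ⊆ X, ∀ c, (∀ x ∈ B, cl x = c) → (B.card : ℝ) ≤ b

/-- The discrete estimate for two-ended shadings. -/
def TwoE (m : ℕ) (d : ℝ) : Prop :=
  ∀ η : ℝ, 0 < η → η ≤ 1 → ∀ ε : ℝ, 0 < ε → ∃ C : ℝ, 0 < C ∧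
    ∀ (Q : ℕ) (l : ℝ) (G : Finset (Line m)) (E : Finset (Pt m)) (Y : Line m → Finset ℕ),
    1 ≤ l → Sep Q G → (∀ g ∈ G, ∀ t ∈ Y g, t < Q ∧ (cell g t, t) ∈ E) →
    (∀ g ∈ G, l ≤ (Y g).card ∧ ((Y g).card : ℝ) ≤ 2 * l) →
    (∀ g ∈ G, ∀ k a : ℕ, 2 ^ k ≤ Q →
      (((Y g).filter fun t => t / 2 ^ k = a).card : ℝ) ≤ 2 * l * ((2 : ℝ) ^ k / Q) ^ η) →
    (G.card : ℝ) * l ^ d ≤ C * (Q : ℝ) ^ ε * (Q : ℝ) ^ m * E.card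

/-! ### Polynomial tools -/

/-- The ham sandwich theorem for absolutely continuous measures. -/
def StmtHAM : Prop :=
  ∀ (n e : ℕ) (ι : Type) [Fintype ι] (μ : ι → Measure (V n)), (∀ i, IsFiniteMeasure (μ i)) →
    (∀ i, μ i ≪ volume) → Fintype.card ι < (e + 1) ^ n →
    ∃ F : V n → ℝ, IsPoly (n * e) F ∧ (∃ y, F y ≠ 0) ∧ ∀ i, μ i {y | 0 < F y} = μ i {y | F y < 0}

/-- Sign changes along a direction. -/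
def StmtVAR : Prop :=
  ∀ (n d : ℕ) (F : V n → ℝ), IsPoly d F → ∀ (u : V n) (β : ℝ) (T : Finset ℕ) (A : ℕ → Set (V n))
    (S : Set (V n)), (∀ t ∈ T, MeasurableSet (A t)) → MeasurableSet S →
    (∀ t ∈ T, ∀ y ∈ A t, ∀ τ : ℝ, 0 ≤ τ → τ ≤ 1 → y - ((t : ℝ) + τ) • u ∈ S) →
    ∑ t ∈ T, volume (A t ∩ chg F (β • u)) ≤ volume S * ENNReal.ofReal (d * |β|)

/-- The iterated partition into sign classes. -/
def StmtPART : Prop :=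
  ∀ (n q : ℕ) (μ : Measure (V n)), 0 < n → IsFiniteMeasure μ → μ ≪ volume →
    ∃ (f : ℕ → V n → ℝ) (d : ℕ → ℕ), (∀ i, IsPoly (d i) (f i)) ∧ (∀ i, ∃ y, f i y ≠ 0) ∧
      ∑ i ∈ range (n * q), d i ≤ 2 * n ^ 2 * 2 ^ q ∧
      ∀ P : Finset ℕ, 2 ^ (n * q) * μ (sgnSet f (n * q) P) ≤ μ Set.univ

/-- The area formula with multiplicity for a rational map. -/
def StmtAREA : Prop :=
  ∀ m d : ℕ, ∃ M : ℕ, ∀ (N : Fin m → V m → ℝ) (B : V m → ℝ) (D : V m → V m →L[ℝ] V m)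
    (s T : Set (V m)), (∀ k, IsPoly d (N k)) → IsPoly d B → MeasurableSet s → MeasurableSet T →
    (∀ x ∈ s, B x ≠ 0 ∧ HasFDerivAt (fun y k => N k y / B y) (D x) x ∧ (fun k => N k x / B x) ∈ T) →
    ∫⁻ x in s, ENNReal.ofReal |(D x).det| ≤ M * volume T

/-- Directions of lines through semialgebraic slices. -/
def StmtJL : Prop :=
  ∀ m d k : ℕ, ∃ C : ℝ, 0 < C ∧ ∀ (p : Fin (m + 1) → Fin k → V m → ℝ) (t : Fin (m + 1) → ℝ)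
    (τ R : ℝ), (∀ i j, IsPoly d (p i j)) → 0 < τ → (∀ i i', i ≠ i' → τ ≤ |t i - t i'|) →
    (∀ z, (∀ j, 0 < p 0 j z) → ‖z‖ ≤ R) →
    volume {v : V m | ∃ a : V m, ∀ i j, 0 < p i j (a + t i • v)} ≤
      ENNReal.ofReal (C / τ ^ m) * ∑ i, volume {z : V m | ∀ j, 0 < p i j z}

/-- The polynomial Wolff axiom for wall cells in a box. -/
def StmtWALL : Prop :=
  ∀ m d : ℕ, ∀ η : ℝ, 0 < η → ∃ C : ℝ, 0 < C ∧ ∀ F : V (m + 1) → ℝ, IsPoly d F →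
    ∀ (Q ρ t0 : ℕ) (z0 : V m) (l : ℝ) (G : Finset (Line m)) (Y : Line m → Finset ℕ),
    Sep Q G → 0 < ρ → ρ ≤ Q → 0 < l → (∀ g ∈ G, l ≤ (Y g).card) →
    (∀ g ∈ G, ∀ t ∈ Y g, t0 ≤ t ∧ t < t0 + ρ ∧ (∀ k, |(cell g t k : ℝ) - z0 k| ≤ ρ) ∧
      Wall η F (cell g t, t)) →
    (G.card : ℝ) * ρ * l ^ (2 * m + 2) ≤ C * (Q : ℝ) ^ m * (ρ : ℝ) ^ (2 * m + 2)

/-! ### The multilinear estimate -/

/-- Choice of a robust frame. -/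
def StmtSEL : Prop :=
  ∀ (n r : ℕ) (ι : Type) (A : Finset ι) (u : ι → V n) (e : Fin n → V n) (K lo hi : ℝ),
    0 < r → 1 ≤ K → 0 < lo → lo ≤ |(Matrix.of e).det| → hi ≤ K ^ r * lo →
    (∀ T : Fin n → V n, (∀ i, (∃ a ∈ A, T i = u a) ∨ ∃ j, T i = e j) → |(Matrix.of T).det| ≤ hi) →
    ∃ S ⊆ A, A.card ≤ 2 ^ r * S.card ∧ ∃ W : Fin n → V n,
      (∀ i, (∃ a ∈ S, W i = u a) ∨ ∃ j, W i = e j) ∧
      (∀ T : Fin n → V n, (∀ i, (∃ a ∈ S, T i = u a) ∨ ∃ j, T i = e j) →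
        |(Matrix.of T).det| ≤ |(Matrix.of W).det|) ∧
      ∀ S' ⊆ S, S.card ≤ 2 * S'.card → ∃ U : Fin n → V n,
        (∀ k, (∃ a ∈ S', U k = u a) ∨ ∃ j, U k = e j) ∧
        ∀ i, ∃ b : Fin n → ℝ, (∀ k, |b k| ≤ K) ∧ W i = ∑ k, b k • U k

/-- A polynomial that bisects small boxes changes sign often. -/
def StmtBOX : Prop :=
  ∀ (n : ℕ) (κ : Type) (X : Finset κ) (c : κ → V n) (W : κ → Fin n → V n) (h δ : ℝ),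
    0 < n → 0 < h → 2 * n * h ≤ 1 → 0 < δ → (∀ x ∈ X, ∀ i, ‖W x i‖ ≤ 1) →
    (∀ x ∈ X, δ ≤ |(Matrix.of (W x)).det|) →
    ∃ (F : V n → ℝ) (e : ℕ), IsPoly (n * e) F ∧ ((e : ℝ) * h) ^ n * δ ≤ 4 ^ n * X.card ∧
      ∀ x ∈ X, ∃ β : V n, ‖β‖ ≤ 1 ∧
        ENNReal.ofReal (1 / 2 ^ (n + 3)) ≤
          volume (closedBall (c x) 2 ∩ chg F (h • ∑ i, β i • W x i))

/-- The multilinear lower bound with the sharp power of the transversality. -/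
def StmtMK : Prop :=
  ∀ m : ℕ, 0 < m → ∀ ε : ℝ, 0 < ε → ∃ C : ℝ, 1 ≤ C ∧ ∀ (Q s : ℕ) (l θ : ℝ) (G : Finset (Line m))
    (X : Finset (Pt m)) (S : Pt m → Finset (Line m)), (∀ g ∈ G, ∀ k, |g.2 k| ≤ 1) →
    Incid Q s G X S → X.Nonempty → 0 < s → 0 < l → l * G.card ≤ s * X.card → 0 < θ →
    (∀ x ∈ X, Rob (1 / C) θ (S x)) → θ * l ^ m ≤ C * (Q : ℝ) ^ ε * X.card

/-- One step of the iterated partition. -/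
def StmtSTEP : Prop :=
  ∀ m q : ℕ, ∃ η : ℝ, 0 < η ∧ ∀ (Q s L : ℕ) (b : ℝ) (G : Finset (Line m)) (X : Finset (Pt m))
    (S : Pt m → Finset (Line m)) (cl : Pt m → List (Finset ℕ)) (lab : Line m → ℕ → ℕ),
    St Q s L b G X S cl lab →
    (∃ X' ⊆ X, X.card ≤ 2 * X'.card ∧ ∃ (f : List (Finset ℕ) → ℕ → V (m + 1) → ℝ) (idx : Pt m → ℕ),
      (∀ c i, IsPoly (2 * (m + 1) ^ 2 * 2 ^ q) (f c i)) ∧
      ∀ x ∈ X', idx x < (m + 1) * q ∧ Wall η (f (cl x) (idx x)) x) ∨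
    (∃ X' ⊆ X, X.card ≤ 4 * X'.card ∧ ∃ (s' : ℕ) (S' : Pt m → Finset (Line m))
      (cl' : Pt m → List (Finset ℕ)) (lab' : Line m → ℕ → ℕ), s ≤ 2 * s' ∧ (∀ x, S' x ⊆ S x) ∧
      St Q s' (L * (2 * (m + 1) ^ 2 * 2 ^ q + 1)) (2 * b / 2 ^ ((m + 1) * q)) G X' S' cl' lab')

/-- The multiplicity bound for transversal configurations. -/
def StmtTRI : Prop :=
  ∀ m : ℕ, 0 < m → ∀ ε : ℝ, 0 < ε → ∃ C : ℝ, 1 ≤ C ∧ ∀ (Q s : ℕ) (l θ : ℝ) (G : Finset (Line m))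
    (X : Finset (Pt m)) (S : Pt m → Finset (Line m)), Sep Q G →
    Incid Q s G X S → X.Nonempty → 0 < s → 0 < l → l * G.card ≤ s * X.card → 0 < θ →
    (∀ x ∈ X, Rob (1 / (C * (Q : ℝ) ^ ε)) θ (S x)) →
    (s * θ) ^ (m + 1) * l ^ (m ^ 2 + 2 * m + 2) ≤
      C * (Q : ℝ) ^ ε * (Q : ℝ) ^ (m ^ 2 + 3 * m + 2)

/-! ### The planar estimate and the induction -/

/-- Few lines through a cell have their direction in a small cap, after a refinement. -/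
def StmtTUBE : Prop :=
  ∀ (m : ℕ) (d : ℝ), 1 ≤ d → d ≤ m + 1 → GK m 1 d → ∀ ε : ℝ, 0 < ε → ∃ C : ℝ, 0 < C ∧
    ∀ (Q j : ℕ) (l : ℝ) (G : Finset (Line m)) (Y : Line m → Finset ℕ), 2 ^ j ≤ Q → Sep Q G →
    (∀ g ∈ G, ∀ t ∈ Y g, t < Q) → 0 < l → l ≤ Q →
    ∃ Y' : Line m → Finset ℕ, (∀ g, Y' g ⊆ Y g) ∧
      ∑ g ∈ G, ((Y g).card : ℝ) ≤ ∑ g ∈ G, ((Y' g).card : ℝ) + l * G.card / 4 ∧
      ∀ x : Pt m, Cap (2 / 2 ^ j)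
        (C * (Q : ℝ) ^ ε * ((Q : ℝ) / 2 ^ j) ^ ((m : ℝ) + 1 - d) * ((Q : ℝ) / l) ^ (d - 1))
        (thru G id Y' x)

/-- The directions that are reached from one root. -/
def StmtROOT : Prop :=
  ∃ C : ℝ, 1 ≤ C ∧ ∀ (Q : ℕ) (G : Finset (Line 3)) (θ sb om : ℝ) (a0 b0 bs : V 3), Sep Q G →
    1 ≤ θ * Q → θ ≤ 1 → θ ≤ sb → θ ≤ om → ‖a0‖ ≤ 1 → ‖b0‖ = 1 → ‖bs‖ = 1 → ‖b0 ⨯₃ bs‖ ≤ sb →
    (sb = θ ∨ sb / 2 ≤ ‖b0 ⨯₃ bs‖) →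
    (∀ g ∈ G, ∃ v1 v2 a1 b1 a2 b2 : V 3, ‖v1‖ ≤ 1 ∧ ‖v2‖ ≤ 1 ∧ ‖b1‖ = 1 ∧ ‖b2‖ = 1 ∧
      Nr θ a0 b0 v1 ∧ Nr θ a1 b1 v1 ∧ Nr θ a1 b1 v2 ∧ Nr θ a2 b2 v2 ∧ Nr θ a2 b2 g.2 ∧
      ‖b0 ⨯₃ b1‖ ≤ sb ∧ (sb = θ ∨ sb / 2 ≤ ‖b0 ⨯₃ b1‖) ∧ ‖b1 ⨯₃ b2‖ ≤ sb ∧
      |(b1 ⨯₃ b0) ⬝ᵥ bs| ≤ om ∧ |(b0 ⨯₃ b1) ⬝ᵥ b2| ≤ om) →
    (G.card : ℝ) ≤ C * (Q : ℝ) ^ 3 * om

/-- The lines through `z` that lead back to `x`. -/
def StmtCAPS : Prop :=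
  ∃ C : ℝ, 1 ≤ C ∧ ∀ (Q : ℕ) (K θ om Mf : ℝ) (x z : Pt 3) (a0 b0 a2 b2 : V 3)
    (A : Finset (Line 3)), Cap (2 * θ) Mf A → 1 ≤ θ * Q → θ ≤ 1 → 1 ≤ K → 300 * K ^ 2 * θ ≤ om →
    ‖a0‖ ≤ 1 → ‖b0‖ = 1 → ‖a2‖ ≤ 1 → ‖b2‖ = 1 → x.2 < Q →  z.2 < Q →
    (∀ g ∈ A, ‖g.2‖ ≤ 1 ∧ Nr θ a2 b2 g.2 ∧ (om = 300 * K ^ 2 * θ ∨
      ∃ (g1 : Line 3) (y : Pt 3) (a1 b1 : V 3), y.2 < Q ∧ ‖g1.2‖ ≤ 1 ∧ ‖b1‖ = 1 ∧
        cell g1 x.2 = x.1 ∧ cell g1 y.2 = y.1 ∧ cell g y.2 = y.1 ∧ cell g z.2 = z.1 ∧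
        (Q : ℝ) ≤ K * |(y.2 : ℝ) - z.2| ∧ 1 ≤ K * ‖g1.2 - g.2‖ ∧
        Nr θ a0 b0 g1.2 ∧ Nr θ a1 b1 g1.2 ∧ Nr θ a1 b1 g.2 ∧ om / 2 ≤ |(b0 ⨯₃ b1) ⬝ᵥ b2|)) →
    (A.card : ℝ) * om ≤ C * K ^ 2 * Mf

/-- The multiplicity bound for planar configurations. -/
def StmtPLANE : Prop :=
  ∃ C : ℝ, 1 ≤ C ∧ ∀ (Q s j : ℕ) (K l φ Mf Mk : ℝ) (G : Finset (Line 3)) (X : Finset (Pt 3))
    (S : Pt 3 → Finset (Line 3)) (a b : Pt 3 → V 3), Sep Q G → Incid Q s G X S → X.Nonempty →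
    0 < s → 2 ^ j ≤ Q → 1 ≤ K → 0 < φ → φ ≤ 1 → 0 < l →
    (∀ x ∈ X, ‖a x‖ ≤ 1 ∧ ‖b x‖ = 1 ∧ Plany (1 / 2 ^ j) (a x) (b x) (S x) ∧
      Cap (1 / K) Mk (S x) ∧ Cap (2 / 2 ^ j) Mf (S x)) →
    (∀ g ∈ G, ∀ B ⊆ X, (∀ x ∈ B, g ∈ S x) → (B.card : ℝ) ≤ l) →
    φ * l * G.card ≤ s * X.card →
    (∀ g ∈ G, ∀ t : ℕ, ∀ B ⊆ X, (∀ x ∈ B, g ∈ S x ∧ K * |(x.2 : ℝ) - t| < Q) →
      (B.card : ℝ) ≤ φ * l / 4) →
    C * (j + 1) * Mk ≤ φ * s →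
    (s : ℝ) ^ 3 * l ^ 2 * φ ^ 6 ≤
      C * ((j : ℝ) + 1) ^ 12 * K ^ 15 * (Q : ℝ) ^ 4 * (1 + Real.log (2 * Q + 1)) * Mf

/-- The gain for two-ended shadings. -/
def StmtGAIN : Prop :=
  ∀ d0 : ℝ, 3 ≤ d0 → d0 ≤ 4 → 0 < 4 * d0 ^ 2 - 37 * d0 + 76 → ∃ c : ℝ, 0 < c ∧
    ∀ d : ℝ, 1 ≤ d → d ≤ d0 → GK 3 1 d → TwoE 3 (d + c)

/-- The two-ends reduction. -/
def StmtENDS : Prop := ∀ (m : ℕ) (d : ℝ), 1 ≤ d → TwoE m d → GK m 1 d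

end Pool.Agent.MP_5168f5_an.H83
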